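import Mathlib

/-! # Summation over blocks of length `n / 20` -/

namespace Pool.Agent.Lib.MP92dd55

open Finset

theorem sum_blocks (n : ℕ) (hn : 1 ≤ n) (p : ℕ → ℝ) (v : ℕ → ℝ) (A : ℝ) (T : ℕ)
    (hv0 : ∀ m, 0 ≤ v m) (h0 : A * n ≤ ∑ t ∈ range n, p t)
    (h : ∀ m, 21 ≤ m → m < 21 + T → ∀ t : ℕ, 1 ≤ t → (t : ℝ) ≤ ((m : ℝ) / 20) * n → v m ≤ p t) :
    ∀ k ≤ T, (A + (∑ i ∈ range k, v (21 + i)) / 20) * n - ∑ i ∈ range k, v (21 + i) ≤
      ∑ t ∈ range ((20 + k) * n / 20), p t := by
  intro k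
  induction k with
  | zero =>
    intro _
    have : (20 + 0) * n / 20 = n := by omega
    rw [this]
    simpa using h0
  | succ k ih =>
    intro hk
    have h1 := ih (by omega)
    set K := (20 + k) * n / 20 with hK
    set K' := (20 + (k + 1)) * n / 20 with hK'
    have hKK : K ≤ K' := by
      rw [hK, hK']
      apply Nat.div_le_div_right
      gcongr
      omega
    have hnK : n ≤ K := by
      rw [hK, Nat.le_div_iff_mul_le (by norm_num)]
      nlinarith
    rw [← sum_range_add_sum_Ico p hKK, sum_range_succ]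
    have h2 : ((K' - K : ℕ) : ℝ) * v (21 + k) ≤ ∑ t ∈ Ico K K', p t := by
      have := card_nsmul_le_sum (Ico K K') p (v (21 + k)) (by
        intro t ht
        rw [mem_Ico] at ht
        refine h (21 + k) (by omega) (by omega) t (by omega) ?_
        have h3 : t * 20 ≤ (20 + (k + 1)) * n := by
          have h4 : t ≤ (20 + (k + 1)) * n / 20 := by omega
          exact (Nat.le_div_iff_mul_le (by norm_num)).1 h4
        have h5 : ((t : ℝ)) * 20 ≤ (20 + (k + 1)) * n := by exact_mod_cast h3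
        push_cast
        linarith)
      rw [Nat.card_Ico, nsmul_eq_mul] at this
      exact this
    have h3 : (n : ℝ) / 20 - 1 ≤ ((K' - K : ℕ) : ℝ) := by
      have h4 : (20 + (k + 1)) * n < (K' + 1) * 20 := by
        have := Nat.lt_succ_iff.2 (le_refl ((20 + (k + 1)) * n / 20))
        rw [Nat.div_lt_iff_lt_mul (by norm_num)] at this
        exact this
      have h5 : K * 20 ≤ (20 + k) * n := (Nat.le_div_iff_mul_le (by norm_num)).1 le_rfl
      have h6 : ((20 : ℝ) + (k + 1)) * n < (K' + 1) * 20 := by exact_mod_cast h4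
      have h7 : (K : ℝ) * 20 ≤ (20 + k) * n := by exact_mod_cast h5
      rw [Nat.cast_sub hKK]
      linarith
    have h4 : ((n : ℝ) / 20 - 1) * v (21 + k) ≤ ((K' - K : ℕ) : ℝ) * v (21 + k) :=
      mul_le_mul_of_nonneg_right h3 (hv0 _)
    linarith

end Pool.Agent.Lib.MP92dd55
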