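import Mathlib

/-! # Interpolation on the cells of the grid -/

namespace Pool.Agent.Lib.MP92dd55

open Real

/-- the kernel along a segment lies above its chord minus the curvature -/
lemma s_chord (U U' ε ε' h y C : ℝ) (hε : ε = 0 ∨ ε = 1) (hε' : ε' = 0 ∨ ε' = 1) (hU : 0 ≤ U)
    (hU1 : U ≤ 1) (hU' : 0 ≤ U') (hU1' : U' ≤ 1) (hy : 0 ≤ y) (hyh : y ≤ h) (hh : 0 < h)
    (hh1 : h ≤ 1) (hC : 0 ≤ C) (h11 : ε = 1 → ε' = 1 → (2 - U) * (2 - U') - 2 ≤ C)
    (h00 : ε = 0 → ε' = 0 → U * U' ≤ C) :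
    (1 - y / h) * (U * U') + y / h * (exp (-h) * (U + ε * h) * (U' + ε' * h)) -
      C * (y * (h - y)) / 2 ≤ exp (-y) * (U + ε * y) * (U' + ε' * y) := by
  have hconc : ConcaveOn ℝ (Set.Icc 0 h)
      (fun y : ℝ => exp (-y) * (U + ε * y) * (U' + ε' * y) - C * y ^ 2 / 2) := by
    have he : ∀ x : ℝ, HasDerivAt (fun z : ℝ => exp (-z)) (-exp (-x)) x := by
      intro x
      simpa using (hasDerivAt_id x).neg.exp
    have hl : ∀ (A B x : ℝ), HasDerivAt (fun z : ℝ => A + B * z) B x := by
      intro A B x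
      simpa using ((hasDerivAt_id x).const_mul B).const_add A
    have hd1 : ∀ x : ℝ, HasDerivAt
        (fun y : ℝ => exp (-y) * (U + ε * y) * (U' + ε' * y) - C * y ^ 2 / 2)
        (exp (-x) * (ε * (U' + ε' * x) + ε' * (U + ε * x) - (U + ε * x) * (U' + ε' * x)) - C * x)
        x := by
      intro x
      have h1 := ((he x).mul (hl U ε x)).mul (hl U' ε' x)
      have h2 : HasDerivAt (fun y : ℝ => C * y ^ 2 / 2) (C * x) x := by
        have := ((hasDerivAt_pow 2 x).const_mul C).div_const 2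
        refine this.congr_deriv ?_
        simp; ring
      exact (h1.sub h2).congr_deriv (by simp only [Pi.mul_apply]; ring)
    have hd2 : ∀ x : ℝ, HasDerivAt
        (fun x : ℝ => exp (-x) * (ε * (U' + ε' * x) + ε' * (U + ε * x) -
          (U + ε * x) * (U' + ε' * x)) - C * x)
        (exp (-x) * ((U + ε * x) * (U' + ε' * x) - 2 * ε * (U' + ε' * x) - 2 * ε' * (U + ε * x) +
          2 * ε * ε') - C) x := by
      intro x
      have h1 := (he x).mul ((((hl U' ε' x).const_mul ε).add ((hl U ε x).const_mul ε')).sub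
        ((hl U ε x).mul (hl U' ε' x)))
      have h2 : HasDerivAt (fun x : ℝ => C * x) C x := by
        simpa using (hasDerivAt_id x).const_mul C
      exact (h1.sub h2).congr_deriv
        (by simp only [Pi.sub_apply, Pi.add_apply, Pi.mul_apply]; ring)
    apply AntitoneOn.concaveOn_of_deriv (convex_Icc 0 h)
    · intro x _; exact (hd1 x).continuousAt.continuousWithinAt
    · intro x _; exact (hd1 x).differentiableAt.differentiableWithinAt
    · rw [interior_Icc]
      have hder : deriv (fun y : ℝ => exp (-y) * (U + ε * y) * (U' + ε' * y) - C * y ^ 2 / 2) =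
          fun x : ℝ => exp (-x) * (ε * (U' + ε' * x) + ε' * (U + ε * x) -
          (U + ε * x) * (U' + ε' * x)) - C * x := by
        ext x; exact (hd1 x).deriv
      rw [hder]
      apply antitoneOn_of_deriv_nonpos (convex_Ioo 0 h)
      · intro x _; exact (hd2 x).continuousAt.continuousWithinAt
      · intro x _; exact (hd2 x).differentiableAt.differentiableWithinAt
      · rw [interior_Ioo]
        intro x hx
        rw [(hd2 x).deriv]
        have hx0 : 0 < x := hx.1
        have hx1 : x < h := hx.2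
        have hE0 : 0 < exp (-x) := exp_pos _
        have hE1 : exp (-x) ≤ 1 := exp_le_one_iff.2 (by linarith)
        rcases hε with rfl | rfl <;> rcases hε' with rfl | rfl
        · have h1 := h00 rfl rfl
          have h2 : 0 ≤ U * U' := mul_nonneg hU hU'
          nlinarith
        · have h2 : (U + 0 * x) * (U' + 1 * x) - 2 * 0 * (U' + 1 * x) - 2 * 1 * (U + 0 * x) +
              2 * 0 * 1 = -(U * (2 - (U' + x))) := by ring
          rw [h2]
          have h3 : 0 ≤ U * (2 - (U' + x)) := mul_nonneg hU (by linarith)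
          nlinarith
        · have h2 : (U + 1 * x) * (U' + 0 * x) - 2 * 1 * (U' + 0 * x) - 2 * 0 * (U + 1 * x) +
              2 * 1 * 0 = -(U' * (2 - (U + x))) := by ring
          rw [h2]
          have h3 : 0 ≤ U' * (2 - (U + x)) := mul_nonneg hU' (by linarith)
          nlinarith
        · have h1 := h11 rfl rfl
          have h2 : (U + 1 * x) * (U' + 1 * x) - 2 * 1 * (U' + 1 * x) - 2 * 1 * (U + 1 * x) +
              2 * 1 * 1 = (2 - U - x) * (2 - U' - x) - 2 := by ring
          rw [h2]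
          have h3 : (2 - U - x) * (2 - U' - x) ≤ (2 - U) * (2 - U') := by
            apply mul_le_mul <;> linarith
          rcases le_total 0 ((2 - U - x) * (2 - U' - x) - 2) with h4 | h4
          · nlinarith
          · nlinarith
  have h0 : (0 : ℝ) ∈ Set.Icc 0 h := ⟨le_rfl, hh.le⟩
  have h1 : h ∈ Set.Icc 0 h := ⟨hh.le, le_rfl⟩
  have hz1 : 0 ≤ y / h := by positivity
  have hz2 : 0 ≤ 1 - y / h := by
    rw [sub_nonneg, div_le_one hh]; exact hyh
  have := hconc.2 h0 h1 hz2 hz1 (by ring)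
  simp only [smul_eq_mul, mul_zero, zero_add] at this
  have h2 : y / h * h = y := by field_simp
  rw [h2] at this
  have h3 : exp (-(0 : ℝ)) = 1 := by simp
  rw [h3] at this
  have h4 : C * (y * (h - y)) / 2 = y / h * (C * h ^ 2 / 2) - C * y ^ 2 / 2 := by
    field_simp
  nlinarith

/-- linear interpolation of `f` on the cell `i` -/
noncomputable def fl (D : ℝ) (f : ℕ → ℝ) (i : ℕ) (x : ℝ) : ℝ :=
  f i + (f (i + 1) - f i) * (D * x - i)

/-- data of a real certificate -/
structure RC where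
  M : ℕ
  D : ℕ
  v : ℝ
  f1 : ℕ → ℝ
  f2 : ℕ → ℝ
  f3 : ℕ → ℝ
  g : ℕ → ℝ

namespace RC

variable (c : RC)

/-- kernel minus minorant -/
noncomputable def HH (z : ℝ) (i j : ℕ) (x x' : ℝ) : ℝ :=
  exp (-z) * max 0 (1 - x + z) * max 0 (1 - x' + z) -
    (c.v + fl c.D c.f1 i x * fl c.D c.f1 j x' + fl c.D c.f2 i x * fl c.D c.f2 j x' +
      fl c.D c.f3 i x * fl c.D c.f3 j x' + c.g i * c.g j * (z - x * x' * (c.D / c.M)))

lemma HH_symm (z : ℝ) (i j : ℕ) (x x' : ℝ) : c.HH z i j x x' = c.HH z j i x' x := by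
  unfold HH; ring

lemma HH_line (z : ℝ) (i j : ℕ) (x1 x2 x x' : ℝ) (h1 : x1 ≤ x) (h2 : x ≤ x2)
    (hk : 1 - x1 + z ≤ 0 ∨ 0 ≤ 1 - x2 + z) (hx1 : 0 ≤ c.HH z i j x1 x')
    (hx2 : 0 ≤ c.HH z i j x2 x') : 0 ≤ c.HH z i j x x' := by
  rcases (h1.trans h2).eq_or_lt with h12 | h12
  · have : x = x1 := by linarith
    rwa [this]
  set l := (x - x1) / (x2 - x1) with hl
  have hd : 0 < x2 - x1 := by linarith
  have hl0 : 0 ≤ l := div_nonneg (by linarith) hd.le
  have hl1 : l ≤ 1 := by rw [hl, div_le_one hd]; linarith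
  have hx : x = (1 - l) * x1 + l * x2 := by rw [hl]; field_simp; ring
  have hmax : max 0 (1 - x + z) = (1 - l) * max 0 (1 - x1 + z) + l * max 0 (1 - x2 + z) := by
    rcases hk with hk | hk
    · rw [max_eq_left hk, max_eq_left (by linarith : 1 - x2 + z ≤ 0),
        max_eq_left (by linarith : 1 - x + z ≤ 0)]
      ring
    · rw [max_eq_right hk, max_eq_right (by linarith : 0 ≤ 1 - x1 + z),
        max_eq_right (by linarith : 0 ≤ 1 - x + z), hx]
      ring
  have hfl : ∀ (f : ℕ → ℝ), fl c.D f i x = (1 - l) * fl c.D f i x1 + l * fl c.D f i x2 := by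
    intro f; unfold fl; rw [hx]; ring
  have hH : c.HH z i j x x' = (1 - l) * c.HH z i j x1 x' + l * c.HH z i j x2 x' := by
    unfold HH
    rw [hmax, hfl c.f1, hfl c.f2, hfl c.f3]
    have hxx : x * x' = (1 - l) * (x1 * x') + l * (x2 * x') := by rw [hx]; ring
    rw [hxx]
    ring
  rw [hH]
  have := mul_nonneg (by linarith : 0 ≤ 1 - l) hx1
  have := mul_nonneg hl0 hx2
  linarith

end RC

end Pool.Agent.Lib.MP92dd55
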