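import Mathlib
import Pool.Agent.Lib.MP92dd55.CertReal

/-! # The inequality at a pair of corners -/

namespace Pool.Agent.Lib.MP92dd55

open Real

lemma x_mul_le (x : ℝ) : x * (1 - x) ≤ 1 / 4 := by nlinarith [sq_nonneg (x - 1 / 2)]

lemma fl_corner (D : ℕ) (hD : 1 ≤ D) (f : ℕ → ℝ) (i m e : ℕ) (he : e = 0 ∨ e = 1)
    (hm : m = i ∨ (m = i + 1 ∧ e = 0)) (y : ℝ) :
    fl D f i ((m : ℝ) / D + e * y) = (1 - D * y) * f m + D * y * f (m + e) := by
  have hD0 : (D : ℝ) ≠ 0 := by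
    have : 0 < D := hD
    positivity
  unfold fl
  rcases hm with rfl | ⟨rfl, rfl⟩
  · rcases he with rfl | rfl
    · have : (D : ℝ) * ((m : ℝ) / D + (0 : ℕ) * y) - m = 0 := by field_simp; simp
      rw [this]; simp; ring
    · have : (D : ℝ) * ((m : ℝ) / D + (1 : ℕ) * y) - m = D * y := by field_simp; push_cast; ring
      rw [this]; ring
  · have : (D : ℝ) * (((i + 1 : ℕ) : ℝ) / D + (0 : ℕ) * y) - i = 1 := by
      field_simp; push_cast; ring
    rw [this]; simp; ring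

lemma inc_corner (f : ℕ → ℝ) (i m e : ℕ) (he : e = 0 ∨ e = 1)
    (hm : m = i ∨ (m = i + 1 ∧ e = 0)) : f (m + e) - f m = e * (f (i + 1) - f i) := by
  rcases hm with rfl | ⟨rfl, rfl⟩
  · rcases he with rfl | rfl <;> simp
  · simp

namespace RC

variable (c : RC)

/-- inner product of the values of `f` -/
def ffR (m m' : ℕ) : ℝ := c.f1 m * c.f1 m' + c.f2 m * c.f2 m' + c.f3 m * c.f3 m'

/-- inner product of the increments -/
def ddR (i j : ℕ) : ℝ :=
  (c.f1 (i + 1) - c.f1 i) * (c.f1 (j + 1) - c.f1 j) +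
    (c.f2 (i + 1) - c.f2 i) * (c.f2 (j + 1) - c.f2 j) +
    (c.f3 (i + 1) - c.f3 i) * (c.f3 (j + 1) - c.f3 j)

/-- `1 - m/D + k/D` -/
noncomputable def UR (k m : ℕ) : ℝ := 1 - (m : ℝ) / c.D + (k : ℝ) / c.D

theorem corner_nonneg (hD : 1 ≤ c.D) (hM : 1 ≤ c.M) (k i j m e m' e' : ℕ) (he : e = 0 ∨ e = 1)
    (he' : e' = 0 ∨ e' = 1) (hm : m = i ∨ (m = i + 1 ∧ e = 0))
    (hm' : m' = j ∨ (m' = j + 1 ∧ e' = 0)) (hkm : k ≤ m) (hkm' : k ≤ m')
    (P1 P2 C : ℝ) (hP1 : 0 ≤ P1) (hP2 : 0 ≤ P2) (hC : 0 ≤ C)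
    (h11 : e = 0 → e' = 0 → 0 ≤ c.UR k m → 0 ≤ c.UR k m' →
      (2 - c.UR k m) * (2 - c.UR k m') - 2 ≤ C)
    (h00 : e = 1 → e' = 1 → 0 ≤ c.UR k m → 0 ≤ c.UR k m' → c.UR k m * c.UR k m' ≤ C)
    (hPC : 0 ≤ c.UR k m → 0 ≤ c.UR k m' → exp (-((k : ℝ) / c.D)) * C / (8 * (c.D : ℝ) ^ 2) ≤ P1)
    (hPd : e = 1 → e' = 1 → (c.g i * c.g j / (c.D * c.M) - c.ddR i j) / 4 ≤ P2)
    (H0 : P1 + P2 ≤ exp (-((k : ℝ) / c.D)) * (max 0 (c.UR k m) * max 0 (c.UR k m')) -
      (c.v + c.ffR m m' + c.g i * c.g j * ((k : ℝ) / c.D - (m : ℝ) * m' / (c.D * c.M))))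
    (H1 : P1 + P2 ≤ exp (-(((k : ℝ) + 1) / c.D)) *
        (max 0 (c.UR (k + 1) (m + e)) * max 0 (c.UR (k + 1) (m' + e'))) -
      (c.v + c.ffR (m + e) (m' + e') + c.g i * c.g j *
        (((k : ℝ) + 1) / c.D - ((m : ℝ) + e) * ((m' : ℝ) + e') / (c.D * c.M))))
    (y : ℝ) (hy : 0 ≤ y) (hyh : y ≤ 1 / c.D) :
    0 ≤ c.HH ((k : ℝ) / c.D + y) i j ((m : ℝ) / c.D + e * y) ((m' : ℝ) / c.D + e' * y) := by
  have hD0 : (0 : ℝ) < c.D := by exact_mod_cast hD
  have hM0 : (0 : ℝ) < c.M := by exact_mod_cast hM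
  set x : ℝ := c.D * y with hx
  have hx0 : 0 ≤ x := by positivity
  have hx1 : x ≤ 1 := by
    rw [hx]
    calc (c.D : ℝ) * y ≤ c.D * (1 / c.D) := by gcongr
      _ = 1 := by field_simp
  have hyx : y = x / c.D := by rw [hx]; field_simp
  have hxx := x_mul_le x
  have hxx0 : 0 ≤ x * (1 - x) := mul_nonneg hx0 (by linarith)
  set E : ℝ := exp (-((k : ℝ) / c.D)) with hE
  have hE0 : 0 < E := exp_pos _
  set F0 : ℝ := c.v + c.ffR m m' + c.g i * c.g j * ((k : ℝ) / c.D - (m : ℝ) * m' / (c.D * c.M))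
    with hF0
  set F1 : ℝ := c.v + c.ffR (m + e) (m' + e') + c.g i * c.g j *
        (((k : ℝ) + 1) / c.D - ((m : ℝ) + e) * ((m' : ℝ) + e') / (c.D * c.M)) with hF1
  set q : ℝ := c.g i * c.g j / (c.D * c.M) - c.ddR i j with hq
  -- the minorant
  have hF : c.v + fl c.D c.f1 i ((m : ℝ) / c.D + e * y) * fl c.D c.f1 j ((m' : ℝ) / c.D + e' * y) +
      fl c.D c.f2 i ((m : ℝ) / c.D + e * y) * fl c.D c.f2 j ((m' : ℝ) / c.D + e' * y) +
      fl c.D c.f3 i ((m : ℝ) / c.D + e * y) * fl c.D c.f3 j ((m' : ℝ) / c.D + e' * y) +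
      c.g i * c.g j * ((k : ℝ) / c.D + y - ((m : ℝ) / c.D + e * y) * ((m' : ℝ) / c.D + e' * y) *
        (c.D / c.M)) = (1 - x) * F0 + x * F1 + x * (1 - x) * (e * e') * q := by
    rw [fl_corner c.D hD c.f1 i m e he hm, fl_corner c.D hD c.f1 j m' e' he' hm',
      fl_corner c.D hD c.f2 i m e he hm, fl_corner c.D hD c.f2 j m' e' he' hm',
      fl_corner c.D hD c.f3 i m e he hm, fl_corner c.D hD c.f3 j m' e' he' hm']
    have i1 := inc_corner c.f1 i m e he hm
    have i2 := inc_corner c.f2 i m e he hm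
    have i3 := inc_corner c.f3 i m e he hm
    have j1 := inc_corner c.f1 j m' e' he' hm'
    have j2 := inc_corner c.f2 j m' e' he' hm'
    have j3 := inc_corner c.f3 j m' e' he' hm'
    have e1 : c.f1 (m + e) = c.f1 m + e * (c.f1 (i + 1) - c.f1 i) := by linarith
    have e2 : c.f2 (m + e) = c.f2 m + e * (c.f2 (i + 1) - c.f2 i) := by linarith
    have e3 : c.f3 (m + e) = c.f3 m + e * (c.f3 (i + 1) - c.f3 i) := by linarith
    have g1 : c.f1 (m' + e') = c.f1 m' + e' * (c.f1 (j + 1) - c.f1 j) := by linarith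
    have g2 : c.f2 (m' + e') = c.f2 m' + e' * (c.f2 (j + 1) - c.f2 j) := by linarith
    have g3 : c.f3 (m' + e') = c.f3 m' + e' * (c.f3 (j + 1) - c.f3 j) := by linarith
    rw [← hx, hF0, hF1, hq]
    unfold ffR ddR
    rw [e1, e2, e3, g1, g2, g3, hyx]
    field_simp
    ring
  have hpen : x * (1 - x) * (e * e') * q ≤ P2 := by
    rcases he with rfl | rfl
    · simp; exact hP2
    rcases he' with rfl | rfl
    · simp; exact hP2
    have h1 := hPd rfl rfl
    rcases le_total 0 q with h2 | h2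
    · calc x * (1 - x) * ((1 : ℕ) * (1 : ℕ)) * q = (x * (1 - x)) * q := by push_cast; ring
        _ ≤ 1 / 4 * q := by gcongr
        _ = q / 4 := by ring
        _ ≤ P2 := h1
    · have : x * (1 - x) * ((1 : ℕ) * (1 : ℕ)) * q = (x * (1 - x)) * q := by push_cast; ring
      rw [this]
      nlinarith
  -- the kernel
  have harg : ∀ (m e : ℕ), 1 - ((m : ℝ) / c.D + e * y) + ((k : ℝ) / c.D + y) =
      c.UR k m + (1 - e) * y := by
    intro m e; unfold UR; ring
  have hU1 : ∀ (m e : ℕ), c.UR (k + 1) (m + e) = c.UR k m + (1 - e) * (1 / c.D) := by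
    intro m e; unfold UR; push_cast; field_simp; ring
  have hint : ∀ m : ℕ, c.UR k m < 0 → c.UR k m ≤ -(1 / c.D) := by
    intro m h
    have h1 : c.UR k m = ((c.D : ℝ) - m + k) / c.D := by unfold UR; field_simp
    rw [h1] at h ⊢
    have h2 : (c.D : ℝ) - m + k < 0 := by
      by_contra hcon
      push Not at hcon
      have : 0 ≤ ((c.D : ℝ) - m + k) / c.D := by positivity
      linarith
    have h3 : ((c.D : ℤ) - m + k) < 0 := by exact_mod_cast h2
    have h4 : ((c.D : ℤ) - m + k) ≤ -1 := by omega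
    have h5 : (c.D : ℝ) - m + k ≤ -1 := by exact_mod_cast h4
    rw [← neg_div]
    gcongr
  have hEy : exp (-((k : ℝ) / c.D + y)) = E * exp (-y) := by
    rw [hE, ← exp_add]; congr 1; ring
  have hE1 : exp (-(((k : ℝ) + 1) / c.D)) = E * exp (-(1 / c.D)) := by
    rw [hE, ← exp_add]; congr 1; ring
  unfold HH
  rw [hF, harg, harg, hEy]
  rw [hU1, hU1, hE1] at H1
  have hzero : ∀ (m e : ℕ), (e = 0 ∨ e = 1) → c.UR k m < 0 →
      max 0 (c.UR k m) = 0 ∧ max 0 (c.UR k m + (1 - e) * y) = 0 ∧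
        max 0 (c.UR k m + (1 - e) * (1 / c.D)) = 0 := by
    intro m e he h
    have h1 := hint m h
    have h2 : (0 : ℝ) ≤ 1 - e ∧ (1 : ℝ) - e ≤ 1 := by
      rcases he with rfl | rfl <;> norm_num
    refine ⟨max_eq_left h.le, max_eq_left ?_, max_eq_left ?_⟩
    · nlinarith
    · nlinarith [h2.1, h2.2, one_div_pos.2 hD0]
  by_cases hUU : 0 ≤ c.UR k m ∧ 0 ≤ c.UR k m'
  · obtain ⟨hU0, hU0'⟩ := hUU
    have hUle : ∀ m : ℕ, k ≤ m → c.UR k m ≤ 1 := by
      intro m hm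
      unfold UR
      have : (k : ℝ) / c.D ≤ (m : ℝ) / c.D := by gcongr
      linarith
    have hs := s_chord (c.UR k m) (c.UR k m') (1 - e) (1 - e') (1 / c.D) y C
      (by rcases he with rfl | rfl <;> simp) (by rcases he' with rfl | rfl <;> simp) hU0
      (hUle m hkm) hU0' (hUle m' hkm') hy hyh (by positivity)
      (by rw [div_le_one hD0]; exact_mod_cast hD) hC
      (by
        intro a b
        apply h11 _ _ hU0 hU0'
        · rcases he with rfl | rfl
          · rfl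
          · norm_num at a
        · rcases he' with rfl | rfl
          · rfl
          · norm_num at b)
      (by
        intro a b
        apply h00 _ _ hU0 hU0'
        · rcases he with rfl | rfl
          · norm_num at a
          · rfl
        · rcases he' with rfl | rfl
          · norm_num at b
          · rfl)
    have hyd : y / (1 / c.D) = x := by rw [hx]; field_simp
    have hyy : y * (1 / c.D - y) = x * (1 - x) / (c.D : ℝ) ^ 2 := by rw [hyx]; field_simp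
    rw [hyd, hyy] at hs
    have he0 : (0 : ℝ) ≤ 1 - e := by rcases he with rfl | rfl <;> norm_num
    have he0' : (0 : ℝ) ≤ 1 - e' := by rcases he' with rfl | rfl <;> norm_num
    rw [max_eq_right hU0, max_eq_right hU0'] at H0
    rw [max_eq_right (by positivity), max_eq_right (by positivity)] at H1
    rw [max_eq_right (by positivity), max_eq_right (by positivity)]
    have hpc := hPC hU0 hU0'
    have h2 : E * ((1 - x) * (c.UR k m * c.UR k m') + x * (exp (-(1 / c.D)) *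
        (c.UR k m + (1 - e) * (1 / c.D)) * (c.UR k m' + (1 - e') * (1 / c.D))) -
        C * (x * (1 - x) / (c.D : ℝ) ^ 2) / 2) ≤
        E * (exp (-y) * (c.UR k m + (1 - e) * y) * (c.UR k m' + (1 - e') * y)) :=
      mul_le_mul_of_nonneg_left hs hE0.le
    have h3 : E * (C * (x * (1 - x) / (c.D : ℝ) ^ 2) / 2) ≤ P1 := by
      calc E * (C * (x * (1 - x) / (c.D : ℝ) ^ 2) / 2) =
          (4 * (x * (1 - x))) * (E * C / (8 * (c.D : ℝ) ^ 2)) := by field_simp; ring
        _ ≤ 1 * (E * C / (8 * (c.D : ℝ) ^ 2)) := by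
            apply mul_le_mul_of_nonneg_right _ (by positivity)
            linarith
        _ ≤ P1 := by linarith
    have h4 : (1 - x) * (P1 + P2) ≤ (1 - x) * (E * (c.UR k m * c.UR k m') - F0) :=
      mul_le_mul_of_nonneg_left H0 (by linarith)
    have h5 : x * (P1 + P2) ≤ x * (E * exp (-(1 / c.D)) *
        ((c.UR k m + (1 - e) * (1 / c.D)) * (c.UR k m' + (1 - e') * (1 / c.D))) - F1) :=
      mul_le_mul_of_nonneg_left H1 hx0
    linarith
  · have hz : max 0 (c.UR k m) * max 0 (c.UR k m') = 0 ∧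
        max 0 (c.UR k m + (1 - e) * y) * max 0 (c.UR k m' + (1 - e') * y) = 0 ∧
        max 0 (c.UR k m + (1 - e) * (1 / c.D)) * max 0 (c.UR k m' + (1 - e') * (1 / c.D)) = 0 := by
      rcases not_and_or.1 hUU with h | h
      · obtain ⟨a1, a2, a3⟩ := hzero m e he (not_le.1 h)
        rw [a1, a2, a3]; simp
      · obtain ⟨a1, a2, a3⟩ := hzero m' e' he' (not_le.1 h)
        rw [a1, a2, a3]; simp
    rw [hz.1] at H0
    rw [hz.2.2] at H1
    rw [mul_assoc (E * exp (-y)), hz.2.1]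
    have h4 : (1 - x) * (P1 + P2) ≤ (1 - x) * (E * 0 - F0) :=
      mul_le_mul_of_nonneg_left H0 (by linarith)
    have h5 : x * (P1 + P2) ≤ x * (E * exp (-(1 / c.D)) * 0 - F1) :=
      mul_le_mul_of_nonneg_left H1 hx0
    nlinarith

end RC

end Pool.Agent.Lib.MP92dd55
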