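import Mathlib

/-! # Integer certificates for the game with a fixed deadline

`τ = M / D`. The functions `f₁ f₂ f₃` are piecewise linear with the values `(dig F m - 2^15) / 10^4` at `m / D`, the
function `g` is constant on the cells `[i / D, (i+1) / D]` with the values `dig G i / 10^4`; `V / 10^8` is the bound,
`L / 10^10 ≤ exp (-1/D) ≤ H / 10^10`. Everything is computed with natural numbers (truncated subtraction). -/

namespace Pool.Agent.Lib.MP92dd55

/-- a certificate -/
structure Cert where
  M : ℕ
  D : ℕ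
  V : ℕ
  F1 : ℕ
  F2 : ℕ
  F3 : ℕ
  G : ℕ
  L : ℕ
  H : ℕ

/-- the digit `m` in base `2^16` -/
def dig (F m : ℕ) : ℕ := F / 65536 ^ m % 65536

/-- `p` holds below `n` -/
def allB : ℕ → (ℕ → Bool) → Bool
  | 0, _ => true
  | n + 1, p => p n && allB n p

/-- the corners of the cell `i` -/
def cornersD (D k i : ℕ) : List (ℕ × ℕ) :=
  if i = k then [(k, 1), (k + 1, 0)] else
    if i = k + D then [(i, 0), (i, 1), (i + 1, 0)] else [(i, 0), (i + 1, 0)]

namespace Cert

variable (c : Cert)

/-- lower bound of `10^8 exp (-k/D)` -/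
def EL (k : ℕ) : ℕ := c.L ^ k * 10 ^ 8 / 10 ^ (10 * k)

/-- upper bound of `10^8 exp (-k/D)` -/
def EH (k : ℕ) : ℕ := c.H ^ k * 10 ^ 8 / 10 ^ (10 * k) + 1

/-- products of the values of `f` (shifted) at two grid points -/
def pp (m m' : ℕ) : ℕ :=
  dig c.F1 m * dig c.F1 m' + dig c.F2 m * dig c.F2 m' + dig c.F3 m * dig c.F3 m'

/-- sum of the shifted values of `f` -/
def sm (m : ℕ) : ℕ := dig c.F1 m + dig c.F2 m + dig c.F3 m

/-- curvature of the kernel at a corner -/
def curv (k m e m' e' : ℕ) : ℕ :=
  if c.D + k < m then 0 else if c.D + k < m' then 0 else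
    if e = 0 then (if e' = 0 then
      (2 * c.D - (c.D + k - m)) * (2 * c.D - (c.D + k - m')) - 2 * c.D * c.D else 0)
    else (if e' = 0 then 0 else (c.D + k - m) * (c.D + k - m'))

/-- curvature of the minorant at a corner -/
def curv2 (gg i j e e' : ℕ) : ℕ :=
  if e = 0 then 0 else if e' = 0 then 0 else
    (gg * c.D + c.M * c.D * c.D * (c.pp (i + 1) j + c.pp i (j + 1))) -
      c.M * c.D * c.D * (c.pp (i + 1) (j + 1) + c.pp i j)

/-- the inequality at a grid point -/
def okV (pen k el gg m m' : ℕ) : Bool :=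
  Nat.ble (8 * c.D ^ 4 * c.M * (c.V + c.pp m m' + 3221225472) + 8 * c.D ^ 3 * gg * (k * c.M) + pen)
    (8 * c.D * c.D * c.M * el * ((c.D + k - m) * (c.D + k - m')) +
      8 * c.D ^ 4 * c.M * (32768 * (c.sm m + c.sm m')) + 8 * c.D ^ 3 * gg * (m * m'))

/-- the inequalities at a pair of corners of the cells `i`, `j` -/
def okC (k el el1 eh gg i j m e m' e' : ℕ) : Bool :=
  c.okV (c.M * eh * c.curv k m e m' e' + 2 * c.D * c.D * c.curv2 gg i j e e') k el gg m m' &&
  c.okV (c.M * eh * c.curv k m e m' e' + 2 * c.D * c.D * c.curv2 gg i j e e') (k + 1) el1 gg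
    (m + e) (m' + e')

/-- the inequalities for the cells `i`, `j` -/
def okIJ (k el el1 eh i j : ℕ) : Bool :=
  (cornersD c.D k i).all fun p => (cornersD c.D k j).all fun q =>
    c.okC k el el1 eh (dig c.G i * dig c.G j) i j p.1 p.2 q.1 q.2

/-- the inequalities for the cell `k` of the variable `z` -/
def okK (k : ℕ) : Bool :=
  allB c.M fun i => allB c.M fun j =>
    if i < k then true else if j < i then true else if c.M + k < i + j then true else
      c.okIJ k (c.EL k) (c.EL (k + 1)) (c.EH k) i j

/-- the check for `a ≤ k < a + l` -/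
def okR (a l : ℕ) : Bool := allB l fun i => c.okK (a + i)

theorem okR_spec (a l : ℕ) (h : c.okR a l = true) (k : ℕ) (h1 : a ≤ k) (h2 : k < a + l) :
    c.okK k = true := by
  have key : ∀ (p : ℕ → Bool) (n : ℕ), allB n p = true → ∀ i < n, p i = true := by
    intro p n
    induction n with
    | zero => intro _ i hi; omega
    | succ n ih =>
      intro h i hi
      unfold allB at h
      rw [Bool.and_eq_true] at h
      rcases Nat.lt_succ_iff_lt_or_eq.1 hi with h1 | h1
      · exact ih h.2 i h1
      · rw [h1]; exact h.1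
  have := key _ l h (k - a) (by omega)
  rwa [show a + (k - a) = k by omega] at this

end Cert

end Pool.Agent.Lib.MP92dd55
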