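import Mathlib
import Pool.Agent.Lib.MP92dd55.CertDefs
import Pool.Agent.Lib.MP92dd55.CertReal

/-! # The corners control the whole domain -/

namespace Pool.Agent.Lib.MP92dd55

open Real

namespace RC

variable (c : RC)

lemma HH_reduce (hD : 1 ≤ c.D) (k i j : ℕ) (hki : k ≤ i) (y : ℝ) (hy : 0 ≤ y)
    (hyh : y ≤ 1 / c.D) (x' : ℝ)
    (hcor : ∀ p ∈ cornersD c.D k i, 0 ≤ c.HH ((k : ℝ) / c.D + y) i j ((p.1 : ℝ) / c.D + p.2 * y) x')
    (x : ℝ) (hx1 : (i : ℝ) / c.D ≤ x) (hx2 : x ≤ ((i : ℝ) + 1) / c.D)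
    (hxz : (k : ℝ) / c.D + y ≤ x) :
    0 ≤ c.HH ((k : ℝ) / c.D + y) i j x x' := by
  have hD0 : (0 : ℝ) < c.D := by exact_mod_cast hD
  have hD1 : (1 : ℝ) ≤ c.D := by exact_mod_cast hD
  have hh1 : 1 / (c.D : ℝ) ≤ 1 := by rw [div_le_one hD0]; exact hD1
  unfold cornersD at hcor
  split_ifs at hcor with h1 h2
  · subst h1
    have a1 := hcor (i, 1) (by simp)
    have a2 := hcor (i + 1, 0) (by simp)
    simp only [Nat.cast_one, one_mul, Nat.cast_zero, zero_mul, add_zero] at a1 a2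
    refine c.HH_line _ i j _ _ x x' hxz (by push_cast; exact hx2) (Or.inr ?_) a1 a2
    have : ((i + 1 : ℕ) : ℝ) / c.D = (i : ℝ) / c.D + 1 / c.D := by push_cast; ring
    rw [this]; linarith
  · subst h2
    have a1 := hcor (k + c.D, 0) (by simp)
    have a2 := hcor (k + c.D, 1) (by simp)
    have a3 := hcor (k + c.D + 1, 0) (by simp)
    simp only [Nat.cast_one, one_mul, Nat.cast_zero, zero_mul, add_zero] at a1 a2 a3
    have e1 : ((k + c.D : ℕ) : ℝ) / c.D = (k : ℝ) / c.D + 1 := by push_cast; field_simp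
    rcases le_total x (((k + c.D : ℕ) : ℝ) / c.D + y) with h | h
    · refine c.HH_line _ _ j _ _ x x' hx1 h (Or.inr ?_) a1 a2
      rw [e1]; linarith
    · refine c.HH_line _ _ j _ _ x x' h (by push_cast at hx2 ⊢; exact hx2) (Or.inl ?_) a2 a3
      rw [e1]; linarith
  · have a1 := hcor (i, 0) (by simp)
    have a2 := hcor (i + 1, 0) (by simp)
    simp only [Nat.cast_zero, zero_mul, add_zero] at a1 a2
    refine c.HH_line _ i j _ _ x x' hx1 (by push_cast; exact hx2) ?_ a1 a2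
    rcases lt_or_gt_of_ne h2 with h3 | h3
    · right
      have h4 : ((i + 1 : ℕ) : ℝ) / c.D ≤ ((k + c.D : ℕ) : ℝ) / c.D := by
        have : i + 1 ≤ k + c.D := h3
        gcongr
      have e1 : ((k + c.D : ℕ) : ℝ) / c.D = (k : ℝ) / c.D + 1 := by push_cast; field_simp
      linarith
    · left
      have h4 : ((k + c.D + 1 : ℕ) : ℝ) / c.D ≤ (i : ℝ) / c.D := by
        have : k + c.D + 1 ≤ i := h3
        gcongr
      have e1 : ((k + c.D + 1 : ℕ) : ℝ) / c.D = (k : ℝ) / c.D + 1 + 1 / c.D := by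
        push_cast; field_simp
      linarith

/-- the cell of `x` -/
noncomputable def cell (x : ℝ) : ℕ := min ⌊(c.D : ℝ) * x⌋₊ (c.M - 1)

lemma cell_lt (hM : 1 ≤ c.M) (x : ℝ) : c.cell x < c.M := by
  have : c.cell x ≤ c.M - 1 := min_le_right _ _
  omega

lemma cell_mono {x y : ℝ} (h : x ≤ y) : c.cell x ≤ c.cell y := by
  unfold cell
  apply min_le_min_right
  apply Nat.floor_mono
  gcongr

lemma cell_le (x : ℝ) (hx : 0 ≤ x) : (c.cell x : ℝ) ≤ c.D * x := by
  calc (c.cell x : ℝ) ≤ ⌊(c.D : ℝ) * x⌋₊ := by exact_mod_cast min_le_left _ _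
    _ ≤ c.D * x := Nat.floor_le (by positivity)

lemma le_cell (hM : 1 ≤ c.M) (x : ℝ) (hx : c.D * x ≤ c.M) : c.D * x ≤ (c.cell x : ℝ) + 1 := by
  unfold cell
  rcases le_total ⌊(c.D : ℝ) * x⌋₊ (c.M - 1) with h | h
  · rw [min_eq_left h]
    exact (Nat.lt_floor_add_one _).le
  · rw [min_eq_right h]
    have : ((c.M - 1 : ℕ) : ℝ) + 1 = c.M := by
      rw [← Nat.cast_succ]; congr 1; omega
    rw [this]; exact hx

theorem sound (hD : 1 ≤ c.D) (hM : 1 ≤ c.M)
    (hcor : ∀ k i j, k < c.M → i < c.M → j < c.M → k ≤ i → i ≤ j → i + j ≤ c.M + k →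
      ∀ p ∈ cornersD c.D k i, ∀ q ∈ cornersD c.D k j, ∀ y : ℝ, 0 ≤ y → y ≤ 1 / c.D →
        0 ≤ c.HH ((k : ℝ) / c.D + y) i j ((p.1 : ℝ) / c.D + p.2 * y) ((q.1 : ℝ) / c.D + q.2 * y))
    (a b z : ℝ) (hz : 0 ≤ z) (hza : z ≤ a) (hzb : z ≤ b) (hab : a + b ≤ c.M / c.D + z) :
    0 ≤ c.HH z (c.cell a) (c.cell b) a b := by
  have hD0 : (0 : ℝ) < c.D := by exact_mod_cast hD
  have hab' : c.D * a + c.D * b ≤ c.M + c.D * z := by
    have := mul_le_mul_of_nonneg_left hab hD0.le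
    have h1 : (c.D : ℝ) * (c.M / c.D + z) = c.M + c.D * z := by field_simp
    linarith
  have hDz : 0 ≤ c.D * z := by positivity
  have hDa : c.D * z ≤ c.D * a := by gcongr
  have hDb : c.D * z ≤ c.D * b := by gcongr
  set k := c.cell z with hk
  set i := c.cell a with hi
  set j := c.cell b with hj
  have hki : k ≤ i := c.cell_mono hza
  have hkj : k ≤ j := c.cell_mono hzb
  have ck := c.cell_le z hz
  have ci := c.cell_le a (hz.trans hza)
  have cj := c.cell_le b (hz.trans hzb)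
  have ck' := c.le_cell hM z (by linarith)
  have ci' := c.le_cell hM a (by linarith)
  have cj' := c.le_cell hM b (by linarith)
  rw [← hk] at ck ck'
  rw [← hi] at ci ci'
  rw [← hj] at cj cj'
  have lk := c.cell_lt hM z
  have li := c.cell_lt hM a
  have lj := c.cell_lt hM b
  rw [← hk] at lk
  rw [← hi] at li
  rw [← hj] at lj
  have hij : i + j ≤ c.M + k := by
    rcases le_total ⌊(c.D : ℝ) * z⌋₊ (c.M - 1) with h | h
    · have h1 : k = ⌊(c.D : ℝ) * z⌋₊ := by rw [hk]; unfold cell; exact min_eq_left h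
      have h2 : (c.D : ℝ) * z < k + 1 := by rw [h1]; exact Nat.lt_floor_add_one _
      have h3 : ((i + j : ℕ) : ℝ) < ((c.M + k + 1 : ℕ) : ℝ) := by push_cast; linarith
      have h4 : i + j < c.M + k + 1 := by exact_mod_cast h3
      omega
    · have h1 : k = c.M - 1 := by rw [hk]; unfold cell; exact min_eq_right h
      omega
  have hzk : z = (k : ℝ) / c.D + (z - (k : ℝ) / c.D) := by ring
  set y := z - (k : ℝ) / c.D with hy
  have hkz : (k : ℝ) / c.D ≤ z := by rw [div_le_iff₀ hD0]; linarith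
  have hy0 : 0 ≤ y := by rw [hy]; linarith
  have hy1 : y ≤ 1 / c.D := by
    have : z ≤ ((k : ℝ) + 1) / c.D := by rw [le_div_iff₀ hD0]; linarith
    have h2 : ((k : ℝ) + 1) / c.D = (k : ℝ) / c.D + 1 / c.D := by ring
    rw [hy]; linarith
  have ha1 : (i : ℝ) / c.D ≤ a := by rw [div_le_iff₀ hD0]; linarith
  have ha2 : a ≤ ((i : ℝ) + 1) / c.D := by rw [le_div_iff₀ hD0]; linarith
  have hb1 : (j : ℝ) / c.D ≤ b := by rw [div_le_iff₀ hD0]; linarith
  have hb2 : b ≤ ((j : ℝ) + 1) / c.D := by rw [le_div_iff₀ hD0]; linarith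
  have hcor' : ∀ p ∈ cornersD c.D k i, ∀ q ∈ cornersD c.D k j,
      0 ≤ c.HH ((k : ℝ) / c.D + y) i j ((p.1 : ℝ) / c.D + p.2 * y) ((q.1 : ℝ) / c.D + q.2 * y) := by
    intro p hp q hq
    rcases le_total i j with h | h
    · exact hcor k i j lk li lj hki h hij p hp q hq y hy0 hy1
    · rw [HH_symm]
      exact hcor k j i lk lj li hkj h (by omega) q hq p hp y hy0 hy1
  rw [hzk]
  rw [hzk] at hza hzb
  apply c.HH_reduce hD k i j hki y hy0 hy1 b _ a ha1 ha2 hza
  intro p hp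
  rw [HH_symm]
  apply c.HH_reduce hD k j i hkj y hy0 hy1 _ _ b hb1 hb2 hzb
  intro q hq
  rw [HH_symm]
  exact hcor' p hp q hq

end RC

end Pool.Agent.Lib.MP92dd55
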