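import Pool.Agent.Lib.MP92dd55.CertDefs

/-! # Certificates for deadlines between `21 n / 20` and `30 n / 20` -/

namespace Pool.Agent.Lib.MP92dd55

/-- certificate for `τ = 21/20` -/
def cert21_20 : Cert where
  M := 21
  D := 20
  V := 25199344
  F1 := 5023543609931729671165020418429521421565137629425507634957859106907409881026579965872950251811582235008656
  F2 := 4552489202611122092826396630558138737849259127144582914575209328396075478671199325999769409819459067085809
  F3 := 4587067182351931096465084117082285228414804136955175993774309275488175359420464398632895009867450609074156
  G := 12967774320215766593549605207426516786715827355697936767868860322962847123979650658273496824678196837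
  L := 9512294244
  H := 9512294246

theorem cert21_20_0 : cert21_20.okR 0 5 = true := by decide +kernel

theorem cert21_20_5 : cert21_20.okR 5 16 = true := by decide +kernel

theorem cert21_20_ok : ∀ k < 21, cert21_20.okK k = true := by
  intro k hk
  by_cases h0 : k < 5
  · exact cert21_20.okR_spec 0 5 cert21_20_0 k (by omega) (by omega)
  exact cert21_20.okR_spec 5 16 cert21_20_5 k (by omega) (by omega)

/-- certificate for `τ = 22/20` -/
def cert22_20 : Cert where
  M := 22
  D := 20
  V := 23646008
  F1 := 329057830099725023182214536421263122469959127581051339193335876816435126355136598456830527600584882148160396916
  F2 := 299315272493312835507189667134541661649117655485767978556416713446136253195969525713117316883087812815486354441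
  F3 := 300618037662233005100949981473152221789315781064401898626527018665398243390029301227752104688260261352797405164
  G := 828998398625437454600033330714669499665819827575035895705557227131757292812232840992211904706771724936639
  L := 9512294244
  H := 9512294246

theorem cert22_20_0 : cert22_20.okR 0 5 = true := by decide +kernel

theorem cert22_20_5 : cert22_20.okR 5 17 = true := by decide +kernel

theorem cert22_20_ok : ∀ k < 22, cert22_20.okK k = true := by
  intro k hk
  by_cases h0 : k < 5
  · exact cert22_20.okR_spec 0 5 cert22_20_0 k (by omega) (by omega)
  exact cert22_20.okR_spec 5 17 cert22_20_5 k (by omega) (by omega)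

/-- certificate for `τ = 23/20` -/
def cert23_20 : Cert where
  M := 23
  D := 20
  V := 22150904
  F1 := 21553710541381967627696040732450410562776334985337966107336839949073384146705549110625584878246652470449571097173621
  F2 := 19651397672468094566132159725503384601398522785754175939872166163587536345075374214968400536216101277438635341612482
  F3 := 19695291630702890105286944858591170976138532467413781570466252463261510979841532024471878455712765321595045862735852
  G := 53650277510484707460830655387495050303350174976303286523729055170644900774331594755299339278301319331061899943
  L := 9512294244
  H := 9512294246

theorem cert23_20_0 : cert23_20.okR 0 4 = true := by decide +kernel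

theorem cert23_20_4 : cert23_20.okR 4 8 = true := by decide +kernel

theorem cert23_20_12 : cert23_20.okR 12 11 = true := by decide +kernel

theorem cert23_20_ok : ∀ k < 23, cert23_20.okK k = true := by
  intro k hk
  by_cases h0 : k < 4
  · exact cert23_20.okR_spec 0 4 cert23_20_0 k (by omega) (by omega)
  by_cases h4 : k < 12
  · exact cert23_20.okR_spec 4 8 cert23_20_4 k (by omega) (by omega)
  exact cert23_20.okR_spec 12 11 cert23_20_12 k (by omega) (by omega)

/-- certificate for `τ = 24/20` -/
def cert24_20 : Cert where
  M := 24
  D := 20
  V := 20756308
  F1 := 1411558937713244118303832223111149891265183985751012934526669017921615964005381769142099548315312001536508233566198783621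
  F2 := 1289804953495734429294569159361613954974241564267427590908357582295724417311074327808647012642169433178596057526202566065
  F3 := 1291144640347170529729841450037303625513630875401357992956970257040115072529913058146398396830450239726736478815945523200
  G := 3374737861459164477003230248373920894936240005724791323875890716006517092952472978419702304834359572128027961926313
  L := 9512294244
  H := 9512294246

theorem cert24_20_0 : cert24_20.okR 0 4 = true := by decide +kernel

theorem cert24_20_4 : cert24_20.okR 4 6 = true := by decide +kernel

theorem cert24_20_10 : cert24_20.okR 10 14 = true := by decide +kernel

theorem cert24_20_ok : ∀ k < 24, cert24_20.okK k = true := by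
  intro k hk
  by_cases h0 : k < 4
  · exact cert24_20.okR_spec 0 4 cert24_20_0 k (by omega) (by omega)
  by_cases h4 : k < 10
  · exact cert24_20.okR_spec 4 6 cert24_20_4 k (by omega) (by omega)
  exact cert24_20.okR_spec 10 14 cert24_20_10 k (by omega) (by omega)

/-- certificate for `τ = 25/20` -/
def cert25_20 : Cert where
  M := 25
  D := 20
  V := 19431788
  F1 := 92443370807264106277411389212721327418798861333837819560514357475933832439429461332623701750668406598036749238106103363363204
  F2 := 84908258684783029336840233651506138140716909003801899834785728178276603652496564900697553202219084077157208679268519821412015
  F3 := 84616455543806217714787669615858040464000273299260335852259709374751398107777589381035171897574737558147831236105308563603436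
  G := 215492884698104163966101200362613878380033583155418922821314781444075450780223304712516395774109029104208692212508795001
  L := 9512294244
  H := 9512294246

theorem cert25_20_0 : cert25_20.okR 0 3 = true := by decide +kernel

theorem cert25_20_3 : cert25_20.okR 3 5 = true := by decide +kernel

theorem cert25_20_8 : cert25_20.okR 8 17 = true := by decide +kernel

theorem cert25_20_ok : ∀ k < 25, cert25_20.okK k = true := by
  intro k hk
  by_cases h0 : k < 3
  · exact cert25_20.okR_spec 0 3 cert25_20_0 k (by omega) (by omega)
  by_cases h3 : k < 8
  · exact cert25_20.okR_spec 3 5 cert25_20_3 k (by omega) (by omega)
  exact cert25_20.okR_spec 8 17 cert25_20_8 k (by omega) (by omega)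

/-- certificate for `τ = 26/20` -/
def cert26_20 : Cert where
  M := 26
  D := 20
  V := 18183014
  F1 := 6051768670894374786151564783390297748830320463976175092433547822561517934374910046830830571712614654770824517174705232949168333188
  F2 := 5597886369564812619167598778956048238243347890009225431137098260678221541213831402754224482541701871964114030652800560506610550447
  F3 := 5545424172532737657344378579724001825241971063114632335234043618884461554638903864163931754231431427986561879172527098892893847532
  G := 13779110141391635990117835885266933941491234481807983710093163980201068755922138567200961611465006540314852356993600002924734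
  L := 9512294244
  H := 9512294246

theorem cert26_20_0 : cert26_20.okR 0 3 = true := by decide +kernel

theorem cert26_20_3 : cert26_20.okR 3 4 = true := by decide +kernel

theorem cert26_20_7 : cert26_20.okR 7 8 = true := by decide +kernel

theorem cert26_20_15 : cert26_20.okR 15 11 = true := by decide +kernel

theorem cert26_20_ok : ∀ k < 26, cert26_20.okK k = true := by
  intro k hk
  by_cases h0 : k < 3
  · exact cert26_20.okR_spec 0 3 cert26_20_0 k (by omega) (by omega)
  by_cases h3 : k < 7
  · exact cert26_20.okR_spec 3 4 cert26_20_3 k (by omega) (by omega)
  by_cases h7 : k < 15
  · exact cert26_20.okR_spec 7 8 cert26_20_7 k (by omega) (by omega)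
  exact cert26_20.okR_spec 15 11 cert26_20_15 k (by omega) (by omega)

/-- certificate for `τ = 27/20` -/
def cert27_20 : Cert where
  M := 27
  D := 20
  V := 17000622
  F1 := 395421996632544301467977008479977771114689056010305250380085189613876025308275696570845751375089460888166193271531454861036364362900531
  F2 := 371898300558013562365727806478173592243178061508153260678577998422631155965580207015497398253847416792874690132097232783944105350432297
  F3 := 362970161649686234103250219328572708688643849216076419788876538559827967611306531089213349872994804619451865388005648497171012182376428
  G := 883227245733731919894878618908965809974427364608544110047004472123721890437107489073661810874868301510291108410151234309652225242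
  L := 9512294244
  H := 9512294246

theorem cert27_20_0 : cert27_20.okR 0 3 = true := by decide +kernel

theorem cert27_20_3 : cert27_20.okR 3 4 = true := by decide +kernel

theorem cert27_20_7 : cert27_20.okR 7 6 = true := by decide +kernel

theorem cert27_20_13 : cert27_20.okR 13 14 = true := by decide +kernel

theorem cert27_20_ok : ∀ k < 27, cert27_20.okK k = true := by
  intro k hk
  by_cases h0 : k < 3
  · exact cert27_20.okR_spec 0 3 cert27_20_0 k (by omega) (by omega)
  by_cases h3 : k < 7
  · exact cert27_20.okR_spec 3 4 cert27_20_3 k (by omega) (by omega)
  by_cases h7 : k < 13
  · exact cert27_20.okR_spec 7 6 cert27_20_7 k (by omega) (by omega)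
  exact cert27_20.okR_spec 13 14 cert27_20_13 k (by omega) (by omega)

/-- certificate for `τ = 28/20` -/
def cert28_20 : Cert where
  M := 28
  D := 20
  V := 15891820
  F1 := 25851140403387866862548796821258613929638493902074521722620021374881168837556693325751965073849196999284435474634294103450565477050421306575
  F2 := 24513735767504279476899197971735833499253208688290337831449077869031860203830773976228003838249374949831660666486137986204347377296670688652
  F3 := 23817414964439593875682881928687582678251393027450448552830154159581486126039014711160747871844419844599106271585174525680624568607875039212
  G := 56385900726572465514058524011857462699788062001832680100626813366825485765610136895005377563427626606662495922894477112251555105807787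
  L := 9512294244
  H := 9512294246

theorem cert28_20_0 : cert28_20.okR 0 2 = true := by decide +kernel

theorem cert28_20_2 : cert28_20.okR 2 3 = true := by decide +kernel

theorem cert28_20_5 : cert28_20.okR 5 4 = true := by decide +kernel

theorem cert28_20_9 : cert28_20.okR 9 8 = true := by decide +kernel

theorem cert28_20_17 : cert28_20.okR 17 11 = true := by decide +kernel

theorem cert28_20_ok : ∀ k < 28, cert28_20.okK k = true := by
  intro k hk
  by_cases h0 : k < 2
  · exact cert28_20.okR_spec 0 2 cert28_20_0 k (by omega) (by omega)
  by_cases h2 : k < 5
  · exact cert28_20.okR_spec 2 3 cert28_20_2 k (by omega) (by omega)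
  by_cases h5 : k < 9
  · exact cert28_20.okR_spec 5 4 cert28_20_5 k (by omega) (by omega)
  by_cases h9 : k < 17
  · exact cert28_20.okR_spec 9 8 cert28_20_9 k (by omega) (by omega)
  exact cert28_20.okR_spec 17 11 cert28_20_17 k (by omega) (by omega)

/-- certificate for `τ = 29/20` -/
def cert29_20 : Cert where
  M := 29
  D := 20
  V := 14853582
  F1 := 1688988151239385999017615929990527342919822124997301771543921052197869945115907245188651845741311860053582092450361378637010372624820778563430027
  F2 := 1616344970854954174793989216336494643140989800826480743749432840561619790713589105148991569558003190063877239063505178275711403514973116544091676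
  F3 := 1560898092572738741709196277193293255615626214066464861087248878507731458573984585948000158467757761668806117021229148074128927551063073669283840
  G := 3604450274037089320753829545136548357858419866707431114846115189153320656122007125597106933236114976767031656850417944052239411495630544966
  L := 9512294244
  H := 9512294246

theorem cert29_20_0 : cert29_20.okR 0 2 = true := by decide +kernel

theorem cert29_20_2 : cert29_20.okR 2 3 = true := by decide +kernel

theorem cert29_20_5 : cert29_20.okR 5 4 = true := by decide +kernel

theorem cert29_20_9 : cert29_20.okR 9 6 = true := by decide +kernel

theorem cert29_20_15 : cert29_20.okR 15 14 = true := by decide +kernel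

theorem cert29_20_ok : ∀ k < 29, cert29_20.okK k = true := by
  intro k hk
  by_cases h0 : k < 2
  · exact cert29_20.okR_spec 0 2 cert29_20_0 k (by omega) (by omega)
  by_cases h2 : k < 5
  · exact cert29_20.okR_spec 2 3 cert29_20_2 k (by omega) (by omega)
  by_cases h5 : k < 9
  · exact cert29_20.okR_spec 5 4 cert29_20_5 k (by omega) (by omega)
  by_cases h9 : k < 15
  · exact cert29_20.okR_spec 9 6 cert29_20_9 k (by omega) (by omega)
  exact cert29_20.okR_spec 15 14 cert29_20_15 k (by omega) (by omega)

/-- certificate for `τ = 30/20` -/
def cert30_20 : Cert where
  M := 30
  D := 20
  V := 13881172
  F1 := 110386715297931703249875353340839395380068231462118271874600330391870470655285351663308189560282895077666326071838603535586372573594062567580081874717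
  F2 := 106368954175896538634841152083843625793738104211226456568327544099920882853021234807771465795135667095644781390462441662546615605962616004113663690122
  F3 := 102295015489475632593748779469635355830601034334815355210608804259401665341010114024084279145953254664431035884226756400194710464214829230103470309356
  G := 230171687235193066095694672644028912467935844461565019607926377883517492496132568719713730794649779241882724535363782162653389543763997707542698
  L := 9512294244
  H := 9512294246

theorem cert30_20_0 : cert30_20.okR 0 2 = true := by decide +kernel

theorem cert30_20_2 : cert30_20.okR 2 2 = true := by decide +kernel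

theorem cert30_20_4 : cert30_20.okR 4 3 = true := by decide +kernel

theorem cert30_20_7 : cert30_20.okR 7 4 = true := by decide +kernel

theorem cert30_20_11 : cert30_20.okR 11 8 = true := by decide +kernel

theorem cert30_20_19 : cert30_20.okR 19 11 = true := by decide +kernel

theorem cert30_20_ok : ∀ k < 30, cert30_20.okK k = true := by
  intro k hk
  by_cases h0 : k < 2
  · exact cert30_20.okR_spec 0 2 cert30_20_0 k (by omega) (by omega)
  by_cases h2 : k < 4
  · exact cert30_20.okR_spec 2 2 cert30_20_2 k (by omega) (by omega)
  by_cases h4 : k < 7
  · exact cert30_20.okR_spec 4 3 cert30_20_4 k (by omega) (by omega)
  by_cases h7 : k < 11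
  · exact cert30_20.okR_spec 7 4 cert30_20_7 k (by omega) (by omega)
  by_cases h11 : k < 19
  · exact cert30_20.okR_spec 11 8 cert30_20_11 k (by omega) (by omega)
  exact cert30_20.okR_spec 19 11 cert30_20_19 k (by omega) (by omega)

end Pool.Agent.Lib.MP92dd55
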