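import Pool.Agent.Lib.MP92dd55.CertDefs

/-! # Certificates for deadlines between `31 n / 20` and `34 n / 20` -/

namespace Pool.Agent.Lib.MP92dd55

/-- certificate for `τ = 31/20` -/
def cert31_20 : Cert where
  M := 31
  D := 20
  V := 12967657
  F1 := 7205456788022250329111082685486050736808066461461945657362661297744429351951283907102128507323075498667884026938119839148417281021635459178140339708717148
  F2 := 7010276795952479359453969588745825280490389142797753641275499271748332557881044753975173829163483433719161690646586676053710858134597741586609087827444739
  F3 := 6704006259988693396793189152990145203406482935975761748702916935803383897725642593054761837221837056817684655970928128700325127519369271442812814688813056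
  G := 14769224659143612990915922155829985061850710702829453808275466610175786026552077029735898609654587544298867097215870643948326764091979526366248837371
  L := 9512294244
  H := 9512294246

theorem cert31_20_0 : cert31_20.okR 0 2 = true := by decide +kernel

theorem cert31_20_2 : cert31_20.okR 2 2 = true := by decide +kernel

theorem cert31_20_4 : cert31_20.okR 4 3 = true := by decide +kernel

theorem cert31_20_7 : cert31_20.okR 7 4 = true := by decide +kernel

theorem cert31_20_11 : cert31_20.okR 11 6 = true := by decide +kernel

theorem cert31_20_17 : cert31_20.okR 17 14 = true := by decide +kernel

theorem cert31_20_ok : ∀ k < 31, cert31_20.okK k = true := by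
  intro k hk
  by_cases h0 : k < 2
  · exact cert31_20.okR_spec 0 2 cert31_20_0 k (by omega) (by omega)
  by_cases h2 : k < 4
  · exact cert31_20.okR_spec 2 2 cert31_20_2 k (by omega) (by omega)
  by_cases h4 : k < 7
  · exact cert31_20.okR_spec 4 3 cert31_20_4 k (by omega) (by omega)
  by_cases h7 : k < 11
  · exact cert31_20.okR_spec 7 4 cert31_20_7 k (by omega) (by omega)
  by_cases h11 : k < 17
  · exact cert31_20.okR_spec 11 6 cert31_20_11 k (by omega) (by omega)
  exact cert31_20.okR_spec 17 14 cert31_20_17 k (by omega) (by omega)

/-- certificate for `τ = 32/20` -/
def cert32_20 : Cert where
  M := 32
  D := 20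
  V := 12102899
  F1 := 469843607050444785678620412233121685833134009253661356926184525833049803680134029033914869406195781054555622564789101833194043945831634354091526574286206036098
  F2 := 462200955213077736950927207384231906633948921338314239155339972433726826093461735104140209053686895635481865033290065197676972835391288708946050936967955252105
  F3 := 439353754254631497922773466488227233638886381075319129295332548964012685437092275612416430316029250370347117836733073160274580349097559230576253375849566732226
  G := 943160534901321784838737662474075443741162636409559324852626953112898984454285576319825834993538767404500763082889882030036939226238078655324113091109230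
  L := 9512294244
  H := 9512294246

theorem cert32_20_0 : cert32_20.okR 0 2 = true := by decide +kernel

theorem cert32_20_2 : cert32_20.okR 2 2 = true := by decide +kernel

theorem cert32_20_4 : cert32_20.okR 4 2 = true := by decide +kernel

theorem cert32_20_6 : cert32_20.okR 6 3 = true := by decide +kernel

theorem cert32_20_9 : cert32_20.okR 9 4 = true := by decide +kernel

theorem cert32_20_13 : cert32_20.okR 13 8 = true := by decide +kernel

theorem cert32_20_21 : cert32_20.okR 21 11 = true := by decide +kernel

theorem cert32_20_ok : ∀ k < 32, cert32_20.okK k = true := by
  intro k hk
  by_cases h0 : k < 2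
  · exact cert32_20.okR_spec 0 2 cert32_20_0 k (by omega) (by omega)
  by_cases h2 : k < 4
  · exact cert32_20.okR_spec 2 2 cert32_20_2 k (by omega) (by omega)
  by_cases h4 : k < 6
  · exact cert32_20.okR_spec 4 2 cert32_20_4 k (by omega) (by omega)
  by_cases h6 : k < 9
  · exact cert32_20.okR_spec 6 3 cert32_20_6 k (by omega) (by omega)
  by_cases h9 : k < 13
  · exact cert32_20.okR_spec 9 4 cert32_20_9 k (by omega) (by omega)
  by_cases h13 : k < 21
  · exact cert32_20.okR_spec 13 8 cert32_20_13 k (by omega) (by omega)
  exact cert32_20.okR_spec 21 11 cert32_20_21 k (by omega) (by omega)

/-- certificate for `τ = 33/20` -/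
def cert33_20 : Cert where
  M := 33
  D := 20
  V := 11285556
  F1 := 30749491062306826063141438368885219786375374193411150506876366318129406488225758084641021691204455800286431316125409350270034258216755426823067828693359794929886886
  F2 := 30301348851858556002876801230583989780478467958538074507636922316375316647883600806112245448388192511682261495923620612061629748271988600509024482307234732917884408
  F3 := 28793487638830711468997898687634614258922112004397958559366798659080065326864643717754838827936665656072849431836147439534375407262720627394227773338160494725332992
  G := 60617649767904026164833455354077391824174306474950123590845186505671547156169468511735758341089009343966772294266279580044613438862008624391029046408963104977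
  L := 9512294244
  H := 9512294246

theorem cert33_20_0 : cert33_20.okR 0 2 = true := by decide +kernel

theorem cert33_20_2 : cert33_20.okR 2 2 = true := by decide +kernel

theorem cert33_20_4 : cert33_20.okR 4 2 = true := by decide +kernel

theorem cert33_20_6 : cert33_20.okR 6 3 = true := by decide +kernel

theorem cert33_20_9 : cert33_20.okR 9 4 = true := by decide +kernel

theorem cert33_20_13 : cert33_20.okR 13 6 = true := by decide +kernel

theorem cert33_20_19 : cert33_20.okR 19 14 = true := by decide +kernel

theorem cert33_20_ok : ∀ k < 33, cert33_20.okK k = true := by
  intro k hk
  by_cases h0 : k < 2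
  · exact cert33_20.okR_spec 0 2 cert33_20_0 k (by omega) (by omega)
  by_cases h2 : k < 4
  · exact cert33_20.okR_spec 2 2 cert33_20_2 k (by omega) (by omega)
  by_cases h4 : k < 6
  · exact cert33_20.okR_spec 4 2 cert33_20_4 k (by omega) (by omega)
  by_cases h6 : k < 9
  · exact cert33_20.okR_spec 6 3 cert33_20_6 k (by omega) (by omega)
  by_cases h9 : k < 13
  · exact cert33_20.okR_spec 9 4 cert33_20_9 k (by omega) (by omega)
  by_cases h13 : k < 19
  · exact cert33_20.okR_spec 13 6 cert33_20_13 k (by omega) (by omega)
  exact cert33_20.okR_spec 19 14 cert33_20_19 k (by omega) (by omega)

/-- certificate for `τ = 34/20` -/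
def cert34_20 : Cert where
  M := 34
  D := 20
  V := 10534047
  F1 := 2007597188368574569380573082625842987435853319885734107196371700133779424971349821893126410120747275703592252497169561798921964190457150767096922000284202403624235001796
  F2 := 1992221328887259693215057581811727557240963103878460658297094846637380974461758937368772466514623818299469242016642620382283470895193340765160949111378552225719612704056
  F3 := 1887010005898409506832246288392822080072719532320224612146662516921471161261401290686781117427657320436390260364813758597324826690369659036908111353489686182319422996480
  G := 3930459449851474807555611694589793570984249165893901263721069976810674299421019928780088868836921197061324319588067529526233049641922774951754197361310106218799388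
  L := 9512294244
  H := 9512294246

theorem cert34_20_0 : cert34_20.okR 0 1 = true := by decide +kernel

theorem cert34_20_1 : cert34_20.okR 1 2 = true := by decide +kernel

theorem cert34_20_3 : cert34_20.okR 3 2 = true := by decide +kernel

theorem cert34_20_5 : cert34_20.okR 5 2 = true := by decide +kernel

theorem cert34_20_7 : cert34_20.okR 7 3 = true := by decide +kernel

theorem cert34_20_10 : cert34_20.okR 10 4 = true := by decide +kernel

theorem cert34_20_14 : cert34_20.okR 14 6 = true := by decide +kernel

theorem cert34_20_20 : cert34_20.okR 20 14 = true := by decide +kernel

theorem cert34_20_ok : ∀ k < 34, cert34_20.okK k = true := by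
  intro k hk
  by_cases h0 : k < 1
  · exact cert34_20.okR_spec 0 1 cert34_20_0 k (by omega) (by omega)
  by_cases h1 : k < 3
  · exact cert34_20.okR_spec 1 2 cert34_20_1 k (by omega) (by omega)
  by_cases h3 : k < 5
  · exact cert34_20.okR_spec 3 2 cert34_20_3 k (by omega) (by omega)
  by_cases h5 : k < 7
  · exact cert34_20.okR_spec 5 2 cert34_20_5 k (by omega) (by omega)
  by_cases h7 : k < 10
  · exact cert34_20.okR_spec 7 3 cert34_20_7 k (by omega) (by omega)
  by_cases h10 : k < 14
  · exact cert34_20.okR_spec 10 4 cert34_20_10 k (by omega) (by omega)
  by_cases h14 : k < 20
  · exact cert34_20.okR_spec 14 6 cert34_20_14 k (by omega) (by omega)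
  exact cert34_20.okR_spec 20 14 cert34_20_20 k (by omega) (by omega)

end Pool.Agent.Lib.MP92dd55
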