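import Pool.Agent.Lib.MP92dd55.CertDefs

/-! # Certificates for deadlines between `35 n / 20` and `37 n / 20` -/

namespace Pool.Agent.Lib.MP92dd55

/-- certificate for `τ = 35/20` -/
def cert35_20 : Cert where
  M := 35
  D := 20
  V := 9793713
  F1 := 131139654222914428520975023321128678411164605516388346520098839978256264335990641069266044377278063677576802997741468023435570635383348070289805398030942717025585543525458209
  F2 := 130698081269616673530063224027364404330752029028084463347001698004852547248688736017087924916853340520249311704318591744515141888401177112793881561900365128701612842626681028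
  F3 := 122251851952424038256149379094873352582157309757911889345671732386401674350029537924967531512332570850080005486167868220270623311424917285800460520067501688160815015300657896
  G := 245608584003566453227375800400645574444608000004941942736205491871921006968047961175094059122029916089852668042336154394380292331084151821909192821247199905687401799109
  L := 9512294244
  H := 9512294246

theorem cert35_20_0 : cert35_20.okR 0 1 = true := by decide +kernel

theorem cert35_20_1 : cert35_20.okR 1 1 = true := by decide +kernel

theorem cert35_20_2 : cert35_20.okR 2 2 = true := by decide +kernel

theorem cert35_20_4 : cert35_20.okR 4 2 = true := by decide +kernel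

theorem cert35_20_6 : cert35_20.okR 6 2 = true := by decide +kernel

theorem cert35_20_8 : cert35_20.okR 8 3 = true := by decide +kernel

theorem cert35_20_11 : cert35_20.okR 11 4 = true := by decide +kernel

theorem cert35_20_15 : cert35_20.okR 15 6 = true := by decide +kernel

theorem cert35_20_21 : cert35_20.okR 21 14 = true := by decide +kernel

theorem cert35_20_ok : ∀ k < 35, cert35_20.okK k = true := by
  intro k hk
  by_cases h0 : k < 1
  · exact cert35_20.okR_spec 0 1 cert35_20_0 k (by omega) (by omega)
  by_cases h1 : k < 2
  · exact cert35_20.okR_spec 1 1 cert35_20_1 k (by omega) (by omega)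
  by_cases h2 : k < 4
  · exact cert35_20.okR_spec 2 2 cert35_20_2 k (by omega) (by omega)
  by_cases h4 : k < 6
  · exact cert35_20.okR_spec 4 2 cert35_20_4 k (by omega) (by omega)
  by_cases h6 : k < 8
  · exact cert35_20.okR_spec 6 2 cert35_20_6 k (by omega) (by omega)
  by_cases h8 : k < 11
  · exact cert35_20.okR_spec 8 3 cert35_20_8 k (by omega) (by omega)
  by_cases h11 : k < 15
  · exact cert35_20.okR_spec 11 4 cert35_20_11 k (by omega) (by omega)
  by_cases h15 : k < 21
  · exact cert35_20.okR_spec 15 6 cert35_20_15 k (by omega) (by omega)
  exact cert35_20.okR_spec 21 14 cert35_20_21 k (by omega) (by omega)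

/-- certificate for `τ = 36/20` -/
def cert36_20 : Cert where
  M := 36
  D := 20
  V := 9081125
  F1 := 8586700634759885591937461244341820140244265396273182853071334903641592981574851632592023971944073718617439496729617423229432470793394153143546610425710896796706343487700290528091
  F2 := 8554794450627685619153480813539633163578943065671451060380505153962844643346857753626239837611393949895152371234141670270039598888861347254603708609540698646857374281870333806412
  F3 := 7974548795738277372294162123418342762582117333291344558469976755599860297697104065619763759743418639256044476019397020501003945686728320569339674504084913459427771871721690067823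
  G := 16152807550991499011536693761567347769385488676302567720693982118532595848025108829056327712137530903857205744601772159523258512293239858812144186048582470627582798519868527
  L := 9512294244
  H := 9512294246

theorem cert36_20_0 : cert36_20.okR 0 1 = true := by decide +kernel

theorem cert36_20_1 : cert36_20.okR 1 1 = true := by decide +kernel

theorem cert36_20_2 : cert36_20.okR 2 1 = true := by decide +kernel

theorem cert36_20_3 : cert36_20.okR 3 2 = true := by decide +kernel

theorem cert36_20_5 : cert36_20.okR 5 2 = true := by decide +kernel

theorem cert36_20_7 : cert36_20.okR 7 2 = true := by decide +kernel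

theorem cert36_20_9 : cert36_20.okR 9 3 = true := by decide +kernel

theorem cert36_20_12 : cert36_20.okR 12 4 = true := by decide +kernel

theorem cert36_20_16 : cert36_20.okR 16 6 = true := by decide +kernel

theorem cert36_20_22 : cert36_20.okR 22 14 = true := by decide +kernel

theorem cert36_20_ok : ∀ k < 36, cert36_20.okK k = true := by
  intro k hk
  by_cases h0 : k < 1
  · exact cert36_20.okR_spec 0 1 cert36_20_0 k (by omega) (by omega)
  by_cases h1 : k < 2
  · exact cert36_20.okR_spec 1 1 cert36_20_1 k (by omega) (by omega)
  by_cases h2 : k < 3
  · exact cert36_20.okR_spec 2 1 cert36_20_2 k (by omega) (by omega)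
  by_cases h3 : k < 5
  · exact cert36_20.okR_spec 3 2 cert36_20_3 k (by omega) (by omega)
  by_cases h5 : k < 7
  · exact cert36_20.okR_spec 5 2 cert36_20_5 k (by omega) (by omega)
  by_cases h7 : k < 9
  · exact cert36_20.okR_spec 7 2 cert36_20_7 k (by omega) (by omega)
  by_cases h9 : k < 12
  · exact cert36_20.okR_spec 9 3 cert36_20_9 k (by omega) (by omega)
  by_cases h12 : k < 16
  · exact cert36_20.okR_spec 12 4 cert36_20_12 k (by omega) (by omega)
  by_cases h16 : k < 22
  · exact cert36_20.okR_spec 16 6 cert36_20_16 k (by omega) (by omega)
  exact cert36_20.okR_spec 22 14 cert36_20_22 k (by omega) (by omega)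

/-- certificate for `τ = 37/20` -/
def cert37_20 : Cert where
  M := 37
  D := 20
  V := 8388509
  F1 := 546236960923925884947398220080199452892429179899247658971437580118640696744780567788634426444366920645072661654519064558951701749401056116023929803891861729496730241374586724377584852
  F2 := 533026394688484432240680928121810368191603462834541838613944738358815626058994297119073732228002873806414080767833821391190372703024512241650067435886495973048741872419061888568626518
  F3 := 490055554762877918084110799090711330813016869495258116577720147201468650459346162683494818825014381274195864358292564365936485341735799053844348371485488983895642328796535044183851986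
  G := 1031383587296082143603664987270702120442924778443719949402640240482727552126008705729771308142919939443816832692104419887073608034470798132814720505758751887123138815077541093912
  L := 9512294244
  H := 9512294246

theorem cert37_20_0 : cert37_20.okR 0 1 = true := by decide +kernel

theorem cert37_20_1 : cert37_20.okR 1 1 = true := by decide +kernel

theorem cert37_20_2 : cert37_20.okR 2 1 = true := by decide +kernel

theorem cert37_20_3 : cert37_20.okR 3 1 = true := by decide +kernel

theorem cert37_20_4 : cert37_20.okR 4 2 = true := by decide +kernel

theorem cert37_20_6 : cert37_20.okR 6 2 = true := by decide +kernel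

theorem cert37_20_8 : cert37_20.okR 8 2 = true := by decide +kernel

theorem cert37_20_10 : cert37_20.okR 10 3 = true := by decide +kernel

theorem cert37_20_13 : cert37_20.okR 13 4 = true := by decide +kernel

theorem cert37_20_17 : cert37_20.okR 17 6 = true := by decide +kernel

theorem cert37_20_23 : cert37_20.okR 23 14 = true := by decide +kernel

theorem cert37_20_ok : ∀ k < 37, cert37_20.okK k = true := by
  intro k hk
  by_cases h0 : k < 1
  · exact cert37_20.okR_spec 0 1 cert37_20_0 k (by omega) (by omega)
  by_cases h1 : k < 2
  · exact cert37_20.okR_spec 1 1 cert37_20_1 k (by omega) (by omega)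
  by_cases h2 : k < 3
  · exact cert37_20.okR_spec 2 1 cert37_20_2 k (by omega) (by omega)
  by_cases h3 : k < 4
  · exact cert37_20.okR_spec 3 1 cert37_20_3 k (by omega) (by omega)
  by_cases h4 : k < 6
  · exact cert37_20.okR_spec 4 2 cert37_20_4 k (by omega) (by omega)
  by_cases h6 : k < 8
  · exact cert37_20.okR_spec 6 2 cert37_20_6 k (by omega) (by omega)
  by_cases h8 : k < 10
  · exact cert37_20.okR_spec 8 2 cert37_20_8 k (by omega) (by omega)
  by_cases h10 : k < 13
  · exact cert37_20.okR_spec 10 3 cert37_20_10 k (by omega) (by omega)
  by_cases h13 : k < 17
  · exact cert37_20.okR_spec 13 4 cert37_20_13 k (by omega) (by omega)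
  by_cases h17 : k < 23
  · exact cert37_20.okR_spec 17 6 cert37_20_17 k (by omega) (by omega)
  exact cert37_20.okR_spec 23 14 cert37_20_23 k (by omega) (by omega)

end Pool.Agent.Lib.MP92dd55
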