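import Pool.Agent.Lib.MP92dd55.CertDefs

/-! # Certificates for deadlines between `38 n / 20` and `40 n / 20` -/

namespace Pool.Agent.Lib.MP92dd55

/-- certificate for `τ = 38/20` -/
def cert38_20 : Cert where
  M := 38
  D := 20
  V := 7723941
  F1 := 35686644093614901310346638066020078099492220386471855659828896062394228668593216507212707024692175636980988338953448953177009440721292443447513029662048491032842769975815194002272187015638
  F2 := 34947288952844800106623163865231646669285406126941553731653285922605924652308037182690972331657387741946201701484138488976855655280529376732773878940447852863729198267458244676697409490533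
  F3 := 32131152765550036632241511294600734742540899858397586452211829184056749491209790701092275549708504270703958177901883793778045767480159192759317070032066069376711215277624253501348138156907
  G := 73330768893381173126649054520644892297245213853302800919342412865011494444279540585587575835624531466068849069087681214182640873221097527057042139299940786878419302735776563231269669
  L := 9512294244
  H := 9512294246

theorem cert38_20_0 : cert38_20.okR 0 1 = true := by decide +kernel

theorem cert38_20_1 : cert38_20.okR 1 1 = true := by decide +kernel

theorem cert38_20_2 : cert38_20.okR 2 1 = true := by decide +kernel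

theorem cert38_20_3 : cert38_20.okR 3 1 = true := by decide +kernel

theorem cert38_20_4 : cert38_20.okR 4 1 = true := by decide +kernel

theorem cert38_20_5 : cert38_20.okR 5 2 = true := by decide +kernel

theorem cert38_20_7 : cert38_20.okR 7 2 = true := by decide +kernel

theorem cert38_20_9 : cert38_20.okR 9 2 = true := by decide +kernel

theorem cert38_20_11 : cert38_20.okR 11 3 = true := by decide +kernel

theorem cert38_20_14 : cert38_20.okR 14 4 = true := by decide +kernel

theorem cert38_20_18 : cert38_20.okR 18 6 = true := by decide +kernel

theorem cert38_20_24 : cert38_20.okR 24 14 = true := by decide +kernel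

theorem cert38_20_ok : ∀ k < 38, cert38_20.okK k = true := by
  intro k hk
  by_cases h0 : k < 1
  · exact cert38_20.okR_spec 0 1 cert38_20_0 k (by omega) (by omega)
  by_cases h1 : k < 2
  · exact cert38_20.okR_spec 1 1 cert38_20_1 k (by omega) (by omega)
  by_cases h2 : k < 3
  · exact cert38_20.okR_spec 2 1 cert38_20_2 k (by omega) (by omega)
  by_cases h3 : k < 4
  · exact cert38_20.okR_spec 3 1 cert38_20_3 k (by omega) (by omega)
  by_cases h4 : k < 5
  · exact cert38_20.okR_spec 4 1 cert38_20_4 k (by omega) (by omega)
  by_cases h5 : k < 7
  · exact cert38_20.okR_spec 5 2 cert38_20_5 k (by omega) (by omega)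
  by_cases h7 : k < 9
  · exact cert38_20.okR_spec 7 2 cert38_20_7 k (by omega) (by omega)
  by_cases h9 : k < 11
  · exact cert38_20.okR_spec 9 2 cert38_20_9 k (by omega) (by omega)
  by_cases h11 : k < 14
  · exact cert38_20.okR_spec 11 3 cert38_20_11 k (by omega) (by omega)
  by_cases h14 : k < 18
  · exact cert38_20.okR_spec 14 4 cert38_20_14 k (by omega) (by omega)
  by_cases h18 : k < 24
  · exact cert38_20.okR_spec 18 6 cert38_20_18 k (by omega) (by omega)
  exact cert38_20.okR_spec 24 14 cert38_20_24 k (by omega) (by omega)

/-- certificate for `τ = 39/20` -/
def cert39_20 : Cert where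
  M := 39
  D := 20
  V := 7085608
  F1 := 2392992665646665621263410419466207924992631031912316898246050548691039947652269746448076510403516057386073446109937355025611541347009015506995435055737543462401262592625430105530390415105615603
  F2 := 2420909558992779216142785523201839690832342884949144721874422963894026467707534503194543694014998860014355277602015218485952950309700164997623024620816181055530774053123148844510127276299553735
  F3 := 2233148917452304074519738773493781780615642161805750870858114893267416256035103135141456888359210909460842287962455243285884865902365264212487091573187033597536879314801153985540415468538925315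
  G := 4352209193753990455243244448453900943235917897876879116761024720892660845175553909796168035842758571400544592538832116356893498610685853230979317025387239120430161965202437132004183841534
  L := 9512294244
  H := 9512294246

theorem cert39_20_0 : cert39_20.okR 0 1 = true := by decide +kernel

theorem cert39_20_1 : cert39_20.okR 1 1 = true := by decide +kernel

theorem cert39_20_2 : cert39_20.okR 2 1 = true := by decide +kernel

theorem cert39_20_3 : cert39_20.okR 3 1 = true := by decide +kernel

theorem cert39_20_4 : cert39_20.okR 4 1 = true := by decide +kernel

theorem cert39_20_5 : cert39_20.okR 5 1 = true := by decide +kernel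

theorem cert39_20_6 : cert39_20.okR 6 2 = true := by decide +kernel

theorem cert39_20_8 : cert39_20.okR 8 2 = true := by decide +kernel

theorem cert39_20_10 : cert39_20.okR 10 2 = true := by decide +kernel

theorem cert39_20_12 : cert39_20.okR 12 3 = true := by decide +kernel

theorem cert39_20_15 : cert39_20.okR 15 4 = true := by decide +kernel

theorem cert39_20_19 : cert39_20.okR 19 6 = true := by decide +kernel

theorem cert39_20_25 : cert39_20.okR 25 14 = true := by decide +kernel

theorem cert39_20_ok : ∀ k < 39, cert39_20.okK k = true := by
  intro k hk
  by_cases h0 : k < 1
  · exact cert39_20.okR_spec 0 1 cert39_20_0 k (by omega) (by omega)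
  by_cases h1 : k < 2
  · exact cert39_20.okR_spec 1 1 cert39_20_1 k (by omega) (by omega)
  by_cases h2 : k < 3
  · exact cert39_20.okR_spec 2 1 cert39_20_2 k (by omega) (by omega)
  by_cases h3 : k < 4
  · exact cert39_20.okR_spec 3 1 cert39_20_3 k (by omega) (by omega)
  by_cases h4 : k < 5
  · exact cert39_20.okR_spec 4 1 cert39_20_4 k (by omega) (by omega)
  by_cases h5 : k < 6
  · exact cert39_20.okR_spec 5 1 cert39_20_5 k (by omega) (by omega)
  by_cases h6 : k < 8
  · exact cert39_20.okR_spec 6 2 cert39_20_6 k (by omega) (by omega)
  by_cases h8 : k < 10
  · exact cert39_20.okR_spec 8 2 cert39_20_8 k (by omega) (by omega)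
  by_cases h10 : k < 12
  · exact cert39_20.okR_spec 10 2 cert39_20_10 k (by omega) (by omega)
  by_cases h12 : k < 15
  · exact cert39_20.okR_spec 12 3 cert39_20_12 k (by omega) (by omega)
  by_cases h15 : k < 19
  · exact cert39_20.okR_spec 15 4 cert39_20_15 k (by omega) (by omega)
  by_cases h19 : k < 25
  · exact cert39_20.okR_spec 19 6 cert39_20_19 k (by omega) (by omega)
  exact cert39_20.okR_spec 25 14 cert39_20_25 k (by omega) (by omega)

/-- certificate for `τ = 40/20` -/
def cert40_20 : Cert where
  M := 40
  D := 20
  V := 6462285
  F1 := 156366353662878484803640514208022783210273634974300983543443215062237794664275529976133138972784527776692104745334402857325926974919270323801733973059728093672169868291481510235069787965903646779169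
  F2 := 158898539951175386670047153626891932520165552302298636886328185279827875415507373471089171327868330590072299072883677916818531994826340736427926076664457349101043663700915171673307822680025175919756
  F3 := 146169146626725457188304261787733532816176222215672117551158215541388226972117980254639486120858520176296612005428398950122414835022067371335254153714233197770787562112220538906221040747056732214002
  G := 297548438976607860875828879222693361492239601312117484579591026930117855047620269845524798113171302117080913343848094197536063686067632492727689995537008487551500828220049084055159534172511470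
  L := 9512294244
  H := 9512294246

theorem cert40_20_0 : cert40_20.okR 0 1 = true := by decide +kernel

theorem cert40_20_1 : cert40_20.okR 1 1 = true := by decide +kernel

theorem cert40_20_2 : cert40_20.okR 2 1 = true := by decide +kernel

theorem cert40_20_3 : cert40_20.okR 3 1 = true := by decide +kernel

theorem cert40_20_4 : cert40_20.okR 4 1 = true := by decide +kernel

theorem cert40_20_5 : cert40_20.okR 5 1 = true := by decide +kernel

theorem cert40_20_6 : cert40_20.okR 6 1 = true := by decide +kernel

theorem cert40_20_7 : cert40_20.okR 7 2 = true := by decide +kernel

theorem cert40_20_9 : cert40_20.okR 9 2 = true := by decide +kernel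

theorem cert40_20_11 : cert40_20.okR 11 2 = true := by decide +kernel

theorem cert40_20_13 : cert40_20.okR 13 3 = true := by decide +kernel

theorem cert40_20_16 : cert40_20.okR 16 4 = true := by decide +kernel

theorem cert40_20_20 : cert40_20.okR 20 6 = true := by decide +kernel

theorem cert40_20_26 : cert40_20.okR 26 14 = true := by decide +kernel

theorem cert40_20_ok : ∀ k < 40, cert40_20.okK k = true := by
  intro k hk
  by_cases h0 : k < 1
  · exact cert40_20.okR_spec 0 1 cert40_20_0 k (by omega) (by omega)
  by_cases h1 : k < 2
  · exact cert40_20.okR_spec 1 1 cert40_20_1 k (by omega) (by omega)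
  by_cases h2 : k < 3
  · exact cert40_20.okR_spec 2 1 cert40_20_2 k (by omega) (by omega)
  by_cases h3 : k < 4
  · exact cert40_20.okR_spec 3 1 cert40_20_3 k (by omega) (by omega)
  by_cases h4 : k < 5
  · exact cert40_20.okR_spec 4 1 cert40_20_4 k (by omega) (by omega)
  by_cases h5 : k < 6
  · exact cert40_20.okR_spec 5 1 cert40_20_5 k (by omega) (by omega)
  by_cases h6 : k < 7
  · exact cert40_20.okR_spec 6 1 cert40_20_6 k (by omega) (by omega)
  by_cases h7 : k < 9
  · exact cert40_20.okR_spec 7 2 cert40_20_7 k (by omega) (by omega)
  by_cases h9 : k < 11
  · exact cert40_20.okR_spec 9 2 cert40_20_9 k (by omega) (by omega)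
  by_cases h11 : k < 13
  · exact cert40_20.okR_spec 11 2 cert40_20_11 k (by omega) (by omega)
  by_cases h13 : k < 16
  · exact cert40_20.okR_spec 13 3 cert40_20_13 k (by omega) (by omega)
  by_cases h16 : k < 20
  · exact cert40_20.okR_spec 16 4 cert40_20_16 k (by omega) (by omega)
  by_cases h20 : k < 26
  · exact cert40_20.okR_spec 20 6 cert40_20_20 k (by omega) (by omega)
  exact cert40_20.okR_spec 26 14 cert40_20_26 k (by omega) (by omega)

end Pool.Agent.Lib.MP92dd55
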