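import Pool.Agent.Lib.MP92dd55.CertDefs

/-! # Certificates for deadlines between `41 n / 20` and `42 n / 20` -/

namespace Pool.Agent.Lib.MP92dd55

/-- certificate for `τ = 41/20` -/
def cert41_20 : Cert where
  M := 41
  D := 20
  V := 5857132
  F1 := 10530188333128152749941355906226513965977214402829324704354508980348254242910154060509939775128354664193000964989869511535506183589527662309104315677952504287303431806022556468133633158466088643531664705
  F2 := 9547346398684535455463251840312181090793693095484074529851672019545900217866128688100081013456089766053915927877800024895109914152296761090552235493442515214688515347065167119967526751373315530277284654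
  F3 := 9641236522019642850933771510902635314873601518808551730861783434308204141628436359683189165198511252217203993526638869249568168636975873775021636986647310144979757931321624583812494649224521311553222027
  G := 16958856534560828336940253295134202553418423316842684088920120658461376152245772750463688827338104192139690989743410724366564207488510957764063518919893931633124333608182999875418845059840643830771
  L := 9512294244
  H := 9512294246

theorem cert41_20_0 : cert41_20.okR 0 1 = true := by decide +kernel

theorem cert41_20_1 : cert41_20.okR 1 1 = true := by decide +kernel

theorem cert41_20_2 : cert41_20.okR 2 1 = true := by decide +kernel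

theorem cert41_20_3 : cert41_20.okR 3 1 = true := by decide +kernel

theorem cert41_20_4 : cert41_20.okR 4 1 = true := by decide +kernel

theorem cert41_20_5 : cert41_20.okR 5 1 = true := by decide +kernel

theorem cert41_20_6 : cert41_20.okR 6 1 = true := by decide +kernel

theorem cert41_20_7 : cert41_20.okR 7 1 = true := by decide +kernel

theorem cert41_20_8 : cert41_20.okR 8 2 = true := by decide +kernel

theorem cert41_20_10 : cert41_20.okR 10 2 = true := by decide +kernel

theorem cert41_20_12 : cert41_20.okR 12 2 = true := by decide +kernel

theorem cert41_20_14 : cert41_20.okR 14 3 = true := by decide +kernel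

theorem cert41_20_17 : cert41_20.okR 17 4 = true := by decide +kernel

theorem cert41_20_21 : cert41_20.okR 21 6 = true := by decide +kernel

theorem cert41_20_27 : cert41_20.okR 27 14 = true := by decide +kernel

theorem cert41_20_ok : ∀ k < 41, cert41_20.okK k = true := by
  intro k hk
  by_cases h0 : k < 1
  · exact cert41_20.okR_spec 0 1 cert41_20_0 k (by omega) (by omega)
  by_cases h1 : k < 2
  · exact cert41_20.okR_spec 1 1 cert41_20_1 k (by omega) (by omega)
  by_cases h2 : k < 3
  · exact cert41_20.okR_spec 2 1 cert41_20_2 k (by omega) (by omega)
  by_cases h3 : k < 4
  · exact cert41_20.okR_spec 3 1 cert41_20_3 k (by omega) (by omega)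
  by_cases h4 : k < 5
  · exact cert41_20.okR_spec 4 1 cert41_20_4 k (by omega) (by omega)
  by_cases h5 : k < 6
  · exact cert41_20.okR_spec 5 1 cert41_20_5 k (by omega) (by omega)
  by_cases h6 : k < 7
  · exact cert41_20.okR_spec 6 1 cert41_20_6 k (by omega) (by omega)
  by_cases h7 : k < 8
  · exact cert41_20.okR_spec 7 1 cert41_20_7 k (by omega) (by omega)
  by_cases h8 : k < 10
  · exact cert41_20.okR_spec 8 2 cert41_20_8 k (by omega) (by omega)
  by_cases h10 : k < 12
  · exact cert41_20.okR_spec 10 2 cert41_20_10 k (by omega) (by omega)
  by_cases h12 : k < 14
  · exact cert41_20.okR_spec 12 2 cert41_20_12 k (by omega) (by omega)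
  by_cases h14 : k < 17
  · exact cert41_20.okR_spec 14 3 cert41_20_14 k (by omega) (by omega)
  by_cases h17 : k < 21
  · exact cert41_20.okR_spec 17 4 cert41_20_17 k (by omega) (by omega)
  by_cases h21 : k < 27
  · exact cert41_20.okR_spec 21 6 cert41_20_21 k (by omega) (by omega)
  exact cert41_20.okR_spec 27 14 cert41_20_27 k (by omega) (by omega)

/-- certificate for `τ = 42/20` -/
def cert42_20 : Cert where
  M := 42
  D := 20
  V := 5288311
  F1 := 689283400635496278594444034974336676186243735539856302729697210987174446698096896982587819405281527484809488406592582204561708779157069749111881951983380488103046115954610087508031219011247497158706086505987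
  F2 := 626674690578605100780188186623035916721445830074697010597011308734642222168111058722940129253923979196383126073452558091259948174894870098476880633997384099319923341804693382717513773138879326412688537185306
  F3 := 628908682135199807062901990290481294278106126187811378788730923263125296714042260641740320166947409944222276312092052470963577145189509373159773213115429445030209386506383410184253515599315562357889670608515
  G := 1084205809989803011889386700858397380496809765864881825572997681551592387503698777806950506344742135521611606337122120902714959801262980752856659536662364231404785360253085692401072476746407637466813644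
  L := 9512294244
  H := 9512294246

theorem cert42_20_0 : cert42_20.okR 0 1 = true := by decide +kernel

theorem cert42_20_1 : cert42_20.okR 1 1 = true := by decide +kernel

theorem cert42_20_2 : cert42_20.okR 2 1 = true := by decide +kernel

theorem cert42_20_3 : cert42_20.okR 3 1 = true := by decide +kernel

theorem cert42_20_4 : cert42_20.okR 4 1 = true := by decide +kernel

theorem cert42_20_5 : cert42_20.okR 5 1 = true := by decide +kernel

theorem cert42_20_6 : cert42_20.okR 6 1 = true := by decide +kernel

theorem cert42_20_7 : cert42_20.okR 7 1 = true := by decide +kernel

theorem cert42_20_8 : cert42_20.okR 8 1 = true := by decide +kernel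

theorem cert42_20_9 : cert42_20.okR 9 2 = true := by decide +kernel

theorem cert42_20_11 : cert42_20.okR 11 2 = true := by decide +kernel

theorem cert42_20_13 : cert42_20.okR 13 2 = true := by decide +kernel

theorem cert42_20_15 : cert42_20.okR 15 3 = true := by decide +kernel

theorem cert42_20_18 : cert42_20.okR 18 4 = true := by decide +kernel

theorem cert42_20_22 : cert42_20.okR 22 6 = true := by decide +kernel

theorem cert42_20_28 : cert42_20.okR 28 14 = true := by decide +kernel

theorem cert42_20_ok : ∀ k < 42, cert42_20.okK k = true := by
  intro k hk
  by_cases h0 : k < 1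
  · exact cert42_20.okR_spec 0 1 cert42_20_0 k (by omega) (by omega)
  by_cases h1 : k < 2
  · exact cert42_20.okR_spec 1 1 cert42_20_1 k (by omega) (by omega)
  by_cases h2 : k < 3
  · exact cert42_20.okR_spec 2 1 cert42_20_2 k (by omega) (by omega)
  by_cases h3 : k < 4
  · exact cert42_20.okR_spec 3 1 cert42_20_3 k (by omega) (by omega)
  by_cases h4 : k < 5
  · exact cert42_20.okR_spec 4 1 cert42_20_4 k (by omega) (by omega)
  by_cases h5 : k < 6
  · exact cert42_20.okR_spec 5 1 cert42_20_5 k (by omega) (by omega)
  by_cases h6 : k < 7
  · exact cert42_20.okR_spec 6 1 cert42_20_6 k (by omega) (by omega)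
  by_cases h7 : k < 8
  · exact cert42_20.okR_spec 7 1 cert42_20_7 k (by omega) (by omega)
  by_cases h8 : k < 9
  · exact cert42_20.okR_spec 8 1 cert42_20_8 k (by omega) (by omega)
  by_cases h9 : k < 11
  · exact cert42_20.okR_spec 9 2 cert42_20_9 k (by omega) (by omega)
  by_cases h11 : k < 13
  · exact cert42_20.okR_spec 11 2 cert42_20_11 k (by omega) (by omega)
  by_cases h13 : k < 15
  · exact cert42_20.okR_spec 13 2 cert42_20_13 k (by omega) (by omega)
  by_cases h15 : k < 18
  · exact cert42_20.okR_spec 15 3 cert42_20_15 k (by omega) (by omega)
  by_cases h18 : k < 22
  · exact cert42_20.okR_spec 18 4 cert42_20_18 k (by omega) (by omega)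
  by_cases h22 : k < 28
  · exact cert42_20.okR_spec 22 6 cert42_20_22 k (by omega) (by omega)
  exact cert42_20.okR_spec 28 14 cert42_20_28 k (by omega) (by omega)

end Pool.Agent.Lib.MP92dd55
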