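import Pool.Agent.Lib.MP92dd55.CertDefs

/-! # Certificates for deadlines between `43 n / 20` and `44 n / 20` -/

namespace Pool.Agent.Lib.MP92dd55

/-- certificate for `τ = 43/20` -/
def cert43_20 : Cert where
  M := 43
  D := 20
  V := 4743837
  F1 := 45160032483478554688448789138824981078972905285406862790912617226811535260880247708913220003526689193207450567494148551461847560855388208591585871940276666797796498937050375325878235956766898212798558373095500347
  F2 := 41471718477928288673462153271697906006712797480948704515509886110832295430871578057092931861627327056617610491631241074061187751280083878845538069812713708628980207744619388983544016316020680678767641492744927924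
  F3 := 43252953096767065049542425361787969712714053090274911025883294512089283274869708537871255616703448833020757904486913271203928784834914157153521462271870672807323262327696045000479062976131985688917260552147015432
  G := 75972977351855519267265943001561198691492856510665643559942236162091202285713802279173348614137686164287236990070836411652144155751938037853756428256585867336218422007895242789512311121354969674506667034756
  L := 9512294244
  H := 9512294246

theorem cert43_20_0 : cert43_20.okR 0 1 = true := by decide +kernel

theorem cert43_20_1 : cert43_20.okR 1 1 = true := by decide +kernel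

theorem cert43_20_2 : cert43_20.okR 2 1 = true := by decide +kernel

theorem cert43_20_3 : cert43_20.okR 3 1 = true := by decide +kernel

theorem cert43_20_4 : cert43_20.okR 4 1 = true := by decide +kernel

theorem cert43_20_5 : cert43_20.okR 5 1 = true := by decide +kernel

theorem cert43_20_6 : cert43_20.okR 6 1 = true := by decide +kernel

theorem cert43_20_7 : cert43_20.okR 7 1 = true := by decide +kernel

theorem cert43_20_8 : cert43_20.okR 8 1 = true := by decide +kernel

theorem cert43_20_9 : cert43_20.okR 9 1 = true := by decide +kernel

theorem cert43_20_10 : cert43_20.okR 10 2 = true := by decide +kernel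

theorem cert43_20_12 : cert43_20.okR 12 2 = true := by decide +kernel

theorem cert43_20_14 : cert43_20.okR 14 2 = true := by decide +kernel

theorem cert43_20_16 : cert43_20.okR 16 3 = true := by decide +kernel

theorem cert43_20_19 : cert43_20.okR 19 4 = true := by decide +kernel

theorem cert43_20_23 : cert43_20.okR 23 6 = true := by decide +kernel

theorem cert43_20_29 : cert43_20.okR 29 14 = true := by decide +kernel

theorem cert43_20_ok : ∀ k < 43, cert43_20.okK k = true := by
  intro k hk
  by_cases h0 : k < 1
  · exact cert43_20.okR_spec 0 1 cert43_20_0 k (by omega) (by omega)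
  by_cases h1 : k < 2
  · exact cert43_20.okR_spec 1 1 cert43_20_1 k (by omega) (by omega)
  by_cases h2 : k < 3
  · exact cert43_20.okR_spec 2 1 cert43_20_2 k (by omega) (by omega)
  by_cases h3 : k < 4
  · exact cert43_20.okR_spec 3 1 cert43_20_3 k (by omega) (by omega)
  by_cases h4 : k < 5
  · exact cert43_20.okR_spec 4 1 cert43_20_4 k (by omega) (by omega)
  by_cases h5 : k < 6
  · exact cert43_20.okR_spec 5 1 cert43_20_5 k (by omega) (by omega)
  by_cases h6 : k < 7
  · exact cert43_20.okR_spec 6 1 cert43_20_6 k (by omega) (by omega)
  by_cases h7 : k < 8
  · exact cert43_20.okR_spec 7 1 cert43_20_7 k (by omega) (by omega)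
  by_cases h8 : k < 9
  · exact cert43_20.okR_spec 8 1 cert43_20_8 k (by omega) (by omega)
  by_cases h9 : k < 10
  · exact cert43_20.okR_spec 9 1 cert43_20_9 k (by omega) (by omega)
  by_cases h10 : k < 12
  · exact cert43_20.okR_spec 10 2 cert43_20_10 k (by omega) (by omega)
  by_cases h12 : k < 14
  · exact cert43_20.okR_spec 12 2 cert43_20_12 k (by omega) (by omega)
  by_cases h14 : k < 16
  · exact cert43_20.okR_spec 14 2 cert43_20_14 k (by omega) (by omega)
  by_cases h16 : k < 19
  · exact cert43_20.okR_spec 16 3 cert43_20_16 k (by omega) (by omega)
  by_cases h19 : k < 23
  · exact cert43_20.okR_spec 19 4 cert43_20_19 k (by omega) (by omega)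
  by_cases h23 : k < 29
  · exact cert43_20.okR_spec 23 6 cert43_20_23 k (by omega) (by omega)
  exact cert43_20.okR_spec 29 14 cert43_20_29 k (by omega) (by omega)

/-- certificate for `τ = 44/20` -/
def cert44_20 : Cert where
  M := 44
  D := 20
  V := 4219994
  F1 := 2946815089353954435583689149760759324490243999554572923304159344493354140203210814266070645090265622129648263347297678175107932039924963435428621700823825204943769855720277507169122330864779539613970677076129926900294
  F2 := 2691126789624202907925252871135256341094400234538276223864139832910588660363210616161640891967335078815259603647687976568364144829669345626601621706317789787289435820815236149956044103321575736514104553276219355135087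
  F3 := 2846324060981824877929781120340452127700258321306464560318736578217872213306658346052083689692881780746678836640836795544963998861425122616038812686753632339703484380075729776088775064066160491550973463170315917759902
  G := 4746509562079531353445962193989924099759637774501134341330777869314448548292458571920829952025883176829035234670623709195281894837255247721402140334685894138155177951258056710114586716738319025531950128357378814
  L := 9512294244
  H := 9512294246

theorem cert44_20_0 : cert44_20.okR 0 1 = true := by decide +kernel

theorem cert44_20_1 : cert44_20.okR 1 1 = true := by decide +kernel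

theorem cert44_20_2 : cert44_20.okR 2 1 = true := by decide +kernel

theorem cert44_20_3 : cert44_20.okR 3 1 = true := by decide +kernel

theorem cert44_20_4 : cert44_20.okR 4 1 = true := by decide +kernel

theorem cert44_20_5 : cert44_20.okR 5 1 = true := by decide +kernel

theorem cert44_20_6 : cert44_20.okR 6 1 = true := by decide +kernel

theorem cert44_20_7 : cert44_20.okR 7 1 = true := by decide +kernel

theorem cert44_20_8 : cert44_20.okR 8 1 = true := by decide +kernel

theorem cert44_20_9 : cert44_20.okR 9 1 = true := by decide +kernel

theorem cert44_20_10 : cert44_20.okR 10 1 = true := by decide +kernel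

theorem cert44_20_11 : cert44_20.okR 11 2 = true := by decide +kernel

theorem cert44_20_13 : cert44_20.okR 13 2 = true := by decide +kernel

theorem cert44_20_15 : cert44_20.okR 15 2 = true := by decide +kernel

theorem cert44_20_17 : cert44_20.okR 17 3 = true := by decide +kernel

theorem cert44_20_20 : cert44_20.okR 20 4 = true := by decide +kernel

theorem cert44_20_24 : cert44_20.okR 24 6 = true := by decide +kernel

theorem cert44_20_30 : cert44_20.okR 30 14 = true := by decide +kernel

theorem cert44_20_ok : ∀ k < 44, cert44_20.okK k = true := by
  intro k hk
  by_cases h0 : k < 1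
  · exact cert44_20.okR_spec 0 1 cert44_20_0 k (by omega) (by omega)
  by_cases h1 : k < 2
  · exact cert44_20.okR_spec 1 1 cert44_20_1 k (by omega) (by omega)
  by_cases h2 : k < 3
  · exact cert44_20.okR_spec 2 1 cert44_20_2 k (by omega) (by omega)
  by_cases h3 : k < 4
  · exact cert44_20.okR_spec 3 1 cert44_20_3 k (by omega) (by omega)
  by_cases h4 : k < 5
  · exact cert44_20.okR_spec 4 1 cert44_20_4 k (by omega) (by omega)
  by_cases h5 : k < 6
  · exact cert44_20.okR_spec 5 1 cert44_20_5 k (by omega) (by omega)
  by_cases h6 : k < 7
  · exact cert44_20.okR_spec 6 1 cert44_20_6 k (by omega) (by omega)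
  by_cases h7 : k < 8
  · exact cert44_20.okR_spec 7 1 cert44_20_7 k (by omega) (by omega)
  by_cases h8 : k < 9
  · exact cert44_20.okR_spec 8 1 cert44_20_8 k (by omega) (by omega)
  by_cases h9 : k < 10
  · exact cert44_20.okR_spec 9 1 cert44_20_9 k (by omega) (by omega)
  by_cases h10 : k < 11
  · exact cert44_20.okR_spec 10 1 cert44_20_10 k (by omega) (by omega)
  by_cases h11 : k < 13
  · exact cert44_20.okR_spec 11 2 cert44_20_11 k (by omega) (by omega)
  by_cases h13 : k < 15
  · exact cert44_20.okR_spec 13 2 cert44_20_13 k (by omega) (by omega)
  by_cases h15 : k < 17
  · exact cert44_20.okR_spec 15 2 cert44_20_15 k (by omega) (by omega)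
  by_cases h17 : k < 20
  · exact cert44_20.okR_spec 17 3 cert44_20_17 k (by omega) (by omega)
  by_cases h20 : k < 24
  · exact cert44_20.okR_spec 20 4 cert44_20_20 k (by omega) (by omega)
  by_cases h24 : k < 30
  · exact cert44_20.okR_spec 24 6 cert44_20_24 k (by omega) (by omega)
  exact cert44_20.okR_spec 30 14 cert44_20_30 k (by omega) (by omega)

end Pool.Agent.Lib.MP92dd55
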