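import Pool.Agent.Lib.MP92dd55.CertDefs

/-! # Certificates for deadlines between `45 n / 20` and `46 n / 20` -/

namespace Pool.Agent.Lib.MP92dd55

/-- certificate for `τ = 45/20` -/
def cert45_20 : Cert where
  M := 45
  D := 20
  V := 3732803
  F1 := 189537254781600112881520697790307229461018045506582685986351106166604528322322419045006922445633709853255802121609135346132806062849379449350093026648282518969607693042526023873539807516802693375584484064284218792496432383
  F2 := 179757856285577280361422155353735331654987616163701581271382897613612487605326091880610291623581409665482252580396100947061677171910431761729571274291338141819241049440070505946158049137454131976483985855729919967074543255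
  F3 := 169669571247498859293647427711610726410946147506587634355813866718741990603550199703262829480362667197417813318099592036769972558667348376928807277798203448044485699616878956721636739000417631995354733597470246312699793443
  G := 263095226039451178907485024378739770439632716794966528443828772881785838093447669008379346717894985543582198392849056021159708423719860047076729317736483301007439990769657791954300017323017006727789563530319412201941
  L := 9512294244
  H := 9512294246

theorem cert45_20_0 : cert45_20.okR 0 1 = true := by decide +kernel

theorem cert45_20_1 : cert45_20.okR 1 1 = true := by decide +kernel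

theorem cert45_20_2 : cert45_20.okR 2 1 = true := by decide +kernel

theorem cert45_20_3 : cert45_20.okR 3 1 = true := by decide +kernel

theorem cert45_20_4 : cert45_20.okR 4 1 = true := by decide +kernel

theorem cert45_20_5 : cert45_20.okR 5 1 = true := by decide +kernel

theorem cert45_20_6 : cert45_20.okR 6 1 = true := by decide +kernel

theorem cert45_20_7 : cert45_20.okR 7 1 = true := by decide +kernel

theorem cert45_20_8 : cert45_20.okR 8 1 = true := by decide +kernel

theorem cert45_20_9 : cert45_20.okR 9 1 = true := by decide +kernel

theorem cert45_20_10 : cert45_20.okR 10 1 = true := by decide +kernel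

theorem cert45_20_11 : cert45_20.okR 11 1 = true := by decide +kernel

theorem cert45_20_12 : cert45_20.okR 12 2 = true := by decide +kernel

theorem cert45_20_14 : cert45_20.okR 14 2 = true := by decide +kernel

theorem cert45_20_16 : cert45_20.okR 16 2 = true := by decide +kernel

theorem cert45_20_18 : cert45_20.okR 18 3 = true := by decide +kernel

theorem cert45_20_21 : cert45_20.okR 21 4 = true := by decide +kernel

theorem cert45_20_25 : cert45_20.okR 25 6 = true := by decide +kernel

theorem cert45_20_31 : cert45_20.okR 31 14 = true := by decide +kernel

theorem cert45_20_ok : ∀ k < 45, cert45_20.okK k = true := by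
  intro k hk
  by_cases h0 : k < 1
  · exact cert45_20.okR_spec 0 1 cert45_20_0 k (by omega) (by omega)
  by_cases h1 : k < 2
  · exact cert45_20.okR_spec 1 1 cert45_20_1 k (by omega) (by omega)
  by_cases h2 : k < 3
  · exact cert45_20.okR_spec 2 1 cert45_20_2 k (by omega) (by omega)
  by_cases h3 : k < 4
  · exact cert45_20.okR_spec 3 1 cert45_20_3 k (by omega) (by omega)
  by_cases h4 : k < 5
  · exact cert45_20.okR_spec 4 1 cert45_20_4 k (by omega) (by omega)
  by_cases h5 : k < 6
  · exact cert45_20.okR_spec 5 1 cert45_20_5 k (by omega) (by omega)
  by_cases h6 : k < 7
  · exact cert45_20.okR_spec 6 1 cert45_20_6 k (by omega) (by omega)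
  by_cases h7 : k < 8
  · exact cert45_20.okR_spec 7 1 cert45_20_7 k (by omega) (by omega)
  by_cases h8 : k < 9
  · exact cert45_20.okR_spec 8 1 cert45_20_8 k (by omega) (by omega)
  by_cases h9 : k < 10
  · exact cert45_20.okR_spec 9 1 cert45_20_9 k (by omega) (by omega)
  by_cases h10 : k < 11
  · exact cert45_20.okR_spec 10 1 cert45_20_10 k (by omega) (by omega)
  by_cases h11 : k < 12
  · exact cert45_20.okR_spec 11 1 cert45_20_11 k (by omega) (by omega)
  by_cases h12 : k < 14
  · exact cert45_20.okR_spec 12 2 cert45_20_12 k (by omega) (by omega)
  by_cases h14 : k < 16
  · exact cert45_20.okR_spec 14 2 cert45_20_14 k (by omega) (by omega)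
  by_cases h16 : k < 18
  · exact cert45_20.okR_spec 16 2 cert45_20_16 k (by omega) (by omega)
  by_cases h18 : k < 21
  · exact cert45_20.okR_spec 18 3 cert45_20_18 k (by omega) (by omega)
  by_cases h21 : k < 25
  · exact cert45_20.okR_spec 21 4 cert45_20_21 k (by omega) (by omega)
  by_cases h25 : k < 31
  · exact cert45_20.okR_spec 25 6 cert45_20_25 k (by omega) (by omega)
  exact cert45_20.okR_spec 31 14 cert45_20_31 k (by omega) (by omega)

/-- certificate for `τ = 46/20` -/
def cert46_20 : Cert where
  M := 46
  D := 20
  V := 3263479
  F1 := 12404524531653183272083966215052751349934409274477543699134826981948446661580418332125046993906526766543233227613303827573033647447346800655062822342732188515496538508730907849320479806297722249056545960904364407249807076066655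
  F2 := 11775549629794996728455831754174617786679975711385749159457297733171435053107675289670089661911841798289173279718086807540088826384537789694040018393507827832507549865905689236249481692252020110934745233754510161357557803542746
  F3 := 11125972012739872308635195237366595758777993665667096024485377288699474084724954512527394359151144503688182108827054531816821140410056099630412425698827254824296619300136567230545175608660956572902423518622076306238221999968345
  G := 21759534754435723273792994931082105802891723547596194525419805548247966043461620084654169564590069437313173851243304252438887393158456204133266087605846495241182664783142202717047647416037685725686274151530051961281448261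
  L := 9512294244
  H := 9512294246

theorem cert46_20_0 : cert46_20.okR 0 1 = true := by decide +kernel

theorem cert46_20_1 : cert46_20.okR 1 1 = true := by decide +kernel

theorem cert46_20_2 : cert46_20.okR 2 1 = true := by decide +kernel

theorem cert46_20_3 : cert46_20.okR 3 1 = true := by decide +kernel

theorem cert46_20_4 : cert46_20.okR 4 1 = true := by decide +kernel

theorem cert46_20_5 : cert46_20.okR 5 1 = true := by decide +kernel

theorem cert46_20_6 : cert46_20.okR 6 1 = true := by decide +kernel

theorem cert46_20_7 : cert46_20.okR 7 1 = true := by decide +kernel

theorem cert46_20_8 : cert46_20.okR 8 1 = true := by decide +kernel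

theorem cert46_20_9 : cert46_20.okR 9 1 = true := by decide +kernel

theorem cert46_20_10 : cert46_20.okR 10 1 = true := by decide +kernel

theorem cert46_20_11 : cert46_20.okR 11 1 = true := by decide +kernel

theorem cert46_20_12 : cert46_20.okR 12 1 = true := by decide +kernel

theorem cert46_20_13 : cert46_20.okR 13 2 = true := by decide +kernel

theorem cert46_20_15 : cert46_20.okR 15 2 = true := by decide +kernel

theorem cert46_20_17 : cert46_20.okR 17 2 = true := by decide +kernel

theorem cert46_20_19 : cert46_20.okR 19 3 = true := by decide +kernel

theorem cert46_20_22 : cert46_20.okR 22 4 = true := by decide +kernel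

theorem cert46_20_26 : cert46_20.okR 26 6 = true := by decide +kernel

theorem cert46_20_32 : cert46_20.okR 32 14 = true := by decide +kernel

theorem cert46_20_ok : ∀ k < 46, cert46_20.okK k = true := by
  intro k hk
  by_cases h0 : k < 1
  · exact cert46_20.okR_spec 0 1 cert46_20_0 k (by omega) (by omega)
  by_cases h1 : k < 2
  · exact cert46_20.okR_spec 1 1 cert46_20_1 k (by omega) (by omega)
  by_cases h2 : k < 3
  · exact cert46_20.okR_spec 2 1 cert46_20_2 k (by omega) (by omega)
  by_cases h3 : k < 4
  · exact cert46_20.okR_spec 3 1 cert46_20_3 k (by omega) (by omega)
  by_cases h4 : k < 5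
  · exact cert46_20.okR_spec 4 1 cert46_20_4 k (by omega) (by omega)
  by_cases h5 : k < 6
  · exact cert46_20.okR_spec 5 1 cert46_20_5 k (by omega) (by omega)
  by_cases h6 : k < 7
  · exact cert46_20.okR_spec 6 1 cert46_20_6 k (by omega) (by omega)
  by_cases h7 : k < 8
  · exact cert46_20.okR_spec 7 1 cert46_20_7 k (by omega) (by omega)
  by_cases h8 : k < 9
  · exact cert46_20.okR_spec 8 1 cert46_20_8 k (by omega) (by omega)
  by_cases h9 : k < 10
  · exact cert46_20.okR_spec 9 1 cert46_20_9 k (by omega) (by omega)
  by_cases h10 : k < 11
  · exact cert46_20.okR_spec 10 1 cert46_20_10 k (by omega) (by omega)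
  by_cases h11 : k < 12
  · exact cert46_20.okR_spec 11 1 cert46_20_11 k (by omega) (by omega)
  by_cases h12 : k < 13
  · exact cert46_20.okR_spec 12 1 cert46_20_12 k (by omega) (by omega)
  by_cases h13 : k < 15
  · exact cert46_20.okR_spec 13 2 cert46_20_13 k (by omega) (by omega)
  by_cases h15 : k < 17
  · exact cert46_20.okR_spec 15 2 cert46_20_15 k (by omega) (by omega)
  by_cases h17 : k < 19
  · exact cert46_20.okR_spec 17 2 cert46_20_17 k (by omega) (by omega)
  by_cases h19 : k < 22
  · exact cert46_20.okR_spec 19 3 cert46_20_19 k (by omega) (by omega)
  by_cases h22 : k < 26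
  · exact cert46_20.okR_spec 22 4 cert46_20_22 k (by omega) (by omega)
  by_cases h26 : k < 32
  · exact cert46_20.okR_spec 26 6 cert46_20_26 k (by omega) (by omega)
  exact cert46_20.okR_spec 32 14 cert46_20_32 k (by omega) (by omega)

end Pool.Agent.Lib.MP92dd55
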