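import Pool.Agent.Lib.MP92dd55.CertDefs

/-! # Certificates for deadlines between `47 n / 20` and `47 n / 20` -/

namespace Pool.Agent.Lib.MP92dd55

/-- certificate for `τ = 47/20` -/
def cert47_20 : Cert where
  M := 47
  D := 20
  V := 2823002
  F1 := 822371443635588172651640430981193552038495851027574561156118322277914813358425800119955093030466046537780069789983987001543785554097250757152224724246497438621554965146695516503106502125263063859493558853322753729482390712121854315
  F2 := 747582457866624536059443660884185419997902579159706228582603549083569082456665691769673014596127027186013547037498619835656035281259405477852297427238851965441769687829592612895059095598344709379374316563149026899214534519416266056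
  F3 := 800481988565230230394448813293013073170997156948279649558804752731552245442563460315418046073139977201510214997111522430718214147892025622106830345310289257366424528172301295954316357511667183594771860844281540054868306365303713463
  G := 1295540319711931654030742708220609397611231277219975592188766905133615015017787003869772735815105514368467929157106315959890107765416721244059957689996852535690029784691560881759566679601237191415785424365640353106378345614574
  L := 9512294244
  H := 9512294246

theorem cert47_20_0 : cert47_20.okR 0 1 = true := by decide +kernel

theorem cert47_20_1 : cert47_20.okR 1 1 = true := by decide +kernel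

theorem cert47_20_2 : cert47_20.okR 2 1 = true := by decide +kernel

theorem cert47_20_3 : cert47_20.okR 3 1 = true := by decide +kernel

theorem cert47_20_4 : cert47_20.okR 4 1 = true := by decide +kernel

theorem cert47_20_5 : cert47_20.okR 5 1 = true := by decide +kernel

theorem cert47_20_6 : cert47_20.okR 6 1 = true := by decide +kernel

theorem cert47_20_7 : cert47_20.okR 7 1 = true := by decide +kernel

theorem cert47_20_8 : cert47_20.okR 8 1 = true := by decide +kernel

theorem cert47_20_9 : cert47_20.okR 9 1 = true := by decide +kernel

theorem cert47_20_10 : cert47_20.okR 10 1 = true := by decide +kernel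

theorem cert47_20_11 : cert47_20.okR 11 1 = true := by decide +kernel

theorem cert47_20_12 : cert47_20.okR 12 1 = true := by decide +kernel

theorem cert47_20_13 : cert47_20.okR 13 1 = true := by decide +kernel

theorem cert47_20_14 : cert47_20.okR 14 2 = true := by decide +kernel

theorem cert47_20_16 : cert47_20.okR 16 2 = true := by decide +kernel

theorem cert47_20_18 : cert47_20.okR 18 2 = true := by decide +kernel

theorem cert47_20_20 : cert47_20.okR 20 3 = true := by decide +kernel

theorem cert47_20_23 : cert47_20.okR 23 4 = true := by decide +kernel

theorem cert47_20_27 : cert47_20.okR 27 6 = true := by decide +kernel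

theorem cert47_20_33 : cert47_20.okR 33 14 = true := by decide +kernel

theorem cert47_20_ok : ∀ k < 47, cert47_20.okK k = true := by
  intro k hk
  by_cases h0 : k < 1
  · exact cert47_20.okR_spec 0 1 cert47_20_0 k (by omega) (by omega)
  by_cases h1 : k < 2
  · exact cert47_20.okR_spec 1 1 cert47_20_1 k (by omega) (by omega)
  by_cases h2 : k < 3
  · exact cert47_20.okR_spec 2 1 cert47_20_2 k (by omega) (by omega)
  by_cases h3 : k < 4
  · exact cert47_20.okR_spec 3 1 cert47_20_3 k (by omega) (by omega)
  by_cases h4 : k < 5
  · exact cert47_20.okR_spec 4 1 cert47_20_4 k (by omega) (by omega)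
  by_cases h5 : k < 6
  · exact cert47_20.okR_spec 5 1 cert47_20_5 k (by omega) (by omega)
  by_cases h6 : k < 7
  · exact cert47_20.okR_spec 6 1 cert47_20_6 k (by omega) (by omega)
  by_cases h7 : k < 8
  · exact cert47_20.okR_spec 7 1 cert47_20_7 k (by omega) (by omega)
  by_cases h8 : k < 9
  · exact cert47_20.okR_spec 8 1 cert47_20_8 k (by omega) (by omega)
  by_cases h9 : k < 10
  · exact cert47_20.okR_spec 9 1 cert47_20_9 k (by omega) (by omega)
  by_cases h10 : k < 11
  · exact cert47_20.okR_spec 10 1 cert47_20_10 k (by omega) (by omega)
  by_cases h11 : k < 12
  · exact cert47_20.okR_spec 11 1 cert47_20_11 k (by omega) (by omega)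
  by_cases h12 : k < 13
  · exact cert47_20.okR_spec 12 1 cert47_20_12 k (by omega) (by omega)
  by_cases h13 : k < 14
  · exact cert47_20.okR_spec 13 1 cert47_20_13 k (by omega) (by omega)
  by_cases h14 : k < 16
  · exact cert47_20.okR_spec 14 2 cert47_20_14 k (by omega) (by omega)
  by_cases h16 : k < 18
  · exact cert47_20.okR_spec 16 2 cert47_20_16 k (by omega) (by omega)
  by_cases h18 : k < 20
  · exact cert47_20.okR_spec 18 2 cert47_20_18 k (by omega) (by omega)
  by_cases h20 : k < 23
  · exact cert47_20.okR_spec 20 3 cert47_20_20 k (by omega) (by omega)
  by_cases h23 : k < 27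
  · exact cert47_20.okR_spec 23 4 cert47_20_23 k (by omega) (by omega)
  by_cases h27 : k < 33
  · exact cert47_20.okR_spec 27 6 cert47_20_27 k (by omega) (by omega)
  exact cert47_20.okR_spec 33 14 cert47_20_33 k (by omega) (by omega)

end Pool.Agent.Lib.MP92dd55
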