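import Pool.Agent.Lib.MP92dd55.CertDefs

/-! # Certificates for deadlines between `48 n / 20` and `48 n / 20` -/

namespace Pool.Agent.Lib.MP92dd55

/-- certificate for `τ = 48/20` -/
def cert48_20 : Cert where
  M := 48
  D := 20
  V := 2416830
  F1 := 53613927236502121041583299044792844423213839336166788961046166489962749946719858879990989905289494640179248562768919301377691342242656976496641710473962978712400285827633419595877391895702343932629619245672487622404946931701260289870339
  F2 := 48555746204870933011376626309679625697055572253562210132625872183295007927048251408156349601898090152720785001466986664034360494098145860049612207466006534014411614913399619405098844104424851607325659927800154382614241391522932016914290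
  F3 := 52168510221324645038582033911218080360442527638183735629578775222406560118005733260829356880578410639004837620205013113891432996890530043505533971408896595311464453164955982829927984321299763544388986169503802077701122560541164186398143
  G := 81280046107071897042594096830410028474365810986370126171430979856588860548890496044073676470375437990455339734744843778987839812827517456554525830393104052272015695131391309566706212072569428408583798522420624638661922417526310817
  L := 9512294244
  H := 9512294246

theorem cert48_20_0 : cert48_20.okR 0 1 = true := by decide +kernel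

theorem cert48_20_1 : cert48_20.okR 1 1 = true := by decide +kernel

theorem cert48_20_2 : cert48_20.okR 2 1 = true := by decide +kernel

theorem cert48_20_3 : cert48_20.okR 3 1 = true := by decide +kernel

theorem cert48_20_4 : cert48_20.okR 4 1 = true := by decide +kernel

theorem cert48_20_5 : cert48_20.okR 5 1 = true := by decide +kernel

theorem cert48_20_6 : cert48_20.okR 6 1 = true := by decide +kernel

theorem cert48_20_7 : cert48_20.okR 7 1 = true := by decide +kernel

theorem cert48_20_8 : cert48_20.okR 8 1 = true := by decide +kernel

theorem cert48_20_9 : cert48_20.okR 9 1 = true := by decide +kernel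

theorem cert48_20_10 : cert48_20.okR 10 1 = true := by decide +kernel

theorem cert48_20_11 : cert48_20.okR 11 1 = true := by decide +kernel

theorem cert48_20_12 : cert48_20.okR 12 1 = true := by decide +kernel

theorem cert48_20_13 : cert48_20.okR 13 1 = true := by decide +kernel

theorem cert48_20_14 : cert48_20.okR 14 1 = true := by decide +kernel

theorem cert48_20_15 : cert48_20.okR 15 2 = true := by decide +kernel

theorem cert48_20_17 : cert48_20.okR 17 2 = true := by decide +kernel

theorem cert48_20_19 : cert48_20.okR 19 2 = true := by decide +kernel

theorem cert48_20_21 : cert48_20.okR 21 3 = true := by decide +kernel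

theorem cert48_20_24 : cert48_20.okR 24 4 = true := by decide +kernel

theorem cert48_20_28 : cert48_20.okR 28 6 = true := by decide +kernel

theorem cert48_20_34 : cert48_20.okR 34 14 = true := by decide +kernel

theorem cert48_20_ok : ∀ k < 48, cert48_20.okK k = true := by
  intro k hk
  by_cases h0 : k < 1
  · exact cert48_20.okR_spec 0 1 cert48_20_0 k (by omega) (by omega)
  by_cases h1 : k < 2
  · exact cert48_20.okR_spec 1 1 cert48_20_1 k (by omega) (by omega)
  by_cases h2 : k < 3
  · exact cert48_20.okR_spec 2 1 cert48_20_2 k (by omega) (by omega)
  by_cases h3 : k < 4
  · exact cert48_20.okR_spec 3 1 cert48_20_3 k (by omega) (by omega)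
  by_cases h4 : k < 5
  · exact cert48_20.okR_spec 4 1 cert48_20_4 k (by omega) (by omega)
  by_cases h5 : k < 6
  · exact cert48_20.okR_spec 5 1 cert48_20_5 k (by omega) (by omega)
  by_cases h6 : k < 7
  · exact cert48_20.okR_spec 6 1 cert48_20_6 k (by omega) (by omega)
  by_cases h7 : k < 8
  · exact cert48_20.okR_spec 7 1 cert48_20_7 k (by omega) (by omega)
  by_cases h8 : k < 9
  · exact cert48_20.okR_spec 8 1 cert48_20_8 k (by omega) (by omega)
  by_cases h9 : k < 10
  · exact cert48_20.okR_spec 9 1 cert48_20_9 k (by omega) (by omega)
  by_cases h10 : k < 11
  · exact cert48_20.okR_spec 10 1 cert48_20_10 k (by omega) (by omega)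
  by_cases h11 : k < 12
  · exact cert48_20.okR_spec 11 1 cert48_20_11 k (by omega) (by omega)
  by_cases h12 : k < 13
  · exact cert48_20.okR_spec 12 1 cert48_20_12 k (by omega) (by omega)
  by_cases h13 : k < 14
  · exact cert48_20.okR_spec 13 1 cert48_20_13 k (by omega) (by omega)
  by_cases h14 : k < 15
  · exact cert48_20.okR_spec 14 1 cert48_20_14 k (by omega) (by omega)
  by_cases h15 : k < 17
  · exact cert48_20.okR_spec 15 2 cert48_20_15 k (by omega) (by omega)
  by_cases h17 : k < 19
  · exact cert48_20.okR_spec 17 2 cert48_20_17 k (by omega) (by omega)
  by_cases h19 : k < 21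
  · exact cert48_20.okR_spec 19 2 cert48_20_19 k (by omega) (by omega)
  by_cases h21 : k < 24
  · exact cert48_20.okR_spec 21 3 cert48_20_21 k (by omega) (by omega)
  by_cases h24 : k < 28
  · exact cert48_20.okR_spec 24 4 cert48_20_24 k (by omega) (by omega)
  by_cases h28 : k < 34
  · exact cert48_20.okR_spec 28 6 cert48_20_28 k (by omega) (by omega)
  exact cert48_20.okR_spec 34 14 cert48_20_34 k (by omega) (by omega)

end Pool.Agent.Lib.MP92dd55
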