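import Pool.Agent.Lib.MP92dd55.CertDefs

/-! # Certificates for deadlines between `49 n / 20` and `49 n / 20` -/

namespace Pool.Agent.Lib.MP92dd55

/-- certificate for `τ = 49/20` -/
def cert49_20 : Cert where
  M := 49
  D := 20
  V := 2037678
  F1 := 3459207762808659659880740880827811795350630801400078023733591458142883874800862664562674696540998241096956312333755568491922217764432532176052244123092269246014934732039736992877160568502675829520718504896807681549188223725636656645329224802
  F2 := 3144910026044415578626822893359597619654220148199297665903444655544884927821252597837494341411934761680030970711491633128468282972279793951247589384778219770799233119100721993051878887186889882499091163301565996771192754949371515804096822616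
  F3 := 3234243693169599241524721208042121903510431227762020065028537403212549424511450880451538784872671535493787581477904033120468359484628085443108051425724691023905543271331391202340375898595633008023428436726560574470737799796588053123982139181
  G := 6034721473825260627864236815097758195484785856921150571333378427074672022427232444448614301582601232991739400332416334419620012257492692772619182566896367604105573118958478423515977804203378736132432821382950433607439473843471010235020
  L := 9512294244
  H := 9512294246

theorem cert49_20_0 : cert49_20.okR 0 1 = true := by decide +kernel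

theorem cert49_20_1 : cert49_20.okR 1 1 = true := by decide +kernel

theorem cert49_20_2 : cert49_20.okR 2 1 = true := by decide +kernel

theorem cert49_20_3 : cert49_20.okR 3 1 = true := by decide +kernel

theorem cert49_20_4 : cert49_20.okR 4 1 = true := by decide +kernel

theorem cert49_20_5 : cert49_20.okR 5 1 = true := by decide +kernel

theorem cert49_20_6 : cert49_20.okR 6 1 = true := by decide +kernel

theorem cert49_20_7 : cert49_20.okR 7 1 = true := by decide +kernel

theorem cert49_20_8 : cert49_20.okR 8 1 = true := by decide +kernel

theorem cert49_20_9 : cert49_20.okR 9 1 = true := by decide +kernel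

theorem cert49_20_10 : cert49_20.okR 10 1 = true := by decide +kernel

theorem cert49_20_11 : cert49_20.okR 11 1 = true := by decide +kernel

theorem cert49_20_12 : cert49_20.okR 12 1 = true := by decide +kernel

theorem cert49_20_13 : cert49_20.okR 13 1 = true := by decide +kernel

theorem cert49_20_14 : cert49_20.okR 14 1 = true := by decide +kernel

theorem cert49_20_15 : cert49_20.okR 15 1 = true := by decide +kernel

theorem cert49_20_16 : cert49_20.okR 16 2 = true := by decide +kernel

theorem cert49_20_18 : cert49_20.okR 18 2 = true := by decide +kernel

theorem cert49_20_20 : cert49_20.okR 20 2 = true := by decide +kernel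

theorem cert49_20_22 : cert49_20.okR 22 3 = true := by decide +kernel

theorem cert49_20_25 : cert49_20.okR 25 4 = true := by decide +kernel

theorem cert49_20_29 : cert49_20.okR 29 6 = true := by decide +kernel

theorem cert49_20_35 : cert49_20.okR 35 14 = true := by decide +kernel

theorem cert49_20_ok : ∀ k < 49, cert49_20.okK k = true := by
  intro k hk
  by_cases h0 : k < 1
  · exact cert49_20.okR_spec 0 1 cert49_20_0 k (by omega) (by omega)
  by_cases h1 : k < 2
  · exact cert49_20.okR_spec 1 1 cert49_20_1 k (by omega) (by omega)
  by_cases h2 : k < 3
  · exact cert49_20.okR_spec 2 1 cert49_20_2 k (by omega) (by omega)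
  by_cases h3 : k < 4
  · exact cert49_20.okR_spec 3 1 cert49_20_3 k (by omega) (by omega)
  by_cases h4 : k < 5
  · exact cert49_20.okR_spec 4 1 cert49_20_4 k (by omega) (by omega)
  by_cases h5 : k < 6
  · exact cert49_20.okR_spec 5 1 cert49_20_5 k (by omega) (by omega)
  by_cases h6 : k < 7
  · exact cert49_20.okR_spec 6 1 cert49_20_6 k (by omega) (by omega)
  by_cases h7 : k < 8
  · exact cert49_20.okR_spec 7 1 cert49_20_7 k (by omega) (by omega)
  by_cases h8 : k < 9
  · exact cert49_20.okR_spec 8 1 cert49_20_8 k (by omega) (by omega)
  by_cases h9 : k < 10
  · exact cert49_20.okR_spec 9 1 cert49_20_9 k (by omega) (by omega)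
  by_cases h10 : k < 11
  · exact cert49_20.okR_spec 10 1 cert49_20_10 k (by omega) (by omega)
  by_cases h11 : k < 12
  · exact cert49_20.okR_spec 11 1 cert49_20_11 k (by omega) (by omega)
  by_cases h12 : k < 13
  · exact cert49_20.okR_spec 12 1 cert49_20_12 k (by omega) (by omega)
  by_cases h13 : k < 14
  · exact cert49_20.okR_spec 13 1 cert49_20_13 k (by omega) (by omega)
  by_cases h14 : k < 15
  · exact cert49_20.okR_spec 14 1 cert49_20_14 k (by omega) (by omega)
  by_cases h15 : k < 16
  · exact cert49_20.okR_spec 15 1 cert49_20_15 k (by omega) (by omega)
  by_cases h16 : k < 18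
  · exact cert49_20.okR_spec 16 2 cert49_20_16 k (by omega) (by omega)
  by_cases h18 : k < 20
  · exact cert49_20.okR_spec 18 2 cert49_20_18 k (by omega) (by omega)
  by_cases h20 : k < 22
  · exact cert49_20.okR_spec 20 2 cert49_20_20 k (by omega) (by omega)
  by_cases h22 : k < 25
  · exact cert49_20.okR_spec 22 3 cert49_20_22 k (by omega) (by omega)
  by_cases h25 : k < 29
  · exact cert49_20.okR_spec 25 4 cert49_20_25 k (by omega) (by omega)
  by_cases h29 : k < 35
  · exact cert49_20.okR_spec 29 6 cert49_20_29 k (by omega) (by omega)
  exact cert49_20.okR_spec 35 14 cert49_20_35 k (by omega) (by omega)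

end Pool.Agent.Lib.MP92dd55
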