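import Pool.Agent.Lib.MP92dd55.CertDefs

/-! # Certificates for deadlines between `50 n / 20` and `50 n / 20` -/

namespace Pool.Agent.Lib.MP92dd55

/-- certificate for `τ = 50/20` -/
def cert50_20 : Cert where
  M := 50
  D := 20
  V := 1687904
  F1 := 226915996971608858971817722628752231837104049384948997781178586257904721243526269714863469784041825066815486406042880597403443093474983701595116058090825643080331188745066016834816837976762211707830470896062984516253852552432300507717348914725857
  F2 := 206184827735964518960779072745453588355916125295805855588369711904662752619961799664387344928868223608701538702801310542187540491683705036568162263439860351916097164905841590690536566699824068545062119166826330816852744143931017644541410934357656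
  F3 := 210779155307353776679795178380321747061879919443392741984413657454931072685635630703957351113781988111692307291402039522034369911559318307522534287163098355726425911847086628019134462208329000102250238402640224507953742129689162525841116885065263
  G := 408311267844801329358737440290597014831394967683514586722891043191482810912716766753738859230208761905377371543541277241166700116017434838241881093674794421960471000737796286022529967393159776756870210611676170925690045814630364923612234991
  L := 9512294244
  H := 9512294246

theorem cert50_20_0 : cert50_20.okR 0 1 = true := by decide +kernel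

theorem cert50_20_1 : cert50_20.okR 1 1 = true := by decide +kernel

theorem cert50_20_2 : cert50_20.okR 2 1 = true := by decide +kernel

theorem cert50_20_3 : cert50_20.okR 3 1 = true := by decide +kernel

theorem cert50_20_4 : cert50_20.okR 4 1 = true := by decide +kernel

theorem cert50_20_5 : cert50_20.okR 5 1 = true := by decide +kernel

theorem cert50_20_6 : cert50_20.okR 6 1 = true := by decide +kernel

theorem cert50_20_7 : cert50_20.okR 7 1 = true := by decide +kernel

theorem cert50_20_8 : cert50_20.okR 8 1 = true := by decide +kernel

theorem cert50_20_9 : cert50_20.okR 9 1 = true := by decide +kernel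

theorem cert50_20_10 : cert50_20.okR 10 1 = true := by decide +kernel

theorem cert50_20_11 : cert50_20.okR 11 1 = true := by decide +kernel

theorem cert50_20_12 : cert50_20.okR 12 1 = true := by decide +kernel

theorem cert50_20_13 : cert50_20.okR 13 1 = true := by decide +kernel

theorem cert50_20_14 : cert50_20.okR 14 1 = true := by decide +kernel

theorem cert50_20_15 : cert50_20.okR 15 1 = true := by decide +kernel

theorem cert50_20_16 : cert50_20.okR 16 1 = true := by decide +kernel

theorem cert50_20_17 : cert50_20.okR 17 2 = true := by decide +kernel

theorem cert50_20_19 : cert50_20.okR 19 2 = true := by decide +kernel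

theorem cert50_20_21 : cert50_20.okR 21 2 = true := by decide +kernel

theorem cert50_20_23 : cert50_20.okR 23 3 = true := by decide +kernel

theorem cert50_20_26 : cert50_20.okR 26 4 = true := by decide +kernel

theorem cert50_20_30 : cert50_20.okR 30 6 = true := by decide +kernel

theorem cert50_20_36 : cert50_20.okR 36 14 = true := by decide +kernel

theorem cert50_20_ok : ∀ k < 50, cert50_20.okK k = true := by
  intro k hk
  by_cases h0 : k < 1
  · exact cert50_20.okR_spec 0 1 cert50_20_0 k (by omega) (by omega)
  by_cases h1 : k < 2
  · exact cert50_20.okR_spec 1 1 cert50_20_1 k (by omega) (by omega)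
  by_cases h2 : k < 3
  · exact cert50_20.okR_spec 2 1 cert50_20_2 k (by omega) (by omega)
  by_cases h3 : k < 4
  · exact cert50_20.okR_spec 3 1 cert50_20_3 k (by omega) (by omega)
  by_cases h4 : k < 5
  · exact cert50_20.okR_spec 4 1 cert50_20_4 k (by omega) (by omega)
  by_cases h5 : k < 6
  · exact cert50_20.okR_spec 5 1 cert50_20_5 k (by omega) (by omega)
  by_cases h6 : k < 7
  · exact cert50_20.okR_spec 6 1 cert50_20_6 k (by omega) (by omega)
  by_cases h7 : k < 8
  · exact cert50_20.okR_spec 7 1 cert50_20_7 k (by omega) (by omega)
  by_cases h8 : k < 9
  · exact cert50_20.okR_spec 8 1 cert50_20_8 k (by omega) (by omega)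
  by_cases h9 : k < 10
  · exact cert50_20.okR_spec 9 1 cert50_20_9 k (by omega) (by omega)
  by_cases h10 : k < 11
  · exact cert50_20.okR_spec 10 1 cert50_20_10 k (by omega) (by omega)
  by_cases h11 : k < 12
  · exact cert50_20.okR_spec 11 1 cert50_20_11 k (by omega) (by omega)
  by_cases h12 : k < 13
  · exact cert50_20.okR_spec 12 1 cert50_20_12 k (by omega) (by omega)
  by_cases h13 : k < 14
  · exact cert50_20.okR_spec 13 1 cert50_20_13 k (by omega) (by omega)
  by_cases h14 : k < 15
  · exact cert50_20.okR_spec 14 1 cert50_20_14 k (by omega) (by omega)
  by_cases h15 : k < 16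
  · exact cert50_20.okR_spec 15 1 cert50_20_15 k (by omega) (by omega)
  by_cases h16 : k < 17
  · exact cert50_20.okR_spec 16 1 cert50_20_16 k (by omega) (by omega)
  by_cases h17 : k < 19
  · exact cert50_20.okR_spec 17 2 cert50_20_17 k (by omega) (by omega)
  by_cases h19 : k < 21
  · exact cert50_20.okR_spec 19 2 cert50_20_19 k (by omega) (by omega)
  by_cases h21 : k < 23
  · exact cert50_20.okR_spec 21 2 cert50_20_21 k (by omega) (by omega)
  by_cases h23 : k < 26
  · exact cert50_20.okR_spec 23 3 cert50_20_23 k (by omega) (by omega)
  by_cases h26 : k < 30
  · exact cert50_20.okR_spec 26 4 cert50_20_26 k (by omega) (by omega)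
  by_cases h30 : k < 36
  · exact cert50_20.okR_spec 30 6 cert50_20_30 k (by omega) (by omega)
  exact cert50_20.okR_spec 36 14 cert50_20_36 k (by omega) (by omega)

end Pool.Agent.Lib.MP92dd55
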