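import Pool.Agent.Lib.MP92dd55.CertDefs

/-! # Certificates for deadlines between `51 n / 20` and `51 n / 20` -/

namespace Pool.Agent.Lib.MP92dd55

/-- certificate for `τ = 51/20` -/
def cert51_20 : Cert where
  M := 51
  D := 20
  V := 1373988
  F1 := 14546474476027890916772398047850996419286655631585412101805323042143158945412820833395420423339664092990983649849774638418828790850892498248382738343293360246978684416545764599757221082256477460547248284254783102144565236292475585695973499541956623168
  F2 := 13574583766623712420330503251609140757094445495824414594820334376175181255992393655185025299076732658226620739364547091791934468971103041223086137781485194134269482072389864702379376272423276838761857384260434416039559730499050924057981085251002331430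
  F3 := 13533941598511144339423985141180137224614484285766762122232757748984110678940183222444541201100728052635162037670212504703379359388502773703884704946446107146770980556245820011325909261016497891629230099813178112439628422825944459292677481383821481766
  G := 23698452243657421382059630539149162847879335137832469124042743832559887493191788352297882159519941918583969434502139343746209698281970232950614476128314415224606685980419956822831133852008265958467948384583376776810711827455674928334673976426496
  L := 9512294244
  H := 9512294246

theorem cert51_20_0 : cert51_20.okR 0 1 = true := by decide +kernel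

theorem cert51_20_1 : cert51_20.okR 1 1 = true := by decide +kernel

theorem cert51_20_2 : cert51_20.okR 2 1 = true := by decide +kernel

theorem cert51_20_3 : cert51_20.okR 3 1 = true := by decide +kernel

theorem cert51_20_4 : cert51_20.okR 4 1 = true := by decide +kernel

theorem cert51_20_5 : cert51_20.okR 5 1 = true := by decide +kernel

theorem cert51_20_6 : cert51_20.okR 6 1 = true := by decide +kernel

theorem cert51_20_7 : cert51_20.okR 7 1 = true := by decide +kernel

theorem cert51_20_8 : cert51_20.okR 8 1 = true := by decide +kernel

theorem cert51_20_9 : cert51_20.okR 9 1 = true := by decide +kernel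

theorem cert51_20_10 : cert51_20.okR 10 1 = true := by decide +kernel

theorem cert51_20_11 : cert51_20.okR 11 1 = true := by decide +kernel

theorem cert51_20_12 : cert51_20.okR 12 1 = true := by decide +kernel

theorem cert51_20_13 : cert51_20.okR 13 1 = true := by decide +kernel

theorem cert51_20_14 : cert51_20.okR 14 1 = true := by decide +kernel

theorem cert51_20_15 : cert51_20.okR 15 1 = true := by decide +kernel

theorem cert51_20_16 : cert51_20.okR 16 1 = true := by decide +kernel

theorem cert51_20_17 : cert51_20.okR 17 1 = true := by decide +kernel

theorem cert51_20_18 : cert51_20.okR 18 2 = true := by decide +kernel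

theorem cert51_20_20 : cert51_20.okR 20 2 = true := by decide +kernel

theorem cert51_20_22 : cert51_20.okR 22 2 = true := by decide +kernel

theorem cert51_20_24 : cert51_20.okR 24 3 = true := by decide +kernel

theorem cert51_20_27 : cert51_20.okR 27 4 = true := by decide +kernel

theorem cert51_20_31 : cert51_20.okR 31 6 = true := by decide +kernel

theorem cert51_20_37 : cert51_20.okR 37 14 = true := by decide +kernel

theorem cert51_20_ok : ∀ k < 51, cert51_20.okK k = true := by
  intro k hk
  by_cases h0 : k < 1
  · exact cert51_20.okR_spec 0 1 cert51_20_0 k (by omega) (by omega)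
  by_cases h1 : k < 2
  · exact cert51_20.okR_spec 1 1 cert51_20_1 k (by omega) (by omega)
  by_cases h2 : k < 3
  · exact cert51_20.okR_spec 2 1 cert51_20_2 k (by omega) (by omega)
  by_cases h3 : k < 4
  · exact cert51_20.okR_spec 3 1 cert51_20_3 k (by omega) (by omega)
  by_cases h4 : k < 5
  · exact cert51_20.okR_spec 4 1 cert51_20_4 k (by omega) (by omega)
  by_cases h5 : k < 6
  · exact cert51_20.okR_spec 5 1 cert51_20_5 k (by omega) (by omega)
  by_cases h6 : k < 7
  · exact cert51_20.okR_spec 6 1 cert51_20_6 k (by omega) (by omega)
  by_cases h7 : k < 8
  · exact cert51_20.okR_spec 7 1 cert51_20_7 k (by omega) (by omega)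
  by_cases h8 : k < 9
  · exact cert51_20.okR_spec 8 1 cert51_20_8 k (by omega) (by omega)
  by_cases h9 : k < 10
  · exact cert51_20.okR_spec 9 1 cert51_20_9 k (by omega) (by omega)
  by_cases h10 : k < 11
  · exact cert51_20.okR_spec 10 1 cert51_20_10 k (by omega) (by omega)
  by_cases h11 : k < 12
  · exact cert51_20.okR_spec 11 1 cert51_20_11 k (by omega) (by omega)
  by_cases h12 : k < 13
  · exact cert51_20.okR_spec 12 1 cert51_20_12 k (by omega) (by omega)
  by_cases h13 : k < 14
  · exact cert51_20.okR_spec 13 1 cert51_20_13 k (by omega) (by omega)
  by_cases h14 : k < 15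
  · exact cert51_20.okR_spec 14 1 cert51_20_14 k (by omega) (by omega)
  by_cases h15 : k < 16
  · exact cert51_20.okR_spec 15 1 cert51_20_15 k (by omega) (by omega)
  by_cases h16 : k < 17
  · exact cert51_20.okR_spec 16 1 cert51_20_16 k (by omega) (by omega)
  by_cases h17 : k < 18
  · exact cert51_20.okR_spec 17 1 cert51_20_17 k (by omega) (by omega)
  by_cases h18 : k < 20
  · exact cert51_20.okR_spec 18 2 cert51_20_18 k (by omega) (by omega)
  by_cases h20 : k < 22
  · exact cert51_20.okR_spec 20 2 cert51_20_20 k (by omega) (by omega)
  by_cases h22 : k < 24
  · exact cert51_20.okR_spec 22 2 cert51_20_22 k (by omega) (by omega)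
  by_cases h24 : k < 27
  · exact cert51_20.okR_spec 24 3 cert51_20_24 k (by omega) (by omega)
  by_cases h27 : k < 31
  · exact cert51_20.okR_spec 27 4 cert51_20_27 k (by omega) (by omega)
  by_cases h31 : k < 37
  · exact cert51_20.okR_spec 31 6 cert51_20_31 k (by omega) (by omega)
  exact cert51_20.okR_spec 37 14 cert51_20_37 k (by omega) (by omega)

end Pool.Agent.Lib.MP92dd55
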