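import Pool.Agent.Lib.MP92dd55.CertDefs

/-! # Certificates for deadlines between `52 n / 20` and `52 n / 20` -/

namespace Pool.Agent.Lib.MP92dd55

/-- certificate for `τ = 52/20` -/
def cert52_20 : Cert where
  M := 52
  D := 20
  V := 1085130
  F1 := 946243874693777718080367822307404564742791642529474281697955563202402114945791912619894707062818687414800121873416462841991444285187567035539405976355473052669132420300288465419554206828599286209076666260552534868589494464173447577004572329657327587458101
  F2 := 896583141732999833371772666797988287775856917222928030397793035066156315866580739002268073888049671633800662556650559193077234618527408229975415285580061026844782881884731931851376797367275836287506588783559298950052087577668461925608726068185081815594088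
  F3 := 895494799580834941514654493760719252473561013765295653305612822175658165983571724740347581414679279917331053503940980777577944835327183174265419739331650006041976019523915971557239376807459870211631811390599188932061375817923582678504026607170690563151503
  G := 1322365662254143429782360676326050900156216448426490445909071308339331946141300950514184908037262744865988409047533958009761158962862064538149813040685618190901650631522249744715362948599380827354603973008483638937442651853597374417605231646731731606
  L := 9512294244
  H := 9512294246

theorem cert52_20_0 : cert52_20.okR 0 1 = true := by decide +kernel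

theorem cert52_20_1 : cert52_20.okR 1 1 = true := by decide +kernel

theorem cert52_20_2 : cert52_20.okR 2 1 = true := by decide +kernel

theorem cert52_20_3 : cert52_20.okR 3 1 = true := by decide +kernel

theorem cert52_20_4 : cert52_20.okR 4 1 = true := by decide +kernel

theorem cert52_20_5 : cert52_20.okR 5 1 = true := by decide +kernel

theorem cert52_20_6 : cert52_20.okR 6 1 = true := by decide +kernel

theorem cert52_20_7 : cert52_20.okR 7 1 = true := by decide +kernel

theorem cert52_20_8 : cert52_20.okR 8 1 = true := by decide +kernel

theorem cert52_20_9 : cert52_20.okR 9 1 = true := by decide +kernel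

theorem cert52_20_10 : cert52_20.okR 10 1 = true := by decide +kernel

theorem cert52_20_11 : cert52_20.okR 11 1 = true := by decide +kernel

theorem cert52_20_12 : cert52_20.okR 12 1 = true := by decide +kernel

theorem cert52_20_13 : cert52_20.okR 13 1 = true := by decide +kernel

theorem cert52_20_14 : cert52_20.okR 14 1 = true := by decide +kernel

theorem cert52_20_15 : cert52_20.okR 15 1 = true := by decide +kernel

theorem cert52_20_16 : cert52_20.okR 16 1 = true := by decide +kernel

theorem cert52_20_17 : cert52_20.okR 17 1 = true := by decide +kernel

theorem cert52_20_18 : cert52_20.okR 18 1 = true := by decide +kernel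

theorem cert52_20_19 : cert52_20.okR 19 2 = true := by decide +kernel

theorem cert52_20_21 : cert52_20.okR 21 2 = true := by decide +kernel

theorem cert52_20_23 : cert52_20.okR 23 2 = true := by decide +kernel

theorem cert52_20_25 : cert52_20.okR 25 3 = true := by decide +kernel

theorem cert52_20_28 : cert52_20.okR 28 4 = true := by decide +kernel

theorem cert52_20_32 : cert52_20.okR 32 6 = true := by decide +kernel

theorem cert52_20_38 : cert52_20.okR 38 14 = true := by decide +kernel

theorem cert52_20_ok : ∀ k < 52, cert52_20.okK k = true := by
  intro k hk
  by_cases h0 : k < 1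
  · exact cert52_20.okR_spec 0 1 cert52_20_0 k (by omega) (by omega)
  by_cases h1 : k < 2
  · exact cert52_20.okR_spec 1 1 cert52_20_1 k (by omega) (by omega)
  by_cases h2 : k < 3
  · exact cert52_20.okR_spec 2 1 cert52_20_2 k (by omega) (by omega)
  by_cases h3 : k < 4
  · exact cert52_20.okR_spec 3 1 cert52_20_3 k (by omega) (by omega)
  by_cases h4 : k < 5
  · exact cert52_20.okR_spec 4 1 cert52_20_4 k (by omega) (by omega)
  by_cases h5 : k < 6
  · exact cert52_20.okR_spec 5 1 cert52_20_5 k (by omega) (by omega)
  by_cases h6 : k < 7
  · exact cert52_20.okR_spec 6 1 cert52_20_6 k (by omega) (by omega)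
  by_cases h7 : k < 8
  · exact cert52_20.okR_spec 7 1 cert52_20_7 k (by omega) (by omega)
  by_cases h8 : k < 9
  · exact cert52_20.okR_spec 8 1 cert52_20_8 k (by omega) (by omega)
  by_cases h9 : k < 10
  · exact cert52_20.okR_spec 9 1 cert52_20_9 k (by omega) (by omega)
  by_cases h10 : k < 11
  · exact cert52_20.okR_spec 10 1 cert52_20_10 k (by omega) (by omega)
  by_cases h11 : k < 12
  · exact cert52_20.okR_spec 11 1 cert52_20_11 k (by omega) (by omega)
  by_cases h12 : k < 13
  · exact cert52_20.okR_spec 12 1 cert52_20_12 k (by omega) (by omega)
  by_cases h13 : k < 14
  · exact cert52_20.okR_spec 13 1 cert52_20_13 k (by omega) (by omega)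
  by_cases h14 : k < 15
  · exact cert52_20.okR_spec 14 1 cert52_20_14 k (by omega) (by omega)
  by_cases h15 : k < 16
  · exact cert52_20.okR_spec 15 1 cert52_20_15 k (by omega) (by omega)
  by_cases h16 : k < 17
  · exact cert52_20.okR_spec 16 1 cert52_20_16 k (by omega) (by omega)
  by_cases h17 : k < 18
  · exact cert52_20.okR_spec 17 1 cert52_20_17 k (by omega) (by omega)
  by_cases h18 : k < 19
  · exact cert52_20.okR_spec 18 1 cert52_20_18 k (by omega) (by omega)
  by_cases h19 : k < 21
  · exact cert52_20.okR_spec 19 2 cert52_20_19 k (by omega) (by omega)
  by_cases h21 : k < 23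
  · exact cert52_20.okR_spec 21 2 cert52_20_21 k (by omega) (by omega)
  by_cases h23 : k < 25
  · exact cert52_20.okR_spec 23 2 cert52_20_23 k (by omega) (by omega)
  by_cases h25 : k < 28
  · exact cert52_20.okR_spec 25 3 cert52_20_25 k (by omega) (by omega)
  by_cases h28 : k < 32
  · exact cert52_20.okR_spec 28 4 cert52_20_28 k (by omega) (by omega)
  by_cases h32 : k < 38
  · exact cert52_20.okR_spec 32 6 cert52_20_32 k (by omega) (by omega)
  exact cert52_20.okR_spec 38 14 cert52_20_38 k (by omega) (by omega)

end Pool.Agent.Lib.MP92dd55
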