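import Pool.Agent.Lib.MP92dd55.CertDefs

/-! # Certificates for deadlines between `53 n / 20` and `53 n / 20` -/

namespace Pool.Agent.Lib.MP92dd55

/-- certificate for `τ = 53/20` -/
def cert53_20 : Cert where
  M := 53
  D := 20
  V := 825363
  F1 := 61986761718821505717777779736998209563679593653483690054612578806052052616154949792458957371794864756891538494189059037509326701931747714954912130495135784559729834996326270978795716273447809420300224361067078147197608835841788680768745223685080117500052928631
  F2 := 60218707510759115562067371205832564954392978431973694651288413046200523931086614267957066676310094079918403277142662650554446939744610305409721280881809591195076132483904619248762231759169038131224508967951081493780183385084861488683944716737593955950410888020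
  F3 := 57373321888339330484909370222868286243464930801374967014863819341773221455393374127800912905713662696962973691621976057400617724811448777854523054927697032988814075520421665292599340559295808482707324194898004259613026228675753910576626739319775849386801204203
  G := 87321080398303775970856202368834343806988792788171526174817413718452078036628026649940640604878390112927606421900849505305920434931122571114708076306773115962441159931482400465767684597538117653766731477259532869276729899475301801049094159561920529433800
  L := 9512294244
  H := 9512294246

theorem cert53_20_0 : cert53_20.okR 0 1 = true := by decide +kernel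

theorem cert53_20_1 : cert53_20.okR 1 1 = true := by decide +kernel

theorem cert53_20_2 : cert53_20.okR 2 1 = true := by decide +kernel

theorem cert53_20_3 : cert53_20.okR 3 1 = true := by decide +kernel

theorem cert53_20_4 : cert53_20.okR 4 1 = true := by decide +kernel

theorem cert53_20_5 : cert53_20.okR 5 1 = true := by decide +kernel

theorem cert53_20_6 : cert53_20.okR 6 1 = true := by decide +kernel

theorem cert53_20_7 : cert53_20.okR 7 1 = true := by decide +kernel

theorem cert53_20_8 : cert53_20.okR 8 1 = true := by decide +kernel

theorem cert53_20_9 : cert53_20.okR 9 1 = true := by decide +kernel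

theorem cert53_20_10 : cert53_20.okR 10 1 = true := by decide +kernel

theorem cert53_20_11 : cert53_20.okR 11 1 = true := by decide +kernel

theorem cert53_20_12 : cert53_20.okR 12 1 = true := by decide +kernel

theorem cert53_20_13 : cert53_20.okR 13 1 = true := by decide +kernel

theorem cert53_20_14 : cert53_20.okR 14 1 = true := by decide +kernel

theorem cert53_20_15 : cert53_20.okR 15 1 = true := by decide +kernel

theorem cert53_20_16 : cert53_20.okR 16 1 = true := by decide +kernel

theorem cert53_20_17 : cert53_20.okR 17 1 = true := by decide +kernel

theorem cert53_20_18 : cert53_20.okR 18 1 = true := by decide +kernel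

theorem cert53_20_19 : cert53_20.okR 19 1 = true := by decide +kernel

theorem cert53_20_20 : cert53_20.okR 20 2 = true := by decide +kernel

theorem cert53_20_22 : cert53_20.okR 22 2 = true := by decide +kernel

theorem cert53_20_24 : cert53_20.okR 24 2 = true := by decide +kernel

theorem cert53_20_26 : cert53_20.okR 26 3 = true := by decide +kernel

theorem cert53_20_29 : cert53_20.okR 29 4 = true := by decide +kernel

theorem cert53_20_33 : cert53_20.okR 33 6 = true := by decide +kernel

theorem cert53_20_39 : cert53_20.okR 39 14 = true := by decide +kernel

theorem cert53_20_ok : ∀ k < 53, cert53_20.okK k = true := by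
  intro k hk
  by_cases h0 : k < 1
  · exact cert53_20.okR_spec 0 1 cert53_20_0 k (by omega) (by omega)
  by_cases h1 : k < 2
  · exact cert53_20.okR_spec 1 1 cert53_20_1 k (by omega) (by omega)
  by_cases h2 : k < 3
  · exact cert53_20.okR_spec 2 1 cert53_20_2 k (by omega) (by omega)
  by_cases h3 : k < 4
  · exact cert53_20.okR_spec 3 1 cert53_20_3 k (by omega) (by omega)
  by_cases h4 : k < 5
  · exact cert53_20.okR_spec 4 1 cert53_20_4 k (by omega) (by omega)
  by_cases h5 : k < 6
  · exact cert53_20.okR_spec 5 1 cert53_20_5 k (by omega) (by omega)
  by_cases h6 : k < 7
  · exact cert53_20.okR_spec 6 1 cert53_20_6 k (by omega) (by omega)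
  by_cases h7 : k < 8
  · exact cert53_20.okR_spec 7 1 cert53_20_7 k (by omega) (by omega)
  by_cases h8 : k < 9
  · exact cert53_20.okR_spec 8 1 cert53_20_8 k (by omega) (by omega)
  by_cases h9 : k < 10
  · exact cert53_20.okR_spec 9 1 cert53_20_9 k (by omega) (by omega)
  by_cases h10 : k < 11
  · exact cert53_20.okR_spec 10 1 cert53_20_10 k (by omega) (by omega)
  by_cases h11 : k < 12
  · exact cert53_20.okR_spec 11 1 cert53_20_11 k (by omega) (by omega)
  by_cases h12 : k < 13
  · exact cert53_20.okR_spec 12 1 cert53_20_12 k (by omega) (by omega)
  by_cases h13 : k < 14
  · exact cert53_20.okR_spec 13 1 cert53_20_13 k (by omega) (by omega)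
  by_cases h14 : k < 15
  · exact cert53_20.okR_spec 14 1 cert53_20_14 k (by omega) (by omega)
  by_cases h15 : k < 16
  · exact cert53_20.okR_spec 15 1 cert53_20_15 k (by omega) (by omega)
  by_cases h16 : k < 17
  · exact cert53_20.okR_spec 16 1 cert53_20_16 k (by omega) (by omega)
  by_cases h17 : k < 18
  · exact cert53_20.okR_spec 17 1 cert53_20_17 k (by omega) (by omega)
  by_cases h18 : k < 19
  · exact cert53_20.okR_spec 18 1 cert53_20_18 k (by omega) (by omega)
  by_cases h19 : k < 20
  · exact cert53_20.okR_spec 19 1 cert53_20_19 k (by omega) (by omega)
  by_cases h20 : k < 22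
  · exact cert53_20.okR_spec 20 2 cert53_20_20 k (by omega) (by omega)
  by_cases h22 : k < 24
  · exact cert53_20.okR_spec 22 2 cert53_20_22 k (by omega) (by omega)
  by_cases h24 : k < 26
  · exact cert53_20.okR_spec 24 2 cert53_20_24 k (by omega) (by omega)
  by_cases h26 : k < 29
  · exact cert53_20.okR_spec 26 3 cert53_20_26 k (by omega) (by omega)
  by_cases h29 : k < 33
  · exact cert53_20.okR_spec 29 4 cert53_20_29 k (by omega) (by omega)
  by_cases h33 : k < 39
  · exact cert53_20.okR_spec 33 6 cert53_20_33 k (by omega) (by omega)
  exact cert53_20.okR_spec 39 14 cert53_20_39 k (by omega) (by omega)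

end Pool.Agent.Lib.MP92dd55
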