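import Pool.Agent.Lib.MP92dd55.CertDefs

/-! # Certificates for deadlines between `54 n / 20` and `54 n / 20` -/

namespace Pool.Agent.Lib.MP92dd55

/-- certificate for `τ = 54/20` -/
def cert54_20 : Cert where
  M := 54
  D := 20
  V := 607493
  F1 := 4036287442935889991049021044717511244718382466357463803415951273525051488521704531498468328610600168337316952836436078774408348424871167809421885652832322464758831592975682774873887788050053406739376004231174494744030617155477433120756698487268631807428687289873809
  F2 := 3893109187049163117942752700034383692726014191119972625473220651584190770515157841569723048852823172224267539674150274156604938408214047277890748499245038349399389864562276429543952758195169629004607197281643783357775638179795421022394284082229984274851778305553125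
  F3 := 3776992646460053330894166149754878249460678720657745584793831677682997340670884629073440592945259196226518217854222718868893564693388679141135994201740608582687264746035895050061313382447994242969742456637558061392677683649292787001265798639274758634208861097726452
  G := 5257216701647040958408728913040524515114302416760002769742743379391383114408229755751811909302568853490946767768570262915216047048254939885244773940517137618801543646504944253854030856213933912274657357284338048877633717131834160851673532671984922729886122657
  L := 9512294244
  H := 9512294246

theorem cert54_20_0 : cert54_20.okR 0 1 = true := by decide +kernel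

theorem cert54_20_1 : cert54_20.okR 1 1 = true := by decide +kernel

theorem cert54_20_2 : cert54_20.okR 2 1 = true := by decide +kernel

theorem cert54_20_3 : cert54_20.okR 3 1 = true := by decide +kernel

theorem cert54_20_4 : cert54_20.okR 4 1 = true := by decide +kernel

theorem cert54_20_5 : cert54_20.okR 5 1 = true := by decide +kernel

theorem cert54_20_6 : cert54_20.okR 6 1 = true := by decide +kernel

theorem cert54_20_7 : cert54_20.okR 7 1 = true := by decide +kernel

theorem cert54_20_8 : cert54_20.okR 8 1 = true := by decide +kernel

theorem cert54_20_9 : cert54_20.okR 9 1 = true := by decide +kernel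

theorem cert54_20_10 : cert54_20.okR 10 1 = true := by decide +kernel

theorem cert54_20_11 : cert54_20.okR 11 1 = true := by decide +kernel

theorem cert54_20_12 : cert54_20.okR 12 1 = true := by decide +kernel

theorem cert54_20_13 : cert54_20.okR 13 1 = true := by decide +kernel

theorem cert54_20_14 : cert54_20.okR 14 1 = true := by decide +kernel

theorem cert54_20_15 : cert54_20.okR 15 1 = true := by decide +kernel

theorem cert54_20_16 : cert54_20.okR 16 1 = true := by decide +kernel

theorem cert54_20_17 : cert54_20.okR 17 1 = true := by decide +kernel

theorem cert54_20_18 : cert54_20.okR 18 1 = true := by decide +kernel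

theorem cert54_20_19 : cert54_20.okR 19 1 = true := by decide +kernel

theorem cert54_20_20 : cert54_20.okR 20 1 = true := by decide +kernel

theorem cert54_20_21 : cert54_20.okR 21 2 = true := by decide +kernel

theorem cert54_20_23 : cert54_20.okR 23 2 = true := by decide +kernel

theorem cert54_20_25 : cert54_20.okR 25 2 = true := by decide +kernel

theorem cert54_20_27 : cert54_20.okR 27 3 = true := by decide +kernel

theorem cert54_20_30 : cert54_20.okR 30 4 = true := by decide +kernel

theorem cert54_20_34 : cert54_20.okR 34 6 = true := by decide +kernel

theorem cert54_20_40 : cert54_20.okR 40 14 = true := by decide +kernel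

theorem cert54_20_ok : ∀ k < 54, cert54_20.okK k = true := by
  intro k hk
  by_cases h0 : k < 1
  · exact cert54_20.okR_spec 0 1 cert54_20_0 k (by omega) (by omega)
  by_cases h1 : k < 2
  · exact cert54_20.okR_spec 1 1 cert54_20_1 k (by omega) (by omega)
  by_cases h2 : k < 3
  · exact cert54_20.okR_spec 2 1 cert54_20_2 k (by omega) (by omega)
  by_cases h3 : k < 4
  · exact cert54_20.okR_spec 3 1 cert54_20_3 k (by omega) (by omega)
  by_cases h4 : k < 5
  · exact cert54_20.okR_spec 4 1 cert54_20_4 k (by omega) (by omega)
  by_cases h5 : k < 6
  · exact cert54_20.okR_spec 5 1 cert54_20_5 k (by omega) (by omega)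
  by_cases h6 : k < 7
  · exact cert54_20.okR_spec 6 1 cert54_20_6 k (by omega) (by omega)
  by_cases h7 : k < 8
  · exact cert54_20.okR_spec 7 1 cert54_20_7 k (by omega) (by omega)
  by_cases h8 : k < 9
  · exact cert54_20.okR_spec 8 1 cert54_20_8 k (by omega) (by omega)
  by_cases h9 : k < 10
  · exact cert54_20.okR_spec 9 1 cert54_20_9 k (by omega) (by omega)
  by_cases h10 : k < 11
  · exact cert54_20.okR_spec 10 1 cert54_20_10 k (by omega) (by omega)
  by_cases h11 : k < 12
  · exact cert54_20.okR_spec 11 1 cert54_20_11 k (by omega) (by omega)
  by_cases h12 : k < 13
  · exact cert54_20.okR_spec 12 1 cert54_20_12 k (by omega) (by omega)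
  by_cases h13 : k < 14
  · exact cert54_20.okR_spec 13 1 cert54_20_13 k (by omega) (by omega)
  by_cases h14 : k < 15
  · exact cert54_20.okR_spec 14 1 cert54_20_14 k (by omega) (by omega)
  by_cases h15 : k < 16
  · exact cert54_20.okR_spec 15 1 cert54_20_15 k (by omega) (by omega)
  by_cases h16 : k < 17
  · exact cert54_20.okR_spec 16 1 cert54_20_16 k (by omega) (by omega)
  by_cases h17 : k < 18
  · exact cert54_20.okR_spec 17 1 cert54_20_17 k (by omega) (by omega)
  by_cases h18 : k < 19
  · exact cert54_20.okR_spec 18 1 cert54_20_18 k (by omega) (by omega)
  by_cases h19 : k < 20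
  · exact cert54_20.okR_spec 19 1 cert54_20_19 k (by omega) (by omega)
  by_cases h20 : k < 21
  · exact cert54_20.okR_spec 20 1 cert54_20_20 k (by omega) (by omega)
  by_cases h21 : k < 23
  · exact cert54_20.okR_spec 21 2 cert54_20_21 k (by omega) (by omega)
  by_cases h23 : k < 25
  · exact cert54_20.okR_spec 23 2 cert54_20_23 k (by omega) (by omega)
  by_cases h25 : k < 27
  · exact cert54_20.okR_spec 25 2 cert54_20_25 k (by omega) (by omega)
  by_cases h27 : k < 30
  · exact cert54_20.okR_spec 27 3 cert54_20_27 k (by omega) (by omega)
  by_cases h30 : k < 34
  · exact cert54_20.okR_spec 30 4 cert54_20_30 k (by omega) (by omega)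
  by_cases h34 : k < 40
  · exact cert54_20.okR_spec 34 6 cert54_20_34 k (by omega) (by omega)
  exact cert54_20.okR_spec 40 14 cert54_20_40 k (by omega) (by omega)

end Pool.Agent.Lib.MP92dd55
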