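import Pool.Agent.Lib.MP92dd55.CertDefs

/-! # Certificates for deadlines between `55 n / 20` and `55 n / 20` -/

namespace Pool.Agent.Lib.MP92dd55

/-- certificate for `τ = 55/20` -/
def cert55_20 : Cert where
  M := 55
  D := 20
  V := 412702
  F1 := 266134378781410899058565285077393385987144109611050950910752899887430030927858752343177936091621117230184670796103338283089202584943907612933191650200949474797174468599611406214857561616670695845670627845819004002748418887770713948559387409208468640644382772526265885905
  F2 := 251035639812414622554340659663668375100014568140514345651568832678254932754617474426123920073251913387465553815442508907815621679813835272967087657060584538665939465257105404038225912783745821121686432648640860779631162156975855111270138625941984630853658646944478627059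
  F3 := 250334304846811249079050399361385311023222415415618658747112856952877753433207550897647669166109116580955964167161978582665620745060713855907400769778893380819497130076006543858630142542556250855403370222609255335885440386813419903155209386633775784126584942946588524037
  G := 327931463916523817754466512863696295732813143000395364380715739834319959610251064290909910924778455494813056776878908817864527190143604132906476793516161760401173170003014648407920741924198748145521073483105234119519676759699098697150487312286018594330094582104938
  L := 9512294244
  H := 9512294246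

theorem cert55_20_0 : cert55_20.okR 0 1 = true := by decide +kernel

theorem cert55_20_1 : cert55_20.okR 1 1 = true := by decide +kernel

theorem cert55_20_2 : cert55_20.okR 2 1 = true := by decide +kernel

theorem cert55_20_3 : cert55_20.okR 3 1 = true := by decide +kernel

theorem cert55_20_4 : cert55_20.okR 4 1 = true := by decide +kernel

theorem cert55_20_5 : cert55_20.okR 5 1 = true := by decide +kernel

theorem cert55_20_6 : cert55_20.okR 6 1 = true := by decide +kernel

theorem cert55_20_7 : cert55_20.okR 7 1 = true := by decide +kernel

theorem cert55_20_8 : cert55_20.okR 8 1 = true := by decide +kernel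

theorem cert55_20_9 : cert55_20.okR 9 1 = true := by decide +kernel

theorem cert55_20_10 : cert55_20.okR 10 1 = true := by decide +kernel

theorem cert55_20_11 : cert55_20.okR 11 1 = true := by decide +kernel

theorem cert55_20_12 : cert55_20.okR 12 1 = true := by decide +kernel

theorem cert55_20_13 : cert55_20.okR 13 1 = true := by decide +kernel

theorem cert55_20_14 : cert55_20.okR 14 1 = true := by decide +kernel

theorem cert55_20_15 : cert55_20.okR 15 1 = true := by decide +kernel

theorem cert55_20_16 : cert55_20.okR 16 1 = true := by decide +kernel

theorem cert55_20_17 : cert55_20.okR 17 1 = true := by decide +kernel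

theorem cert55_20_18 : cert55_20.okR 18 1 = true := by decide +kernel

theorem cert55_20_19 : cert55_20.okR 19 1 = true := by decide +kernel

theorem cert55_20_20 : cert55_20.okR 20 1 = true := by decide +kernel

theorem cert55_20_21 : cert55_20.okR 21 1 = true := by decide +kernel

theorem cert55_20_22 : cert55_20.okR 22 2 = true := by decide +kernel

theorem cert55_20_24 : cert55_20.okR 24 2 = true := by decide +kernel

theorem cert55_20_26 : cert55_20.okR 26 2 = true := by decide +kernel

theorem cert55_20_28 : cert55_20.okR 28 3 = true := by decide +kernel

theorem cert55_20_31 : cert55_20.okR 31 4 = true := by decide +kernel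

theorem cert55_20_35 : cert55_20.okR 35 6 = true := by decide +kernel

theorem cert55_20_41 : cert55_20.okR 41 14 = true := by decide +kernel

theorem cert55_20_ok : ∀ k < 55, cert55_20.okK k = true := by
  intro k hk
  by_cases h0 : k < 1
  · exact cert55_20.okR_spec 0 1 cert55_20_0 k (by omega) (by omega)
  by_cases h1 : k < 2
  · exact cert55_20.okR_spec 1 1 cert55_20_1 k (by omega) (by omega)
  by_cases h2 : k < 3
  · exact cert55_20.okR_spec 2 1 cert55_20_2 k (by omega) (by omega)
  by_cases h3 : k < 4
  · exact cert55_20.okR_spec 3 1 cert55_20_3 k (by omega) (by omega)
  by_cases h4 : k < 5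
  · exact cert55_20.okR_spec 4 1 cert55_20_4 k (by omega) (by omega)
  by_cases h5 : k < 6
  · exact cert55_20.okR_spec 5 1 cert55_20_5 k (by omega) (by omega)
  by_cases h6 : k < 7
  · exact cert55_20.okR_spec 6 1 cert55_20_6 k (by omega) (by omega)
  by_cases h7 : k < 8
  · exact cert55_20.okR_spec 7 1 cert55_20_7 k (by omega) (by omega)
  by_cases h8 : k < 9
  · exact cert55_20.okR_spec 8 1 cert55_20_8 k (by omega) (by omega)
  by_cases h9 : k < 10
  · exact cert55_20.okR_spec 9 1 cert55_20_9 k (by omega) (by omega)
  by_cases h10 : k < 11
  · exact cert55_20.okR_spec 10 1 cert55_20_10 k (by omega) (by omega)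
  by_cases h11 : k < 12
  · exact cert55_20.okR_spec 11 1 cert55_20_11 k (by omega) (by omega)
  by_cases h12 : k < 13
  · exact cert55_20.okR_spec 12 1 cert55_20_12 k (by omega) (by omega)
  by_cases h13 : k < 14
  · exact cert55_20.okR_spec 13 1 cert55_20_13 k (by omega) (by omega)
  by_cases h14 : k < 15
  · exact cert55_20.okR_spec 14 1 cert55_20_14 k (by omega) (by omega)
  by_cases h15 : k < 16
  · exact cert55_20.okR_spec 15 1 cert55_20_15 k (by omega) (by omega)
  by_cases h16 : k < 17
  · exact cert55_20.okR_spec 16 1 cert55_20_16 k (by omega) (by omega)
  by_cases h17 : k < 18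
  · exact cert55_20.okR_spec 17 1 cert55_20_17 k (by omega) (by omega)
  by_cases h18 : k < 19
  · exact cert55_20.okR_spec 18 1 cert55_20_18 k (by omega) (by omega)
  by_cases h19 : k < 20
  · exact cert55_20.okR_spec 19 1 cert55_20_19 k (by omega) (by omega)
  by_cases h20 : k < 21
  · exact cert55_20.okR_spec 20 1 cert55_20_20 k (by omega) (by omega)
  by_cases h21 : k < 22
  · exact cert55_20.okR_spec 21 1 cert55_20_21 k (by omega) (by omega)
  by_cases h22 : k < 24
  · exact cert55_20.okR_spec 22 2 cert55_20_22 k (by omega) (by omega)
  by_cases h24 : k < 26
  · exact cert55_20.okR_spec 24 2 cert55_20_24 k (by omega) (by omega)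
  by_cases h26 : k < 28
  · exact cert55_20.okR_spec 26 2 cert55_20_26 k (by omega) (by omega)
  by_cases h28 : k < 31
  · exact cert55_20.okR_spec 28 3 cert55_20_28 k (by omega) (by omega)
  by_cases h31 : k < 35
  · exact cert55_20.okR_spec 31 4 cert55_20_31 k (by omega) (by omega)
  by_cases h35 : k < 41
  · exact cert55_20.okR_spec 35 6 cert55_20_35 k (by omega) (by omega)
  exact cert55_20.okR_spec 41 14 cert55_20_41 k (by omega) (by omega)

end Pool.Agent.Lib.MP92dd55
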