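import Mathlib
import Pool.Agent.Lib.MP92dd55.CertDefs
import Pool.Agent.Lib.MP92dd55.CertCorner
import Pool.Agent.Lib.MP92dd55.CertCover

/-! # Soundness of the integer certificates -/

namespace Pool.Agent.Lib.MP92dd55

open Real

lemma allB_spec (p : ℕ → Bool) : ∀ n : ℕ, allB n p = true → ∀ k < n, p k = true := by
  intro n
  induction n with
  | zero => intro _ k hk; omega
  | succ n ih =>
    intro h k hk
    unfold allB at h
    rw [Bool.and_eq_true] at h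
    rcases Nat.lt_succ_iff_lt_or_eq.1 hk with h1 | h1
    · exact ih h.2 k h1
    · rw [h1]; exact h.1

lemma cast_tsub (a b : ℕ) : ((a - b : ℕ) : ℝ) = max 0 ((a : ℝ) - b) := by
  rcases le_total b a with h | h
  · rw [Nat.cast_sub h, max_eq_right]
    have : (b : ℝ) ≤ a := by exact_mod_cast h
    linarith
  · rw [Nat.sub_eq_zero_of_le h, max_eq_left]
    · simp
    · have : (a : ℝ) ≤ b := by exact_mod_cast h
      linarith

namespace Cert

variable (c : Cert)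

/-- the real data -/
noncomputable def toRC : RC where
  M := c.M
  D := c.D
  v := (c.V : ℝ) / 10 ^ 8
  f1 := fun m => ((dig c.F1 m : ℝ) - 32768) / 10 ^ 4
  f2 := fun m => ((dig c.F2 m : ℝ) - 32768) / 10 ^ 4
  f3 := fun m => ((dig c.F3 m : ℝ) - 32768) / 10 ^ 4
  g := fun i => (dig c.G i : ℝ) / 10 ^ 4

lemma EL_le (hL : (c.L : ℝ) / 10 ^ 10 ≤ exp (-(1 / (c.D : ℝ)))) (k : ℕ) :
    (c.EL k : ℝ) ≤ 10 ^ 8 * exp (-((k : ℝ) / c.D)) := by
  unfold EL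
  have h1 : ((c.L ^ k * 10 ^ 8 / 10 ^ (10 * k) : ℕ) : ℝ) ≤
      ((c.L ^ k * 10 ^ 8 : ℕ) : ℝ) / ((10 ^ (10 * k) : ℕ) : ℝ) := Nat.cast_div_le
  refine h1.trans ?_
  have h2 : ((c.L ^ k * 10 ^ 8 : ℕ) : ℝ) / ((10 ^ (10 * k) : ℕ) : ℝ) =
      10 ^ 8 * ((c.L : ℝ) / 10 ^ 10) ^ k := by
    push_cast
    rw [div_pow, ← pow_mul]
    ring
  rw [h2]
  have h3 : exp (-((k : ℝ) / c.D)) = exp (-(1 / (c.D : ℝ))) ^ k := by
    rw [← exp_nat_mul]; congr 1; ring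
  rw [h3]
  gcongr

lemma EH_ge (hH : exp (-(1 / (c.D : ℝ))) ≤ (c.H : ℝ) / 10 ^ 10) (k : ℕ) :
    10 ^ 8 * exp (-((k : ℝ) / c.D)) ≤ (c.EH k : ℝ) := by
  unfold EH
  have h1 : c.H ^ k * 10 ^ 8 < (c.H ^ k * 10 ^ 8 / 10 ^ (10 * k) + 1) * 10 ^ (10 * k) := by
    rw [mul_comm _ (10 ^ (10 * k))]
    exact Nat.lt_mul_div_succ _ (by positivity)
  have h2 : ((c.H ^ k * 10 ^ 8 : ℕ) : ℝ) <
      (((c.H ^ k * 10 ^ 8 / 10 ^ (10 * k) + 1) * 10 ^ (10 * k) : ℕ) : ℝ) := by exact_mod_cast h1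
  rw [Nat.cast_mul (c.H ^ k * 10 ^ 8 / 10 ^ (10 * k) + 1)] at h2
  have h0 : (0 : ℝ) < ((10 ^ (10 * k) : ℕ) : ℝ) := by positivity
  have h3 : ((c.H ^ k * 10 ^ 8 : ℕ) : ℝ) / ((10 ^ (10 * k) : ℕ) : ℝ) ≤
      ((c.H ^ k * 10 ^ 8 / 10 ^ (10 * k) + 1 : ℕ) : ℝ) := by
    rw [div_le_iff₀ h0]; exact h2.le
  refine le_trans ?_ h3
  have h4 : ((c.H ^ k * 10 ^ 8 : ℕ) : ℝ) / ((10 ^ (10 * k) : ℕ) : ℝ) =
      10 ^ 8 * ((c.H : ℝ) / 10 ^ 10) ^ k := by
    push_cast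
    rw [div_pow, ← pow_mul]
    ring
  rw [h4]
  have h5 : exp (-((k : ℝ) / c.D)) = exp (-(1 / (c.D : ℝ))) ^ k := by
    rw [← exp_nat_mul]; congr 1; ring
  rw [h5]
  gcongr

lemma ffR_eq (m m' : ℕ) : c.toRC.ffR m m' * 10 ^ 8 =
    (c.pp m m' : ℝ) + 3221225472 - 32768 * ((c.sm m : ℝ) + c.sm m') := by
  unfold RC.ffR toRC pp sm
  push_cast
  ring

lemma ddR_eq (i j : ℕ) : c.toRC.ddR i j * 10 ^ 8 =
    ((c.pp (i + 1) (j + 1) : ℝ) + c.pp i j) - ((c.pp (i + 1) j : ℝ) + c.pp i (j + 1)) := by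
  unfold RC.ddR toRC pp
  push_cast
  ring

lemma UR_eq (hD : 1 ≤ c.D) (k m : ℕ) : max 0 (c.toRC.UR k m) = ((c.D + k - m : ℕ) : ℝ) / c.D := by
  have hD0 : (0 : ℝ) < c.D := by exact_mod_cast hD
  rw [cast_tsub]
  have h1 : c.toRC.UR k m = (((c.D + k : ℕ) : ℝ) - m) / c.D := by
    unfold RC.UR toRC
    push_cast; field_simp
    ring
  rw [h1]
  rcases le_total 0 (((c.D + k : ℕ) : ℝ) - m) with h | h
  · rw [max_eq_right h, max_eq_right (by positivity)]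
  · rw [max_eq_left h, max_eq_left (div_nonpos_of_nonpos_of_nonneg h hD0.le)]
    simp

/-- the inequality at a grid point, over the reals -/
lemma okV_real (hD : 1 ≤ c.D) (hM : 1 ≤ c.M) (pen k el gg m m' : ℕ) (i j : ℕ)
    (hgg : gg = dig c.G i * dig c.G j) (h : c.okV pen k el gg m m' = true)
    (E : ℝ) (hE : (el : ℝ) ≤ 10 ^ 8 * E) :
    (pen : ℝ) / (8 * (c.D : ℝ) ^ 4 * c.M * 10 ^ 8) ≤
      E * (max 0 (c.toRC.UR k m) * max 0 (c.toRC.UR k m')) -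
      (c.toRC.v + c.toRC.ffR m m' + c.toRC.g i * c.toRC.g j *
        ((k : ℝ) / c.D - (m : ℝ) * m' / (c.D * c.M))) := by
  have hD0 : (0 : ℝ) < c.D := by exact_mod_cast hD
  have hM0 : (0 : ℝ) < c.M := by exact_mod_cast hM
  unfold okV at h
  have h1 := Nat.le_of_ble_eq_true h
  have h2 : ((8 * c.D ^ 4 * c.M * (c.V + c.pp m m' + 3221225472) + 8 * c.D ^ 3 * gg * (k * c.M) +
      pen : ℕ) : ℝ) ≤ ((8 * c.D * c.D * c.M * el * ((c.D + k - m) * (c.D + k - m')) +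
      8 * c.D ^ 4 * c.M * (32768 * (c.sm m + c.sm m')) + 8 * c.D ^ 3 * gg * (m * m') : ℕ) : ℝ) := by
    exact_mod_cast h1
  rw [c.UR_eq hD, c.UR_eq hD]
  set U : ℝ := ((c.D + k - m : ℕ) : ℝ) with hU
  set U' : ℝ := ((c.D + k - m' : ℕ) : ℝ) with hU'
  have hU0 : 0 ≤ U := by positivity
  have hU0' : 0 ≤ U' := by positivity
  rw [Nat.cast_add, Nat.cast_add, Nat.cast_add, Nat.cast_add] at h2
  have e1 : ((8 * c.D * c.D * c.M * el * ((c.D + k - m) * (c.D + k - m')) : ℕ) : ℝ) =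
      8 * c.D * c.D * c.M * el * (U * U') := by
    rw [hU, hU']
    simp only [Nat.cast_mul, Nat.cast_ofNat]
  rw [e1] at h2
  have e2 : (8 * c.D * c.D * c.M * el * (U * U') : ℝ) ≤
      8 * c.D * c.D * c.M * (10 ^ 8 * E) * (U * U') := by gcongr
  have h3 := h2.trans (add_le_add (add_le_add e2 le_rfl) le_rfl)
  have hg : c.toRC.g i * c.toRC.g j * 10 ^ 8 = (gg : ℝ) := by
    rw [hgg]; unfold toRC; push_cast; ring
  have hf := c.ffR_eq m m'
  have hv : c.toRC.v * 10 ^ 8 = (c.V : ℝ) := by unfold toRC; simp only; ring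
  set ff := c.toRC.ffR m m'
  set g2 := c.toRC.g i * c.toRC.g j
  set v := c.toRC.v
  rw [div_le_iff₀ (by positivity)]
  have h4 : (E * (U / c.D * (U' / c.D)) - (v + ff + g2 * ((k : ℝ) / c.D - (m : ℝ) * m' /
      (c.D * c.M)))) * (8 * (c.D : ℝ) ^ 4 * c.M * 10 ^ 8) =
      8 * c.D * c.D * c.M * (10 ^ 8 * E) * (U * U') - 8 * (c.D : ℝ) ^ 4 * c.M *
        (v * 10 ^ 8 + ff * 10 ^ 8) - 8 * (c.D : ℝ) ^ 3 * (g2 * 10 ^ 8) * (k * c.M - m * m') := by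
    field_simp
    ring
  rw [h4, hg, hf, hv]
  push_cast at h3 ⊢
  linarith

theorem sound (hD : 1 ≤ c.D) (hM : 1 ≤ c.M) (hok : ∀ k < c.M, c.okK k = true)
    (hL : (c.L : ℝ) / 10 ^ 10 ≤ exp (-(1 / (c.D : ℝ))))
    (hH : exp (-(1 / (c.D : ℝ))) ≤ (c.H : ℝ) / 10 ^ 10)
    (a b z : ℝ) (hz : 0 ≤ z) (hza : z ≤ a) (hzb : z ≤ b) (hab : a + b ≤ c.M / c.D + z) :
    0 ≤ c.toRC.HH z (c.toRC.cell a) (c.toRC.cell b) a b := by
  have hD0 : (0 : ℝ) < c.D := by exact_mod_cast hD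
  have hM0 : (0 : ℝ) < c.M := by exact_mod_cast hM
  refine c.toRC.sound hD hM ?_ a b z hz hza hzb hab
  intro k i j hk hi hj hki hij hs p hp q hq y hy0 hy1
  change k < c.M at hk
  change i < c.M at hi
  change j < c.M at hj
  change i + j ≤ c.M + k at hs
  change p ∈ cornersD c.D k i at hp
  change q ∈ cornersD c.D k j at hq
  have h1 := hok k hk
  unfold okK at h1
  have h2 := allB_spec _ _ (allB_spec _ _ h1 i hi) j hj
  rw [if_neg (by omega), if_neg (by omega), if_neg (by omega)] at h2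
  unfold okIJ at h2
  rw [List.all_eq_true] at h2
  have h3 := h2 p hp
  rw [List.all_eq_true] at h3
  have h4 := h3 q hq
  unfold okC at h4
  rw [Bool.and_eq_true] at h4
  obtain ⟨h5, h6⟩ := h4
  have hcor : ∀ (i : ℕ) (p : ℕ × ℕ), k ≤ i → p ∈ cornersD c.D k i →
      (p.2 = 0 ∨ p.2 = 1) ∧ (p.1 = i ∨ (p.1 = i + 1 ∧ p.2 = 0)) ∧ k ≤ p.1 := by
    intro i p hki hp
    unfold cornersD at hp
    split_ifs at hp with a1 a2
    · simp only [List.mem_cons, List.not_mem_nil, or_false] at hp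
      rcases hp with rfl | rfl <;> simp <;> omega
    · simp only [List.mem_cons, List.not_mem_nil, or_false] at hp
      rcases hp with rfl | rfl | rfl <;> simp <;> omega
    · simp only [List.mem_cons, List.not_mem_nil, or_false] at hp
      rcases hp with rfl | rfl <;> simp <;> omega
  obtain ⟨he, hm, hkm⟩ := hcor i p hki hp
  obtain ⟨he', hm', hkm'⟩ := hcor j q (by omega) hq
  obtain ⟨m, e⟩ := p
  obtain ⟨m', e'⟩ := q
  simp only at he hm hkm he' hm' hkm' h5 h6 ⊢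
  set Cn := c.curv k m e m' e' with hCn
  set c2 := c.curv2 (dig c.G i * dig c.G j) i j e e' with hc2
  have r1 := c.okV_real hD hM _ k _ _ m m' i j rfl h5 _ (c.EL_le hL k)
  have r2 := c.okV_real hD hM _ (k + 1) _ _ (m + e) (m' + e') i j rfl h6 _ (c.EL_le hL (k + 1))
  have hpen : (((c.M * c.EH k * Cn + 2 * c.D * c.D * c2 : ℕ) : ℝ)) /
      (8 * (c.D : ℝ) ^ 4 * c.M * 10 ^ 8) = (c.EH k : ℝ) * Cn / (8 * (c.D : ℝ) ^ 4 * 10 ^ 8) +
        (c2 : ℝ) / (4 * (c.D : ℝ) ^ 2 * c.M * 10 ^ 8) := by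
    push_cast; field_simp; ring
  rw [hpen] at r1 r2
  have hUpos : ∀ m : ℕ, 0 ≤ c.toRC.UR k m → m ≤ c.D + k := by
    intro m hm
    have h1 : c.toRC.UR k m = (((c.D + k : ℕ) : ℝ) - m) / c.D := by
      unfold RC.UR toRC
      push_cast; field_simp
      ring
    rw [h1] at hm
    have h2 : 0 ≤ ((c.D + k : ℕ) : ℝ) - m := by
      by_contra hcon
      push Not at hcon
      have := div_neg_of_neg_of_pos hcon hD0
      linarith
    have h3 : (m : ℝ) ≤ ((c.D + k : ℕ) : ℝ) := by linarith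
    exact_mod_cast h3
  have hUR : ∀ m : ℕ, 0 ≤ c.toRC.UR k m → c.toRC.UR k m = ((c.D + k - m : ℕ) : ℝ) / c.D := by
    intro m hm
    rw [← c.UR_eq hD, max_eq_right hm]
  have hcast2 : ∀ m : ℕ, k ≤ m → ((2 * c.D - (c.D + k - m) : ℕ) : ℝ) =
      2 * c.D - ((c.D + k - m : ℕ) : ℝ) := by
    intro m hm
    rw [Nat.cast_sub (by omega)]
    push_cast; ring
  refine c.toRC.corner_nonneg hD hM k i j m e m' e' he he' hm hm' hkm hkm'
    ((c.EH k : ℝ) * Cn / (8 * (c.D : ℝ) ^ 4 * 10 ^ 8))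
    ((c2 : ℝ) / (4 * (c.D : ℝ) ^ 2 * c.M * 10 ^ 8)) ((Cn : ℝ) / (c.D : ℝ) ^ 2)
    (by positivity) (by positivity) (by positivity) ?_ ?_ ?_ ?_ r1 ?_ y hy0 hy1
  · rintro rfl rfl hU hU'
    have b1 := hUpos m hU
    have b2 := hUpos m' hU'
    rw [hUR m hU, hUR m' hU']
    have h7 : (2 * c.D - (c.D + k - m)) * (2 * c.D - (c.D + k - m')) ≤ Cn + 2 * c.D * c.D := by
      rw [hCn]; unfold curv
      rw [if_neg (by omega), if_neg (by omega), if_pos rfl, if_pos rfl]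
      omega
    have h8 : (((2 * c.D - (c.D + k - m)) * (2 * c.D - (c.D + k - m')) : ℕ) : ℝ) ≤
        ((Cn + 2 * c.D * c.D : ℕ) : ℝ) := by exact_mod_cast h7
    rw [Nat.cast_mul, hcast2 m hkm, hcast2 m' hkm'] at h8
    push_cast at h8
    rw [le_div_iff₀ (by positivity)]
    have h9 : ((2 - ((c.D + k - m : ℕ) : ℝ) / c.D) * (2 - ((c.D + k - m' : ℕ) : ℝ) / c.D) - 2) *
        (c.D : ℝ) ^ 2 = (2 * c.D - ((c.D + k - m : ℕ) : ℝ)) * (2 * c.D - ((c.D + k - m' : ℕ) : ℝ)) -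
        2 * c.D * c.D := by
      field_simp
    rw [h9]
    linarith
  · rintro rfl rfl hU hU'
    have b1 := hUpos m hU
    have b2 := hUpos m' hU'
    rw [hUR m hU, hUR m' hU']
    have h7 : Cn = (c.D + k - m) * (c.D + k - m') := by
      rw [hCn]; unfold curv
      rw [if_neg (by omega), if_neg (by omega), if_neg (by omega), if_neg (by omega)]
    rw [h7]
    push_cast
    apply le_of_eq
    field_simp
  · intro _ _
    have h7 := c.EH_ge hH k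
    have h8 : exp (-((k : ℝ) / c.D)) * ((Cn : ℝ) / (c.D : ℝ) ^ 2) / (8 * (c.D : ℝ) ^ 2) =
        (10 ^ 8 * exp (-((k : ℝ) / c.D))) * Cn / (8 * (c.D : ℝ) ^ 4 * 10 ^ 8) := by
      field_simp
    change exp (-((k : ℝ) / c.D)) * ((Cn : ℝ) / (c.D : ℝ) ^ 2) / (8 * (c.D : ℝ) ^ 2) ≤ _
    rw [h8]
    gcongr
  · rintro rfl rfl
    change (c.toRC.g i * c.toRC.g j / (c.D * c.M) - c.toRC.ddR i j) / 4 ≤ _
    have h7 : dig c.G i * dig c.G j * c.D + c.M * c.D * c.D * (c.pp (i + 1) j + c.pp i (j + 1)) ≤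
        c2 + c.M * c.D * c.D * (c.pp (i + 1) (j + 1) + c.pp i j) := by
      rw [hc2]; unfold curv2
      rw [if_neg (by omega), if_neg (by omega)]
      omega
    have h8 : ((dig c.G i * dig c.G j * c.D + c.M * c.D * c.D *
        (c.pp (i + 1) j + c.pp i (j + 1)) : ℕ) : ℝ) ≤
        ((c2 + c.M * c.D * c.D * (c.pp (i + 1) (j + 1) + c.pp i j) : ℕ) : ℝ) := by
      exact_mod_cast h7
    have hg : c.toRC.g i * c.toRC.g j * 10 ^ 8 = (dig c.G i : ℝ) * dig c.G j := by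
      unfold toRC; push_cast; ring
    have hd := c.ddR_eq i j
    rw [div_le_div_iff₀ (by norm_num) (by positivity)]
    have h9 : (c.toRC.g i * c.toRC.g j / (c.D * c.M) - c.toRC.ddR i j) *
        (4 * (c.D : ℝ) ^ 2 * c.M * 10 ^ 8) =
        4 * ((c.toRC.g i * c.toRC.g j * 10 ^ 8) * c.D - c.M * c.D * c.D *
          (c.toRC.ddR i j * 10 ^ 8)) := by
      field_simp
    rw [h9, hg, hd]
    push_cast at h8
    linarith
  · have : ((k + 1 : ℕ) : ℝ) = (k : ℝ) + 1 := by push_cast; ring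
    have h2 : ((m + e : ℕ) : ℝ) = (m : ℝ) + e := by push_cast; ring
    have h3 : ((m' + e' : ℕ) : ℝ) = (m' : ℝ) + e' := by push_cast; ring
    rw [this, h2, h3] at r2
    exact r2

end Cert

end Pool.Agent.Lib.MP92dd55
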