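import Mathlib

/-! # Permutations avoiding a set of forbidden pairs (switching bounds) -/

namespace Pool.Agent.Lib.MP92dd55

open Finset

variable {n : ℕ}

/-- Permutations `σ` with `σ i ≠ j` for all `(i,j) ∈ E`. -/
def avoid (E : Finset (Fin n × Fin n)) : Finset (Equiv.Perm (Fin n)) :=
  univ.filter fun σ => ∀ e ∈ E, σ e.1 ≠ e.2

/-- Row degree. -/
def rowDeg (E : Finset (Fin n × Fin n)) (i : Fin n) : ℕ := (E.filter (fun e => e.1 = i)).card

/-- Column degree. -/
def colDeg (E : Finset (Fin n × Fin n)) (j : Fin n) : ℕ := (E.filter (fun e => e.2 = j)).card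

lemma mem_avoid {E : Finset (Fin n × Fin n)} {σ : Equiv.Perm (Fin n)} :
    σ ∈ avoid E ↔ ∀ e ∈ E, σ e.1 ≠ e.2 := by simp [avoid]

/-- The avoiding permutations that use the pair `e`. -/
def hit (E : Finset (Fin n × Fin n)) (e : Fin n × Fin n) : Finset (Equiv.Perm (Fin n)) :=
  (avoid E).filter fun σ => σ e.1 = e.2

lemma valid_card (E : Finset (Fin n × Fin n)) (i j : Fin n) (σ : Equiv.Perm (Fin n)) :
    n - (rowDeg E i + colDeg E j) ≤
      (univ.filter fun i' : Fin n => (i, σ i') ∉ E ∧ (i', j) ∉ E).card := by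
  classical
  have h1 : (univ.filter fun i' : Fin n => (i, σ i') ∈ E).card ≤ rowDeg E i := by
    refine Finset.card_le_card_of_injOn (fun i' => (i, σ i')) ?_ ?_
    · intro i' hi'
      have : (i, σ i') ∈ E := by simpa using hi'
      simp [this]
    · intro a _ b _ hab
      have : σ a = σ b := (Prod.ext_iff.1 hab).2
      exact σ.injective this
  have h2 : (univ.filter fun i' : Fin n => (i', j) ∈ E).card ≤ colDeg E j := by
    refine Finset.card_le_card_of_injOn (fun i' => (i', j)) ?_ ?_
    · intro i' hi'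
      have : (i', j) ∈ E := by simpa using hi'
      simp [this]
    · intro a _ b _ hab
      exact (Prod.ext_iff.1 hab).1
  have h3 : (univ : Finset (Fin n)) ⊆
      (univ.filter fun i' : Fin n => (i, σ i') ∉ E ∧ (i', j) ∉ E) ∪
      ((univ.filter fun i' : Fin n => (i, σ i') ∈ E) ∪
       (univ.filter fun i' : Fin n => (i', j) ∈ E)) := by
    intro i' _
    simp only [mem_union, mem_filter, mem_univ, true_and]
    tauto
  have h4 := Finset.card_le_card h3
  have h5 := Finset.card_union_le
    (univ.filter fun i' : Fin n => (i, σ i') ∉ E ∧ (i', j) ∉ E)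
    ((univ.filter fun i' : Fin n => (i, σ i') ∈ E) ∪
       (univ.filter fun i' : Fin n => (i', j) ∈ E))
  have h6 := Finset.card_union_le (univ.filter fun i' : Fin n => (i, σ i') ∈ E)
       (univ.filter fun i' : Fin n => (i', j) ∈ E)
  rw [Finset.card_univ, Fintype.card_fin] at h4
  omega

/-- Switching: at most a fraction `1/(n - deg)` of the avoiding permutations uses `e`. -/
theorem switching (E : Finset (Fin n × Fin n)) (e : Fin n × Fin n) (he : e ∉ E) :
    (n - (rowDeg E e.1 + colDeg E e.2)) * (hit E e).card ≤ (avoid E).card := by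
  classical
  obtain ⟨i, j⟩ := e
  set S : Finset ((_ : Equiv.Perm (Fin n)) × Fin n) :=
    (hit E (i, j)).sigma (fun σ => univ.filter fun i' : Fin n => (i, σ i') ∉ E ∧ (i', j) ∉ E)
    with hS
  have hcard : (n - (rowDeg E i + colDeg E j)) * (hit E (i, j)).card ≤ S.card := by
    rw [hS, Finset.card_sigma, mul_comm]
    calc (hit E (i, j)).card * (n - (rowDeg E i + colDeg E j))
        = ∑ σ ∈ hit E (i, j), (n - (rowDeg E i + colDeg E j)) := by
          rw [Finset.sum_const, smul_eq_mul]
      _ ≤ _ := Finset.sum_le_sum fun σ _ => valid_card E i j σ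
  refine hcard.trans ?_
  refine Finset.card_le_card_of_injOn (fun p => p.1 * Equiv.swap i p.2) ?_ ?_
  · rintro ⟨σ, i'⟩ hp
    have hp' : σ ∈ hit E (i, j) ∧ (i, σ i') ∉ E ∧ (i', j) ∉ E := by simpa [hS] using hp
    obtain ⟨hσ, hr, hc⟩ := hp'
    have hσ' : (∀ e ∈ E, σ e.1 ≠ e.2) ∧ σ i = j := by simpa [hit, mem_avoid] using hσ
    simp only [Finset.mem_coe, mem_avoid]
    rintro ⟨a, b⟩ hab hEq
    simp only [Equiv.Perm.mul_apply] at hEq
    by_cases ha : a = i
    · subst ha
      rw [Equiv.swap_apply_left] at hEq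
      exact hr (hEq ▸ hab)
    · by_cases ha' : a = i'
      · subst ha'
        rw [Equiv.swap_apply_right, hσ'.2] at hEq
        exact hc (hEq ▸ hab)
      · rw [Equiv.swap_apply_of_ne_of_ne ha ha'] at hEq
        exact hσ'.1 _ hab hEq
  · rintro ⟨σ, i'⟩ hp ⟨τ, k⟩ hq hEq
    have hp' : σ ∈ hit E (i, j) ∧ (i, σ i') ∉ E ∧ (i', j) ∉ E := by simpa [hS] using hp
    have hq' : τ ∈ hit E (i, j) ∧ (i, τ k) ∉ E ∧ (k, j) ∉ E := by simpa [hS] using hq
    have hσi : σ i = j := by have := hp'.1; simp [hit] at this; exact this.2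
    have hτi : τ i = j := by have := hq'.1; simp [hit] at this; exact this.2
    simp only at hEq
    have h1 : (σ * Equiv.swap i i') i' = j := by simp [hσi]
    have h2 : (τ * Equiv.swap i k) k = j := by simp [hτi]
    have hik : i' = k := by
      apply (τ * Equiv.swap i k).injective
      rw [h2, ← hEq, h1]
    subst hik
    have : σ = τ := mul_right_cancel hEq
    subst this
    rfl

/-- Probability of avoiding `E`. -/
noncomputable def pAvoid (E : Finset (Fin n × Fin n)) : ℝ :=
  ((avoid E).card : ℝ) / (Nat.factorial n : ℝ)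

lemma pAvoid_nonneg (E : Finset (Fin n × Fin n)) : 0 ≤ pAvoid E := by
  unfold pAvoid; positivity

lemma pAvoid_empty : pAvoid (∅ : Finset (Fin n × Fin n)) = 1 := by
  unfold pAvoid avoid
  simp [Finset.card_univ, Fintype.card_perm, Nat.factorial_ne_zero]

lemma avoid_anti {E F : Finset (Fin n × Fin n)} (h : E ⊆ F) : avoid F ⊆ avoid E := by
  intro σ hσ
  rw [mem_avoid] at hσ ⊢
  exact fun e he => hσ e (h he)

lemma pAvoid_anti {E F : Finset (Fin n × Fin n)} (h : E ⊆ F) : pAvoid F ≤ pAvoid E := by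
  unfold pAvoid
  gcongr
  exact avoid_anti h

lemma pAvoid_le_one (E : Finset (Fin n × Fin n)) : pAvoid E ≤ 1 := by
  rw [← pAvoid_empty (n := n)]; exact pAvoid_anti (by simp)

/-- Union bound relative to `avoid E`. -/
theorem pAvoid_union (E F : Finset (Fin n × Fin n)) (d : ℕ) (hd : d < n)
    (hdisj : Disjoint E F)
    (hF : ∀ e ∈ F, rowDeg E e.1 + colDeg E e.2 ≤ d) :
    pAvoid E * (1 - (F.card : ℝ) / ((n : ℝ) - d)) ≤ pAvoid (E ∪ F) := by
  classical
  have hnd : (0 : ℝ) < (n : ℝ) - d := by
    have : (d : ℝ) < n := by exact_mod_cast hd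
    linarith
  have h1 : (avoid E).card ≤ (avoid (E ∪ F)).card + ∑ e ∈ F, (hit E e).card := by
    have hsub : avoid E ⊆ avoid (E ∪ F) ∪ F.biUnion (fun e => hit E e) := by
      intro σ hσ
      rw [mem_union, mem_biUnion]
      by_cases h : ∃ e ∈ F, σ e.1 = e.2
      · obtain ⟨e, he, hs⟩ := h
        exact Or.inr ⟨e, he, by simp [hit, hσ, hs]⟩
      · left
        rw [mem_avoid] at hσ ⊢
        intro e he
        rcases mem_union.1 he with he | he
        · exact hσ e he
        · exact fun hh => h ⟨e, he, hh⟩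
    calc (avoid E).card ≤ _ := card_le_card hsub
      _ ≤ _ := card_union_le _ _
      _ ≤ _ := by gcongr; exact card_biUnion_le
  have h2 : ∀ e ∈ F, ((hit E e).card : ℝ) ≤ ((avoid E).card : ℝ) / ((n : ℝ) - d) := by
    intro e he
    have heE : e ∉ E := fun h => (Finset.disjoint_left.1 hdisj h he)
    have hs := switching E e heE
    have hdeg := hF e he
    have h3 : (n - d) * (hit E e).card ≤ (avoid E).card :=
      le_trans (Nat.mul_le_mul_right _ (by omega)) hs
    rw [le_div_iff₀ hnd]
    have h4 : (((n - d : ℕ) : ℝ)) * ((hit E e).card : ℝ) ≤ ((avoid E).card : ℝ) := by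
      exact_mod_cast h3
    rw [Nat.cast_sub hd.le] at h4
    linarith
  have h3 : ((avoid E).card : ℝ) ≤ (avoid (E ∪ F)).card + F.card * (((avoid E).card : ℝ) / ((n : ℝ) - d)) := by
    calc ((avoid E).card : ℝ) ≤ (avoid (E ∪ F)).card + ∑ e ∈ F, ((hit E e).card : ℝ) := by
          exact_mod_cast h1
      _ ≤ (avoid (E ∪ F)).card + ∑ e ∈ F, (((avoid E).card : ℝ) / ((n : ℝ) - d)) := by
          gcongr with e he
          exact h2 e he
      _ = _ := by rw [Finset.sum_const, nsmul_eq_mul]
  unfold pAvoid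
  rw [div_mul_eq_mul_div]
  gcongr
  have : ((avoid E).card : ℝ) * (1 - (F.card : ℝ) / ((n : ℝ) - d)) =
      (avoid E).card - F.card * (((avoid E).card : ℝ) / ((n : ℝ) - d)) := by ring
  rw [this]
  linarith

lemma rowDeg_mono {E F : Finset (Fin n × Fin n)} (h : E ⊆ F) (i : Fin n) :
    rowDeg E i ≤ rowDeg F i := card_le_card (filter_subset_filter _ h)

lemma colDeg_mono {E F : Finset (Fin n × Fin n)} (h : E ⊆ F) (i : Fin n) :
    colDeg E i ≤ colDeg F i := card_le_card (filter_subset_filter _ h)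

/-- Adding pairs one at a time. -/
theorem pAvoid_seq (E : Finset (Fin n × Fin n)) (d : ℕ) (hd : d + 1 ≤ n)
    (F : Finset (Fin n × Fin n))
    (hdisj : Disjoint E F)
    (hF : ∀ e ∈ F, rowDeg (E ∪ F) e.1 + colDeg (E ∪ F) e.2 ≤ d) :
    pAvoid E * (1 - 1 / ((n : ℝ) - d)) ^ F.card ≤ pAvoid (E ∪ F) := by
  classical
  have hnd : (1 : ℝ) ≤ (n : ℝ) - d := by
    have : (d : ℝ) + 1 ≤ n := by exact_mod_cast hd
    linarith
  have hq0 : 0 ≤ 1 - 1 / ((n : ℝ) - d) := by
    rw [sub_nonneg, div_le_one (by linarith)]; exact hnd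
  induction F using Finset.induction_on with
  | empty => simp
  | insert e F heF ih =>
    have hdisj' : Disjoint E F := hdisj.mono_right (subset_insert _ _)
    have hsub : E ∪ F ⊆ E ∪ insert e F := union_subset_union_right (subset_insert _ _)
    have hih := ih hdisj' (fun f hf => by
      have := hF f (mem_insert_of_mem hf)
      have h1 := rowDeg_mono hsub f.1
      have h2 := colDeg_mono hsub f.2
      omega)
    have heE : e ∉ E := fun h => (Finset.disjoint_left.1 hdisj h (mem_insert_self _ _))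
    have hd1 : Disjoint (E ∪ F) {e} := by
      rw [disjoint_singleton_right, mem_union]
      tauto
    have hu := pAvoid_union (E ∪ F) {e} d (by omega) hd1 (by
      intro f hf
      rw [mem_singleton] at hf
      subst hf
      have := hF f (mem_insert_self _ _)
      have h1 := rowDeg_mono hsub f.1
      have h2 := colDeg_mono hsub f.2
      omega)
    have heq : E ∪ insert e F = E ∪ F ∪ {e} := by
      ext a; simp only [mem_union, mem_insert, mem_singleton]; tauto
    rw [heq, card_insert_of_notMem heF, pow_succ]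
    rw [card_singleton, Nat.cast_one] at hu
    calc pAvoid E * ((1 - 1 / ((n : ℝ) - d)) ^ F.card * (1 - 1 / ((n : ℝ) - d)))
        = (pAvoid E * (1 - 1 / ((n : ℝ) - d)) ^ F.card) * (1 - 1 / ((n : ℝ) - d)) := by ring
      _ ≤ pAvoid (E ∪ F) * (1 - 1 / ((n : ℝ) - d)) := by gcongr
      _ ≤ _ := hu

end Pool.Agent.Lib.MP92dd55
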