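import Mathlib
import Pool.Agent.Lib.MP92dd55.Perm

/-! # Lower bound for the probability that two phone sequences never meet -/

namespace Pool.Agent.Lib.MP92dd55

open Finset

variable {n t : ℕ}

/-- number of times the phone `i` is used -/
def useCount (a : Fin t → Fin n) (i : Fin n) : ℕ := (univ.filter fun s => a s = i).card

/-- times at which the phone in use is used at most `h` times in all -/
def lightTimes (h : ℕ) (a : Fin t → Fin n) : Finset (Fin t) :=
  univ.filter fun s => useCount a (a s) ≤ h

/-- heavy phones -/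
def heavy (h : ℕ) (a : Fin t → Fin n) : Finset (Fin n) :=
  univ.filter fun i => h < useCount a i

/-- pairs of phones used simultaneously -/
def pairs (a b : Fin t → Fin n) : Finset (Fin n × Fin n) := univ.image fun s => (a s, b s)

lemma heavy_card (h : ℕ) (a : Fin t → Fin n) : (heavy h a).card * (h + 1) ≤ t := by
  classical
  have h1 : ∑ i ∈ heavy h a, useCount a i ≤ t := by
    calc ∑ i ∈ heavy h a, useCount a i ≤ ∑ i : Fin n, useCount a i :=
          Finset.sum_le_sum_of_subset (subset_univ _)
      _ = t := by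
          unfold useCount
          rw [← Finset.card_eq_sum_card_fiberwise (f := a) (s := univ) (t := univ) (by simp)]
          simp
  calc (heavy h a).card * (h + 1) = ∑ i ∈ heavy h a, (h + 1) := by
        rw [Finset.sum_const, smul_eq_mul]
    _ ≤ ∑ i ∈ heavy h a, useCount a i := by
        refine Finset.sum_le_sum fun i hi => ?_
        have : h < useCount a i := by simpa [heavy] using hi
        omega
    _ ≤ t := h1

/-- pairs at times in `S` -/
def pairsOn (a b : Fin t → Fin n) (S : Finset (Fin t)) : Finset (Fin n × Fin n) :=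
  S.image fun s => (a s, b s)

lemma kernel_lower (a b : Fin t → Fin n) (h A : ℕ) (hA : t ≤ A * (h + 1)) (hAn : A < n)
    (hh : 2 * h < n) :
    max 0 (1 - (((lightTimes h b \ lightTimes h a).card : ℝ) + A * A) / n) *
      max 0 (1 - ((lightTimes h a \ lightTimes h b).card : ℝ) / ((n : ℝ) - A)) *
      (1 - 1 / ((n : ℝ) - 2 * h)) ^ (lightTimes h a ∩ lightTimes h b).card ≤
    pAvoid (pairs a b) := by
  classical
  have hn : 0 < n := by omega
  have hheavyA : (heavy h a).card ≤ A := by
    have := heavy_card h a
    by_contra hcon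
    push Not at hcon
    have : (A + 1) * (h + 1) ≤ (heavy h a).card * (h + 1) := Nat.mul_le_mul_right _ hcon
    nlinarith
  have hheavyB : (heavy h b).card ≤ A := by
    have := heavy_card h b
    by_contra hcon
    push Not at hcon
    have : (A + 1) * (h + 1) ≤ (heavy h b).card * (h + 1) := Nat.mul_le_mul_right _ hcon
    nlinarith
  have hmemL : ∀ (c : Fin t → Fin n) (s : Fin t), s ∈ lightTimes h c ↔ useCount c (c s) ≤ h := by
    intro c s; simp [lightTimes]
  have hmemH : ∀ (c : Fin t → Fin n) (i : Fin n), i ∈ heavy h c ↔ h < useCount c i := by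
    intro c s; simp [heavy]
  -- the three classes of times
  set La := lightTimes h a with hLa
  set Lb := lightTimes h b with hLb
  set E1 : Finset (Fin n × Fin n) := (pairs a b).filter (fun e => e.1 ∈ heavy h a) with hE1
  set E2 : Finset (Fin n × Fin n) :=
    (pairs a b).filter (fun e => e.1 ∉ heavy h a ∧ e.2 ∈ heavy h b) with hE2
  set E3 : Finset (Fin n × Fin n) :=
    (pairs a b).filter (fun e => e.1 ∉ heavy h a ∧ e.2 ∉ heavy h b) with hE3
  have hunion : (E1 ∪ E2) ∪ E3 = pairs a b := by
    ext e
    simp only [hE1, hE2, hE3, mem_union, mem_filter]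
    tauto
  have hd12 : Disjoint E1 E2 := by
    rw [Finset.disjoint_left]; intro e he1 he2
    simp only [hE1, hE2, mem_filter] at he1 he2
    exact he2.2.1 he1.2
  have hd123 : Disjoint (E1 ∪ E2) E3 := by
    rw [Finset.disjoint_left]; intro e he1 he2
    simp only [hE1, hE2, hE3, mem_filter, mem_union] at he1 he2
    tauto
  -- cardinalities
  have hc1 : E1.card ≤ (Lb \ La).card + A * A := by
    have hsub : E1 ⊆ (pairsOn a b (Lb \ La)) ∪ (heavy h a ×ˢ heavy h b) := by
      intro e he
      simp only [hE1, mem_filter, pairs, mem_image, mem_univ, true_and] at he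
      obtain ⟨⟨s, rfl⟩, hs⟩ := he
      simp only [mem_union, mem_product, pairsOn, mem_image, mem_sdiff]
      by_cases hb : b s ∈ heavy h b
      · exact Or.inr ⟨hs, hb⟩
      · left
        refine ⟨s, ⟨?_, ?_⟩, rfl⟩
        · rw [hmemH] at hb; rw [hLb, hmemL]; omega
        · simp only at hs
          rw [hmemH] at hs; rw [hLa, hmemL]; omega
    calc E1.card ≤ _ := card_le_card hsub
      _ ≤ _ := card_union_le _ _
      _ ≤ _ := by
        rw [card_product]
        exact Nat.add_le_add card_image_le (Nat.mul_le_mul hheavyA hheavyB)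
  have hc2 : E2.card ≤ (La \ Lb).card := by
    have hsub : E2 ⊆ pairsOn a b (La \ Lb) := by
      intro e he
      simp only [hE2, mem_filter, pairs, mem_image, mem_univ, true_and] at he
      obtain ⟨⟨s, rfl⟩, hs1, hs2⟩ := he
      simp only [pairsOn, mem_image, mem_sdiff]
      refine ⟨s, ⟨?_, ?_⟩, rfl⟩
      · simp only at hs1
        rw [hmemH] at hs1; rw [hLa, hmemL]; omega
      · simp only at hs2
        rw [hmemH] at hs2; rw [hLb, hmemL]; omega
    exact (card_le_card hsub).trans card_image_le
  have hc3 : E3.card ≤ (La ∩ Lb).card := by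
    have hsub : E3 ⊆ pairsOn a b (La ∩ Lb) := by
      intro e he
      simp only [hE3, mem_filter, pairs, mem_image, mem_univ, true_and] at he
      obtain ⟨⟨s, rfl⟩, hs1, hs2⟩ := he
      simp only [pairsOn, mem_image, mem_inter]
      refine ⟨s, ⟨?_, ?_⟩, rfl⟩
      · simp only at hs1
        rw [hmemH] at hs1; rw [hLa, hmemL]; omega
      · simp only at hs2
        rw [hmemH] at hs2; rw [hLb, hmemL]; omega
    exact (card_le_card hsub).trans card_image_le
  have hnR : (0 : ℝ) < n := by exact_mod_cast hn
  -- step 1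
  have s1 : max 0 (1 - (((Lb \ La).card : ℝ) + A * A) / n) ≤ pAvoid E1 := by
    apply max_le (pAvoid_nonneg _)
    have h1 := pAvoid_union (∅ : Finset (Fin n × Fin n)) E1 0 hn (by simp) (by
      intro e _; simp [rowDeg, colDeg])
    rw [pAvoid_empty, one_mul, empty_union] at h1
    refine le_trans ?_ h1
    have : (E1.card : ℝ) ≤ ((Lb \ La).card : ℝ) + A * A := by exact_mod_cast hc1
    simp only [Nat.cast_zero, sub_zero]
    gcongr
  -- step 2
  have s2 : pAvoid E1 * max 0 (1 - ((La \ Lb).card : ℝ) / ((n : ℝ) - A)) ≤ pAvoid (E1 ∪ E2) := by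
    have hnA : (0 : ℝ) < (n : ℝ) - A := by
      have : (A : ℝ) < n := by exact_mod_cast hAn
      linarith
    rcases le_total (1 - ((La \ Lb).card : ℝ) / ((n : ℝ) - A)) 0 with h0 | h0
    · rw [max_eq_left h0, mul_zero]; exact pAvoid_nonneg _
    · rw [max_eq_right h0]
      have h1 := pAvoid_union E1 E2 A hAn hd12 (by
        intro e he
        have hr : rowDeg E1 e.1 = 0 := by
          unfold rowDeg
          rw [card_eq_zero, filter_eq_empty_iff]
          intro f hf hfe
          simp only [hE1, hE2, mem_filter] at he hf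
          exact he.2.1 (hfe ▸ hf.2)
        have hc : colDeg E1 e.2 ≤ A := by
          refine le_trans ?_ hheavyA
          unfold colDeg
          refine Finset.card_le_card_of_injOn (fun f => f.1) ?_ ?_
          · intro f hf
            have hf' : f ∈ E1 ∧ f.2 = e.2 := by simpa using hf
            have := hf'.1
            rw [hE1, mem_filter] at this
            exact this.2
          · intro f hf g hg hfg
            have hf' : f ∈ E1 ∧ f.2 = e.2 := by simpa using hf
            have hg' : g ∈ E1 ∧ g.2 = e.2 := by simpa using hg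
            exact Prod.ext hfg (hf'.2.trans hg'.2.symm)
        omega)
      refine le_trans ?_ h1
      have : (E2.card : ℝ) ≤ ((La \ Lb).card : ℝ) := by exact_mod_cast hc2
      have hp := pAvoid_nonneg E1
      gcongr
  -- step 3
  have hn2 : (1 : ℝ) ≤ (n : ℝ) - 2 * h := by
    have : (2 : ℝ) * h + 1 ≤ n := by exact_mod_cast hh
    linarith
  have hq0 : 0 ≤ 1 - 1 / ((n : ℝ) - 2 * h) := by
    rw [sub_nonneg, div_le_one (by linarith)]; exact hn2
  have hq1 : 1 - 1 / ((n : ℝ) - 2 * h) ≤ 1 := by
    have : 0 ≤ 1 / ((n : ℝ) - 2 * h) := by positivity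
    linarith
  have s3 : pAvoid (E1 ∪ E2) * (1 - 1 / ((n : ℝ) - 2 * h)) ^ (La ∩ Lb).card ≤
      pAvoid (pairs a b) := by
    have h1 := pAvoid_seq (E1 ∪ E2) (2 * h) (by omega) E3 hd123 (by
      intro e he
      rw [hunion]
      have he' := he
      rw [hE3, mem_filter, hmemH, hmemH] at he'
      have hr : rowDeg (pairs a b) e.1 ≤ useCount a e.1 := by
        unfold rowDeg
        have : (pairs a b).filter (fun f => f.1 = e.1) ⊆
            (univ.filter fun s => a s = e.1).image (fun s => (a s, b s)) := by
          intro f hf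
          simp only [pairs, mem_filter, mem_image, mem_univ, true_and] at hf ⊢
          obtain ⟨⟨s, rfl⟩, hs⟩ := hf
          exact ⟨s, hs, rfl⟩
        exact (card_le_card this).trans card_image_le
      have hc : colDeg (pairs a b) e.2 ≤ useCount b e.2 := by
        unfold colDeg
        have : (pairs a b).filter (fun f => f.2 = e.2) ⊆
            (univ.filter fun s => b s = e.2).image (fun s => (a s, b s)) := by
          intro f hf
          simp only [pairs, mem_filter, mem_image, mem_univ, true_and] at hf ⊢
          obtain ⟨⟨s, rfl⟩, hs⟩ := hf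
          exact ⟨s, hs, rfl⟩
        exact (card_le_card this).trans card_image_le
      omega)
    rw [hunion] at h1
    refine le_trans ?_ h1
    have hp := pAvoid_nonneg (E1 ∪ E2)
    push_cast
    gcongr pAvoid (E1 ∪ E2) * ?_
    exact pow_le_pow_of_le_one hq0 hq1 hc3
  have hm0 : 0 ≤ max 0 (1 - ((La \ Lb).card : ℝ) / ((n : ℝ) - A)) := le_max_left _ _
  calc _ ≤ pAvoid E1 * max 0 (1 - ((La \ Lb).card : ℝ) / ((n : ℝ) - A)) *
        (1 - 1 / ((n : ℝ) - 2 * h)) ^ (La ∩ Lb).card := by gcongr
    _ ≤ pAvoid (E1 ∪ E2) * (1 - 1 / ((n : ℝ) - 2 * h)) ^ (La ∩ Lb).card := by gcongr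
    _ ≤ _ := s3

end Pool.Agent.Lib.MP92dd55
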