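import Mathlib

/-! # The scalar minorant of the limiting kernel -/

namespace Pool.Agent.Lib.MP92dd55

open Real

/-- `κ(τ) = (e^{-τ} - 1 + τ)/τ²`. -/
noncomputable def kap (τ : ℝ) : ℝ := (exp (-τ) - 1 + τ) / τ ^ 2

lemma kap_mul (τ : ℝ) (h : 0 < τ) : kap τ * τ ^ 2 = exp (-τ) - 1 + τ := by
  unfold kap; field_simp

lemma kap_nonneg (τ : ℝ) : 0 ≤ kap τ := by
  unfold kap
  have : -τ + 1 ≤ exp (-τ) := add_one_le_exp _
  apply div_nonneg _ (sq_nonneg _)
  linarith

lemma two_sub_le (z : ℝ) (hz : 0 ≤ z) : 2 - z - (z + 2) * exp (-z) ≤ 0 := by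
  have hanti : AntitoneOn (fun z : ℝ => 2 - z - (z + 2) * exp (-z)) (Set.Ici 0) := by
    apply antitoneOn_of_deriv_nonpos (convex_Ici 0)
    · fun_prop
    · intro x _; fun_prop
    · intro x hx
      have hd : HasDerivAt (fun z : ℝ => 2 - z - (z + 2) * exp (-z))
          (-1 + (1 + x) * exp (-x)) x := by
        have h1 : HasDerivAt (fun z : ℝ => exp (-z)) (-exp (-x)) x := by
          simpa using (hasDerivAt_id x).neg.exp
        have h2 : HasDerivAt (fun z : ℝ => (z + 2) * exp (-z))
            (1 * exp (-x) + (x + 2) * (-exp (-x))) x :=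
          ((hasDerivAt_id x).add_const 2).mul h1
        have h3 : HasDerivAt (fun z : ℝ => 2 - z) (-1) x := by
          simpa using (hasDerivAt_id x).const_sub 2
        exact (h3.sub h2).congr_deriv (by ring)
      rw [hd.deriv]
      have h4 : (1 + x) * exp (-x) ≤ 1 := by
        rw [exp_neg, mul_inv_le_iff₀ (exp_pos x), one_mul]
        have := add_one_le_exp x
        linarith
      linarith
  have := hanti (Set.self_mem_Ici) hz hz
  simpa using this

lemma kap_antitone : AntitoneOn kap (Set.Ioi 0) := by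
  apply antitoneOn_of_deriv_nonpos (convex_Ioi 0)
  · unfold kap
    apply ContinuousOn.div (by fun_prop) (by fun_prop)
    intro x hx; have : (0 : ℝ) < x := hx; positivity
  · rw [interior_Ioi]
    intro x hx
    have hx' : (0 : ℝ) < x := hx
    unfold kap
    apply DifferentiableAt.differentiableWithinAt
    apply DifferentiableAt.div (by fun_prop) (by fun_prop) (by positivity)
  · rw [interior_Ioi]
    intro x hx
    have hx' : (0 : ℝ) < x := hx
    have h1 : HasDerivAt (fun z : ℝ => exp (-z) - 1 + z) (-exp (-x) + 1) x := by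
      have h1 : HasDerivAt (fun z : ℝ => exp (-z)) (-exp (-x)) x := by
        simpa using (hasDerivAt_id x).neg.exp
      exact (h1.sub_const 1).add (hasDerivAt_id x)
    have h2 : HasDerivAt (fun z : ℝ => z ^ 2) (2 * x) x := by
      simpa using hasDerivAt_pow 2 x
    have h3 := h1.div h2 (by positivity)
    have h4 : deriv kap x = ((-exp (-x) + 1) * x ^ 2 - (exp (-x) - 1 + x) * (2 * x)) / (x ^ 2) ^ 2 :=
      h3.deriv
    rw [h4]
    apply div_nonpos_of_nonpos_of_nonneg _ (by positivity)
    have := two_sub_le x hx'.le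
    nlinarith

lemma kap_le_half (τ : ℝ) (h : 0 < τ) : kap τ ≤ 1 / 2 := by
  -- e^{-τ} ≤ 1 - τ + τ²/2
  unfold kap
  rw [div_le_iff₀ (by positivity)]
  have hanti : AntitoneOn (fun z : ℝ => exp (-z) - 1 + z - z ^ 2 / 2) (Set.Ici 0) := by
    apply antitoneOn_of_deriv_nonpos (convex_Ici 0)
    · fun_prop
    · intro x _; fun_prop
    · intro x hx
      have h1 : HasDerivAt (fun z : ℝ => exp (-z)) (-exp (-x)) x := by
        simpa using (hasDerivAt_id x).neg.exp
      have h2 : HasDerivAt (fun z : ℝ => z ^ 2 / 2) (2 * x / 2) x := by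
        simpa using (hasDerivAt_pow 2 x).div_const 2
      have hd := ((h1.sub_const 1).add (hasDerivAt_id x)).sub h2
      have : deriv (fun z : ℝ => exp (-z) - 1 + z - z ^ 2 / 2) x = -exp (-x) + 1 - 2 * x / 2 :=
        hd.deriv
      rw [this]
      have := add_one_le_exp (-x)
      linarith
  have := hanti (Set.self_mem_Ici) h.le h.le
  simp at this
  linarith

lemma kap_mul_le_one (τ : ℝ) (h : 0 < τ) : kap τ * τ ≤ 1 := by
  have h1 : kap τ * τ = (exp (-τ) - 1 + τ) / τ := by unfold kap; field_simp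
  rw [h1, div_le_one h]
  have : exp (-τ) ≤ 1 := exp_le_one_iff.2 (by linarith)
  linarith

/-- `A(z) ≥ 0`. -/
lemma A_nonneg (τ z : ℝ) (hτ : 0 < τ) (hz : 0 ≤ z) (hzτ : z ≤ τ) :
    0 ≤ exp (-z) - 1 + z - kap τ * z ^ 2 := by
  rcases hz.eq_or_lt with rfl | hz'
  · simp
  · have h1 := kap_antitone (Set.mem_Ioi.2 hz') (Set.mem_Ioi.2 hτ) hzτ
    have h2 := kap_mul z hz'
    nlinarith [sq_nonneg z, mul_le_mul_of_nonneg_right h1 (sq_nonneg z)]

/-- `H(z) ≥ 0` by concavity. -/
lemma H_nonneg (τ z : ℝ) (hτ : 0 < τ) (hz : 0 ≤ z) (hzτ : z ≤ τ) :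
    0 ≤ exp (-z) * (1 - τ + z) - (1 - τ) - kap τ * τ * z := by
  have hconc : ConcaveOn ℝ (Set.Icc 0 τ)
      (fun z : ℝ => exp (-z) * (1 - τ + z) - (1 - τ) - kap τ * τ * z) := by
    have hd1 : ∀ x : ℝ, HasDerivAt
        (fun z : ℝ => exp (-z) * (1 - τ + z) - (1 - τ) - kap τ * τ * z)
        (exp (-x) * (τ - x) - kap τ * τ) x := by
      intro x
      have h1 : HasDerivAt (fun z : ℝ => exp (-z)) (-exp (-x)) x := by
        simpa using (hasDerivAt_id x).neg.exp
      have h2 : HasDerivAt (fun z : ℝ => 1 - τ + z) 1 x := (hasDerivAt_id x).const_add _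
      have h3 := ((h1.mul h2).sub_const (1 - τ)).sub ((hasDerivAt_id x).const_mul (kap τ * τ))
      exact h3.congr_deriv (by ring)
    have hd2 : ∀ x : ℝ, HasDerivAt (fun x : ℝ => exp (-x) * (τ - x) - kap τ * τ)
        (-(exp (-x) * (1 + τ - x))) x := by
      intro x
      have h1 : HasDerivAt (fun z : ℝ => exp (-z)) (-exp (-x)) x := by
        simpa using (hasDerivAt_id x).neg.exp
      have h2 : HasDerivAt (fun z : ℝ => τ - z) (-1) x := (hasDerivAt_id x).const_sub _
      exact ((h1.mul h2).sub_const (kap τ * τ)).congr_deriv (by ring)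
    apply AntitoneOn.concaveOn_of_deriv (convex_Icc 0 τ)
    · intro x _; exact (hd1 x).continuousAt.continuousWithinAt
    · intro x _; exact (hd1 x).differentiableAt.differentiableWithinAt
    · rw [interior_Icc]
      have hder : deriv (fun z : ℝ => exp (-z) * (1 - τ + z) - (1 - τ) - kap τ * τ * z) =
          fun x : ℝ => exp (-x) * (τ - x) - kap τ * τ := by
        ext x; exact (hd1 x).deriv
      rw [hder]
      apply antitoneOn_of_deriv_nonpos (convex_Ioo 0 τ)
      · intro x _; exact (hd2 x).continuousAt.continuousWithinAt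
      · intro x _; exact (hd2 x).differentiableAt.differentiableWithinAt
      · rw [interior_Ioo]
        intro x hx
        rw [(hd2 x).deriv]
        have h1 : 0 < 1 + τ - x := by have := hx.2; linarith
        have := mul_pos (exp_pos (-x)) h1
        linarith
  have h0 : (0 : ℝ) ∈ Set.Icc 0 τ := ⟨le_rfl, hτ.le⟩
  have h1 : τ ∈ Set.Icc 0 τ := ⟨hτ.le, le_rfl⟩
  have hz1 : 0 ≤ z / τ := by positivity
  have hz2 : 0 ≤ 1 - z / τ := by
    rw [sub_nonneg, div_le_one hτ]; exact hzτ
  have := hconc.2 h0 h1 hz2 hz1 (by ring)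
  simp only [smul_eq_mul, mul_zero, zero_add] at this
  have h2 : z / τ * τ = z := by field_simp
  rw [h2] at this
  have h3 : exp (-τ) * (1 - τ + τ) - (1 - τ) - kap τ * τ * τ = 0 := by
    have := kap_mul τ hτ
    nlinarith
  rw [h3] at this
  simpa using this

/-- The minorant of the limiting kernel. -/
theorem minorant (τ p q z : ℝ) (hτ : 0 < τ) (hτ3 : τ ≤ 3) (hp : 0 ≤ p) (hq : 0 ≤ q) (hz : 0 ≤ z)
    (hsum : p + q + z ≤ τ) :
    1 - z - p - q + kap τ * ((z + p) * (z + q)) ≤ exp (-z) * max 0 (1 - p) * max 0 (1 - q) := by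
  have hκ0 := kap_nonneg τ
  have hκ1 := kap_mul_le_one τ hτ
  have hκ2 := kap_le_half τ hτ
  by_cases hp1 : 1 ≤ p
  · rw [max_eq_left (by linarith : 1 - p ≤ 0), mul_zero, zero_mul]
    have h1 : kap τ * ((z + p) * (z + q)) ≤ (z + q) := by
      calc kap τ * ((z + p) * (z + q)) ≤ kap τ * (τ * (z + q)) := by
            gcongr; linarith
        _ = (kap τ * τ) * (z + q) := by ring
        _ ≤ 1 * (z + q) := by gcongr
        _ = z + q := one_mul _
    linarith
  by_cases hq1 : 1 ≤ q
  · rw [max_eq_left (by linarith : 1 - q ≤ 0), mul_zero]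
    have h1 : kap τ * ((z + p) * (z + q)) ≤ (z + p) := by
      calc kap τ * ((z + p) * (z + q)) ≤ kap τ * ((z + p) * τ) := by
            gcongr; linarith
        _ = (kap τ * τ) * (z + p) := by ring
        _ ≤ 1 * (z + p) := by gcongr
        _ = z + p := one_mul _
    linarith
  push Not at hp1 hq1
  rw [max_eq_right (by linarith), max_eq_right (by linarith)]
  have hzτ : z ≤ τ := by linarith
  have hA := A_nonneg τ z hτ hz hzτ
  have hH := H_nonneg τ z hτ hz hzτ
  set κ := kap τ with hκ
  set E := exp (-z) with hE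
  -- F = A - B s + C p q
  have hF : E * (1 - p) * (1 - q) - (1 - z - p - q + κ * ((z + p) * (z + q))) =
      (E - 1 + z - κ * z ^ 2) - (E - 1 + κ * z) * (p + q) + (E - κ) * (p * q) := by ring
  have hHB : E * (1 - τ + z) - (1 - τ) - κ * τ * z =
      (E - 1 + z - κ * z ^ 2) - (E - 1 + κ * z) * (τ - z) := by ring
  rw [hHB] at hH
  set A := E - 1 + z - κ * z ^ 2 with hAdef
  set B := E - 1 + κ * z with hBdef
  have hs0 : 0 ≤ p + q := by linarith
  have hs1 : p + q ≤ τ - z := by linarith
  suffices h : 0 ≤ A - B * (p + q) + (E - κ) * (p * q) by linarith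
  by_cases hC : 0 ≤ E - κ
  · have h1 : 0 ≤ A - B * (p + q) := by
      rcases le_total 0 B with hB | hB
      · nlinarith
      · nlinarith
    have h2 : 0 ≤ (E - κ) * (p * q) := by positivity
    linarith
  · push Not at hC
    -- here z > ln 2
    have hz2 : 0.6 ≤ z := by
      by_contra hcon
      push Not at hcon
      have h1 : exp (-(0.6 : ℝ)) ≤ E := by
        rw [hE]; exact exp_le_exp.2 (by linarith)
      have h2 : (1 / 2 : ℝ) < exp (-(0.6 : ℝ)) := by
        have : exp (-(0.6 : ℝ)) = (exp (0.6 : ℝ))⁻¹ := exp_neg _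
        rw [this, lt_inv_comm₀ (by norm_num) (exp_pos _)]
        have h3 : exp (0.6 : ℝ) < 2 := by
          have hlog : (0.6 : ℝ) < Real.log 2 := by
            have := Real.log_two_gt_d9; linarith
          calc exp (0.6 : ℝ) < exp (Real.log 2) := exp_lt_exp.2 hlog
            _ = 2 := exp_log (by norm_num)
        linarith
      linarith
    set δ := τ - z with hδ
    have hδ0 : 0 ≤ δ := by linarith
    have hδτ : δ ≤ 4 / 5 * τ := by
      have : τ / 5 ≤ z := by linarith
      linarith
    -- pq ≤ s²/4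
    have hpq : p * q ≤ (p + q) ^ 2 / 4 := by nlinarith [sq_nonneg (p - q)]
    have h1 : (E - κ) * ((p + q) ^ 2 / 4) ≤ (E - κ) * (p * q) := by
      apply mul_le_mul_of_nonpos_left hpq hC.le
    -- endpoint
    have hend : 0 ≤ A - B * δ + (E - κ) * (δ ^ 2 / 4) := by
      -- A - B δ = e^{-τ}(e^{δ}(1-δ) - 1) + κ τ δ
      have hk := kap_mul τ hτ
      have hEt : exp (-τ) = E * exp (-δ) := by
        rw [hE, ← exp_add]; congr 1; rw [hδ]; ring
      have hEt2 : E = exp (-τ) * exp δ := by
        rw [hE, ← exp_add]; congr 1; rw [hδ]; ring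
      have h2 : A - B * δ = exp (-τ) * (exp δ * (1 - δ) - 1) + κ * τ * δ := by
        have : A - B * δ = E * (1 - δ) - (exp (-τ)) + κ * τ * δ := by
          have hz' : z = τ - δ := by rw [hδ]; ring
          rw [hAdef, hBdef, hz']
          have hk' : κ * τ ^ 2 = exp (-τ) - 1 + τ := hk
          ring_nf
          nlinarith [hk']
        rw [this]
        nth_rewrite 1 [hEt2]
        ring
      have hτe : exp (-τ) ≤ κ := by
        have : exp (-τ) ≤ E := by rw [hE]; exact exp_le_exp.2 (by linarith)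
        linarith
      have het : 0 < exp (-τ) := exp_pos _
      have h3 : -(δ ^ 2) ≤ exp δ * (1 - δ) - 1 ∨ 1 < δ := by
        rcases le_or_gt δ 1 with h | h
        · left
          have := add_one_le_exp δ
          nlinarith
        · exact Or.inr h
      rcases h3 with h3 | h3
      · have h4 : -(κ * δ ^ 2) ≤ exp (-τ) * (exp δ * (1 - δ) - 1) := by
          have : exp (-τ) * (-(δ ^ 2)) ≤ exp (-τ) * (exp δ * (1 - δ) - 1) := by gcongr
          nlinarith [sq_nonneg δ]
        have hE0 : 0 < E := exp_pos _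
        have h5 : -(κ * δ ^ 2) / 4 ≤ (E - κ) * (δ ^ 2 / 4) := by nlinarith [sq_nonneg δ]
        rw [h2]
        have h6 : 0 ≤ κ * δ * (τ - 5 / 4 * δ) := by
          apply mul_nonneg (by positivity); linarith
        nlinarith
      · -- δ > 1: then τ ≥ 1.6, use crude bounds
        have hee : exp δ * exp (-τ) = E := by rw [mul_comm]; exact hEt2.symm
        have h4 : exp (-τ) * (exp δ * (1 - δ) - 1) = -(E * (δ - 1)) - exp (-τ) := by
          rw [← hee]; ring
        rw [h2, h4]
        have hE0 : 0 < E := exp_pos _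
        have h5 : -(κ * (δ ^ 2 / 4)) ≤ (E - κ) * (δ ^ 2 / 4) := by nlinarith [sq_nonneg δ]
        have h6 : E * (δ - 1) ≤ κ * (δ - 1) := by
          apply mul_le_mul_of_nonneg_right (by linarith) (by linarith)
        have h7 : 0 ≤ κ * (τ * δ - (δ - 1) - 1 - δ ^ 2 / 4) := by
          apply mul_nonneg hκ0
          nlinarith
        nlinarith
    -- concavity in s
    have hconc : 0 ≤ A - B * (p + q) + (E - κ) * ((p + q) ^ 2 / 4) := by
      rcases hδ0.eq_or_lt with h0 | h0
      · have : p + q = 0 := by linarith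
        rw [this]; simpa using hA
      · set s := p + q with hs
        -- s = (s/δ) δ
        have h2 : 0 ≤ (1 - s / δ) := by rw [sub_nonneg, div_le_one h0]; exact hs1
        have h3 : 0 ≤ s / δ := by positivity
        have h4 : A - B * s + (E - κ) * (s ^ 2 / 4) =
            (1 - s / δ) * A + (s / δ) * (A - B * δ + (E - κ) * (δ ^ 2 / 4)) -
            (E - κ) / 4 * (s * (δ - s)) := by
          field_simp
          ring
        rw [h4]
        have h5 : 0 ≤ -((E - κ) / 4 * (s * (δ - s))) := by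
          have : 0 ≤ s * (δ - s) := mul_nonneg hs0 (by linarith)
          have h6 : (E - κ) / 4 ≤ 0 := by linarith
          nlinarith
        have h6 := mul_nonneg h2 hA
        have h7 := mul_nonneg h3 hend
        linarith
    linarith

end Pool.Agent.Lib.MP92dd55
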