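import Mathlib
import Pool.Agent.Lib.MP92dd55.Kernel
import Pool.Agent.Lib.MP92dd55.Minorant

/-! # Lower bound for the probability of not having met, for a fixed deadline -/

namespace Pool.Agent.Lib.MP92dd55

open Finset Real

lemma one_sub_pow_ge (m : ℝ) (hm : 1 < m) (k : ℕ) :
    exp (-((k : ℝ) / (m - 1))) ≤ (1 - 1 / m) ^ k := by
  have h1 : exp (-(1 / (m - 1))) ≤ 1 - 1 / m := by
    rw [exp_neg]
    have h2 : 1 / (m - 1) + 1 ≤ exp (1 / (m - 1)) := add_one_le_exp _
    have h3 : 1 / (m - 1) + 1 = m / (m - 1) := by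
      have : m - 1 ≠ 0 := by linarith
      field_simp
      ring
    rw [h3] at h2
    have h4 : (0 : ℝ) < m / (m - 1) := by
      apply div_pos <;> linarith
    calc (exp (1 / (m - 1)))⁻¹ ≤ (m / (m - 1))⁻¹ := inv_anti₀ h4 h2
      _ = 1 - 1 / m := by
        have : m ≠ 0 := by linarith
        rw [inv_div]; field_simp
  calc exp (-((k : ℝ) / (m - 1))) = (exp (-(1 / (m - 1)))) ^ k := by
        rw [← exp_nat_mul]; congr 1; ring
    _ ≤ _ := pow_le_pow_left₀ (exp_pos _).le h1 k

theorem kernel_asymp (ε : ℝ) (hε : 0 < ε) (hε1 : ε ≤ 1) :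
    ∃ N : ℕ, ∀ n ≥ N, ∃ h : ℕ, ∀ t : ℕ, t ≤ 3 * n → ∀ a b : Fin t → Fin n,
      exp (-(((lightTimes h a ∩ lightTimes h b).card : ℝ) / n)) *
        max 0 (1 - ((lightTimes h a \ lightTimes h b).card : ℝ) / n) *
        max 0 (1 - ((lightTimes h b \ lightTimes h a).card : ℝ) / n) - ε ≤
      pAvoid (pairs a b) := by
  set η : ℝ := ε / 54 with hη
  have hη0 : 0 < η := by positivity
  have hη1 : η ≤ 1 / 54 := by rw [hη]; linarith
  set A : ℕ := ⌈3 / η⌉₊ with hA
  have hA1 : 3 / η ≤ A := Nat.le_ceil _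
  refine ⟨⌈3 * (A : ℝ) ^ 2 / ε + 9 * A / ε + A + 4 / η + 10⌉₊, ?_⟩
  intro n hn
  have hn' : 3 * (A : ℝ) ^ 2 / ε + 9 * A / ε + A + 4 / η + 10 ≤ n := Nat.ceil_le.1 hn
  have hp1 : 0 ≤ 3 * (A : ℝ) ^ 2 / ε := by positivity
  have hp2 : 0 ≤ 9 * (A : ℝ) / ε := by positivity
  have hp3 : 0 ≤ (A : ℝ) := by positivity
  have hp4 : 0 ≤ 4 / η := by positivity
  have hn0 : (0 : ℝ) < n := by linarith
  set h : ℕ := ⌊η * n⌋₊ with hh
  have hh1 : (h : ℝ) ≤ η * n := Nat.floor_le (by positivity)
  have hh2 : η * n < h + 1 := Nat.lt_floor_add_one _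
  have hηn : 4 ≤ η * n := by
    have : 4 / η ≤ n := by linarith
    rwa [div_le_iff₀ hη0, mul_comm] at this
  refine ⟨h, ?_⟩
  intro t ht a b
  have htR : (t : ℝ) ≤ 3 * n := by exact_mod_cast ht
  have hAn : A < n := by
    have : (A : ℝ) < n := by linarith
    exact_mod_cast this
  have hhn : 2 * h < n := by
    have : (2 : ℝ) * h < n := by nlinarith
    exact_mod_cast this
  have htA : t ≤ A * (h + 1) := by
    have : (t : ℝ) ≤ A * (h + 1) := by
      calc (t : ℝ) ≤ 3 * n := htR
        _ = (3 / η) * (η * n) := by field_simp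
        _ ≤ A * (h + 1) := by gcongr
    exact_mod_cast this
  have hK := kernel_lower a b h A htA hAn hhn
  set La := lightTimes h a
  set Lb := lightTimes h b
  set z : ℕ := (La ∩ Lb).card
  set p : ℕ := (La \ Lb).card
  set q : ℕ := (Lb \ La).card
  have hz3 : (z : ℝ) ≤ 3 * n := by
    have : z ≤ t := by
      calc z ≤ (univ : Finset (Fin t)).card := card_le_card (subset_univ _)
        _ = t := by simp
    have : (z : ℝ) ≤ t := by exact_mod_cast this
    linarith
  have hp3' : (p : ℝ) ≤ 3 * n := by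
    have : p ≤ t := by
      calc p ≤ (univ : Finset (Fin t)).card := card_le_card (subset_univ _)
        _ = t := by simp
    have : (p : ℝ) ≤ t := by exact_mod_cast this
    linarith
  -- error terms
  have e1 : max 0 (1 - (q : ℝ) / n) - ε / 3 ≤ max 0 (1 - ((q : ℝ) + A * A) / n) := by
    have h1 : (A : ℝ) * A / n ≤ ε / 3 := by
      rw [div_le_div_iff₀ hn0 (by norm_num)]
      have : 3 * (A : ℝ) ^ 2 / ε ≤ n := by linarith
      rw [div_le_iff₀ hε] at this
      nlinarith
    have h2 : 1 - ((q : ℝ) + A * A) / n = 1 - (q : ℝ) / n - A * A / n := by ring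
    rw [h2]
    rcases le_total 0 (1 - (q : ℝ) / n) with h3 | h3
    · rw [max_eq_right h3]
      exact le_trans (by linarith) (le_max_right _ _)
    · rw [max_eq_left h3]
      exact le_trans (by linarith) (le_max_left _ _)
  have hnA : (0 : ℝ) < (n : ℝ) - A := by
    have : (A : ℝ) < n := by exact_mod_cast hAn
    linarith
  have e2 : max 0 (1 - (p : ℝ) / n) - ε / 3 ≤ max 0 (1 - (p : ℝ) / ((n : ℝ) - A)) := by
    have h1 : (p : ℝ) / ((n : ℝ) - A) ≤ (p : ℝ) / n + ε / 3 := by
      have h2 : (p : ℝ) / ((n : ℝ) - A) - (p : ℝ) / n = ((p : ℝ) / n) * (A / ((n : ℝ) - A)) := by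
        field_simp
        ring
      have h3 : (p : ℝ) / n ≤ 3 := by rw [div_le_iff₀ hn0]; exact hp3'
      have h4 : (A : ℝ) / ((n : ℝ) - A) ≤ ε / 9 := by
        rw [div_le_div_iff₀ hnA (by norm_num)]
        have : 9 * (A : ℝ) / ε ≤ n - A := by linarith
        rw [div_le_iff₀ hε] at this
        linarith
      have h5 : 0 ≤ (A : ℝ) / ((n : ℝ) - A) := by positivity
      have h6 : ((p : ℝ) / n) * (A / ((n : ℝ) - A)) ≤ 3 * (ε / 9) := by gcongr
      linarith
    rcases le_total 0 (1 - (p : ℝ) / n) with h3 | h3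
    · rw [max_eq_right h3]
      exact le_trans (by linarith) (le_max_right _ _)
    · rw [max_eq_left h3]
      exact le_trans (by linarith) (le_max_left _ _)
  have hm1 : (1 : ℝ) < (n : ℝ) - 2 * h := by nlinarith
  have e3 : exp (-((z : ℝ) / n)) - ε / 3 ≤ (1 - 1 / ((n : ℝ) - 2 * h)) ^ z := by
    have h1 := one_sub_pow_ge ((n : ℝ) - 2 * h) hm1 z
    refine le_trans ?_ h1
    set d : ℝ := (z : ℝ) / ((n : ℝ) - 2 * h - 1) - (z : ℝ) / n with hd
    have h2 : exp (-((z : ℝ) / ((n : ℝ) - 2 * h - 1))) = exp (-((z : ℝ) / n)) * exp (-d) := by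
      rw [← exp_add]; congr 1; rw [hd]; ring
    rw [h2]
    have hpos : (0 : ℝ) < (n : ℝ) - 2 * h - 1 := by linarith
    have hd0 : 0 ≤ d := by
      rw [hd, sub_nonneg]
      apply div_le_div_of_nonneg_left (by positivity) hpos (by linarith [Nat.cast_nonneg (α := ℝ) h])
    have hd1 : d ≤ ε / 3 := by
      have h3 : d = ((z : ℝ) / n) * ((2 * h + 1) / ((n : ℝ) - 2 * h - 1)) := by
        rw [hd]; field_simp; ring
      have h4 : (z : ℝ) / n ≤ 3 := by rw [div_le_iff₀ hn0]; exact hz3
      have h5 : (2 * (h : ℝ) + 1) / ((n : ℝ) - 2 * h - 1) ≤ 6 * η := by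
        rw [div_le_iff₀ hpos]
        nlinarith
      have h6 : 0 ≤ (2 * (h : ℝ) + 1) / ((n : ℝ) - 2 * h - 1) := by positivity
      rw [h3]
      calc ((z : ℝ) / n) * ((2 * h + 1) / ((n : ℝ) - 2 * h - 1)) ≤ 3 * (6 * η) := by gcongr
        _ = ε / 3 := by rw [hη]; ring
    have h4 : 1 - d ≤ exp (-d) := by have := add_one_le_exp (-d); linarith
    have h5 : exp (-((z : ℝ) / n)) ≤ 1 := by
      apply exp_le_one_iff.2
      have : 0 ≤ (z : ℝ) / n := by positivity
      linarith
    have h6 : 0 < exp (-((z : ℝ) / n)) := exp_pos _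
    nlinarith
  -- combine
  set X := exp (-((z : ℝ) / n))
  set Y := max 0 (1 - (p : ℝ) / n)
  set W := max 0 (1 - (q : ℝ) / n)
  set X' := (1 - 1 / ((n : ℝ) - 2 * h)) ^ z
  set Y' := max 0 (1 - (p : ℝ) / ((n : ℝ) - A))
  set W' := max 0 (1 - ((q : ℝ) + A * A) / n)
  have hX1 : X ≤ 1 := by
    apply exp_le_one_iff.2
    have : 0 ≤ (z : ℝ) / n := by positivity
    linarith
  have hX0 : 0 ≤ X := (exp_pos _).le
  have hY0 : 0 ≤ Y := le_max_left _ _
  have hY1 : Y ≤ 1 := by
    apply max_le zero_le_one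
    have : 0 ≤ (p : ℝ) / n := by positivity
    linarith
  have hW0 : 0 ≤ W := le_max_left _ _
  have hW1 : W ≤ 1 := by
    apply max_le zero_le_one
    have : 0 ≤ (q : ℝ) / n := by positivity
    linarith
  have hY'0 : 0 ≤ Y' := le_max_left _ _
  have hY'1 : Y' ≤ 1 := by
    apply max_le zero_le_one
    have : 0 ≤ (p : ℝ) / ((n : ℝ) - A) := by positivity
    linarith
  have hW'0 : 0 ≤ W' := le_max_left _ _
  have hW'1 : W' ≤ 1 := by
    apply max_le zero_le_one
    have : 0 ≤ ((q : ℝ) + A * A) / n := by positivity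
    linarith
  have hX'0 : 0 ≤ X' := by
    apply pow_nonneg
    rw [sub_nonneg, div_le_one (by linarith)]; linarith
  have t1 : X * Y * W - W' * Y' * X' =
      (X - X') * (Y * W) + X' * ((Y - Y') * W) + X' * (Y' * (W - W')) := by ring
  have hX'1 : X' ≤ 1 := by
    apply pow_le_one₀
    · rw [sub_nonneg, div_le_one (by linarith)]; linarith
    · have : 0 ≤ 1 / ((n : ℝ) - 2 * h) := by
        apply div_nonneg zero_le_one; linarith
      linarith
  have b1 : (X - X') * (Y * W) ≤ ε / 3 := by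
    have h1 : 0 ≤ Y * W := by positivity
    have h2 : Y * W ≤ 1 := mul_le_one₀ hY1 hW0 hW1
    calc (X - X') * (Y * W) ≤ (ε / 3) * (Y * W) := by gcongr; linarith
      _ ≤ (ε / 3) * 1 := by gcongr
      _ = ε / 3 := mul_one _
  have b2 : X' * ((Y - Y') * W) ≤ ε / 3 := by
    have h1 : (Y - Y') * W ≤ (ε / 3) * W := by gcongr; linarith
    have h2 : (ε / 3) * W ≤ ε / 3 := by nlinarith
    calc X' * ((Y - Y') * W) ≤ X' * (ε / 3) := by gcongr; linarith
      _ ≤ 1 * (ε / 3) := by gcongr
      _ = ε / 3 := one_mul _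
  have b3 : X' * (Y' * (W - W')) ≤ ε / 3 := by
    have h1 : Y' * (W - W') ≤ Y' * (ε / 3) := by gcongr; linarith
    have h2 : Y' * (ε / 3) ≤ ε / 3 := by nlinarith
    calc X' * (Y' * (W - W')) ≤ X' * (ε / 3) := by gcongr; linarith
      _ ≤ 1 * (ε / 3) := by gcongr
      _ = ε / 3 := one_mul _
  linarith

/-- The limiting value of the deadline game. -/
noncomputable def V (τ : ℝ) : ℝ := 1 - τ ^ 2 / (exp (-τ) - 1 + 2 * τ)

theorem game_bound (ε : ℝ) (hε : 0 < ε) :
    ∃ N : ℕ, ∀ n ≥ N, ∀ t : ℕ, 1 ≤ t → t ≤ 3 * n → ∀ w : (Fin t → Fin n) → ℝ,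
      (∀ a, 0 ≤ w a) → ∑ a, w a = 1 →
      V ((t : ℝ) / n) - ε ≤ ∑ a, ∑ b, w a * w b * pAvoid (pairs a b) := by
  classical
  obtain ⟨N, hN⟩ := kernel_asymp (min ε 1) (by positivity) (min_le_right _ _)
  refine ⟨N + 1, ?_⟩
  intro n hn t ht1 ht3 w hw0 hw1
  obtain ⟨h, hh⟩ := hN n (by omega)
  have hn0 : (0 : ℝ) < n := by
    have : 0 < n := by omega
    exact_mod_cast this
  have ht0 : (0 : ℝ) < t := by exact_mod_cast ht1
  set τ : ℝ := (t : ℝ) / n with hτ
  have hτ0 : 0 < τ := by positivity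
  have hτ3 : τ ≤ 3 := by
    rw [hτ, div_le_iff₀ hn0]; exact_mod_cast ht3
  set κ := kap τ with hκ
  let L : (Fin t → Fin n) → Finset (Fin t) := fun a => lightTimes h a
  let u : (Fin t → Fin n) → ℝ := fun a => ((L a).card : ℝ) / n
  let z : (Fin t → Fin n) → (Fin t → Fin n) → ℝ := fun a b => ((L a ∩ L b).card : ℝ) / n
  have hG : ∀ a b, 1 - u a - u b + z a b + κ * (u a * u b) - ε ≤ pAvoid (pairs a b) := by
    intro a b
    have h1 := hh t ht3 a b
    have hab : ((L a \ L b).card : ℝ) / n = u a - z a b := by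
      have : (L a \ L b).card + (L a ∩ L b).card = (L a).card := card_sdiff_add_card_inter _ _
      have h2 : ((L a \ L b).card : ℝ) + (L a ∩ L b).card = (L a).card := by exact_mod_cast this
      simp only [u, z]
      rw [← h2]; ring
    have hba : ((L b \ L a).card : ℝ) / n = u b - z a b := by
      have : (L b \ L a).card + (L b ∩ L a).card = (L b).card := card_sdiff_add_card_inter _ _
      have h2 : ((L b \ L a).card : ℝ) + (L b ∩ L a).card = (L b).card := by exact_mod_cast this
      rw [inter_comm] at h2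
      simp only [u, z]
      rw [← h2]; ring
    have hm := minorant τ (u a - z a b) (u b - z a b) (z a b) hτ0 hτ3
      (by rw [← hab]; positivity) (by rw [← hba]; positivity) (by simp only [z]; positivity)
      (by
        rw [← hab, ← hba]
        have h3 : (L a \ L b).card + (L b \ L a).card + (L a ∩ L b).card ≤ t := by
          have h4 : (L a \ L b).card + (L a ∩ L b).card = (L a).card :=
            card_sdiff_add_card_inter _ _
          have h5 : (L a ∪ L b).card = (L a).card + (L b \ L a).card := by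
            have := card_sdiff_add_card (L b) (L a)
            rw [union_comm]
            omega
          have h6 : (L a ∪ L b).card ≤ t := by
            calc (L a ∪ L b).card ≤ (univ : Finset (Fin t)).card := card_le_card (subset_univ _)
              _ = t := by simp
          omega
        have h7 : ((L a \ L b).card : ℝ) + (L b \ L a).card + (L a ∩ L b).card ≤ t := by
          exact_mod_cast h3
        simp only [z]
        rw [← add_div, ← add_div, hτ]
        gcongr)
    have h2 : z a b + (u a - z a b) = u a := by ring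
    have h3 : z a b + (u b - z a b) = u b := by ring
    rw [h2, h3] at hm
    change exp (-(z a b)) * max 0 (1 - ((L a \ L b).card : ℝ) / n) *
        max 0 (1 - ((L b \ L a).card : ℝ) / n) - min ε 1 ≤ _ at h1
    rw [hab, hba] at h1
    have h4 : min ε 1 ≤ ε := min_le_left _ _
    linarith
  -- expectation
  set m : ℝ := ∑ a, w a * u a with hm
  let P : Fin t → ℝ := fun s => ∑ a, w a * (if s ∈ L a then 1 else 0)
  have hPm : ∑ s, P s = n * m := by
    simp only [P, hm]
    rw [Finset.sum_comm, Finset.mul_sum]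
    refine Finset.sum_congr rfl fun a _ => ?_
    rw [← Finset.mul_sum]
    have : ∑ s : Fin t, (if s ∈ L a then (1 : ℝ) else 0) = (L a).card := by simp
    rw [this]
    simp only [u]
    field_simp
  have hzP : ∑ a, ∑ b, w a * w b * z a b = (∑ s, P s ^ 2) / n := by
    have h1 : ∀ a b, z a b = (∑ s : Fin t, (if s ∈ L a then (1 : ℝ) else 0) *
        (if s ∈ L b then 1 else 0)) / n := by
      intro a b
      simp only [z]
      congr 1
      have : ∀ s : Fin t, (if s ∈ L a then (1 : ℝ) else 0) * (if s ∈ L b then 1 else 0) =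
          if s ∈ L a ∩ L b then 1 else 0 := by
        intro s; by_cases h1 : s ∈ L a <;> by_cases h2 : s ∈ L b <;> simp [h1, h2]
      rw [Finset.sum_congr rfl fun s _ => this s, Finset.sum_ite_mem]
      simp
    have h2 : ∀ s, P s ^ 2 = ∑ a, ∑ b, (w a * (if s ∈ L a then 1 else 0)) *
        (w b * (if s ∈ L b then 1 else 0)) := by
      intro s
      rw [sq, Finset.sum_mul_sum]
    calc ∑ a, ∑ b, w a * w b * z a b
        = ∑ a, ∑ b, ∑ s, (w a * (if s ∈ L a then 1 else 0)) *
          (w b * (if s ∈ L b then 1 else 0)) / n := by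
          refine Finset.sum_congr rfl fun a _ => Finset.sum_congr rfl fun b _ => ?_
          rw [h1, mul_div_assoc', Finset.mul_sum, Finset.sum_div]
          refine Finset.sum_congr rfl fun s _ => ?_
          ring
      _ = ∑ s, ∑ a, ∑ b, (w a * (if s ∈ L a then 1 else 0)) *
          (w b * (if s ∈ L b then 1 else 0)) / n := by
          rw [Finset.sum_comm]
          rw [Finset.sum_comm (s := univ) (t := univ)
            (f := fun (s : Fin t) (a : Fin t → Fin n) => ∑ b, (w a * (if s ∈ L a then 1 else 0)) *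
          (w b * (if s ∈ L b then 1 else 0)) / n)]
          rw [Finset.sum_comm]
          refine Finset.sum_congr rfl fun a _ => ?_
          rw [Finset.sum_comm]
      _ = (∑ s, P s ^ 2) / n := by
          rw [Finset.sum_div]
          refine Finset.sum_congr rfl fun s _ => ?_
          rw [h2, Finset.sum_div]
          refine Finset.sum_congr rfl fun a _ => ?_
          rw [Finset.sum_div]
  have hCS : (n * m) ^ 2 ≤ t * ∑ s, P s ^ 2 := by
    rw [← hPm]
    have := sq_sum_le_card_mul_sum_sq (s := (univ : Finset (Fin t))) (f := P)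
    simpa using this
  have hzm : m ^ 2 / τ ≤ ∑ a, ∑ b, w a * w b * z a b := by
    rw [hzP, hτ, div_div_eq_mul_div, div_le_div_iff₀ ht0 hn0]
    nlinarith
  have hsum : ∑ a, ∑ b, w a * w b * (1 - u a - u b + z a b + κ * (u a * u b) - ε) =
      1 - 2 * m + κ * m ^ 2 - ε + ∑ a, ∑ b, w a * w b * z a b := by
    have h1 : ∑ a, ∑ b, w a * w b = 1 := by
      rw [← Finset.sum_mul_sum, hw1, one_mul]
    have h2 : ∑ a, ∑ b, w a * w b * u a = m := by
      calc ∑ a, ∑ b, w a * w b * u a = ∑ a, ∑ b, (w a * u a) * w b := by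
            refine Finset.sum_congr rfl fun a _ => Finset.sum_congr rfl fun b _ => ?_
            ring
        _ = (∑ a, w a * u a) * ∑ b, w b := by rw [Finset.sum_mul_sum]
        _ = m := by rw [hw1, mul_one]
    have h3 : ∑ a, ∑ b, w a * w b * u b = m := by
      calc ∑ a, ∑ b, w a * w b * u b = ∑ a, ∑ b, w a * (w b * u b) := by
            refine Finset.sum_congr rfl fun a _ => Finset.sum_congr rfl fun b _ => ?_
            ring
        _ = (∑ a, w a) * ∑ b, w b * u b := by rw [Finset.sum_mul_sum]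
        _ = m := by rw [hw1, one_mul]
    have h4 : ∑ a, ∑ b, w a * w b * (u a * u b) = m ^ 2 := by
      calc ∑ a, ∑ b, w a * w b * (u a * u b) = ∑ a, ∑ b, (w a * u a) * (w b * u b) := by
            refine Finset.sum_congr rfl fun a _ => Finset.sum_congr rfl fun b _ => ?_
            ring
        _ = (∑ a, w a * u a) * ∑ b, w b * u b := by rw [Finset.sum_mul_sum]
        _ = m ^ 2 := by rw [sq]
    calc ∑ a, ∑ b, w a * w b * (1 - u a - u b + z a b + κ * (u a * u b) - ε)
        = ∑ a, ∑ b, ((1 - ε) * (w a * w b) - w a * w b * u a - w a * w b * u b +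
          w a * w b * z a b + κ * (w a * w b * (u a * u b))) := by
          refine Finset.sum_congr rfl fun a _ => Finset.sum_congr rfl fun b _ => ?_
          ring
      _ = (1 - ε) * 1 - m - m + (∑ a, ∑ b, w a * w b * z a b) + κ * m ^ 2 := by
          simp only [Finset.sum_add_distrib, Finset.sum_sub_distrib, ← Finset.mul_sum]
          rw [h2, h3, h4]
          simp only [← Finset.mul_sum] at h1
          rw [h1]
      _ = _ := by ring
  have hD : κ + 1 / τ = (exp (-τ) - 1 + 2 * τ) / τ ^ 2 := by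
    rw [hκ]; unfold kap; field_simp; ring
  have hDpos : 0 < κ + 1 / τ := by
    have := kap_nonneg τ
    have : 0 < 1 / τ := by positivity
    linarith
  have hV : V τ = 1 - 1 / (κ + 1 / τ) := by
    unfold V
    rw [hD, one_div, inv_div]
  have hfin : V τ - ε ≤ 1 - 2 * m + κ * m ^ 2 - ε + m ^ 2 / τ := by
    rw [hV]
    have h1 : 1 - 2 * m + κ * m ^ 2 - ε + m ^ 2 / τ - (1 - 1 / (κ + 1 / τ) - ε) =
        (κ + 1 / τ) * (m - 1 / (κ + 1 / τ)) ^ 2 := by
      have hne : κ + 1 / τ ≠ 0 := hDpos.ne'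
      set c := κ + 1 / τ with hc
      have hκc : κ = c - 1 / τ := by rw [hc]; ring
      rw [hκc]
      field_simp
      ring
    have h2 : 0 ≤ (κ + 1 / τ) * (m - 1 / (κ + 1 / τ)) ^ 2 := by positivity
    linarith
  calc V τ - ε ≤ 1 - 2 * m + κ * m ^ 2 - ε + m ^ 2 / τ := hfin
    _ ≤ 1 - 2 * m + κ * m ^ 2 - ε + ∑ a, ∑ b, w a * w b * z a b := by linarith
    _ = ∑ a, ∑ b, w a * w b * (1 - u a - u b + z a b + κ * (u a * u b) - ε) := hsum.symm
    _ ≤ _ := by
      refine Finset.sum_le_sum fun a _ => Finset.sum_le_sum fun b _ => ?_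
      have := hw0 a
      have := hw0 b
      exact mul_le_mul_of_nonneg_left (hG a b) (by positivity)

end Pool.Agent.Lib.MP92dd55
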