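import Mathlib
import Pool.Agent.Lib.MP92dd55.Kernel
import Pool.Agent.Lib.MP92dd55.Game

/-! # Lower bound for the probability of not having met by a deadline, from a minorant of the kernel -/

namespace Pool.Agent.Lib.MP92dd55

open Finset Real

/-- the minorant inequality for deadlines up to `τ n` -/
def IsMinorant (f1 f2 f3 g : ℝ → ℝ) (v τ : ℝ) : Prop :=
  ∀ a b z : ℝ, 0 ≤ z → z ≤ a → z ≤ b → a + b ≤ τ + z →
    v + (f1 a * f1 b + f2 a * f2 b + f3 a * f3 b) + g a * g b * (z - a * b / τ) ≤
      exp (-z) * max 0 (1 - (a - z)) * max 0 (1 - (b - z))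

theorem game_bound2 (ε : ℝ) (hε : 0 < ε) :
    ∃ N : ℕ, ∀ n ≥ N, ∀ (f1 f2 f3 g : ℝ → ℝ) (v τ : ℝ), IsMinorant f1 f2 f3 g v τ → τ ≤ 3 →
      ∀ t : ℕ, 1 ≤ t → (t : ℝ) ≤ τ * n → ∀ w : (Fin t → Fin n) → ℝ,
      (∀ a, 0 ≤ w a) → ∑ a, w a = 1 →
      v - ε ≤ ∑ a, ∑ b, w a * w b * pAvoid (pairs a b) := by
  classical
  obtain ⟨N, hN⟩ := kernel_asymp (min ε 1) (by positivity) (min_le_right _ _)
  refine ⟨N + 1, ?_⟩
  intro n hn f1 f2 f3 g v τ hmin hτ3 t ht1 htτ w hw0 hw1
  obtain ⟨h, hh⟩ := hN n (by omega)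
  have hn0 : (0 : ℝ) < n := by
    have : 0 < n := by omega
    exact_mod_cast this
  have ht0 : (0 : ℝ) < t := by exact_mod_cast ht1
  have hτ0 : 0 < τ := by
    by_contra hc
    push Not at hc
    nlinarith
  have ht3 : t ≤ 3 * n := by
    have : (t : ℝ) ≤ 3 * n := by nlinarith
    exact_mod_cast this
  let L : (Fin t → Fin n) → Finset (Fin t) := fun a => lightTimes h a
  let u : (Fin t → Fin n) → ℝ := fun a => ((L a).card : ℝ) / n
  let z : (Fin t → Fin n) → (Fin t → Fin n) → ℝ := fun a b => ((L a ∩ L b).card : ℝ) / n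
  have hG : ∀ a b, v + (f1 (u a) * f1 (u b) + f2 (u a) * f2 (u b) + f3 (u a) * f3 (u b)) +
      g (u a) * g (u b) * (z a b - u a * u b / τ) - ε ≤ pAvoid (pairs a b) := by
    intro a b
    have h1 := hh t ht3 a b
    have hab : ((L a \ L b).card : ℝ) / n = u a - z a b := by
      have : (L a \ L b).card + (L a ∩ L b).card = (L a).card := card_sdiff_add_card_inter _ _
      have h2 : ((L a \ L b).card : ℝ) + (L a ∩ L b).card = (L a).card := by exact_mod_cast this
      simp only [u, z]
      rw [← h2]; ring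
    have hba : ((L b \ L a).card : ℝ) / n = u b - z a b := by
      have : (L b \ L a).card + (L b ∩ L a).card = (L b).card := card_sdiff_add_card_inter _ _
      have h2 : ((L b \ L a).card : ℝ) + (L b ∩ L a).card = (L b).card := by exact_mod_cast this
      rw [inter_comm] at h2
      simp only [u, z]
      rw [← h2]; ring
    have hza : 0 ≤ u a - z a b := by rw [← hab]; positivity
    have hzb : 0 ≤ u b - z a b := by rw [← hba]; positivity
    have hm := hmin (u a) (u b) (z a b) (by simp only [z]; positivity) (by linarith) (by linarith)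
      (by
        have h3 : (L a \ L b).card + (L b \ L a).card + (L a ∩ L b).card ≤ t := by
          have h4 : (L a \ L b).card + (L a ∩ L b).card = (L a).card :=
            card_sdiff_add_card_inter _ _
          have h5 : (L a ∪ L b).card = (L a).card + (L b \ L a).card := by
            have := card_sdiff_add_card (L b) (L a)
            rw [union_comm]
            omega
          have h6 : (L a ∪ L b).card ≤ t := by
            calc (L a ∪ L b).card ≤ (univ : Finset (Fin t)).card := card_le_card (subset_univ _)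
              _ = t := by simp
          omega
        have h7 : ((L a \ L b).card : ℝ) + (L b \ L a).card + (L a ∩ L b).card ≤ t := by
          exact_mod_cast h3
        have h8 : ((L a \ L b).card : ℝ) / n + ((L b \ L a).card : ℝ) / n +
            ((L a ∩ L b).card : ℝ) / n ≤ τ := by
          rw [← add_div, ← add_div, div_le_iff₀ hn0]
          linarith
        rw [hab, hba] at h8
        have h9 : ((L a ∩ L b).card : ℝ) / n = z a b := rfl
        rw [h9] at h8
        linarith)
    change exp (-(z a b)) * max 0 (1 - ((L a \ L b).card : ℝ) / n) *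
        max 0 (1 - ((L b \ L a).card : ℝ) / n) - min ε 1 ≤ _ at h1
    rw [hab, hba] at h1
    have h4 : min ε 1 ≤ ε := min_le_left _ _
    linarith
  -- expectation
  set m : ℝ := ∑ a, w a * (g (u a) * u a) with hm
  let P : Fin t → ℝ := fun s => ∑ a, w a * g (u a) * (if s ∈ L a then 1 else 0)
  have hPm : ∑ s, P s = n * m := by
    simp only [P, hm]
    rw [Finset.sum_comm, Finset.mul_sum]
    refine Finset.sum_congr rfl fun a _ => ?_
    rw [← Finset.mul_sum]
    have : ∑ s : Fin t, (if s ∈ L a then (1 : ℝ) else 0) = (L a).card := by simp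
    rw [this]
    simp only [u]
    field_simp
  have hzP : ∑ a, ∑ b, w a * w b * (g (u a) * g (u b) * z a b) = (∑ s, P s ^ 2) / n := by
    have h1 : ∀ a b, z a b = (∑ s : Fin t, (if s ∈ L a then (1 : ℝ) else 0) *
        (if s ∈ L b then 1 else 0)) / n := by
      intro a b
      simp only [z]
      congr 1
      have : ∀ s : Fin t, (if s ∈ L a then (1 : ℝ) else 0) * (if s ∈ L b then 1 else 0) =
          if s ∈ L a ∩ L b then 1 else 0 := by
        intro s; by_cases h1 : s ∈ L a <;> by_cases h2 : s ∈ L b <;> simp [h1, h2]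
      rw [Finset.sum_congr rfl fun s _ => this s, Finset.sum_ite_mem]
      simp
    have h2 : ∀ s, P s ^ 2 = ∑ a, ∑ b, (w a * g (u a) * (if s ∈ L a then 1 else 0)) *
        (w b * g (u b) * (if s ∈ L b then 1 else 0)) := by
      intro s
      rw [sq, Finset.sum_mul_sum]
    calc ∑ a, ∑ b, w a * w b * (g (u a) * g (u b) * z a b)
        = ∑ a, ∑ b, (∑ s : Fin t, (w a * g (u a) * (if s ∈ L a then 1 else 0)) *
            (w b * g (u b) * (if s ∈ L b then 1 else 0))) / n := by
          refine Finset.sum_congr rfl fun a _ => Finset.sum_congr rfl fun b _ => ?_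
          rw [h1 a b, ← mul_div_assoc, ← mul_div_assoc, Finset.mul_sum, Finset.mul_sum]
          congr 1
          refine Finset.sum_congr rfl fun s _ => ?_
          ring
      _ = (∑ a, ∑ b, ∑ s : Fin t, (w a * g (u a) * (if s ∈ L a then 1 else 0)) *
            (w b * g (u b) * (if s ∈ L b then 1 else 0))) / n := by
          simp_rw [Finset.sum_div]
      _ = (∑ s, P s ^ 2) / n := by
          congr 1
          simp_rw [h2]
          have h3 : ∀ F : (Fin t → Fin n) → (Fin t → Fin n) → Fin t → ℝ,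
              ∑ a, ∑ b, ∑ s, F a b s = ∑ s, ∑ a, ∑ b, F a b s := by
            intro F
            calc ∑ a, ∑ b, ∑ s, F a b s = ∑ a, ∑ s, ∑ b, F a b s :=
                  Finset.sum_congr rfl fun a _ => Finset.sum_comm
              _ = _ := Finset.sum_comm
          exact h3 _
  have hCS : (∑ s, P s) ^ 2 ≤ t * ∑ s, P s ^ 2 := by
    have := sq_sum_le_card_mul_sum_sq (s := (univ : Finset (Fin t))) (f := P)
    simpa using this
  have hquad : m ^ 2 / τ ≤ (∑ s, P s ^ 2) / n := by
    rw [div_le_div_iff₀ hτ0 hn0]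
    rw [hPm] at hCS
    have h5 : 0 ≤ ∑ s, P s ^ 2 := Finset.sum_nonneg fun s _ => sq_nonneg _
    have h6 : (n * m) ^ 2 ≤ (τ * n) * ∑ s, P s ^ 2 := hCS.trans (by gcongr)
    have h7 : n * (m ^ 2 * n) ≤ n * ((∑ s, P s ^ 2) * τ) := by nlinarith
    exact le_of_mul_le_mul_left h7 hn0
  have hsq : ∀ F : (Fin t → Fin n) → ℝ,
      ∑ a, ∑ b, w a * w b * (F a * F b) = (∑ a, w a * F a) ^ 2 := by
    intro F
    rw [sq, Finset.sum_mul_sum]
    refine Finset.sum_congr rfl fun a _ => Finset.sum_congr rfl fun b _ => ?_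
    ring
  have hone : ∑ a, ∑ b, w a * w b = 1 := by
    rw [← Finset.sum_mul_sum, hw1]; norm_num
  have hsum : ∑ a, ∑ b, w a * w b * (v + (f1 (u a) * f1 (u b) + f2 (u a) * f2 (u b) +
      f3 (u a) * f3 (u b)) + g (u a) * g (u b) * (z a b - u a * u b / τ) - ε) ≤
      ∑ a, ∑ b, w a * w b * pAvoid (pairs a b) := by
    refine Finset.sum_le_sum fun a _ => Finset.sum_le_sum fun b _ => ?_
    exact mul_le_mul_of_nonneg_left (hG a b) (mul_nonneg (hw0 a) (hw0 b))
  refine le_trans ?_ hsum
  have hexp : ∑ a, ∑ b, w a * w b * (v + (f1 (u a) * f1 (u b) + f2 (u a) * f2 (u b) +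
      f3 (u a) * f3 (u b)) + g (u a) * g (u b) * (z a b - u a * u b / τ) - ε) =
      (v - ε) * (∑ a, ∑ b, w a * w b) + ∑ a, ∑ b, w a * w b * (f1 (u a) * f1 (u b)) +
      ∑ a, ∑ b, w a * w b * (f2 (u a) * f2 (u b)) + ∑ a, ∑ b, w a * w b * (f3 (u a) * f3 (u b)) +
      ∑ a, ∑ b, w a * w b * (g (u a) * g (u b) * z a b) -
      (∑ a, ∑ b, w a * w b * ((g (u a) * u a) * (g (u b) * u b))) / τ := by
    simp only [Finset.mul_sum, Finset.sum_div, ← Finset.sum_add_distrib, ← Finset.sum_sub_distrib]
    refine Finset.sum_congr rfl fun a _ => Finset.sum_congr rfl fun b _ => ?_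
    field_simp
    ring
  rw [hexp, hone, hsq (fun a => f1 (u a)), hsq (fun a => f2 (u a)), hsq (fun a => f3 (u a)), hzP,
    hsq (fun a => g (u a) * u a)]
  have s1 := sq_nonneg (∑ a, w a * f1 (u a))
  have s2 := sq_nonneg (∑ a, w a * f2 (u a))
  have s3 := sq_nonneg (∑ a, w a * f3 (u a))
  change m ^ 2 / τ ≤ _ at hquad
  have hmm : (∑ a, w a * (g (u a) * u a)) ^ 2 / τ = m ^ 2 / τ := rfl
  rw [hmm]
  linarith

end Pool.Agent.Lib.MP92dd55
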