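import Mathlib
import Pool.Agent.Lib.MP92dd55.CertSound
import Pool.Agent.Lib.MP92dd55.Game2

/-! # A valid certificate gives a minorant -/

namespace Pool.Agent.Lib.MP92dd55

open Real

theorem Cert.exists_isMinorant (c : Cert) (hD : 1 ≤ c.D) (hM : 1 ≤ c.M) (hok : ∀ k < c.M, c.okK k = true)
    (hL : (c.L : ℝ) / 10 ^ 10 ≤ exp (-(1 / (c.D : ℝ))))
    (hH : exp (-(1 / (c.D : ℝ))) ≤ (c.H : ℝ) / 10 ^ 10) :
    ∃ f1 f2 f3 g : ℝ → ℝ, IsMinorant f1 f2 f3 g ((c.V : ℝ) / 10 ^ 8) ((c.M : ℝ) / c.D) := by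
  refine ⟨fun a => fl c.D c.toRC.f1 (c.toRC.cell a) a, fun a => fl c.D c.toRC.f2 (c.toRC.cell a) a,
    fun a => fl c.D c.toRC.f3 (c.toRC.cell a) a, fun a => c.toRC.g (c.toRC.cell a), ?_⟩
  intro a b z hz hza hzb hab
  have h := c.sound hD hM hok hL hH a b z hz hza hzb hab
  unfold RC.HH at h
  have h1 : 1 - a + z = 1 - (a - z) := by ring
  have h2 : 1 - b + z = 1 - (b - z) := by ring
  rw [h1, h2] at h
  have hM0 : (0 : ℝ) < c.M := by exact_mod_cast hM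
  have hD0 : (0 : ℝ) < c.D := by exact_mod_cast hD
  have h3 : a * b / ((c.M : ℝ) / c.D) = a * b * ((c.toRC.D : ℝ) / c.toRC.M) := by
    change a * b / ((c.M : ℝ) / c.D) = a * b * ((c.D : ℝ) / c.M)
    field_simp
  have h4 : c.toRC.v = (c.V : ℝ) / 10 ^ 8 := rfl
  rw [h3]
  rw [h4] at h
  change 0 ≤ _ - ((c.V : ℝ) / 10 ^ 8 + fl c.D c.toRC.f1 (c.toRC.cell a) a *
    fl c.D c.toRC.f1 (c.toRC.cell b) b + fl c.D c.toRC.f2 (c.toRC.cell a) a *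
    fl c.D c.toRC.f2 (c.toRC.cell b) b + fl c.D c.toRC.f3 (c.toRC.cell a) a *
    fl c.D c.toRC.f3 (c.toRC.cell b) b + _) at h
  linarith

/-- numerical bounds for `exp (-1/20)` -/
theorem exp_20 : ((9512294244 : ℕ) : ℝ) / 10 ^ 10 ≤ exp (-(1 / ((20 : ℕ) : ℝ))) ∧
    exp (-(1 / ((20 : ℕ) : ℝ))) ≤ ((9512294246 : ℕ) : ℝ) / 10 ^ 10 := by
  have h1 := Real.exp_one_lt_d9
  have h2 := Real.exp_one_gt_d9
  have h3 : exp (-(1 / ((20 : ℕ) : ℝ))) ^ 20 * exp 1 = 1 := by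
    rw [← exp_nat_mul, ← exp_add]
    norm_num
  have h0 : 0 < exp (-(1 / ((20 : ℕ) : ℝ))) := exp_pos _
  constructor
  · by_contra hc
    push Not at hc
    have h4 : exp (-(1 / ((20 : ℕ) : ℝ))) ^ 20 ≤ (((9512294244 : ℕ) : ℝ) / 10 ^ 10) ^ 20 :=
      pow_le_pow_left₀ h0.le hc.le 20
    have h5 : (((9512294244 : ℕ) : ℝ) / 10 ^ 10) ^ 20 * 2.7182818286 < 1 := by norm_num
    have h6 : exp (-(1 / ((20 : ℕ) : ℝ))) ^ 20 * exp 1 ≤
        (((9512294244 : ℕ) : ℝ) / 10 ^ 10) ^ 20 * 2.7182818286 := by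
      apply mul_le_mul h4 h1.le (exp_pos _).le (by positivity)
    linarith
  · by_contra hc
    push Not at hc
    have h4 : (((9512294246 : ℕ) : ℝ) / 10 ^ 10) ^ 20 ≤ exp (-(1 / ((20 : ℕ) : ℝ))) ^ 20 :=
      pow_le_pow_left₀ (by positivity) hc.le 20
    have h5 : 1 < (((9512294246 : ℕ) : ℝ) / 10 ^ 10) ^ 20 * 2.7182818283 := by norm_num
    have h6 : (((9512294246 : ℕ) : ℝ) / 10 ^ 10) ^ 20 * 2.7182818283 ≤
        exp (-(1 / ((20 : ℕ) : ℝ))) ^ 20 * exp 1 := by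
      apply mul_le_mul h4 h2.le (by positivity) (by positivity)
    linarith

end Pool.Agent.Lib.MP92dd55
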