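import Mathlib
import Pool.Agent.Lib.MP92dd55.CertMin
import Pool.Agent.Lib.MP92dd55.CertData01
import Pool.Agent.Lib.MP92dd55.CertData02
import Pool.Agent.Lib.MP92dd55.CertData03
import Pool.Agent.Lib.MP92dd55.CertData04
import Pool.Agent.Lib.MP92dd55.CertData05
import Pool.Agent.Lib.MP92dd55.CertData06
import Pool.Agent.Lib.MP92dd55.CertData07
import Pool.Agent.Lib.MP92dd55.CertData08
import Pool.Agent.Lib.MP92dd55.CertData09
import Pool.Agent.Lib.MP92dd55.CertData10
import Pool.Agent.Lib.MP92dd55.CertData11
import Pool.Agent.Lib.MP92dd55.CertData12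
import Pool.Agent.Lib.MP92dd55.CertData13
import Pool.Agent.Lib.MP92dd55.CertData14
import Pool.Agent.Lib.MP92dd55.CertData15
import Pool.Agent.Lib.MP92dd55.CertData16

/-! # The table of the lower bounds for the deadlines `m n / 20`, `21 ≤ m ≤ 55` -/

namespace Pool.Agent.Lib.MP92dd55

open Real

/-- the bounds, times `10^8` -/
def vlist : List ℕ := [25199344, 23646008, 22150904, 20756308, 19431788, 18183014, 17000622, 15891820, 14853582, 13881172, 12967657, 12102899, 11285556, 10534047, 9793713, 9081125, 8388509, 7723941, 7085608, 6462285, 5857132, 5288311, 4743837, 4219994, 3732803, 3263479, 2823002, 2416830, 2037678, 1687904, 1373988, 1085130, 825363, 607493, 412702]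

theorem table : ∀ m, 21 ≤ m → m < 56 → ∃ f1 f2 f3 g : ℝ → ℝ,
    IsMinorant f1 f2 f3 g ((vlist.getD (m - 21) 0 : ℕ) / 10 ^ 8 : ℝ) ((m : ℝ) / 20) := by
  intro m h1 h2
  have key : ∀ c : Cert, c.D = 20 → c.L = 9512294244 → c.H = 9512294246 → 1 ≤ c.M →
      (∀ k < c.M, c.okK k = true) →
      ∃ f1 f2 f3 g : ℝ → ℝ, IsMinorant f1 f2 f3 g ((c.V : ℝ) / 10 ^ 8) ((c.M : ℝ) / 20) := by
    intro c hD hL hH hM hok
    have := c.exists_isMinorant (by omega) hM hok (by rw [hD, hL]; exact exp_20.1)
      (by rw [hD, hH]; exact exp_20.2)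
    rw [hD] at this
    exact_mod_cast this
  interval_cases m
  · exact key cert21_20 rfl rfl rfl (by decide) cert21_20_ok
  · exact key cert22_20 rfl rfl rfl (by decide) cert22_20_ok
  · exact key cert23_20 rfl rfl rfl (by decide) cert23_20_ok
  · exact key cert24_20 rfl rfl rfl (by decide) cert24_20_ok
  · exact key cert25_20 rfl rfl rfl (by decide) cert25_20_ok
  · exact key cert26_20 rfl rfl rfl (by decide) cert26_20_ok
  · exact key cert27_20 rfl rfl rfl (by decide) cert27_20_ok
  · exact key cert28_20 rfl rfl rfl (by decide) cert28_20_ok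
  · exact key cert29_20 rfl rfl rfl (by decide) cert29_20_ok
  · exact key cert30_20 rfl rfl rfl (by decide) cert30_20_ok
  · exact key cert31_20 rfl rfl rfl (by decide) cert31_20_ok
  · exact key cert32_20 rfl rfl rfl (by decide) cert32_20_ok
  · exact key cert33_20 rfl rfl rfl (by decide) cert33_20_ok
  · exact key cert34_20 rfl rfl rfl (by decide) cert34_20_ok
  · exact key cert35_20 rfl rfl rfl (by decide) cert35_20_ok
  · exact key cert36_20 rfl rfl rfl (by decide) cert36_20_ok
  · exact key cert37_20 rfl rfl rfl (by decide) cert37_20_ok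
  · exact key cert38_20 rfl rfl rfl (by decide) cert38_20_ok
  · exact key cert39_20 rfl rfl rfl (by decide) cert39_20_ok
  · exact key cert40_20 rfl rfl rfl (by decide) cert40_20_ok
  · exact key cert41_20 rfl rfl rfl (by decide) cert41_20_ok
  · exact key cert42_20 rfl rfl rfl (by decide) cert42_20_ok
  · exact key cert43_20 rfl rfl rfl (by decide) cert43_20_ok
  · exact key cert44_20 rfl rfl rfl (by decide) cert44_20_ok
  · exact key cert45_20 rfl rfl rfl (by decide) cert45_20_ok
  · exact key cert46_20 rfl rfl rfl (by decide) cert46_20_ok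
  · exact key cert47_20 rfl rfl rfl (by decide) cert47_20_ok
  · exact key cert48_20 rfl rfl rfl (by decide) cert48_20_ok
  · exact key cert49_20 rfl rfl rfl (by decide) cert49_20_ok
  · exact key cert50_20 rfl rfl rfl (by decide) cert50_20_ok
  · exact key cert51_20 rfl rfl rfl (by decide) cert51_20_ok
  · exact key cert52_20 rfl rfl rfl (by decide) cert52_20_ok
  · exact key cert53_20 rfl rfl rfl (by decide) cert53_20_ok
  · exact key cert54_20 rfl rfl rfl (by decide) cert54_20_ok
  · exact key cert55_20 rfl rfl rfl (by decide) cert55_20_ok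

end Pool.Agent.Lib.MP92dd55
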