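import Mathlib

/-! # Symmetric rendezvous on the complete graph: definitions -/

namespace Pool.Agent.Lib.MP92dd55

open MeasureTheory
open scoped ENNReal

/-- The number of periods up to and including the first meeting (`∞` if the players never meet),
when phone `i` of room 1 is wired to phone `σ i` of room 2 and the players pick up the phones
`x 0, x 1, …` and `y 0, y 1, …`: the least `t + 1` with `σ (x t) = y t`. -/
noncomputable def meetTime {n : ℕ} (σ : Equiv.Perm (Fin n)) (x y : ℕ → Fin n) : ℝ≥0∞ :=
  ⨅ (t : ℕ) (_ : σ (x t) = y t), ((t : ℝ≥0∞) + 1)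

/-- The expected meeting time when both players independently use the mixed strategy `μ`
(a probability law on sequences of phones; the choice at time `t` is thus an arbitrary randomised
function of the own earlier choices) and the wiring is a uniformly random permutation. -/
noncomputable def expectedTime {n : ℕ} (μ : Measure (ℕ → Fin n)) : ℝ≥0∞ :=
  (∑ σ : Equiv.Perm (Fin n), ∫⁻ x, ∫⁻ y, meetTime σ x y ∂μ ∂μ) / (Nat.factorial n : ℝ≥0∞)

/-- The symmetric rendezvous value `R^s(K_n)`. -/
noncomputable def rendezvousValue (n : ℕ) : ℝ≥0∞ :=
  ⨅ μ : ProbabilityMeasure (ℕ → Fin n), expectedTime (μ : Measure (ℕ → Fin n))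

end Pool.Agent.Lib.MP92dd55
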