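import Mathlib
import Pool.Agent.Lib.MP92dd55.Defs

/-! # Finite designs and their value -/

namespace Pool.Agent.Lib.MP92dd55

open Finset

/-- Pairs of groups toured at the same time during the first `t` periods, when the players follow
the words `a`, `b` with the home sets `A`, `B`. -/
def tourPairs {N n : ℕ} (t : ℕ) (a b : Fin N → Fin n) (A B : Finset (Fin n)) :
    Finset (Fin n × Fin n) :=
  (univ.filter fun s : Fin N => (s : ℕ) < t ∧ a s ∉ A ∧ b s ∉ B).image fun s => (a s, b s)

/-- Groups toured by the other player (word `b`, home set `B`) during the first `t` periods, while
the player with the word `a` was at home at `i`. -/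
def swept {N n : ℕ} (t : ℕ) (a b : Fin N → Fin n) (B : Finset (Fin n)) (i : Fin n) :
    Finset (Fin n) :=
  (univ.filter fun s : Fin N => (s : ℕ) < t ∧ a s = i ∧ b s ∉ B).image b

/-- Limiting probability that the players have not met during the first `t` periods. -/
noncomputable def survival {N n : ℕ} (t : ℕ) (a b : Fin N → Fin n) (A B : Finset (Fin n)) : ℝ :=
  (∏ i ∈ A, (1 - ((swept t a b B i).card : ℝ) / n)) *
    (∏ j ∈ B, (1 - ((swept t b a A j).card : ℝ) / n)) *
    Real.exp (-(((tourPairs t a b A B).card : ℝ) / n))

/-- A finite design: `n` groups of phones, words of `N` periods, a probability law `p` on words,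
and for every word a home set: a letter of the home set means that the player stays at one phone
of the group, another letter that he tours the whole group. -/
structure Design where
  /-- number of groups -/
  n : ℕ
  /-- number of periods -/
  N : ℕ
  /-- law of the word -/
  p : (Fin N → Fin n) → ℝ
  /-- home sets -/
  A : (Fin N → Fin n) → Finset (Fin n)
  n_pos : 0 < n
  N_pos : 0 < N
  p_nonneg : ∀ a, 0 ≤ p a
  p_sum : ∑ a, p a = 1

/-- Mean limiting probability not to have met during the first `t` periods of the design. -/
noncomputable def Design.surv (d : Design) (t : ℕ) : ℝ :=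
  ∑ a, ∑ b, d.p a * d.p b * survival t a b (d.A a) (d.A b)

/-- The value of the design: limit of the expected time, divided by the number of phones, when the
design is repeated independently until the players meet. -/
noncomputable def Design.value (d : Design) : ℝ :=
  (∑ t ∈ range d.N, d.surv t) / d.n / (1 - d.surv d.N)

end Pool.Agent.Lib.MP92dd55
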