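import Mathlib
import Pool.Agent.Lib.MP92dd55.Perm

/-! # Upper bounds for the probability of avoiding a set of pairs -/

namespace Pool.Agent.Lib.MP92dd55

open Finset

variable {n : ℕ}

/-- permutations with `σ a = b` -/
def fix1 (a b : Fin n) : Finset (Equiv.Perm (Fin n)) := univ.filter fun σ => σ a = b

/-- permutations with `σ a = b` and `σ c = d` -/
def fix2 (a b c d : Fin n) : Finset (Equiv.Perm (Fin n)) :=
  univ.filter fun σ => σ a = b ∧ σ c = d

lemma fix1_card_eq (a b b' : Fin n) : (fix1 a b).card ≤ (fix1 a b').card := by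
  refine Finset.card_le_card_of_injOn (fun σ => Equiv.swap b b' * σ) ?_ ?_
  · intro σ hσ
    have h : σ a = b := by simpa [fix1] using hσ
    simp [fix1, h]
  · intro σ _ τ _ h
    exact mul_left_cancel h

lemma fix1_card (a b : Fin n) : n * (fix1 a b).card = n.factorial := by
  classical
  have h1 : ∑ b' : Fin n, (fix1 a b').card = n.factorial := by
    have := Finset.card_eq_sum_card_fiberwise (f := fun σ : Equiv.Perm (Fin n) => σ a)
      (s := univ) (t := univ) (by simp)
    rw [Finset.card_univ, Fintype.card_perm, Fintype.card_fin] at this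
    rw [this]
    rfl
  have h2 : ∀ b' : Fin n, (fix1 a b').card = (fix1 a b).card := fun b' =>
    le_antisymm (fix1_card_eq _ _ _) (fix1_card_eq _ _ _)
  rw [Finset.sum_congr rfl fun b' _ => h2 b'] at h1
  simpa using h1

lemma fix2_card_eq (a b c d d' : Fin n) (hd : b ≠ d) (hd' : b ≠ d') :
    (fix2 a b c d).card ≤ (fix2 a b c d').card := by
  refine Finset.card_le_card_of_injOn (fun σ => Equiv.swap d d' * σ) ?_ ?_
  · intro σ hσ
    have h : σ a = b ∧ σ c = d := by simpa [fix2] using hσ
    simp [fix2, h.1, h.2, Equiv.swap_apply_of_ne_of_ne hd hd']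
  · intro σ _ τ _ h
    exact mul_left_cancel h

lemma fix2_card (a b c d : Fin n) (hac : a ≠ c) (hbd : b ≠ d) :
    n * ((n - 1) * (fix2 a b c d).card) = n.factorial := by
  classical
  have h1 : ∑ d' ∈ univ.erase b, (fix2 a b c d').card = (fix1 a b).card := by
    have := Finset.card_eq_sum_card_fiberwise (f := fun σ : Equiv.Perm (Fin n) => σ c)
      (s := fix1 a b) (t := univ.erase b) (by
        intro σ hσ
        have h : σ a = b := by simpa [fix1] using hσ
        simp only [coe_erase, coe_univ, Set.mem_sdiff, Set.mem_univ, Set.mem_singleton_iff, true_and]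
        intro h2
        exact hac (σ.injective (h.trans h2.symm)))
    rw [this]
    refine Finset.sum_congr rfl fun d' _ => ?_
    congr 1
    ext σ
    simp [fix1, fix2]
  have h2 : ∀ d' ∈ univ.erase b, (fix2 a b c d').card = (fix2 a b c d).card := by
    intro d' hd'
    have hd'' : b ≠ d' := by
      have := (mem_erase.1 hd').1; exact fun h => this h.symm
    exact le_antisymm (fix2_card_eq _ _ _ _ _ hd'' hbd) (fix2_card_eq _ _ _ _ _ hbd hd'')
  rw [Finset.sum_congr rfl h2, sum_const, card_erase_of_mem (mem_univ _), card_univ,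
    Fintype.card_fin, smul_eq_mul] at h1
  rw [h1, fix1_card]

/-- One more forbidden pair multiplies the probability by about `1 - 1/n`. -/
lemma hit_ge (E : Finset (Fin n × Fin n)) (e : Fin n × Fin n) (he : e ∉ E) :
    n * (n * (n - 1) * (avoid E).card) ≤
      n * (n * (n - 1) * (n * (hit E e).card)) + n * (E.card * n.factorial) := by
  classical
  obtain ⟨i, j⟩ := e
  set S1 := (avoid E).filter fun σ => (σ.symm j, σ i) ∉ E with hS1
  set S2 := (avoid E).filter fun σ => (σ.symm j, σ i) ∈ E with hS2
  have hsplit : (avoid E).card = S2.card + S1.card := by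
    rw [hS1, hS2]
    exact (Finset.card_filter_add_card_filter_not (s := avoid E)
      (fun σ => (σ.symm j, σ i) ∈ E)).symm
  -- S1
  have h1 : S1.card ≤ n * (hit E (i, j)).card := by
    have : S1.card ≤ ((hit E (i, j)) ×ˢ (univ : Finset (Fin n))).card := by
      refine Finset.card_le_card_of_injOn (fun σ => (σ * Equiv.swap i (σ.symm j), σ.symm j)) ?_ ?_
      · intro σ hσ
        have hσ' : σ ∈ avoid E ∧ (σ.symm j, σ i) ∉ E := by simpa [hS1] using hσ
        obtain ⟨ha, hb⟩ := hσ'
        rw [mem_avoid] at ha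
        simp only [coe_product, coe_univ, Set.mem_prod, Set.mem_univ, and_true, mem_coe]
        rw [hit, mem_filter, mem_avoid]
        constructor
        · rintro ⟨p, q⟩ hpq hEq
          simp only [Equiv.Perm.mul_apply] at hEq
          by_cases hp : p = i
          · subst hp
            rw [Equiv.swap_apply_left] at hEq
            simp at hEq
            exact he (hEq ▸ hpq)
          · by_cases hp' : p = σ.symm j
            · subst hp'
              rw [Equiv.swap_apply_right] at hEq
              exact hb (hEq ▸ hpq)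
            · rw [Equiv.swap_apply_of_ne_of_ne hp hp'] at hEq
              exact ha _ hpq hEq
        · simp
      · intro σ _ τ _ h
        simp only [Prod.mk.injEq] at h
        obtain ⟨h1, h2⟩ := h
        rw [h2] at h1
        exact mul_right_cancel h1
    rw [card_product, card_univ, Fintype.card_fin] at this
    linarith
  -- S2
  have h2 : n * ((n - 1) * S2.card) ≤ E.card * n.factorial := by
    have hsub : S2 ⊆ (E.filter fun f => f.1 ≠ i ∧ f.2 ≠ j).biUnion fun f => fix2 f.1 j i f.2 := by
      intro σ hσ
      rw [hS2, mem_filter] at hσ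
      rw [mem_biUnion]
      refine ⟨(σ.symm j, σ i), ?_, ?_⟩
      · rw [mem_filter]
        refine ⟨hσ.2, ?_, ?_⟩
        · intro h
          apply he
          have : σ i = j := by rw [← h]; simp
          have h3 := hσ.2
          simp only at h
          rwa [h, this] at h3
        · intro h
          apply he
          simp only at h
          have : σ.symm j = i := by rw [← h]; simp
          have h3 := hσ.2
          rwa [h, this] at h3
      · simp [fix2]
    have hc : S2.card ≤ ∑ f ∈ E.filter (fun f => f.1 ≠ i ∧ f.2 ≠ j), (fix2 f.1 j i f.2).card :=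
      (card_le_card hsub).trans card_biUnion_le
    calc n * ((n - 1) * S2.card)
        ≤ n * ((n - 1) * ∑ f ∈ E.filter (fun f => f.1 ≠ i ∧ f.2 ≠ j), (fix2 f.1 j i f.2).card) := by
          gcongr
      _ = ∑ f ∈ E.filter (fun f => f.1 ≠ i ∧ f.2 ≠ j), n * ((n - 1) * (fix2 f.1 j i f.2).card) := by
          rw [Finset.mul_sum, Finset.mul_sum]
      _ = ∑ f ∈ E.filter (fun f => f.1 ≠ i ∧ f.2 ≠ j), n.factorial := by
          refine Finset.sum_congr rfl fun f hf => ?_
          rw [mem_filter] at hf
          exact fix2_card _ _ _ _ hf.2.1 (fun h => hf.2.2 h.symm)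
      _ = (E.filter (fun f => f.1 ≠ i ∧ f.2 ≠ j)).card * n.factorial := by
          rw [sum_const, smul_eq_mul]
      _ ≤ E.card * n.factorial := by
          gcongr
          exact filter_subset _ _
  rw [hsplit]
  have h3 : n * (n * (n - 1) * S1.card) ≤ n * (n * (n - 1) * (n * (hit E (i, j)).card)) := by
    gcongr
  have h4 : n * (n * ((n - 1) * S2.card)) ≤ n * (E.card * n.factorial) := by gcongr
  nlinarith

lemma pAvoid_insert_le (hn : 2 ≤ n) (E : Finset (Fin n × Fin n)) (e : Fin n × Fin n)
    (he : e ∉ E) :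
    pAvoid (insert e E) ≤ pAvoid E * (1 - 1 / (n : ℝ)) +
      (E.card : ℝ) / ((n : ℝ) ^ 2 * ((n : ℝ) - 1)) := by
  classical
  have h1 := hit_ge E e he
  have hcard : (avoid (insert e E)).card + (hit E e).card = (avoid E).card := by
    have h2 : avoid (insert e E) = (avoid E).filter fun σ => ¬ σ e.1 = e.2 := by
      ext σ
      simp only [mem_avoid, mem_filter, mem_insert, forall_eq_or_imp]
      tauto
    rw [h2, hit, add_comm]
    exact Finset.card_filter_add_card_filter_not (s := avoid E) (fun σ => σ e.1 = e.2)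
  have hn0 : (0 : ℝ) < n := by
    have : 0 < n := by omega
    exact_mod_cast this
  have hn1 : (0 : ℝ) < (n : ℝ) - 1 := by
    have : (2 : ℝ) ≤ n := by exact_mod_cast hn
    linarith
  have h3 : (n : ℝ) * (n * (n - 1) * (avoid E).card) ≤
      n * (n * (n - 1) * (n * (hit E e).card)) + n * (E.card * n.factorial) := by
    have : (((n - 1 : ℕ)) : ℝ) = (n : ℝ) - 1 := by
      rw [Nat.cast_sub (by omega)]; simp
    rw [← this]
    exact_mod_cast h1
  have h4 : ((avoid (insert e E)).card : ℝ) + (hit E e).card = (avoid E).card := by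
    exact_mod_cast hcard
  have hf : (0 : ℝ) < (n.factorial : ℝ) := by positivity
  unfold pAvoid
  rw [div_mul_eq_mul_div, div_add_div _ _ hf.ne' (by positivity), div_le_div_iff₀ hf (by positivity)]
  have h5 : ((avoid (insert e E)).card : ℝ) = (avoid E).card - (hit E e).card := by linarith
  rw [h5]
  have h6 : (avoid E).card * (1 - 1 / (n : ℝ)) * ((n : ℝ) ^ 2 * ((n : ℝ) - 1)) =
      (avoid E).card * ((n : ℝ) ^ 2 * ((n : ℝ) - 1)) - (avoid E).card * ((n : ℝ) * ((n : ℝ) - 1)) := by
    field_simp
  rw [h6]
  have h7 : (n : ℝ) * ((n - 1) * (avoid E).card) ≤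
      (n * (n - 1) * (n * (hit E e).card)) + (E.card * n.factorial) := by
    have := le_of_mul_le_mul_left (a := (n : ℝ))
      (b := n * (n - 1) * (avoid E).card)
      (c := (n * (n - 1) * (n * (hit E e).card)) + (E.card * n.factorial)) (by linarith) hn0
    linarith
  nlinarith

/-- Adding a set of pairs. -/
theorem pAvoid_union_le (hn : 2 ≤ n) (E F : Finset (Fin n × Fin n)) (hdisj : Disjoint E F) :
    pAvoid (E ∪ F) ≤ pAvoid E * (1 - 1 / (n : ℝ)) ^ F.card +
      (F.card : ℝ) * (E.card + F.card) / ((n : ℝ) ^ 2 * ((n : ℝ) - 1)) := by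
  classical
  have hn0 : (0 : ℝ) < n := by
    have : 0 < n := by omega
    exact_mod_cast this
  have hn1 : (0 : ℝ) < (n : ℝ) - 1 := by
    have : (2 : ℝ) ≤ n := by exact_mod_cast hn
    linarith
  have hq0 : 0 ≤ 1 - 1 / (n : ℝ) := by
    rw [sub_nonneg, div_le_one hn0]; linarith
  have hq1 : 1 - 1 / (n : ℝ) ≤ 1 := by
    have : 0 ≤ 1 / (n : ℝ) := by positivity
    linarith
  induction F using Finset.induction_on with
  | empty => simp
  | insert e F heF ih =>
    have hdisj' : Disjoint E F := hdisj.mono_right (subset_insert _ _)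
    have hih := ih hdisj'
    have heE : e ∉ E := fun h => (Finset.disjoint_left.1 hdisj h (mem_insert_self _ _))
    have heEF : e ∉ E ∪ F := by rw [mem_union]; tauto
    have h1 := pAvoid_insert_le hn (E ∪ F) e heEF
    have heq : E ∪ insert e F = insert e (E ∪ F) := by
      ext a; simp only [mem_union, mem_insert]; tauto
    rw [heq, card_insert_of_notMem heF, pow_succ]
    have hcu : ((E ∪ F).card : ℝ) ≤ E.card + F.card := by exact_mod_cast card_union_le E F
    set c := (n : ℝ) ^ 2 * ((n : ℝ) - 1) with hc
    have hc0 : 0 < c := by positivity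
    calc pAvoid (insert e (E ∪ F)) ≤ pAvoid (E ∪ F) * (1 - 1 / (n : ℝ)) + ((E ∪ F).card : ℝ) / c := h1
      _ ≤ (pAvoid E * (1 - 1 / (n : ℝ)) ^ F.card + (F.card : ℝ) * (E.card + F.card) / c) *
          (1 - 1 / (n : ℝ)) + ((E.card : ℝ) + F.card) / c := by gcongr
      _ ≤ pAvoid E * (1 - 1 / (n : ℝ)) ^ F.card * (1 - 1 / (n : ℝ)) +
          (F.card : ℝ) * (E.card + F.card) / c + ((E.card : ℝ) + F.card) / c := by
          have : 0 ≤ (F.card : ℝ) * (E.card + F.card) / c := by positivity
          nlinarith
      _ ≤ _ := by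
          have h2 : (F.card : ℝ) * (E.card + F.card) / c + ((E.card : ℝ) + F.card) / c =
              ((F.card : ℝ) + 1) * (E.card + F.card) / c := by ring
          have h3 : ((F.card : ℝ) + 1) * (E.card + F.card) / c ≤
              ((F.card + 1 : ℕ) : ℝ) * ((E.card : ℝ) + ((F.card + 1 : ℕ) : ℝ)) / c := by
            push_cast
            gcongr
            linarith
          have h4 : pAvoid E * ((1 - 1 / (n : ℝ)) ^ F.card * (1 - 1 / (n : ℝ))) =
            pAvoid E * (1 - 1 / (n : ℝ)) ^ F.card * (1 - 1 / (n : ℝ)) := by ring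
          rw [h4]
          linarith

/-- the two stars at the home phone `h` -/
def stars (h : Fin n) (J I : Finset (Fin n)) : Finset (Fin n × Fin n) :=
  J.image (fun j => (h, j)) ∪ I.image (fun i => (i, h))

lemma stars_card_le (h : Fin n) (J I : Finset (Fin n)) : (stars h J I).card ≤ J.card + I.card :=
  (card_union_le _ _).trans (Nat.add_le_add card_image_le card_image_le)

/-- Probability of avoiding two stars. -/
theorem pAvoid_stars (hn : 2 ≤ n) (h : Fin n) (J I : Finset (Fin n)) (hJ : h ∉ J) (hI : h ∉ I) :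
    pAvoid (stars h J I) ≤ (1 - (J.card : ℝ) / n) * (1 - (I.card : ℝ) / n) + 1 / ((n : ℝ) - 1) := by
  classical
  have hn0 : (0 : ℝ) < n := by
    have : 0 < n := by omega
    exact_mod_cast this
  have hn1 : (0 : ℝ) < (n : ℝ) - 1 := by
    have : (2 : ℝ) ≤ n := by exact_mod_cast hn
    linarith
  set A := (univ : Finset (Equiv.Perm (Fin n))).filter fun σ => σ h ∈ J with hA
  set B := (univ : Finset (Equiv.Perm (Fin n))).filter fun σ => σ.symm h ∈ I with hB
  have hAc : n * A.card = J.card * n.factorial := by
    have h1 : A.card = ∑ j ∈ J, (fix1 h j).card := by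
      rw [Finset.card_eq_sum_card_fiberwise (f := fun σ : Equiv.Perm (Fin n) => σ h) (s := A)
        (t := J) (by intro σ hσ; simpa [hA] using hσ)]
      refine Finset.sum_congr rfl fun j hj => ?_
      congr 1
      ext σ
      simp only [hA, mem_filter, mem_univ, true_and, fix1]
      constructor
      · exact fun h => h.2
      · exact fun h => ⟨h ▸ hj, h⟩
    rw [h1, Finset.mul_sum, Finset.sum_congr rfl fun j _ => fix1_card h j, sum_const, smul_eq_mul]
  have hBc : n * B.card = I.card * n.factorial := by
    have h1 : B.card = ∑ i ∈ I, (fix1 i h).card := by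
      rw [Finset.card_eq_sum_card_fiberwise (f := fun σ : Equiv.Perm (Fin n) => σ.symm h) (s := B)
        (t := I) (by intro σ hσ; simpa [hB] using hσ)]
      refine Finset.sum_congr rfl fun i hi => ?_
      congr 1
      ext σ
      simp only [hB, mem_filter, mem_univ, true_and, fix1]
      constructor
      · intro hh; rw [← hh.2]; simp
      · intro hh
        have h2 : σ.symm h = i := by rw [Equiv.symm_apply_eq]; exact hh.symm
        exact ⟨by rw [h2]; exact hi, h2⟩
    rw [h1, Finset.mul_sum, Finset.sum_congr rfl fun i _ => fix1_card i h, sum_const, smul_eq_mul]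
  have hABc : n * ((n - 1) * (A ∩ B).card) ≤ J.card * I.card * n.factorial := by
    have hsub : A ∩ B ⊆ (J ×ˢ I).biUnion fun p => fix2 h p.1 p.2 h := by
      intro σ hσ
      rw [mem_inter, hA, hB, mem_filter, mem_filter] at hσ
      rw [mem_biUnion]
      exact ⟨(σ h, σ.symm h), mem_product.2 ⟨hσ.1.2, hσ.2.2⟩, by simp [fix2]⟩
    calc n * ((n - 1) * (A ∩ B).card) ≤ n * ((n - 1) * ∑ p ∈ J ×ˢ I, (fix2 h p.1 p.2 h).card) := by
          gcongr
          exact (card_le_card hsub).trans card_biUnion_le
      _ = ∑ p ∈ J ×ˢ I, n * ((n - 1) * (fix2 h p.1 p.2 h).card) := by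
          rw [Finset.mul_sum, Finset.mul_sum]
      _ = ∑ p ∈ J ×ˢ I, n.factorial := by
          refine Finset.sum_congr rfl fun p hp => ?_
          rw [mem_product] at hp
          exact fix2_card _ _ _ _ (fun e => hI (e ▸ hp.2)) (fun e => hJ (e ▸ hp.1))
      _ = _ := by rw [sum_const, smul_eq_mul, card_product]
  have hav : avoid (stars h J I) = univ \ (A ∪ B) := by
    ext σ
    simp only [mem_avoid, stars, mem_union, mem_image, mem_sdiff, mem_univ, true_and, hA, hB,
      mem_filter]
    constructor
    · intro h1 h2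
      rcases h2 with h2 | h2
      · exact h1 (h, σ h) (Or.inl ⟨_, h2, rfl⟩) rfl
      · exact h1 (σ.symm h, h) (Or.inr ⟨_, h2, rfl⟩) (by simp)
    · rintro h1 ⟨p, q⟩ (⟨j, hj, hpq⟩ | ⟨i, hi, hpq⟩) hEq
      · simp only [Prod.mk.injEq] at hpq
        obtain ⟨rfl, rfl⟩ := hpq
        simp only at hEq
        exact h1 (Or.inl (hEq ▸ hj))
      · simp only [Prod.mk.injEq] at hpq
        obtain ⟨rfl, rfl⟩ := hpq
        simp only at hEq
        apply h1
        right
        have : σ.symm h = i := by rw [Equiv.symm_apply_eq]; exact hEq.symm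
        rw [this]; exact hi
  have hcard : (avoid (stars h J I)).card + A.card + B.card = n.factorial + (A ∩ B).card := by
    rw [hav, card_sdiff_of_subset (subset_univ _)]
    have h1 := card_union_add_card_inter A B
    have h2 : (A ∪ B).card ≤ (univ : Finset (Equiv.Perm (Fin n))).card := card_le_card (subset_univ _)
    rw [card_univ, Fintype.card_perm, Fintype.card_fin] at h2 ⊢
    omega
  have hf : (0 : ℝ) < (n.factorial : ℝ) := by positivity
  have eA : (A.card : ℝ) / n.factorial = (J.card : ℝ) / n := by
    rw [div_eq_div_iff hf.ne' hn0.ne']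
    have : (n : ℝ) * A.card = J.card * n.factorial := by exact_mod_cast hAc
    linarith
  have eB : (B.card : ℝ) / n.factorial = (I.card : ℝ) / n := by
    rw [div_eq_div_iff hf.ne' hn0.ne']
    have : (n : ℝ) * B.card = I.card * n.factorial := by exact_mod_cast hBc
    linarith
  have eAB : ((A ∩ B).card : ℝ) / n.factorial ≤ (J.card : ℝ) * I.card / (n * (n - 1)) := by
    rw [div_le_div_iff₀ hf (by positivity)]
    have : (n : ℝ) * ((n - 1) * (A ∩ B).card) ≤ J.card * I.card * n.factorial := by
      have h2 : (((n - 1 : ℕ)) : ℝ) = (n : ℝ) - 1 := by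
        rw [Nat.cast_sub (by omega)]; simp
      rw [← h2]
      exact_mod_cast hABc
    linarith
  have hJn : (J.card : ℝ) ≤ n := by
    have : J.card ≤ n := by simpa using card_le_univ J
    exact_mod_cast this
  have hIn : (I.card : ℝ) ≤ n := by
    have : I.card ≤ n := by simpa using card_le_univ I
    exact_mod_cast this
  have h1 : pAvoid (stars h J I) = 1 + ((A ∩ B).card : ℝ) / n.factorial -
      (A.card : ℝ) / n.factorial - (B.card : ℝ) / n.factorial := by
    unfold pAvoid
    have : ((avoid (stars h J I)).card : ℝ) + A.card + B.card = n.factorial + (A ∩ B).card := by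
      exact_mod_cast hcard
    field_simp
    linarith
  rw [h1, eA, eB]
  have h2 : (J.card : ℝ) * I.card / (n * (n - 1)) ≤
      (J.card : ℝ) / n * ((I.card : ℝ) / n) + 1 / ((n : ℝ) - 1) := by
    have h3 : (J.card : ℝ) * I.card / (n * (n - 1)) =
        (J.card : ℝ) / n * ((I.card : ℝ) / n) +
        ((J.card : ℝ) / n * ((I.card : ℝ) / n)) * (1 / ((n : ℝ) - 1)) := by
      field_simp
      ring
    rw [h3]
    have h4 : (J.card : ℝ) / n * ((I.card : ℝ) / n) ≤ 1 := by
      have a1 : (J.card : ℝ) / n ≤ 1 := by rw [div_le_one hn0]; exact hJn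
      have a2 : (I.card : ℝ) / n ≤ 1 := by rw [div_le_one hn0]; exact hIn
      exact mul_le_one₀ a1 (by positivity) a2
    have h5 : 0 ≤ 1 / ((n : ℝ) - 1) := by positivity
    nlinarith
  nlinarith

end Pool.Agent.Lib.MP92dd55
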