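import Mathlib
import Pool.Agent.Lib.MP92dd55.Perm
import Pool.Agent.Lib.MP92dd55.PermUpper

/-! # Avoiding stars of arbitrary size and few other pairs: product formula -/

namespace Pool.Agent.Lib.MP92dd55

open Finset

variable {n : ℕ}

/-- a set of pairs of which a permutation uses at most one -/
def Thin (S : Finset (Fin n × Fin n)) : Prop :=
  ∀ σ : Equiv.Perm (Fin n), ∀ e ∈ S, ∀ f ∈ S, σ e.1 = e.2 → σ f.1 = f.2 → e = f

lemma thin_row (i : Fin n) (S : Finset (Fin n × Fin n)) (hS : ∀ e ∈ S, e.1 = i) : Thin S := by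
  intro σ e he f hf h1 h2
  have h3 := hS e he
  have h4 := hS f hf
  rw [h3] at h1
  rw [h4] at h2
  exact Prod.ext (h3.trans h4.symm) (h1.symm.trans h2)

lemma thin_col (j : Fin n) (S : Finset (Fin n × Fin n)) (hS : ∀ e ∈ S, e.2 = j) : Thin S := by
  intro σ e he f hf h1 h2
  have h3 := hS e he
  have h4 := hS f hf
  rw [h3] at h1
  rw [h4] at h2
  exact Prod.ext (σ.injective (h1.trans h2.symm)) (h3.trans h4.symm)

lemma pAvoid_insert_eq (E : Finset (Fin n × Fin n)) (e : Fin n × Fin n) :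
    pAvoid (insert e E) = pAvoid E - ((hit E e).card : ℝ) / (n.factorial : ℝ) := by
  classical
  have hcard : (avoid (insert e E)).card + (hit E e).card = (avoid E).card := by
    have h2 : avoid (insert e E) = (avoid E).filter fun σ => ¬ σ e.1 = e.2 := by
      ext σ
      simp only [mem_avoid, mem_filter, mem_insert, forall_eq_or_imp]
      tauto
    rw [h2, hit, add_comm]
    exact Finset.card_filter_add_card_filter_not (s := avoid E) (fun σ => σ e.1 = e.2)
  have h4 : ((avoid (insert e E)).card : ℝ) + (hit E e).card = (avoid E).card := by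
    exact_mod_cast hcard
  unfold pAvoid
  rw [← h4]
  ring

/-- a thin set of forbidden pairs: upper bound -/
theorem pAvoid_thin_le (hn : 2 ≤ n) (E S : Finset (Fin n × Fin n)) (hd : Disjoint E S)
    (hS : Thin S) :
    pAvoid (E ∪ S) ≤ pAvoid E * (1 - (S.card : ℝ) / n) +
      (S.card : ℝ) * E.card / ((n : ℝ) ^ 2 * ((n : ℝ) - 1)) := by
  classical
  have h1 : (avoid (E ∪ S)).card + ∑ e ∈ S, (hit E e).card ≤ (avoid E).card := by
    have hb : (S.biUnion fun e => hit E e).card = ∑ e ∈ S, (hit E e).card := by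
      apply card_biUnion
      intro e he f hf hef
      rw [Function.onFun, Finset.disjoint_left]
      intro σ h1 h2
      rw [hit, mem_filter] at h1 h2
      exact hef (hS σ e he f hf h1.2 h2.2)
    rw [← hb, ← card_union_of_disjoint]
    · apply card_le_card
      intro σ hσ
      rcases mem_union.1 hσ with h | h
      · exact avoid_anti subset_union_left h
      · obtain ⟨e, _, he2⟩ := mem_biUnion.1 h
        exact (mem_filter.1 he2).1
    · rw [Finset.disjoint_left]
      intro σ h1 h2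
      obtain ⟨e, he, he2⟩ := mem_biUnion.1 h2
      exact (mem_avoid.1 h1) e (mem_union_right _ he) (mem_filter.1 he2).2
  have hf : (0 : ℝ) < (n.factorial : ℝ) := by positivity
  have h2 : ∀ e ∈ S, pAvoid E * (1 / (n : ℝ)) - (E.card : ℝ) / ((n : ℝ) ^ 2 * ((n : ℝ) - 1)) ≤
      ((hit E e).card : ℝ) / (n.factorial : ℝ) := by
    intro e he
    have heE : e ∉ E := fun h => Finset.disjoint_left.1 hd h he
    have h3 := pAvoid_insert_le hn E e heE
    rw [pAvoid_insert_eq] at h3
    linarith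
  have h3 : pAvoid (E ∪ S) + ∑ e ∈ S, ((hit E e).card : ℝ) / (n.factorial : ℝ) ≤ pAvoid E := by
    unfold pAvoid
    rw [← Finset.sum_div, ← add_div]
    gcongr
    exact_mod_cast h1
  have h4 : (S.card : ℝ) * (pAvoid E * (1 / (n : ℝ)) -
      (E.card : ℝ) / ((n : ℝ) ^ 2 * ((n : ℝ) - 1))) ≤
      ∑ e ∈ S, ((hit E e).card : ℝ) / (n.factorial : ℝ) := by
    have := Finset.card_nsmul_le_sum S _ _ h2
    rwa [nsmul_eq_mul] at this
  have h5 : pAvoid E * (1 - (S.card : ℝ) / n) = pAvoid E - (S.card : ℝ) * (pAvoid E * (1 / n)) := by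
    ring
  rw [h5]
  have h6 : (S.card : ℝ) * (pAvoid E * (1 / (n : ℝ)) -
      (E.card : ℝ) / ((n : ℝ) ^ 2 * ((n : ℝ) - 1))) = (S.card : ℝ) * (pAvoid E * (1 / (n : ℝ))) -
      (S.card : ℝ) * E.card / ((n : ℝ) ^ 2 * ((n : ℝ) - 1)) := by ring
  linarith

private lemma limPerm_step (X Y p P Q s e u c : ℝ) {n : ℝ}
    (h1 : X ≤ Y * (1 - s / n) + s * u / c) (hih : Y ≤ p * P + Q * (e + Q) / c)
    (hcu : u ≤ e + Q) (hsi0 : 0 ≤ 1 - s / n) (hsi1 : 1 - s / n ≤ 1) (hc0 : 0 < c) (hQ0 : 0 ≤ Q)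
    (hs0 : 0 ≤ s) (he : 0 ≤ e) (_hn : 0 < n) :
    X ≤ p * ((1 - s / n) * P) + (s + Q) * (e + (s + Q)) / c := by
  have h2 : Y * (1 - s / n) ≤ (p * P + Q * (e + Q) / c) * (1 - s / n) :=
    mul_le_mul_of_nonneg_right hih hsi0
  have h3 : 0 ≤ Q * (e + Q) / c := div_nonneg (mul_nonneg hQ0 (add_nonneg he hQ0)) hc0.le
  have h4 : Q * (e + Q) / c * (1 - s / n) ≤ Q * (e + Q) / c := mul_le_of_le_one_right h3 hsi1
  have h5 : s * u / c ≤ s * (e + Q) / c := by
    apply div_le_div_of_nonneg_right _ hc0.le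
    exact mul_le_mul_of_nonneg_left hcu hs0
  have h6 : (s + Q) * (e + Q) / c ≤ (s + Q) * (e + (s + Q)) / c := by
    apply div_le_div_of_nonneg_right _ hc0.le
    apply mul_le_mul_of_nonneg_left _ (by linarith)
    linarith
  have h7 : (s + Q) * (e + Q) / c = s * (e + Q) / c + Q * (e + Q) / c := by ring
  nlinarith

/-- a family of thin sets: upper bound -/
theorem pAvoid_family_le {ι : Type} [DecidableEq ι] (hn : 2 ≤ n) (I : Finset ι)
    (S : ι → Finset (Fin n × Fin n)) (hS : ∀ i ∈ I, Thin (S i)) (hc : ∀ i ∈ I, (S i).card ≤ n)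
    (hdis : ∀ i ∈ I, ∀ j ∈ I, i ≠ j → Disjoint (S i) (S j))
    (E : Finset (Fin n × Fin n)) (hE : ∀ i ∈ I, Disjoint E (S i)) :
    pAvoid (E ∪ I.biUnion S) ≤ pAvoid E * ∏ i ∈ I, (1 - ((S i).card : ℝ) / n) +
      (∑ i ∈ I, ((S i).card : ℝ)) * (E.card + ∑ i ∈ I, ((S i).card : ℝ)) /
        ((n : ℝ) ^ 2 * ((n : ℝ) - 1)) := by
  classical
  have hn0 : (0 : ℝ) < n := by
    have : 0 < n := by omega
    exact_mod_cast this
  have hn1 : (0 : ℝ) < (n : ℝ) - 1 := by
    have : (2 : ℝ) ≤ n := by exact_mod_cast hn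
    linarith
  set c := (n : ℝ) ^ 2 * ((n : ℝ) - 1) with hcdef
  have hc0 : 0 < c := by positivity
  induction I using Finset.induction_on with
  | empty => simp
  | insert i I hi ih =>
    have hih := ih (fun j hj => hS j (mem_insert_of_mem hj)) (fun j hj => hc j (mem_insert_of_mem hj))
      (fun j hj k hk => hdis j (mem_insert_of_mem hj) k (mem_insert_of_mem hk))
      (fun j hj => hE j (mem_insert_of_mem hj))
    have hd : Disjoint (E ∪ I.biUnion S) (S i) := by
      rw [disjoint_union_left]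
      refine ⟨hE i (mem_insert_self _ _), ?_⟩
      rw [disjoint_biUnion_left]
      intro j hj
      exact hdis j (mem_insert_of_mem hj) i (mem_insert_self _ _) (fun h => hi (h ▸ hj))
    have h1 := pAvoid_thin_le hn (E ∪ I.biUnion S) (S i) hd (hS i (mem_insert_self _ _))
    have heq : E ∪ (insert i I).biUnion S = (E ∪ I.biUnion S) ∪ S i := by
      rw [biUnion_insert]
      ext a; simp only [mem_union]; tauto
    have hsi : ((S i).card : ℝ) / n ≤ 1 := by
      rw [div_le_one hn0]; exact_mod_cast hc i (mem_insert_self _ _)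
    have hsi0 : 0 ≤ 1 - ((S i).card : ℝ) / n := by linarith
    have hsi1 : 1 - ((S i).card : ℝ) / n ≤ 1 := by
      have : 0 ≤ ((S i).card : ℝ) / n := by positivity
      linarith
    have hcu : ((E ∪ I.biUnion S).card : ℝ) ≤ E.card + ∑ j ∈ I, ((S j).card : ℝ) := by
      have h2 : (E ∪ I.biUnion S).card ≤ E.card + ∑ j ∈ I, (S j).card :=
        (card_union_le _ _).trans (Nat.add_le_add_left card_biUnion_le _)
      exact_mod_cast h2
    rw [heq, prod_insert hi, sum_insert hi]
    have hQ0 : 0 ≤ ∑ j ∈ I, ((S j).card : ℝ) := Finset.sum_nonneg fun _ _ => Nat.cast_nonneg _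
    exact limPerm_step _ _ _ _ _ _ _ _ _ h1 hih hcu hsi0 hsi1 hc0 hQ0 (Nat.cast_nonneg _)
      (Nat.cast_nonneg _) hn0

/-- a family of sets: lower bound -/
theorem pAvoid_family_ge {ι : Type} [DecidableEq ι] (I : Finset ι)
    (S : ι → Finset (Fin n × Fin n)) (d : ℕ) (hd : d < n)
    (hdis : ∀ i ∈ I, ∀ j ∈ I, i ≠ j → Disjoint (S i) (S j))
    (E : Finset (Fin n × Fin n)) (hE : ∀ i ∈ I, Disjoint E (S i))
    (hdeg : ∀ i ∈ I, ∀ e ∈ S i, rowDeg (E ∪ (I.erase i).biUnion S) e.1 +
      colDeg (E ∪ (I.erase i).biUnion S) e.2 ≤ d) :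
    pAvoid E * ∏ i ∈ I, max 0 (1 - ((S i).card : ℝ) / ((n : ℝ) - d)) ≤
      pAvoid (E ∪ I.biUnion S) := by
  classical
  induction I using Finset.induction_on with
  | empty => simp
  | insert i I hi ih =>
    have hmono : ∀ j ∈ I, E ∪ (I.erase j).biUnion S ⊆ E ∪ ((insert i I).erase j).biUnion S := by
      intro j _
      exact union_subset_union_right (biUnion_subset_biUnion_of_subset_left _
        (erase_subset_erase _ (subset_insert _ _)))
    have hih := ih (fun j hj k hk => hdis j (mem_insert_of_mem hj) k (mem_insert_of_mem hk))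
      (fun j hj => hE j (mem_insert_of_mem hj))
      (fun j hj e he => (Nat.add_le_add (rowDeg_mono (hmono j hj) _)
        (colDeg_mono (hmono j hj) _)).trans (hdeg j (mem_insert_of_mem hj) e he))
    have hdd : Disjoint (E ∪ I.biUnion S) (S i) := by
      rw [disjoint_union_left]
      refine ⟨hE i (mem_insert_self _ _), ?_⟩
      rw [disjoint_biUnion_left]
      intro j hj
      exact hdis j (mem_insert_of_mem hj) i (mem_insert_self _ _) (fun h => hi (h ▸ hj))
    have h1 := pAvoid_union (E ∪ I.biUnion S) (S i) d hd hdd (by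
      intro e he
      have := hdeg i (mem_insert_self _ _) e he
      rwa [erase_insert hi] at this)
    have heq : E ∪ (insert i I).biUnion S = (E ∪ I.biUnion S) ∪ S i := by
      rw [biUnion_insert]
      ext a; simp only [mem_union]; tauto
    rw [heq, prod_insert hi]
    have h0 : 0 ≤ max 0 (1 - ((S i).card : ℝ) / ((n : ℝ) - d)) := le_max_left _ _
    have h2 : pAvoid (E ∪ I.biUnion S) * max 0 (1 - ((S i).card : ℝ) / ((n : ℝ) - d)) ≤
        pAvoid (E ∪ I.biUnion S ∪ S i) := by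
      rcases le_total 0 (1 - ((S i).card : ℝ) / ((n : ℝ) - d)) with h | h
      · rw [max_eq_right h]; exact h1
      · rw [max_eq_left h, mul_zero]; exact pAvoid_nonneg _
    calc pAvoid E * (max 0 (1 - ((S i).card : ℝ) / ((n : ℝ) - d)) *
          ∏ j ∈ I, max 0 (1 - ((S j).card : ℝ) / ((n : ℝ) - d)))
        = (pAvoid E * ∏ j ∈ I, max 0 (1 - ((S j).card : ℝ) / ((n : ℝ) - d))) *
          max 0 (1 - ((S i).card : ℝ) / ((n : ℝ) - d)) := by ring
      _ ≤ pAvoid (E ∪ I.biUnion S) * max 0 (1 - ((S i).card : ℝ) / ((n : ℝ) - d)) := by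
          exact mul_le_mul_of_nonneg_right hih h0
      _ ≤ _ := h2

/-- few additional pairs: union bound -/
theorem pAvoid_few (hn : 0 < n) (E S : Finset (Fin n × Fin n)) :
    pAvoid E ≤ pAvoid (E ∪ S) + (S.card : ℝ) / n := by
  classical
  have h1 : (avoid E).card ≤ (avoid (E ∪ S)).card + ∑ e ∈ S, (fix1 e.1 e.2).card := by
    have hsub : avoid E ⊆ avoid (E ∪ S) ∪ S.biUnion (fun e => fix1 e.1 e.2) := by
      intro σ hσ
      rw [mem_union, mem_biUnion]
      by_cases h : ∃ e ∈ S, σ e.1 = e.2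
      · obtain ⟨e, he, hs⟩ := h
        exact Or.inr ⟨e, he, by simp [fix1, hs]⟩
      · left
        rw [mem_avoid] at hσ ⊢
        intro e he
        rcases mem_union.1 he with he | he
        · exact hσ e he
        · exact fun hh => h ⟨e, he, hh⟩
    calc (avoid E).card ≤ _ := card_le_card hsub
      _ ≤ _ := card_union_le _ _
      _ ≤ _ := by gcongr; exact card_biUnion_le
  have hn0 : (0 : ℝ) < n := by exact_mod_cast hn
  have hf : (0 : ℝ) < (n.factorial : ℝ) := by positivity
  have h2 : ∀ e ∈ S, ((fix1 e.1 e.2).card : ℝ) = (n.factorial : ℝ) / n := by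
    intro e _
    rw [eq_div_iff hn0.ne', mul_comm]
    exact_mod_cast fix1_card e.1 e.2
  have h3 : ((avoid E).card : ℝ) ≤ (avoid (E ∪ S)).card + S.card * ((n.factorial : ℝ) / n) := by
    calc ((avoid E).card : ℝ) ≤ (avoid (E ∪ S)).card + ∑ e ∈ S, ((fix1 e.1 e.2).card : ℝ) := by
          exact_mod_cast h1
      _ = _ := by rw [Finset.sum_congr rfl h2, sum_const, nsmul_eq_mul]
  unfold pAvoid
  rw [div_add_div _ _ hf.ne' hn0.ne', div_le_div_iff₀ hf (by positivity)]
  have h4 : (S.card : ℝ) * ((n.factorial : ℝ) / n) * n = S.card * n.factorial := by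
    field_simp
  nlinarith [mul_le_mul_of_nonneg_right h3 (mul_nonneg hn0.le hf.le)]

end Pool.Agent.Lib.MP92dd55
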