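import Mathlib
import Pool.Agent.Lib.MP92dd55.LimPerm
import Pool.Agent.Lib.MP92dd55.LimDefs
import Pool.Agent.Lib.MP92dd55.Kernel

/-! # Lower bound for the probability of not having met, in terms of `survival` -/

namespace Pool.Agent.Lib.MP92dd55

open Finset

variable {n N : ℕ}

/-- pairs used during the first `t` periods -/
def pairsT (t : ℕ) (a b : Fin N → Fin n) : Finset (Fin n × Fin n) :=
  (univ.filter fun s : Fin N => (s : ℕ) < t).image fun s => (a s, b s)

/-- row star -/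
def rowStar (i : Fin n) (J : Finset (Fin n)) : Finset (Fin n × Fin n) := J.image fun j => (i, j)

/-- column star -/
def colStar (j : Fin n) (I : Finset (Fin n)) : Finset (Fin n × Fin n) := I.image fun i => (i, j)

lemma rowStar_card (i : Fin n) (J : Finset (Fin n)) : (rowStar i J).card = J.card :=
  card_image_of_injective _ fun _ _ h => (Prod.ext_iff.1 h).2

lemma colStar_card (j : Fin n) (I : Finset (Fin n)) : (colStar j I).card = I.card :=
  card_image_of_injective _ fun _ _ h => (Prod.ext_iff.1 h).1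

lemma mem_rowStar {i : Fin n} {J : Finset (Fin n)} {e : Fin n × Fin n} :
    e ∈ rowStar i J ↔ e.1 = i ∧ e.2 ∈ J := by
  unfold rowStar
  rw [mem_image]
  constructor
  · rintro ⟨j, hj, rfl⟩; exact ⟨rfl, hj⟩
  · rintro ⟨h1, h2⟩; exact ⟨e.2, h2, Prod.ext h1.symm rfl⟩

lemma mem_colStar {j : Fin n} {I : Finset (Fin n)} {e : Fin n × Fin n} :
    e ∈ colStar j I ↔ e.2 = j ∧ e.1 ∈ I := by
  unfold colStar
  rw [mem_image]
  constructor
  · rintro ⟨i, hi, rfl⟩; exact ⟨rfl, hi⟩
  · rintro ⟨h1, h2⟩; exact ⟨e.1, h2, Prod.ext rfl h1.symm⟩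

lemma mem_swept {t : ℕ} {a b : Fin N → Fin n} {B : Finset (Fin n)} {i j : Fin n} :
    j ∈ swept t a b B i ↔ ∃ s : Fin N, (s : ℕ) < t ∧ a s = i ∧ b s = j ∧ j ∉ B := by
  unfold swept
  simp only [mem_image, mem_filter, mem_univ, true_and]
  constructor
  · rintro ⟨s, ⟨h1, h2, h3⟩, rfl⟩; exact ⟨s, h1, h2, rfl, h3⟩
  · rintro ⟨s, h1, h2, rfl, h3⟩; exact ⟨s, ⟨h1, h2, h3⟩, rfl⟩

lemma mem_tourPairs {t : ℕ} {a b : Fin N → Fin n} {A B : Finset (Fin n)} {e : Fin n × Fin n} :
    e ∈ tourPairs t a b A B ↔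
      ∃ s : Fin N, (s : ℕ) < t ∧ a s = e.1 ∧ b s = e.2 ∧ e.1 ∉ A ∧ e.2 ∉ B := by
  unfold tourPairs
  simp only [mem_image, mem_filter, mem_univ, true_and]
  constructor
  · rintro ⟨s, ⟨h1, h2, h3⟩, rfl⟩; exact ⟨s, h1, rfl, rfl, h2, h3⟩
  · rintro ⟨s, h1, h2, h3, h4, h5⟩
    exact ⟨s, ⟨h1, h2 ▸ h4, h3 ▸ h5⟩, Prod.ext h2 h3⟩

lemma mem_pairsT {t : ℕ} {a b : Fin N → Fin n} {e : Fin n × Fin n} :
    e ∈ pairsT t a b ↔ ∃ s : Fin N, (s : ℕ) < t ∧ a s = e.1 ∧ b s = e.2 := by
  unfold pairsT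
  simp only [mem_image, mem_filter, mem_univ, true_and]
  constructor
  · rintro ⟨s, h1, rfl⟩; exact ⟨s, h1, rfl, rfl⟩
  · rintro ⟨s, h1, h2, h3⟩; exact ⟨s, h1, Prod.ext h2 h3⟩

lemma rowDeg_pairs_le (a b : Fin N → Fin n) (i : Fin n) : rowDeg (pairs a b) i ≤ useCount a i := by
  unfold rowDeg useCount
  have : (pairs a b).filter (fun e => e.1 = i) ⊆
      (univ.filter fun s => a s = i).image fun s => (a s, b s) := by
    intro e he
    simp only [pairs, mem_filter, mem_image, mem_univ, true_and] at he ⊢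
    obtain ⟨⟨s, rfl⟩, h2⟩ := he
    exact ⟨s, h2, rfl⟩
  exact (card_le_card this).trans card_image_le

lemma colDeg_pairs_le (a b : Fin N → Fin n) (j : Fin n) : colDeg (pairs a b) j ≤ useCount b j := by
  unfold colDeg useCount
  have : (pairs a b).filter (fun e => e.2 = j) ⊆
      (univ.filter fun s => b s = j).image fun s => (a s, b s) := by
    intro e he
    simp only [pairs, mem_filter, mem_image, mem_univ, true_and] at he ⊢
    obtain ⟨⟨s, rfl⟩, h2⟩ := he
    exact ⟨s, h2, rfl⟩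
  exact (card_le_card this).trans card_image_le

lemma heavy_card_le (h a0 : ℕ) (a : Fin N → Fin n) (hA : N ≤ a0 * (h + 1)) :
    (heavy h a).card ≤ a0 := by
  have := heavy_card h a
  by_contra hcon
  push Not at hcon
  have h2 : (a0 + 1) * (h + 1) ≤ (heavy h a).card * (h + 1) := Nat.mul_le_mul_right _ hcon
  nlinarith

lemma colDeg_rows_le (A : Finset (Fin n)) (D : Fin n → Finset (Fin n)) (j : Fin n) :
    colDeg (A.biUnion fun i => rowStar i (D i)) j ≤ A.card := by
  unfold colDeg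
  have : (A.biUnion fun i => rowStar i (D i)).filter (fun e => e.2 = j) ⊆
      A.image fun i => (i, j) := by
    intro e he
    simp only [mem_filter, mem_biUnion, mem_rowStar] at he
    obtain ⟨⟨i, hi, h1, _⟩, h3⟩ := he
    exact mem_image.2 ⟨i, hi, Prod.ext h1.symm h3.symm⟩
  exact (card_le_card this).trans card_image_le

lemma rowDeg_cols_le (B : Finset (Fin n)) (D : Fin n → Finset (Fin n)) (i : Fin n) :
    rowDeg (B.biUnion fun j => colStar j (D j)) i ≤ B.card := by
  unfold rowDeg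
  have : (B.biUnion fun j => colStar j (D j)).filter (fun e => e.1 = i) ⊆
      B.image fun j => (i, j) := by
    intro e he
    simp only [mem_filter, mem_biUnion, mem_colStar] at he
    obtain ⟨⟨j, hj, h1, _⟩, h3⟩ := he
    exact mem_image.2 ⟨j, hj, Prod.ext h3.symm h1.symm⟩
  exact (card_le_card this).trans card_image_le

theorem lower_core (a b : Fin N → Fin n) (h a0 t : ℕ) (hA : N ≤ a0 * (h + 1)) (ha0 : 2 * a0 < n)
    (hh : 2 * h + 1 ≤ n) :
    (∏ i ∈ heavy h a, max 0 (1 - ((swept t a b (heavy h b) i).card : ℝ) / ((n : ℝ) - (2 * a0 : ℕ)))) *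
      (∏ j ∈ heavy h b, max 0 (1 - ((swept t b a (heavy h a) j).card : ℝ) /
        ((n : ℝ) - (2 * a0 : ℕ)))) *
      (1 - 1 / ((n : ℝ) - (2 * h : ℕ))) ^ (tourPairs t a b (heavy h a) (heavy h b)).card ≤
    pAvoid (pairsT t a b) + (a0 : ℝ) * a0 / n := by
  classical
  have hn : 0 < n := by omega
  set A := heavy h a with hAdef
  set B := heavy h b with hBdef
  have hAc : A.card ≤ a0 := heavy_card_le h a0 a hA
  have hBc : B.card ≤ a0 := heavy_card_le h a0 b hA
  set DA := fun i => swept t a b B i with hDA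
  set DB := fun j => swept t b a A j with hDB
  set R := A.biUnion (fun i => rowStar i (DA i)) with hR
  set C := B.biUnion (fun j => colStar j (DB j)) with hC
  set F := tourPairs t a b A B with hF
  have hmR : ∀ e, e ∈ R ↔ e.1 ∈ A ∧ e.2 ∈ DA e.1 := by
    intro e
    rw [hR, mem_biUnion]
    constructor
    · rintro ⟨i, hi, he⟩
      rw [mem_rowStar] at he
      rw [he.1]; exact ⟨hi, he.2⟩
    · rintro ⟨h1, h2⟩
      exact ⟨e.1, h1, mem_rowStar.2 ⟨rfl, h2⟩⟩
  have hmC : ∀ e, e ∈ C ↔ e.2 ∈ B ∧ e.1 ∈ DB e.2 := by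
    intro e
    rw [hC, mem_biUnion]
    constructor
    · rintro ⟨i, hi, he⟩
      rw [mem_colStar] at he
      rw [he.1]; exact ⟨hi, he.2⟩
    · rintro ⟨h1, h2⟩
      exact ⟨e.2, h1, mem_colStar.2 ⟨rfl, h2⟩⟩
  have hDAnot : ∀ i, ∀ j ∈ DA i, j ∉ B := by
    intro i j hj
    obtain ⟨s, _, _, _, h4⟩ := mem_swept.1 hj
    exact h4
  have hDBnot : ∀ j, ∀ i ∈ DB j, i ∉ A := by
    intro i j hj
    obtain ⟨s, _, _, _, h4⟩ := mem_swept.1 hj
    exact h4
  -- rows
  have h1 := pAvoid_family_ge A (fun i => rowStar i (DA i)) (2 * a0) ha0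
    (by
      intro i _ j _ hij
      rw [Finset.disjoint_left]
      intro e h1 h2
      rw [mem_rowStar] at h1 h2
      exact hij (h1.1.symm.trans h2.1)) ∅ (by intro i _; exact disjoint_empty_left _)
    (by
      intro i hi e he
      rw [mem_rowStar] at he
      rw [empty_union]
      have h2 : rowDeg ((A.erase i).biUnion fun i => rowStar i (DA i)) e.1 = 0 := by
        unfold rowDeg
        rw [card_eq_zero, filter_eq_empty_iff]
        intro f hf
        simp only [mem_biUnion, mem_rowStar, mem_erase] at hf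
        obtain ⟨k, ⟨hk1, _⟩, hk3, _⟩ := hf
        rw [hk3, he.1]; exact hk1
      have h3 := colDeg_rows_le (A.erase i) DA e.2
      have h4 : (A.erase i).card ≤ A.card := card_le_card (erase_subset _ _)
      omega)
  rw [pAvoid_empty, one_mul, empty_union] at h1
  -- columns
  have h2 := pAvoid_family_ge B (fun j => colStar j (DB j)) (2 * a0) ha0
    (by
      intro i _ j _ hij
      rw [Finset.disjoint_left]
      intro e h1 h2
      rw [mem_colStar] at h1 h2
      exact hij (h1.1.symm.trans h2.1)) R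
    (by
      intro j hj
      rw [Finset.disjoint_left]
      intro e h1 h2
      rw [hmR] at h1
      rw [mem_colStar] at h2
      exact hDBnot _ _ h2.2 h1.1)
    (by
      intro j hj e he
      rw [mem_colStar] at he
      have hsub : ∀ f ∈ R ∪ (B.erase j).biUnion (fun j => colStar j (DB j)),
          (f ∈ R ∨ f ∈ (B.erase j).biUnion (fun j => colStar j (DB j))) := fun f hf =>
        mem_union.1 hf
      have h3 : rowDeg (R ∪ (B.erase j).biUnion (fun j => colStar j (DB j))) e.1 ≤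
          rowDeg ((B.erase j).biUnion (fun j => colStar j (DB j))) e.1 := by
        unfold rowDeg
        apply card_le_card
        intro f hf
        rw [mem_filter] at hf ⊢
        refine ⟨?_, hf.2⟩
        rcases mem_union.1 hf.1 with h | h
        · exfalso
          rw [hmR] at h
          rw [hf.2] at h
          exact hDBnot _ _ he.2 h.1
        · exact h
      have h4 := rowDeg_cols_le (B.erase j) DB e.1
      have h5 : (B.erase j).card ≤ B.card := card_le_card (erase_subset _ _)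
      have h6 : colDeg (R ∪ (B.erase j).biUnion (fun j => colStar j (DB j))) e.2 = 0 := by
        unfold colDeg
        rw [card_eq_zero, filter_eq_empty_iff]
        intro f hf hf2
        rcases mem_union.1 hf with h | h
        · rw [hmR] at h
          rw [hf2, he.1] at h
          exact hDAnot _ _ h.2 hj
        · simp only [mem_biUnion, mem_colStar, mem_erase] at h
          obtain ⟨k, ⟨hk1, _⟩, hk3, _⟩ := h
          apply hk1
          rw [← hk3, hf2, he.1]
      omega)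
  -- light pairs
  have hsubP : R ∪ C ∪ F ⊆ pairs a b := by
    intro e he
    have : ∃ s, a s = e.1 ∧ b s = e.2 := by
      rcases mem_union.1 he with h | h
      · rcases mem_union.1 h with h | h
        · rw [hmR] at h
          obtain ⟨s, _, h2, h3, _⟩ := mem_swept.1 h.2
          exact ⟨s, h2, h3⟩
        · rw [hmC] at h
          obtain ⟨s, _, h2, h3, _⟩ := mem_swept.1 h.2
          exact ⟨s, h3, h2⟩
      · obtain ⟨s, _, h2, h3, _⟩ := mem_tourPairs.1 h
        exact ⟨s, h2, h3⟩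
    obtain ⟨s, h1, h2⟩ := this
    exact mem_image.2 ⟨s, mem_univ _, Prod.ext h1 h2⟩
  have hd3 : Disjoint (R ∪ C) F := by
    rw [Finset.disjoint_left]
    intro e h1 h2
    obtain ⟨s, _, _, _, h3, h4⟩ := mem_tourPairs.1 h2
    rcases mem_union.1 h1 with h | h
    · exact h3 ((hmR e).1 h).1
    · exact h4 ((hmC e).1 h).1
  have h3 := pAvoid_seq (R ∪ C) (2 * h) (by omega) F hd3 (by
    intro e he
    obtain ⟨s, _, _, _, h3, h4⟩ := mem_tourPairs.1 he
    have h5 : useCount a e.1 ≤ h := by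
      by_contra hcon
      exact h3 (by rw [hAdef, heavy, mem_filter]; exact ⟨mem_univ _, by omega⟩)
    have h6 : useCount b e.2 ≤ h := by
      by_contra hcon
      exact h4 (by rw [hBdef, heavy, mem_filter]; exact ⟨mem_univ _, by omega⟩)
    have h7 := (rowDeg_mono hsubP e.1).trans (rowDeg_pairs_le a b e.1)
    have h8 := (colDeg_mono hsubP e.2).trans (colDeg_pairs_le a b e.2)
    omega)
  -- heavy pairs
  have h4 := pAvoid_few hn (R ∪ C ∪ F) (A ×ˢ B)
  have hsub2 : pairsT t a b ⊆ R ∪ C ∪ F ∪ A ×ˢ B := by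
    intro e he
    obtain ⟨s, hs, h1, h2⟩ := mem_pairsT.1 he
    by_cases hA' : e.1 ∈ A
    · by_cases hB' : e.2 ∈ B
      · exact mem_union_right _ (mem_product.2 ⟨hA', hB'⟩)
      · apply mem_union_left; apply mem_union_left; apply mem_union_left
        rw [hmR]
        exact ⟨hA', mem_swept.2 ⟨s, hs, h1, h2, hB'⟩⟩
    · by_cases hB' : e.2 ∈ B
      · apply mem_union_left; apply mem_union_left; apply mem_union_right
        rw [hmC]
        exact ⟨hB', mem_swept.2 ⟨s, hs, h2, h1, hA'⟩⟩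
      · apply mem_union_left; apply mem_union_right
        exact mem_tourPairs.2 ⟨s, hs, h1, h2, hA', hB'⟩
  have h5 := pAvoid_anti hsub2
  have hn0 : (0 : ℝ) < n := by exact_mod_cast hn
  have h6 : ((A ×ˢ B).card : ℝ) / n ≤ (a0 : ℝ) * a0 / n := by
    apply div_le_div_of_nonneg_right _ hn0.le
    rw [card_product]
    exact_mod_cast Nat.mul_le_mul hAc hBc
  simp only [rowStar_card] at h1
  simp only [colStar_card] at h2
  have hP2 : 0 ≤ ∏ j ∈ B, max 0 (1 - ((DB j).card : ℝ) / ((n : ℝ) - (2 * a0 : ℕ))) :=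
    Finset.prod_nonneg fun _ _ => le_max_left _ _
  have hq : 0 ≤ 1 - 1 / ((n : ℝ) - (2 * h : ℕ)) := by
    have : (1 : ℝ) ≤ (n : ℝ) - (2 * h : ℕ) := by
      have : ((2 * h : ℕ) : ℝ) + 1 ≤ n := by exact_mod_cast hh
      linarith
    rw [sub_nonneg, div_le_one (by linarith)]
    exact this
  have h7 : (∏ i ∈ A, max 0 (1 - ((DA i).card : ℝ) / ((n : ℝ) - (2 * a0 : ℕ)))) *
      (∏ j ∈ B, max 0 (1 - ((DB j).card : ℝ) / ((n : ℝ) - (2 * a0 : ℕ)))) *
      (1 - 1 / ((n : ℝ) - (2 * h : ℕ))) ^ F.card ≤ pAvoid (R ∪ C ∪ F) :=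
    calc _ ≤ pAvoid R * (∏ j ∈ B, max 0 (1 - ((DB j).card : ℝ) / ((n : ℝ) - (2 * a0 : ℕ)))) *
          (1 - 1 / ((n : ℝ) - (2 * h : ℕ))) ^ F.card :=
          mul_le_mul_of_nonneg_right (mul_le_mul_of_nonneg_right h1 hP2) (pow_nonneg hq _)
      _ ≤ pAvoid (R ∪ C) * (1 - 1 / ((n : ℝ) - (2 * h : ℕ))) ^ F.card :=
          mul_le_mul_of_nonneg_right h2 (pow_nonneg hq _)
      _ ≤ _ := h3
  have h8 : pAvoid (R ∪ C ∪ F) ≤ pAvoid (pairsT t a b) + (a0 : ℝ) * a0 / n := by
    calc _ ≤ pAvoid (R ∪ C ∪ F ∪ A ×ˢ B) + ((A ×ˢ B).card : ℝ) / n := h4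
      _ ≤ _ := add_le_add h5 h6
  exact h7.trans h8

end Pool.Agent.Lib.MP92dd55
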