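import Mathlib

/-! # Elementary inequalities for products -/

namespace Pool.Agent.Lib.MP92dd55

open Finset Real

lemma mul_le_add {x y x' y' ε ε' : ℝ} (hx'0 : 0 ≤ x') (hx'1 : x' ≤ 1) (hy0 : 0 ≤ y)
    (hy1 : y ≤ 1) (hε : 0 ≤ ε) (hε' : 0 ≤ ε') (h : x ≤ y + ε) (h' : x' ≤ y' + ε') :
    x * x' ≤ y * y' + (ε + ε') := by
  have h1 : x * x' ≤ (y + ε) * x' := mul_le_mul_of_nonneg_right h hx'0
  have h2 : ε * x' ≤ ε := mul_le_of_le_one_right hε hx'1
  have h3 : y * x' ≤ y * (y' + ε') := mul_le_mul_of_nonneg_left h' hy0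
  have h4 : y * ε' ≤ ε' := mul_le_of_le_one_left hε' hy1
  nlinarith

lemma prod_le_add {ι : Type} [DecidableEq ι] (I : Finset ι) (x y : ι → ℝ) (ε : ℝ) (hε : 0 ≤ ε)
    (hx0 : ∀ i ∈ I, 0 ≤ x i) (hx1 : ∀ i ∈ I, x i ≤ 1) (hy0 : ∀ i ∈ I, 0 ≤ y i)
    (hy1 : ∀ i ∈ I, y i ≤ 1) (h : ∀ i ∈ I, x i ≤ y i + ε) :
    ∏ i ∈ I, x i ≤ ∏ i ∈ I, y i + I.card * ε := by
  induction I using Finset.induction_on with
  | empty => simp
  | insert i I hi ih =>
    have hih := ih (fun j hj => hx0 j (mem_insert_of_mem hj)) (fun j hj => hx1 j (mem_insert_of_mem hj))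
      (fun j hj => hy0 j (mem_insert_of_mem hj)) (fun j hj => hy1 j (mem_insert_of_mem hj))
      (fun j hj => h j (mem_insert_of_mem hj))
    rw [prod_insert hi, prod_insert hi, card_insert_of_notMem hi]
    have h1 := mul_le_add (x := x i) (y := y i) (x' := ∏ j ∈ I, x j) (y' := ∏ j ∈ I, y j)
      (ε := ε) (ε' := I.card * ε)
      (prod_nonneg fun j hj => hx0 j (mem_insert_of_mem hj))
      (prod_le_one (fun j hj => hx0 j (mem_insert_of_mem hj))
        (fun j hj => hx1 j (mem_insert_of_mem hj)))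
      (hy0 i (mem_insert_self _ _)) (hy1 i (mem_insert_self _ _)) hε (by positivity)
      (h i (mem_insert_self _ _)) hih
    push_cast
    linarith

lemma exp_neg_sub_le {x y : ℝ} (hx : 0 ≤ x) (hxy : x ≤ y) : exp (-x) ≤ exp (-y) + (y - x) := by
  have h1 : 1 - (y - x) ≤ exp (-(y - x)) := by
    have := Real.add_one_le_exp (-(y - x))
    linarith
  have h2 : exp (-y) = exp (-x) * exp (-(y - x)) := by
    rw [← exp_add]; congr 1; ring
  have h3 : exp (-x) ≤ 1 := by rw [exp_le_one_iff]; linarith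
  have h4 : 0 < exp (-x) := exp_pos _
  rw [h2]
  nlinarith [mul_le_mul_of_nonneg_left h1 h4.le]

lemma exp_le_one_sub_pow (m : ℝ) (hm : 1 < m) (k : ℕ) :
    exp (-(k / (m - 1))) ≤ (1 - 1 / m) ^ k := by
  have h0 : (0 : ℝ) < m - 1 := by linarith
  have h1 : exp (-(1 / (m - 1))) ≤ 1 - 1 / m := by
    rw [exp_neg]
    have h2 : 1 + 1 / (m - 1) ≤ exp (1 / (m - 1)) := by
      have := Real.add_one_le_exp (1 / (m - 1)); linarith
    have h3 : 1 - 1 / m = (1 + 1 / (m - 1))⁻¹ := by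
      have : m ≠ 0 := by linarith
      field_simp
      ring
    rw [h3]
    apply inv_anti₀ _ h2
    positivity
  have h4 : exp (-(k / (m - 1))) = exp (-(1 / (m - 1))) ^ k := by
    rw [← exp_nat_mul]; congr 1; ring
  rw [h4]
  exact pow_le_pow_left₀ (exp_pos _).le h1 k

lemma one_sub_pow_le_exp (m : ℝ) (hm : 1 ≤ m) (k : ℕ) :
    (1 - 1 / m) ^ k ≤ exp (-(k / m)) := by
  have h1 : 1 - 1 / m ≤ exp (-(1 / m)) := by
    have := Real.add_one_le_exp (-(1 / m)); linarith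
  have h0 : 0 ≤ 1 - 1 / m := by
    rw [sub_nonneg, div_le_one (by linarith)]; exact hm
  have h4 : exp (-(k / m)) = exp (-(1 / m)) ^ k := by
    rw [← exp_nat_mul]; congr 1; ring
  rw [h4]
  exact pow_le_pow_left₀ h0 h1 k

end Pool.Agent.Lib.MP92dd55
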