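import Mathlib
import Pool.Agent.Lib.MP92dd55.LimLower
import Pool.Agent.Lib.MP92dd55.LimNum

/-! # `survival` is at most the probability of not having met, up to a small error -/

namespace Pool.Agent.Lib.MP92dd55

open Finset Real

variable {n N : ℕ}

lemma swept_card_le (t : ℕ) (a b : Fin N → Fin n) (B : Finset (Fin n)) (i : Fin n) :
    (swept t a b B i).card ≤ n := by
  have := card_le_univ (swept t a b B i)
  rwa [Fintype.card_fin] at this

lemma tourPairs_card_le (t : ℕ) (a b : Fin N → Fin n) (A B : Finset (Fin n)) :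
    (tourPairs t a b A B).card ≤ N := by
  unfold tourPairs
  refine card_image_le.trans ((card_le_univ _).trans ?_)
  rw [Fintype.card_fin]

/-- the error -/
noncomputable def del (n N h a0 : ℕ) : ℝ :=
  2 * a0 * ((2 * a0 : ℕ) / ((n : ℝ) - (2 * a0 : ℕ))) +
    N * (2 * h + 1) / (n * ((n : ℝ) - (2 * h : ℕ) - 1)) + (a0 : ℝ) * a0 / n

lemma factor_le (c d : ℝ) (n : ℝ) (hc0 : 0 ≤ c) (hcn : c ≤ n) (hd : 0 ≤ d) (hdn : d < n) :
    1 - c / n ≤ max 0 (1 - c / (n - d)) + d / (n - d) := by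
  have hn : 0 < n := by linarith
  have h1 : 0 < n - d := by linarith
  have h2 : 1 - c / n ≤ 1 - c / (n - d) + d / (n - d) := by
    have h3 : c / (n - d) - c / n = c * d / (n * (n - d)) := by
      field_simp
      ring
    have h4 : c * d / (n * (n - d)) ≤ n * d / (n * (n - d)) := by
      apply div_le_div_of_nonneg_right _ (by positivity)
      exact mul_le_mul_of_nonneg_right hcn hd
    have h5 : n * d / (n * (n - d)) = d / (n - d) := by
      field_simp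
    linarith
  have h3 := le_max_right 0 (1 - c / (n - d))
  linarith

theorem survival_le (a b : Fin N → Fin n) (h a0 t : ℕ) (hA : N ≤ a0 * (h + 1)) (ha0 : 2 * a0 < n)
    (hh : 2 * h + 1 < n) :
    survival t a b (heavy h a) (heavy h b) ≤ pAvoid (pairsT t a b) + del n N h a0 := by
  classical
  have hn : 0 < n := by omega
  have hn0 : (0 : ℝ) < n := by exact_mod_cast hn
  have hcore := lower_core a b h a0 t hA ha0 hh.le
  have hAc : (heavy h a).card ≤ a0 := heavy_card_le h a0 a hA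
  have hBc : (heavy h b).card ≤ a0 := heavy_card_le h a0 b hA
  set A := heavy h a with hAdef
  set B := heavy h b with hBdef
  have hd : ((2 * a0 : ℕ) : ℝ) < n := by exact_mod_cast ha0
  have hd0 : (0 : ℝ) ≤ ((2 * a0 : ℕ) : ℝ) := Nat.cast_nonneg _
  have hnd : 0 < (n : ℝ) - (2 * a0 : ℕ) := by linarith
  set ε := ((2 * a0 : ℕ) : ℝ) / ((n : ℝ) - (2 * a0 : ℕ)) with hε
  have hε0 : 0 ≤ ε := div_nonneg hd0 hnd.le
  have hfac : ∀ c : ℕ, c ≤ n → (1 - (c : ℝ) / n) ≤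
      max 0 (1 - (c : ℝ) / ((n : ℝ) - (2 * a0 : ℕ))) + ε := fun c hc =>
    factor_le c _ n (Nat.cast_nonneg _) (by exact_mod_cast hc) hd0 hd
  have hf0 : ∀ c : ℕ, c ≤ n → 0 ≤ 1 - (c : ℝ) / n := fun c hc => by
    rw [sub_nonneg, div_le_one hn0]; exact_mod_cast hc
  have hf1 : ∀ c : ℕ, 1 - (c : ℝ) / n ≤ 1 := fun c => by
    have : 0 ≤ (c : ℝ) / n := by positivity
    linarith
  have hg1 : ∀ c : ℕ, max 0 (1 - (c : ℝ) / ((n : ℝ) - (2 * a0 : ℕ))) ≤ 1 := fun c => by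
    apply max_le zero_le_one
    have : 0 ≤ (c : ℝ) / ((n : ℝ) - (2 * a0 : ℕ)) := div_nonneg (Nat.cast_nonneg _) hnd.le
    linarith
  have hP1 := prod_le_add A (fun i => 1 - ((swept t a b B i).card : ℝ) / n)
    (fun i => max 0 (1 - ((swept t a b B i).card : ℝ) / ((n : ℝ) - (2 * a0 : ℕ)))) ε hε0
    (fun i _ => hf0 _ (swept_card_le _ _ _ _ _)) (fun i _ => hf1 _) (fun i _ => le_max_left _ _)
    (fun i _ => hg1 _) (fun i _ => hfac _ (swept_card_le _ _ _ _ _))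
  have hP2 := prod_le_add B (fun j => 1 - ((swept t b a A j).card : ℝ) / n)
    (fun j => max 0 (1 - ((swept t b a A j).card : ℝ) / ((n : ℝ) - (2 * a0 : ℕ)))) ε hε0
    (fun i _ => hf0 _ (swept_card_le _ _ _ _ _)) (fun i _ => hf1 _) (fun i _ => le_max_left _ _)
    (fun i _ => hg1 _) (fun i _ => hfac _ (swept_card_le _ _ _ _ _))
  set X1 := ∏ i ∈ A, (1 - ((swept t a b B i).card : ℝ) / n)
  set X2 := ∏ j ∈ B, (1 - ((swept t b a A j).card : ℝ) / n)
  set Y1 := ∏ i ∈ A, max 0 (1 - ((swept t a b B i).card : ℝ) / ((n : ℝ) - (2 * a0 : ℕ)))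
  set Y2 := ∏ j ∈ B, max 0 (1 - ((swept t b a A j).card : ℝ) / ((n : ℝ) - (2 * a0 : ℕ)))
  set ℓ := (tourPairs t a b A B).card with hℓ
  have hm : 1 < (n : ℝ) - (2 * h : ℕ) := by
    have : ((2 * h : ℕ) : ℝ) + 1 < n := by exact_mod_cast hh
    linarith
  have hE1 := exp_le_one_sub_pow ((n : ℝ) - (2 * h : ℕ)) hm ℓ
  have hm0 : 0 < (n : ℝ) - (2 * h : ℕ) - 1 := by linarith
  have hle : (ℓ : ℝ) / n ≤ ℓ / ((n : ℝ) - (2 * h : ℕ) - 1) := by
    apply div_le_div_of_nonneg_left (Nat.cast_nonneg _) hm0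
    have : (0 : ℝ) ≤ ((2 * h : ℕ) : ℝ) := Nat.cast_nonneg _
    linarith
  have hE2 := exp_neg_sub_le (by positivity : (0 : ℝ) ≤ (ℓ : ℝ) / n) hle
  have hE3 : (ℓ : ℝ) / ((n : ℝ) - (2 * h : ℕ) - 1) - ℓ / n ≤
      N * (2 * h + 1) / (n * ((n : ℝ) - (2 * h : ℕ) - 1)) := by
    have h1 : (ℓ : ℝ) / ((n : ℝ) - (2 * h : ℕ) - 1) - ℓ / n =
        ℓ * (2 * h + 1) / (n * ((n : ℝ) - (2 * h : ℕ) - 1)) := by
      push_cast
      push_cast at hm0
      field_simp
      ring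
    rw [h1]
    apply div_le_div_of_nonneg_right _ (by positivity)
    have : (ℓ : ℝ) ≤ N := by exact_mod_cast tourPairs_card_le _ _ _ _ _
    gcongr
  set ε3 := N * (2 * h + 1) / (n * ((n : ℝ) - (2 * h : ℕ) - 1)) with hε3
  have hε30 : 0 ≤ ε3 := by positivity
  have hE4 : exp (-((ℓ : ℝ) / n)) ≤ (1 - 1 / ((n : ℝ) - (2 * h : ℕ))) ^ ℓ + ε3 := by linarith
  have hX20 : 0 ≤ X2 := prod_nonneg fun j _ => hf0 _ (swept_card_le _ _ _ _ _)
  have hX21 : X2 ≤ 1 := prod_le_one (fun j _ => hf0 _ (swept_card_le _ _ _ _ _)) fun j _ => hf1 _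
  have hY10 : 0 ≤ Y1 := prod_nonneg fun j _ => le_max_left _ _
  have hY11 : Y1 ≤ 1 := prod_le_one (fun j _ => le_max_left _ _) fun j _ => hg1 _
  have hY20 : 0 ≤ Y2 := prod_nonneg fun j _ => le_max_left _ _
  have hY21 : Y2 ≤ 1 := prod_le_one (fun j _ => le_max_left _ _) fun j _ => hg1 _
  have h12 := mul_le_add hX20 hX21 hY10 hY11 (by positivity : 0 ≤ (A.card : ℝ) * ε)
    (by positivity : 0 ≤ (B.card : ℝ) * ε) hP1 hP2
  have he1 : exp (-((ℓ : ℝ) / n)) ≤ 1 := by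
    rw [exp_le_one_iff]
    have : 0 ≤ (ℓ : ℝ) / n := by positivity
    linarith
  have h123 := mul_le_add (exp_pos _).le he1 (mul_nonneg hY10 hY20)
    (mul_le_one₀ hY11 hY20 hY21) (by positivity) hε30 h12 hE4
  have hs : survival t a b A B = X1 * X2 * exp (-((ℓ : ℝ) / n)) := rfl
  rw [hs]
  have hAε : (A.card : ℝ) * ε ≤ a0 * ε := by
    apply mul_le_mul_of_nonneg_right _ hε0; exact_mod_cast hAc
  have hBε : (B.card : ℝ) * ε ≤ a0 * ε := by
    apply mul_le_mul_of_nonneg_right _ hε0; exact_mod_cast hBc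
  have hdel : del n N h a0 = 2 * a0 * ε + ε3 + (a0 : ℝ) * a0 / n := rfl
  rw [hdel]
  have h9 : Y1 * Y2 * (1 - 1 / ((n : ℝ) - (2 * h : ℕ))) ^ ℓ ≤ pAvoid (pairsT t a b) +
    (a0 : ℝ) * a0 / n := hcore
  linarith

end Pool.Agent.Lib.MP92dd55
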