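import Mathlib
import Pool.Agent.Lib.MP92dd55.Game

/-! # A polynomial minorant of the limiting value `V` on `[0, 1.46]` -/

namespace Pool.Agent.Lib.MP92dd55

open Real

lemma nonneg_of_deriv (f f' : ℝ → ℝ) (h : ∀ x, HasDerivAt f (f' x) x) (h0 : f 0 = 0)
    (hp : ∀ x, 0 ≤ x → 0 ≤ f' x) : ∀ x, 0 ≤ x → 0 ≤ f x := by
  intro x hx
  have hm : MonotoneOn f (Set.Ici 0) := by
    apply monotoneOn_of_deriv_nonneg (convex_Ici 0)
    · intro y _; exact (h y).continuousAt.continuousWithinAt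
    · intro y _; exact (h y).differentiableAt.differentiableWithinAt
    · intro y hy
      rw [interior_Ici] at hy
      rw [(h y).deriv]; exact hp y (le_of_lt hy)
  have := hm Set.self_mem_Ici hx hx
  rwa [h0] at this

lemma hasDerivAt_exp_neg' (x : ℝ) : HasDerivAt (fun z : ℝ => exp (-z)) (-exp (-x)) x := by
  simpa using (hasDerivAt_id x).neg.exp

lemma taylor7 (x : ℝ) (hx : 0 ≤ x) :
    1 - x + x ^ 2 / 2 - x ^ 3 / 6 + x ^ 4 / 24 - x ^ 5 / 120 + x ^ 6 / 720 - x ^ 7 / 5040 ≤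
      exp (-x) := by
  have hpow : ∀ (k : ℕ) (x : ℝ), HasDerivAt (fun z : ℝ => z ^ (k + 1)) ((k + 1 : ℕ) * x ^ k) x := by
    intro k x; simpa using hasDerivAt_pow (k + 1) x
  have g1 : ∀ x : ℝ, 0 ≤ x → 0 ≤ exp (-x) - (1 - x) := by
    intro x _; have := add_one_le_exp (-x); linarith
  have g2 : ∀ x : ℝ, 0 ≤ x → 0 ≤ (1 - x + x ^ 2 / 2) - exp (-x) := by
    apply nonneg_of_deriv _ (fun x => exp (-x) - (1 - x)) _ (by simp) g1
    intro x
    have h2 := (hpow 1 x).div_const 2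
    have h := (((hasDerivAt_id x).const_sub 1).add h2).sub (hasDerivAt_exp_neg' x)
    refine h.congr_deriv ?_
    push_cast; ring
  have g3 : ∀ x : ℝ, 0 ≤ x → 0 ≤ exp (-x) - (1 - x + x ^ 2 / 2 - x ^ 3 / 6) := by
    apply nonneg_of_deriv _ (fun x => (1 - x + x ^ 2 / 2) - exp (-x)) _ (by simp) g2
    intro x
    have h2 := (hpow 1 x).div_const 2
    have h3 := (hpow 2 x).div_const 6
    have h := (hasDerivAt_exp_neg' x).sub ((((hasDerivAt_id x).const_sub 1).add h2).sub h3)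
    refine h.congr_deriv ?_
    push_cast; ring
  have g4 : ∀ x : ℝ, 0 ≤ x → 0 ≤ (1 - x + x ^ 2 / 2 - x ^ 3 / 6 + x ^ 4 / 24) - exp (-x) := by
    apply nonneg_of_deriv _ (fun x => exp (-x) - (1 - x + x ^ 2 / 2 - x ^ 3 / 6)) _ (by simp) g3
    intro x
    have h2 := (hpow 1 x).div_const 2
    have h3 := (hpow 2 x).div_const 6
    have h4 := (hpow 3 x).div_const 24
    have h := (((((hasDerivAt_id x).const_sub 1).add h2).sub h3).add h4).sub
      (hasDerivAt_exp_neg' x)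
    refine h.congr_deriv ?_
    push_cast; ring
  have g5 : ∀ x : ℝ, 0 ≤ x →
      0 ≤ exp (-x) - (1 - x + x ^ 2 / 2 - x ^ 3 / 6 + x ^ 4 / 24 - x ^ 5 / 120) := by
    apply nonneg_of_deriv _
      (fun x => (1 - x + x ^ 2 / 2 - x ^ 3 / 6 + x ^ 4 / 24) - exp (-x)) _ (by simp) g4
    intro x
    have h2 := (hpow 1 x).div_const 2
    have h3 := (hpow 2 x).div_const 6
    have h4 := (hpow 3 x).div_const 24
    have h5 := (hpow 4 x).div_const 120
    have h := (hasDerivAt_exp_neg' x).sub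
      ((((((hasDerivAt_id x).const_sub 1).add h2).sub h3).add h4).sub h5)
    refine h.congr_deriv ?_
    push_cast; ring
  have g6 : ∀ x : ℝ, 0 ≤ x →
      0 ≤ (1 - x + x ^ 2 / 2 - x ^ 3 / 6 + x ^ 4 / 24 - x ^ 5 / 120 + x ^ 6 / 720) - exp (-x) := by
    apply nonneg_of_deriv _
      (fun x => exp (-x) - (1 - x + x ^ 2 / 2 - x ^ 3 / 6 + x ^ 4 / 24 - x ^ 5 / 120))
      _ (by simp) g5
    intro x
    have h2 := (hpow 1 x).div_const 2
    have h3 := (hpow 2 x).div_const 6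
    have h4 := (hpow 3 x).div_const 24
    have h5 := (hpow 4 x).div_const 120
    have h6 := (hpow 5 x).div_const 720
    have h := (((((((hasDerivAt_id x).const_sub 1).add h2).sub h3).add h4).sub h5).add h6).sub
      (hasDerivAt_exp_neg' x)
    refine h.congr_deriv ?_
    push_cast; ring
  have g7 : ∀ x : ℝ, 0 ≤ x →
      0 ≤ exp (-x) - (1 - x + x ^ 2 / 2 - x ^ 3 / 6 + x ^ 4 / 24 - x ^ 5 / 120 + x ^ 6 / 720 -
        x ^ 7 / 5040) := by
    apply nonneg_of_deriv _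
      (fun x => (1 - x + x ^ 2 / 2 - x ^ 3 / 6 + x ^ 4 / 24 - x ^ 5 / 120 + x ^ 6 / 720) -
        exp (-x)) _ (by simp) g6
    intro x
    have h2 := (hpow 1 x).div_const 2
    have h3 := (hpow 2 x).div_const 6
    have h4 := (hpow 3 x).div_const 24
    have h5 := (hpow 4 x).div_const 120
    have h6 := (hpow 5 x).div_const 720
    have h7 := (hpow 6 x).div_const 5040
    have h := (hasDerivAt_exp_neg' x).sub
      ((((((((hasDerivAt_id x).const_sub 1).add h2).sub h3).add h4).sub h5).add h6).sub h7)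
    refine h.congr_deriv ?_
    push_cast; ring
  have := g7 x hx
  linarith

/-- the polynomial `w`, an upper bound for `τ / D(τ)` -/
noncomputable def wpol (x : ℝ) : ℝ :=
  1 - 1221 / 2500 * x + 691 / 2000 * x ^ 2 - 1577 / 10000 * x ^ 3 + 323 / 10000 * x ^ 4

/-- polynomial minorant of `V` -/
noncomputable def Wpol (x : ℝ) : ℝ := 1 - x * wpol x

/-- antiderivative of `Wpol` -/
noncomputable def Ipol (x : ℝ) : ℝ :=
  x - x ^ 2 / 2 + 1221 / 7500 * x ^ 3 - 691 / 8000 * x ^ 4 + 1577 / 50000 * x ^ 5 -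
    323 / 60000 * x ^ 6

lemma Ipol_deriv (x : ℝ) : HasDerivAt Ipol (Wpol x) x := by
  have hpow : ∀ (k : ℕ) (x : ℝ), HasDerivAt (fun z : ℝ => z ^ (k + 1)) ((k + 1 : ℕ) * x ^ k) x := by
    intro k x; simpa using hasDerivAt_pow (k + 1) x
  unfold Ipol Wpol wpol
  have h := ((((((hasDerivAt_id x).sub ((hpow 1 x).div_const 2)).add
    ((hpow 2 x).const_mul (1221 / 7500))).sub ((hpow 3 x).const_mul (691 / 8000))).add
    ((hpow 4 x).const_mul (1577 / 50000))).sub ((hpow 5 x).const_mul (323 / 60000)))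
  refine h.congr_deriv ?_
  push_cast; ring

lemma r_pos (x : ℝ) (h0 : 0 ≤ x) (h1 : x ≤ 73 / 50) :
    0 ≤ (29/2500) + (-1961/30000)*x + (8287/60000)*x^2 + (-7969/60000)*x^3 +
      (224237/3600000)*x^4 + (-197947/12600000)*x^5 + (163133/50400000)*x^6 +
      (-1403/2520000)*x^7 + (1919/25200000)*x^8 + (-323/50400000)*x^9 := by
  rcases le_total x (1 / 2) with h | h
  · have hu : 0 ≤ x - 0 := by linarith
    have hv : 0 ≤ 1 / 2 - x := by linarith
    have : (29/2500) + (-1961/30000)*x + (8287/60000)*x^2 + (-7969/60000)*x^3 +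
      (224237/3600000)*x^4 + (-197947/12600000)*x^5 + (163133/50400000)*x^6 +
      (-1403/2520000)*x^7 + (1919/25200000)*x^8 + (-323/50400000)*x^9 =
      (3712/625) * (x - 0)^0 * (1/2 - x)^9 + (68848/1875) * (x - 0)^1 * (1/2 - x)^8 + (61012/625) * (x - 0)^2 * (1/2 - x)^7 + (90998/625) * (x - 0)^3 * (1/2 - x)^6 + (15017837/112500) * (x - 0)^4 * (1/2 - x)^5 + (5114939/65625) * (x - 0)^5 * (1/2 - x)^4 + (185889229/6300000) * (x - 0)^6 * (1/2 - x)^3 + (6764399/900000) * (x - 0)^7 * (1/2 - x)^2 + (5740663/4200000) * (x - 0)^8 * (1/2 - x)^1 + (1508669/10080000) * (x - 0)^9 * (1/2 - x)^0 := by ring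
    rw [this]
    positivity
  · have hu : 0 ≤ x - 1 / 2 := by linarith
    have hv : 0 ≤ 73 / 50 - x := by linarith
    have : (29/2500) + (-1961/30000)*x + (8287/60000)*x^2 + (-7969/60000)*x^3 +
      (224237/3600000)*x^4 + (-197947/12600000)*x^5 + (163133/50400000)*x^6 +
      (-1403/2520000)*x^7 + (1919/25200000)*x^8 + (-323/50400000)*x^9 =
      (9208184814453125/21814820868471128064) * (x - 1/2)^0 * (73/50 - x)^9 + (994258642578125/269318776153964544) * (x - 1/2)^1 * (73/50 - x)^8 + (7032120083984375/201989082115473408) * (x - 1/2)^2 * (73/50 - x)^7 + (225468302904921875/1817901739039260672) * (x - 1/2)^3 * (73/50 - x)^6 + (83668584244990625/403978164230946816) * (x - 1/2)^4 * (73/50 - x)^5 + (24034839950598875/134659388076982272) * (x - 1/2)^5 * (73/50 - x)^4 + (142019616546284675/1817901739039260672) * (x - 1/2)^6 * (73/50 - x)^3 + (3385309979547847/201989082115473408) * (x - 1/2)^7 * (73/50 - x)^2 + (54560423535947501/14427791579676672000)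 * (x - 1/2)^8 * (73/50 - x)^1 + (87373506436078683001/68171315213972275200000) * (x - 1/2)^9 * (73/50 - x)^0 := by ring
    rw [this]
    positivity

lemma wpol_pos (x : ℝ) (h0 : 0 ≤ x) (h1 : x ≤ 73 / 50) : 0 < wpol x := by
  unfold wpol
  have h2 : 0 ≤ 73 / 50 - x := by linarith
  nlinarith [mul_nonneg h0 h2, mul_nonneg (mul_nonneg h0 h2) h0, pow_nonneg h0 3,
    mul_nonneg (pow_nonneg h0 3) h2, sq_nonneg (x - 1), sq_nonneg (x ^ 2 - x), pow_nonneg h0 4]

lemma D_ge (x : ℝ) (h0 : 0 ≤ x) :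
    x * (1 + x / 2 - x ^ 2 / 6 + x ^ 3 / 24 - x ^ 4 / 120 + x ^ 5 / 720 - x ^ 6 / 5040) ≤
      exp (-x) - 1 + 2 * x := by
  have := taylor7 x h0
  nlinarith

lemma Wpol_le_V (x : ℝ) (h0 : 0 < x) (h1 : x ≤ 73 / 50) : Wpol x ≤ V x := by
  unfold V Wpol
  have hD : 0 < exp (-x) - 1 + 2 * x := by
    have := add_one_le_exp (-x); linarith
  have hw := wpol_pos x h0.le h1
  have hr := r_pos x h0.le h1
  have hDge := D_ge x h0.le
  suffices h : x ^ 2 / (exp (-x) - 1 + 2 * x) ≤ x * wpol x by linarith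
  rw [div_le_iff₀ hD]
  have h2 : x * wpol x * (x * (1 + x / 2 - x ^ 2 / 6 + x ^ 3 / 24 - x ^ 4 / 120 + x ^ 5 / 720 -
      x ^ 6 / 5040)) ≤ x * wpol x * (exp (-x) - 1 + 2 * x) := by
    gcongr
  refine le_trans ?_ h2
  have h3 : x * wpol x * (x * (1 + x / 2 - x ^ 2 / 6 + x ^ 3 / 24 - x ^ 4 / 120 + x ^ 5 / 720 -
      x ^ 6 / 5040)) = x ^ 2 + x ^ 3 * ((29/2500) + (-1961/30000)*x + (8287/60000)*x^2 +
      (-7969/60000)*x^3 + (224237/3600000)*x^4 + (-197947/12600000)*x^5 +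
      (163133/50400000)*x^6 + (-1403/2520000)*x^7 + (1919/25200000)*x^8 +
      (-323/50400000)*x^9) := by
    unfold wpol; ring
  rw [h3]
  have : 0 ≤ x ^ 3 := by positivity
  nlinarith [mul_nonneg this hr]

lemma Wpol_antitone : AntitoneOn Wpol (Set.Icc 0 (73 / 50)) := by
  have hd : ∀ x : ℝ, HasDerivAt Wpol
      (-(1 - 1221 / 1250 * x + 2073 / 2000 * x ^ 2 - 1577 / 2500 * x ^ 3 + 323 / 2000 * x ^ 4)) x := by
    intro x
    have hpow : ∀ (k : ℕ) (x : ℝ), HasDerivAt (fun z : ℝ => z ^ (k + 1)) ((k + 1 : ℕ) * x ^ k) x := by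
      intro k x; simpa using hasDerivAt_pow (k + 1) x
    have hW : Wpol = fun x => 1 - (x - 1221 / 2500 * x ^ 2 + 691 / 2000 * x ^ 3 -
        1577 / 10000 * x ^ 4 + 323 / 10000 * x ^ 5) := by
      funext x; unfold Wpol wpol; ring
    rw [hW]
    have h := ((((((hasDerivAt_id x).sub ((hpow 1 x).const_mul (1221 / 2500))).add
      ((hpow 2 x).const_mul (691 / 2000))).sub ((hpow 3 x).const_mul (1577 / 10000))).add
      ((hpow 4 x).const_mul (323 / 10000))).const_sub 1)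
    refine h.congr_deriv ?_
    push_cast; ring
  apply antitoneOn_of_deriv_nonpos (convex_Icc _ _)
  · intro x _; exact (hd x).continuousAt.continuousWithinAt
  · intro x _; exact (hd x).differentiableAt.differentiableWithinAt
  · intro x hx
    rw [interior_Icc] at hx
    rw [(hd x).deriv]
    have h0 : 0 ≤ x := hx.1.le
    have h2 : 0 ≤ 73 / 50 - x := by linarith [hx.2]
    have : 0 ≤ 1 - 1221 / 1250 * x + 2073 / 2000 * x ^ 2 - 1577 / 2500 * x ^ 3 + 323 / 2000 * x ^ 4 := by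
      nlinarith [mul_nonneg h0 h2, mul_nonneg (mul_nonneg h0 h2) h0, pow_nonneg h0 3,
        mul_nonneg (pow_nonneg h0 3) h2, sq_nonneg (x - 1), sq_nonneg (x ^ 2 - x), pow_nonneg h0 4,
        mul_nonneg (pow_nonneg h0 2) h2]
    linarith

lemma Wpol_le_one (x : ℝ) (h0 : 0 ≤ x) (h1 : x ≤ 73 / 50) : Wpol x ≤ 1 := by
  unfold Wpol
  have := wpol_pos x h0 h1
  nlinarith

/-- Riemann sum bound. -/
lemma sum_Wpol (n : ℕ) (hn : 0 < n) (M : ℕ) (hM : (M : ℝ) ≤ 73 / 50 * n) :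
    n * Ipol ((M : ℝ) / n) ≤ ∑ t ∈ Finset.range M, Wpol ((t : ℝ) / n) := by
  have hn' : (0 : ℝ) < n := by exact_mod_cast hn
  have hanti : AntitoneOn (fun s : ℝ => Wpol (s / n)) (Set.Icc 0 (0 + (M : ℝ))) := by
    intro a ha b hb hab
    apply Wpol_antitone
    · refine ⟨by have := ha.1; positivity, ?_⟩
      rw [div_le_iff₀ hn']; have := ha.2; linarith
    · refine ⟨by have := hb.1; positivity, ?_⟩
      rw [div_le_iff₀ hn']; have := hb.2; linarith
    · gcongr
  have h1 := hanti.integral_le_sum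
  have hder : ∀ s : ℝ, HasDerivAt (fun s : ℝ => n * Ipol (s / n)) (Wpol (s / n)) s := by
    intro s
    have h2 := (Ipol_deriv (s / n)).comp s ((hasDerivAt_id s).div_const (n : ℝ))
    have h3 := h2.const_mul (n : ℝ)
    refine h3.congr_deriv ?_
    field_simp
  have hcont : Continuous (fun s : ℝ => Wpol (s / n)) := by
    unfold Wpol wpol; fun_prop
  have h4 : ∫ x in (0 : ℝ)..(0 + (M : ℝ)), Wpol (x / n) = n * Ipol ((0 + (M : ℝ)) / n) - n * Ipol (0 / n) :=
    intervalIntegral.integral_eq_sub_of_hasDerivAt (fun s _ => hder s)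
      (hcont.intervalIntegrable _ _)
  rw [h4] at h1
  have h5 : Ipol (0 / n) = 0 := by simp [Ipol]
  rw [h5] at h1
  simpa using h1

lemma Ipol_ge (x : ℝ) (h0 : 0 ≤ x) (h1 : x ≤ 73 / 50) :
    0.66548 - (73 / 50 - x) ≤ Ipol x := by
  have hd : ∀ y : ℝ, HasDerivAt (fun y : ℝ => y - Ipol y) (1 - Wpol y) y := fun y =>
    (hasDerivAt_id y).sub (Ipol_deriv y)
  have hm : MonotoneOn (fun y : ℝ => y - Ipol y) (Set.Icc 0 (73 / 50)) := by
    apply monotoneOn_of_deriv_nonneg (convex_Icc _ _)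
    · intro y _; exact (hd y).continuousAt.continuousWithinAt
    · intro y _; exact (hd y).differentiableAt.differentiableWithinAt
    · intro y hy
      rw [interior_Icc] at hy
      rw [(hd y).deriv]
      have := Wpol_le_one y hy.1.le hy.2.le
      linarith
  have h2 := hm ⟨h0, h1⟩ (⟨by norm_num, le_rfl⟩ : (73 / 50 : ℝ) ∈ Set.Icc 0 (73 / 50)) h1
  simp only at h2
  have h3 : (0.66548 : ℝ) ≤ Ipol (73 / 50) := by unfold Ipol; norm_num
  linarith

end Pool.Agent.Lib.MP92dd55
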