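import Mathlib
import Pool.Agent.Lib.MP92dd55.Defs
import Pool.Agent.Lib.MP92dd55.Poly

/-! # Reduction of the expected time to the finite-horizon games -/

namespace Pool.Agent.Lib.MP92dd55

open MeasureTheory Finset
open scoped ENNReal

variable {n : ℕ}

/-- indicator (in `[0,∞]`) that the players have not met before time `t` -/
noncomputable def notMet (t : ℕ) (σ : Equiv.Perm (Fin n)) (x y : ℕ → Fin n) : ℝ≥0∞ :=
  open Classical in if ∀ s < t, σ (x s) ≠ y s then 1 else 0

lemma sum_notMet_le (M : ℕ) (σ : Equiv.Perm (Fin n)) (x y : ℕ → Fin n) :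
    ∑ t ∈ range M, notMet t σ x y ≤ meetTime σ x y := by
  classical
  unfold meetTime
  refine le_iInf₂ fun k hk => ?_
  have h1 : ∀ t ∈ range M, notMet t σ x y ≤ if t ≤ k then 1 else 0 := by
    intro t _
    unfold notMet
    by_cases htk : t ≤ k
    · simp only [htk, if_true]
      split_ifs <;> simp
    · have : ¬ (∀ s < t, σ (x s) ≠ y s) := by
        intro h; exact h k (by omega) hk
      rw [if_neg this]
      simp
  calc ∑ t ∈ range M, notMet t σ x y ≤ ∑ t ∈ range M, (if t ≤ k then (1 : ℝ≥0∞) else 0) :=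
        Finset.sum_le_sum h1
    _ = ((range M).filter (fun t => t ≤ k)).card := by
        rw [Finset.sum_ite]; simp
    _ ≤ ((k + 1 : ℕ) : ℝ≥0∞) := by
        have : ((range M).filter (fun t => t ≤ k)).card ≤ k + 1 := by
          calc _ ≤ (range (k + 1)).card := by
                apply card_le_card
                intro t ht
                simp only [mem_filter, mem_range] at ht ⊢
                omega
            _ = k + 1 := by simp
        exact_mod_cast this
    _ = (k : ℝ≥0∞) + 1 := by push_cast; rfl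

/-- restriction of a sequence to the first `t` periods -/
def restr (t : ℕ) (x : ℕ → Fin n) : Fin t → Fin n := fun s => x s

lemma measurable_restr (t : ℕ) : Measurable (restr (n := n) t) := by
  unfold restr
  exact measurable_pi_lambda _ fun s => measurable_pi_apply _

/-- finite-horizon indicator -/
noncomputable def notMetFin (t : ℕ) (σ : Equiv.Perm (Fin n)) (a b : Fin t → Fin n) : ℝ≥0∞ :=
  open Classical in if ∀ s, σ (a s) ≠ b s then 1 else 0

lemma notMet_eq (t : ℕ) (σ : Equiv.Perm (Fin n)) (x y : ℕ → Fin n) :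
    notMet t σ x y = notMetFin t σ (restr t x) (restr t y) := by
  unfold notMet notMetFin restr
  congr 1
  apply propext
  constructor
  · intro h s; exact h s s.2
  · intro h s hs; exact h ⟨s, hs⟩

lemma lintegral_notMet (μ : Measure (ℕ → Fin n)) [IsProbabilityMeasure μ] (t : ℕ)
    (σ : Equiv.Perm (Fin n)) :
    ∫⁻ x, ∫⁻ y, notMet t σ x y ∂μ ∂μ =
      ∑ a : Fin t → Fin n, ∑ b : Fin t → Fin n,
        notMetFin t σ a b * (μ.map (restr t)) {b} * (μ.map (restr t)) {a} := by
  have hm := measurable_restr (n := n) t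
  have h1 : ∀ x : ℕ → Fin n, ∫⁻ y, notMet t σ x y ∂μ =
      ∑ b : Fin t → Fin n, notMetFin t σ (restr t x) b * (μ.map (restr t)) {b} := by
    intro x
    simp_rw [notMet_eq]
    rw [← lintegral_map (f := fun b => notMetFin t σ (restr t x) b) (measurable_of_finite _) hm]
    rw [lintegral_fintype]
  simp_rw [h1]
  rw [← lintegral_map (f := fun a => ∑ b : Fin t → Fin n, notMetFin t σ a b *
    (μ.map (restr t)) {b}) (measurable_of_finite _) hm, lintegral_fintype]
  refine Finset.sum_congr rfl fun a _ => ?_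
  rw [Finset.sum_mul]

/-- probability weights of the initial segments of length `t` -/
noncomputable def wt (μ : Measure (ℕ → Fin n)) (t : ℕ) (a : Fin t → Fin n) : ℝ :=
  ((μ.map (restr t)) {a}).toReal

lemma wt_nonneg (μ : Measure (ℕ → Fin n)) (t : ℕ) (a : Fin t → Fin n) : 0 ≤ wt μ t a :=
  ENNReal.toReal_nonneg

lemma wt_sum (μ : Measure (ℕ → Fin n)) [IsProbabilityMeasure μ] (t : ℕ) :
    ∑ a, wt μ t a = 1 := by
  have hm := measurable_restr (n := n) t
  have : IsProbabilityMeasure (μ.map (restr t)) := Measure.isProbabilityMeasure_map hm.aemeasurable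
  unfold wt
  rw [← ENNReal.toReal_sum (fun a _ => measure_ne_top _ _)]
  rw [sum_measure_singleton]
  simp

lemma sum_notMetFin (t : ℕ) (a b : Fin t → Fin n) :
    ∑ σ : Equiv.Perm (Fin n), notMetFin t σ a b = ((avoid (pairs a b)).card : ℝ≥0∞) := by
  classical
  unfold notMetFin avoid pairs
  rw [Finset.sum_ite]
  simp only [sum_const, nsmul_eq_mul, mul_one, mul_zero, add_zero]
  congr 2
  ext σ
  simp

/-- The probability of not having met by time `t`, as a finite sum. -/
lemma sum_lintegral_notMet (μ : Measure (ℕ → Fin n)) [IsProbabilityMeasure μ] (t : ℕ) :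
    (∑ σ : Equiv.Perm (Fin n), ∫⁻ x, ∫⁻ y, notMet t σ x y ∂μ ∂μ) / (Nat.factorial n : ℝ≥0∞) =
      ENNReal.ofReal (∑ a, ∑ b, wt μ t a * wt μ t b * pAvoid (pairs a b)) := by
  have hm := measurable_restr (n := n) t
  have : IsProbabilityMeasure (μ.map (restr t)) := Measure.isProbabilityMeasure_map hm.aemeasurable
  have hw : ∀ a, (μ.map (restr t)) {a} = ENNReal.ofReal (wt μ t a) := by
    intro a; unfold wt; rw [ENNReal.ofReal_toReal (measure_ne_top _ _)]
  simp_rw [lintegral_notMet]
  rw [Finset.sum_comm]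
  have h1 : ∀ a : Fin t → Fin n, ∑ σ : Equiv.Perm (Fin n), ∑ b : Fin t → Fin n,
        notMetFin t σ a b * (μ.map (restr t)) {b} * (μ.map (restr t)) {a} =
      ∑ b, ((avoid (pairs a b)).card : ℝ≥0∞) * (μ.map (restr t)) {b} * (μ.map (restr t)) {a} := by
    intro a
    rw [Finset.sum_comm]
    refine Finset.sum_congr rfl fun b _ => ?_
    rw [← Finset.sum_mul, ← Finset.sum_mul, sum_notMetFin]
  simp_rw [h1]
  rw [div_eq_mul_inv, Finset.sum_mul, ENNReal.ofReal_sum_of_nonneg]
  swap
  · intro a _
    exact Finset.sum_nonneg fun b _ =>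
      mul_nonneg (mul_nonneg (wt_nonneg _ _ _) (wt_nonneg _ _ _)) (pAvoid_nonneg _)
  refine Finset.sum_congr rfl fun a _ => ?_
  rw [Finset.sum_mul, ENNReal.ofReal_sum_of_nonneg]
  swap
  · intro b _
    exact mul_nonneg (mul_nonneg (wt_nonneg _ _ _) (wt_nonneg _ _ _)) (pAvoid_nonneg _)
  refine Finset.sum_congr rfl fun b _ => ?_
  rw [hw, hw]
  have hfac : (0 : ℝ) < (Nat.factorial n : ℝ) := by positivity
  unfold pAvoid
  rw [ENNReal.ofReal_mul (mul_nonneg (wt_nonneg _ _ _) (wt_nonneg _ _ _)),
    ENNReal.ofReal_mul (wt_nonneg _ _ _), ENNReal.ofReal_div_of_pos hfac,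
    ENNReal.ofReal_natCast, ENNReal.ofReal_natCast, div_eq_mul_inv]
  ring

/-- The expected time dominates the sum of the probabilities of not having met. -/
theorem expectedTime_ge (μ : Measure (ℕ → Fin n)) [IsProbabilityMeasure μ] (M : ℕ) :
    ∑ t ∈ range M, ENNReal.ofReal (∑ a, ∑ b, wt μ t a * wt μ t b * pAvoid (pairs a b)) ≤
      expectedTime μ := by
  unfold expectedTime
  calc ∑ t ∈ range M, ENNReal.ofReal (∑ a, ∑ b, wt μ t a * wt μ t b * pAvoid (pairs a b))
      = ∑ t ∈ range M, (∑ σ : Equiv.Perm (Fin n), ∫⁻ x, ∫⁻ y, notMet t σ x y ∂μ ∂μ) /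
          (Nat.factorial n : ℝ≥0∞) := by
        refine Finset.sum_congr rfl fun t _ => ?_
        rw [sum_lintegral_notMet]
    _ = (∑ σ : Equiv.Perm (Fin n), ∑ t ∈ range M, ∫⁻ x, ∫⁻ y, notMet t σ x y ∂μ ∂μ) /
          (Nat.factorial n : ℝ≥0∞) := by
        rw [Finset.sum_comm]
        simp_rw [div_eq_mul_inv]
        rw [Finset.sum_mul]
    _ ≤ _ := by
        gcongr with σ _
        -- sum of integrals ≤ integral of sum (measurability)
        have hmy : ∀ (t : ℕ) (x : ℕ → Fin n), Measurable fun y => notMet t σ x y := by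
          intro t x
          simp_rw [notMet_eq]
          exact (measurable_of_finite (fun b => notMetFin t σ (restr t x) b)).comp
            (measurable_restr t)
        have hmx : ∀ t : ℕ, Measurable fun x => ∫⁻ y, notMet t σ x y ∂μ := by
          intro t
          simp_rw [notMet_eq]
          exact (measurable_of_finite (fun a => ∫⁻ y, notMetFin t σ a (restr t y) ∂μ)).comp
            (measurable_restr t)
        rw [← lintegral_finsetSum _ (fun t _ => hmx t)]
        apply lintegral_mono
        intro x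
        simp only
        rw [← lintegral_finsetSum _ (fun t _ => hmy t x)]
        apply lintegral_mono
        intro y
        exact sum_notMet_le M σ x y

end Pool.Agent.Lib.MP92dd55
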