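import Mathlib
import Pool.Agent.Lib.MP92dd55.Reduce

/-! # Block strategies: the renewal upper bound for the rendezvous value -/

namespace Pool.Agent.Lib.MP92dd55

open MeasureTheory Finset
open scoped ENNReal

section general

variable {n : ℕ} {U : Type} [Fintype U] [MeasurableSpace U] [MeasurableSingletonClass U]

/-- restriction of a sequence of blocks to the first `R` blocks -/
def restrU (R : ℕ) (f : ℕ → U) : Fin R → U := fun i => f i

lemma measurable_restrU (R : ℕ) : Measurable (restrU (U := U) R) := by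
  unfold restrU
  exact measurable_pi_lambda _ fun s => measurable_pi_apply _

lemma infinitePi_restrU (κ : Measure U) [IsProbabilityMeasure κ] (R : ℕ) (F : Fin R → U) :
    ((Measure.infinitePi (fun _ : ℕ => κ)).map (restrU R)) {F} = ∏ i, κ {F i} := by
  rw [Measure.map_apply (measurable_restrU R) (measurableSet_singleton _)]
  have hset : restrU R ⁻¹' {F} =
      Set.pi (↑(range R)) (fun i : ℕ => if h : i < R then {F ⟨i, h⟩} else Set.univ) := by
    ext f
    simp only [Set.mem_preimage, Set.mem_singleton_iff, Set.mem_pi, coe_range, Set.mem_Iio]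
    constructor
    · intro h i hi
      rw [dif_pos hi, Set.mem_singleton_iff, ← h]
      rfl
    · intro h
      funext i
      have := h i i.2
      rw [dif_pos i.2, Set.mem_singleton_iff] at this
      exact this
  rw [hset, Measure.infinitePi_pi]
  · rw [Finset.prod_range]
    refine Finset.prod_congr rfl fun i _ => ?_
    rw [dif_pos i.2]
  · intro i hi
    rw [mem_range] at hi
    rw [dif_pos hi]
    exact measurableSet_singleton _

lemma lintegral_restrU (κ : Measure U) [IsProbabilityMeasure κ] (R : ℕ)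
    (G : (Fin R → U) → ℝ≥0∞) :
    ∫⁻ f, G (restrU R f) ∂(Measure.infinitePi (fun _ : ℕ => κ)) =
      ∑ F : Fin R → U, G F * ∏ i, κ {F i} := by
  rw [← lintegral_map (f := G) (measurable_of_finite _) (measurable_restrU R), lintegral_fintype]
  refine Finset.sum_congr rfl fun F _ => ?_
  rw [infinitePi_restrU]

lemma sum_prod_pairs (R : ℕ) (q : U → ℝ≥0∞) (φ : Fin R → U → U → ℝ≥0∞) :
    ∑ F : Fin R → U, (∑ G : Fin R → U, (∏ i, φ i (F i) (G i)) * ∏ i, q (G i)) * ∏ i, q (F i) =
      ∏ i, ∑ u, ∑ v, φ i u v * q v * q u := by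
  classical
  calc ∑ F : Fin R → U, (∑ G : Fin R → U, (∏ i, φ i (F i) (G i)) * ∏ i, q (G i)) * ∏ i, q (F i)
      = ∑ F : Fin R → U, ∑ G : Fin R → U, ∏ i, (φ i (F i) (G i) * q (G i) * q (F i)) := by
        refine Finset.sum_congr rfl fun F _ => ?_
        rw [Finset.sum_mul]
        refine Finset.sum_congr rfl fun G _ => ?_
        rw [Finset.prod_mul_distrib, Finset.prod_mul_distrib]
    _ = ∑ H : Fin R → U × U, ∏ i, (φ i (H i).1 (H i).2 * q (H i).2 * q (H i).1) := by
        rw [← Fintype.sum_prod_type' (f := fun F G : Fin R → U =>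
          ∏ i, (φ i (F i) (G i) * q (G i) * q (F i)))]
        rw [← (Equiv.arrowProdEquivProdArrow (Fin R) (fun _ => U) (fun _ => U)).sum_comp]
        rfl
    _ = ∏ i, ∑ p : U × U, φ i p.1 p.2 * q p.2 * q p.1 := by
        rw [Finset.prod_univ_sum, Fintype.piFinset_univ]
    _ = _ := by
        refine Finset.prod_congr rfl fun i _ => ?_
        rw [Fintype.sum_prod_type]

/-- indicator that two blocks do not meet during their first `s` periods -/
noncomputable def blockInd (b : U → ℕ → Fin n) (σ : Equiv.Perm (Fin n)) (s : ℕ) (u v : U) : ℝ≥0∞ :=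
  open Classical in if ∀ k < s, σ (b u k) ≠ b v k then 1 else 0

/-- concatenation of blocks of length `B` -/
def concat (B : ℕ) (b : U → ℕ → Fin n) (f : ℕ → U) (t : ℕ) : Fin n := b (f (t / B)) (t % B)

lemma measurable_concat (B : ℕ) (b : U → ℕ → Fin n) : Measurable (concat B b) := by
  unfold concat
  refine measurable_pi_lambda _ fun t => ?_
  exact (measurable_of_finite (fun u => b u (t % B))).comp (measurable_pi_apply _)

lemma notMet_concat (B : ℕ) (hB : 0 < B) (b : U → ℕ → Fin n) (σ : Equiv.Perm (Fin n)) (r s : ℕ)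
    (hs : s ≤ B) (f g : ℕ → U) :
    notMet (r * B + s) σ (concat B b f) (concat B b g) =
      (∏ i : Fin r, blockInd b σ B (f i) (g i)) * blockInd b σ s (f r) (g r) := by
  classical
  unfold notMet
  by_cases h1 : ∀ i : Fin r, ∀ k < B, σ (b (f i) k) ≠ b (g i) k
  · have e1 : ∏ i : Fin r, blockInd b σ B (f i) (g i) = 1 := by
      apply Finset.prod_eq_one
      intro i _
      unfold blockInd
      rw [if_pos (h1 i)]
    rw [e1, one_mul]
    unfold blockInd
    congr 1
    apply propext
    constructor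
    · intro h k hk
      have hkB : k < B := lt_of_lt_of_le hk hs
      have := h (r * B + k) (by omega)
      have e2 : (r * B + k) / B = r := by
        rw [Nat.add_comm, Nat.add_mul_div_right _ _ hB, Nat.div_eq_of_lt hkB, zero_add]
      have e3 : (r * B + k) % B = k := by
        rw [Nat.add_comm, Nat.add_mul_mod_self_right, Nat.mod_eq_of_lt hkB]
      simpa only [concat, e2, e3] using this
    · intro h t ht
      simp only [concat]
      rcases lt_or_ge t (r * B) with h2 | h2
      · have h3 : t / B < r := by rwa [Nat.div_lt_iff_lt_mul hB]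
        exact h1 ⟨t / B, h3⟩ (t % B) (Nat.mod_lt _ hB)
      · obtain ⟨k, rfl⟩ := Nat.exists_eq_add_of_le h2
        have hk : k < s := by omega
        have hkB : k < B := lt_of_lt_of_le hk hs
        have e2 : (r * B + k) / B = r := by
          rw [Nat.add_comm, Nat.add_mul_div_right _ _ hB, Nat.div_eq_of_lt hkB, zero_add]
        have e3 : (r * B + k) % B = k := by
          rw [Nat.add_comm, Nat.add_mul_mod_self_right, Nat.mod_eq_of_lt hkB]
        rw [e2, e3]
        exact h k hk
  · push Not at h1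
    obtain ⟨i, k, hk, hik⟩ := h1
    have e1 : ∏ i : Fin r, blockInd b σ B (f i) (g i) = 0 := by
      apply Finset.prod_eq_zero (mem_univ i)
      unfold blockInd
      rw [if_neg]
      push Not
      exact ⟨k, hk, hik⟩
    rw [e1, zero_mul, if_neg]
    push Not
    refine ⟨i * B + k, ?_, ?_⟩
    · have : (i : ℕ) + 1 ≤ r := i.2
      have : ((i : ℕ) + 1) * B ≤ r * B := Nat.mul_le_mul_right _ this
      nlinarith
    · have e2 : ((i : ℕ) * B + k) / B = i := by
        rw [Nat.add_comm, Nat.add_mul_div_right _ _ hB, Nat.div_eq_of_lt hk, zero_add]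
      have e3 : ((i : ℕ) * B + k) % B = k := by
        rw [Nat.add_comm, Nat.add_mul_mod_self_right, Nat.mod_eq_of_lt hk]
      simp only [concat, e2, e3]
      exact hik

lemma measurable_notMet (t : ℕ) (σ : Equiv.Perm (Fin n)) (x : ℕ → Fin n) :
    Measurable fun y => notMet t σ x y := by
  simp_rw [notMet_eq]
  exact (measurable_of_finite (fun b => notMetFin t σ (restr t x) b)).comp (measurable_restr t)

lemma measurable_notMet_int (μ : Measure (ℕ → Fin n)) (t : ℕ) (σ : Equiv.Perm (Fin n)) :
    Measurable fun x => ∫⁻ y, notMet t σ x y ∂μ := by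
  simp_rw [notMet_eq]
  exact (measurable_of_finite (fun a => ∫⁻ y, notMetFin t σ a (restr t y) ∂μ)).comp
    (measurable_restr t)

/-- The block strategy law. -/
noncomputable def blockLaw (κ : Measure U) (B : ℕ) (b : U → ℕ → Fin n) : Measure (ℕ → Fin n) :=
  (Measure.infinitePi (fun _ : ℕ => κ)).map (concat B b)

instance (κ : Measure U) [IsProbabilityMeasure κ] (B : ℕ) (b : U → ℕ → Fin n) :
    IsProbabilityMeasure (blockLaw κ B b) :=
  Measure.isProbabilityMeasure_map (measurable_concat B b).aemeasurable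

lemma lintegral_block (κ : Measure U) [IsProbabilityMeasure κ] (B : ℕ) (hB : 0 < B)
    (b : U → ℕ → Fin n) (σ : Equiv.Perm (Fin n)) (r s : ℕ) (hs : s ≤ B) :
    ∫⁻ x, ∫⁻ y, notMet (r * B + s) σ x y ∂(blockLaw κ B b) ∂(blockLaw κ B b) =
      (∑ u, ∑ v, blockInd b σ B u v * κ {v} * κ {u}) ^ r *
        ∑ u, ∑ v, blockInd b σ s u v * κ {v} * κ {u} := by
  unfold blockLaw
  rw [lintegral_map (measurable_notMet_int _ _ _) (measurable_concat B b)]
  have h1 : ∀ f : ℕ → U, ∫⁻ y, notMet (r * B + s) σ (concat B b f) y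
      ∂((Measure.infinitePi (fun _ : ℕ => κ)).map (concat B b)) =
      ∫⁻ g, notMet (r * B + s) σ (concat B b f) (concat B b g)
        ∂(Measure.infinitePi (fun _ : ℕ => κ)) := by
    intro f
    rw [lintegral_map (measurable_notMet _ _ _) (measurable_concat B b)]
  simp_rw [h1]
  simp_rw [notMet_concat B hB b σ r s hs]
  -- package as functions of the first r + 1 blocks
  let φ : Fin (r + 1) → U → U → ℝ≥0∞ := fun i u v =>
    if (i : ℕ) < r then blockInd b σ B u v else blockInd b σ s u v
  have h2 : ∀ f g : ℕ → U, (∏ i : Fin r, blockInd b σ B (f i) (g i)) * blockInd b σ s (f r) (g r) =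
      ∏ i : Fin (r + 1), φ i (restrU (r + 1) f i) (restrU (r + 1) g i) := by
    intro f g
    rw [Fin.prod_univ_castSucc]
    simp [φ, restrU]
  simp_rw [h2]
  have h3 : ∀ f : ℕ → U, ∫⁻ g, ∏ i : Fin (r + 1), φ i (restrU (r + 1) f i) (restrU (r + 1) g i)
      ∂(Measure.infinitePi (fun _ : ℕ => κ)) =
      ∑ G : Fin (r + 1) → U, (∏ i, φ i (restrU (r + 1) f i) (G i)) * ∏ i, κ {G i} := by
    intro f
    exact lintegral_restrU κ (r + 1)
      (fun G => ∏ i : Fin (r + 1), φ i (restrU (r + 1) f i) (G i))
  simp_rw [h3]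
  rw [lintegral_restrU κ (r + 1)
    (fun F => ∑ G : Fin (r + 1) → U, (∏ i, φ i (F i) (G i)) * ∏ i, κ {G i})]
  rw [sum_prod_pairs (r + 1) (fun u => κ {u}) φ, Fin.prod_univ_castSucc]
  simp [φ, Finset.prod_const]

lemma meetTime_le_tsum (σ : Equiv.Perm (Fin n)) (x y : ℕ → Fin n) :
    meetTime σ x y ≤ ∑' t, notMet t σ x y := by
  classical
  by_cases h : ∃ t, σ (x t) = y t
  · set k := Nat.find h with hk
    have hk1 : σ (x k) = y k := Nat.find_spec h
    have hk2 : ∀ t < k, σ (x t) ≠ y t := fun t ht => Nat.find_min h ht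
    calc meetTime σ x y ≤ (k : ℝ≥0∞) + 1 := iInf₂_le k hk1
      _ = ∑ t ∈ range (k + 1), notMet t σ x y := by
        have : ∀ t ∈ range (k + 1), notMet t σ x y = 1 := by
          intro t ht
          unfold notMet
          rw [if_pos]
          intro s hs
          rw [mem_range] at ht
          exact hk2 s (by omega)
        rw [Finset.sum_congr rfl this]
        simp
      _ ≤ _ := ENNReal.sum_le_tsum _
  · push Not at h
    have : ∀ t, notMet t σ x y = 1 := by
      intro t
      unfold notMet
      rw [if_pos fun s _ => h s]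
    simp_rw [this]
    rw [ENNReal.tsum_const_eq_top_of_ne_zero one_ne_zero]
    exact le_top

/-- Renewal identity for a fixed wiring. -/
lemma lintegral_meetTime_block (κ : Measure U) [IsProbabilityMeasure κ] (B : ℕ) (hB : 0 < B)
    (b : U → ℕ → Fin n) (σ : Equiv.Perm (Fin n)) :
    ∫⁻ x, ∫⁻ y, meetTime σ x y ∂(blockLaw κ B b) ∂(blockLaw κ B b) ≤
      (1 - ∑ u, ∑ v, blockInd b σ B u v * κ {v} * κ {u})⁻¹ *
        ∑ s ∈ range B, ∑ u, ∑ v, blockInd b σ s u v * κ {v} * κ {u} := by
  set μ := blockLaw κ B b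
  set D := ∑ u, ∑ v, blockInd b σ B u v * κ {v} * κ {u} with hD
  calc ∫⁻ x, ∫⁻ y, meetTime σ x y ∂μ ∂μ ≤ ∫⁻ x, ∫⁻ y, ∑' t, notMet t σ x y ∂μ ∂μ := by
        apply lintegral_mono; intro x
        apply lintegral_mono; intro y
        exact meetTime_le_tsum σ x y
    _ = ∑' t, ∫⁻ x, ∫⁻ y, notMet t σ x y ∂μ ∂μ := by
        rw [← lintegral_tsum fun t => (measurable_notMet_int μ t σ).aemeasurable]
        congr 1
        funext x
        rw [lintegral_tsum fun t => (measurable_notMet t σ x).aemeasurable]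
    _ = ∑' r : ℕ, ∑ s ∈ range B, ∫⁻ x, ∫⁻ y, notMet (r * B + s) σ x y ∂μ ∂μ := by
        haveI : NeZero B := ⟨hB.ne'⟩
        rw [← (Nat.divModEquiv B).symm.tsum_eq, ENNReal.tsum_prod']
        congr 1
        funext r
        rw [tsum_fintype, Finset.sum_range]
        refine Finset.sum_congr rfl fun s _ => ?_
        simp [Nat.divModEquiv, Nat.mul_comm, Nat.add_comm]
    _ = ∑' r : ℕ, D ^ r * ∑ s ∈ range B, ∑ u, ∑ v, blockInd b σ s u v * κ {v} * κ {u} := by
        congr 1
        funext r
        rw [Finset.mul_sum]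
        refine Finset.sum_congr rfl fun s hs => ?_
        rw [mem_range] at hs
        rw [lintegral_block κ B hB b σ r s hs.le]
    _ = _ := by
        rw [ENNReal.tsum_mul_right, ENNReal.tsum_geometric]

end general

end Pool.Agent.Lib.MP92dd55
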