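import Mathlib
import Pool.Agent.Lib.MP92dd55.Renewal

/-! # Upper bound for the rendezvous value from a finite family of block strategies -/

namespace Pool.Agent.Lib.MP92dd55

open MeasureTheory Finset
open scoped ENNReal

variable {n : ℕ}

/-- pairs of phones used during the first `s` periods -/
def pairsUp (s : ℕ) (x y : ℕ → Fin n) : Finset (Fin n × Fin n) :=
  (range s).image fun k => (x k, y k)

lemma avoid_pairsUp (s : ℕ) (x y : ℕ → Fin n) (τ : Equiv.Perm (Fin n)) :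
    τ ∈ avoid (pairsUp s x y) ↔ ∀ k < s, τ (x k) ≠ y k := by
  rw [mem_avoid, pairsUp]
  simp only [mem_image, mem_range, forall_exists_index, and_imp]
  constructor
  · intro h k hk; exact h (x k, y k) k hk rfl
  · rintro h e k hk rfl; exact h k hk

variable {Ω : Type} [Fintype Ω]

/-- symmetrised blocks -/
def symBlock (blk : Ω → ℕ → Fin n) (u : Equiv.Perm (Fin n) × Ω) (k : ℕ) : Fin n := u.1 (blk u.2 k)

lemma sum_blockInd_sym (blk : Ω → ℕ → Fin n) (σ : Equiv.Perm (Fin n)) (s : ℕ) (ω ω' : Ω) :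
    ∑ π : Equiv.Perm (Fin n), ∑ π' : Equiv.Perm (Fin n),
      blockInd (symBlock blk) σ s (π, ω) (π', ω') =
      (n.factorial : ℝ≥0∞) * ((avoid (pairsUp s (blk ω) (blk ω'))).card : ℝ≥0∞) := by
  classical
  rw [Finset.sum_comm]
  have h1 : ∀ π' : Equiv.Perm (Fin n), ∑ π : Equiv.Perm (Fin n),
      blockInd (symBlock blk) σ s (π, ω) (π', ω') =
      ((avoid (pairsUp s (blk ω) (blk ω'))).card : ℝ≥0∞) := by
    intro π'
    have h2 : ∀ π : Equiv.Perm (Fin n), blockInd (symBlock blk) σ s (π, ω) (π', ω') =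
        if (π'⁻¹ * σ * π) ∈ avoid (pairsUp s (blk ω) (blk ω')) then 1 else 0 := by
      intro π
      unfold blockInd symBlock
      congr 1
      apply propext
      rw [avoid_pairsUp]
      simp only [Equiv.Perm.mul_apply, ne_eq]
      constructor
      · intro h k hk h3
        apply h k hk
        rw [← h3]
        simp
      · intro h k hk h3
        apply h k hk
        rw [h3]
        simp
    simp_rw [h2]
    have h3 := Equiv.sum_comp (Equiv.mulLeft (π'⁻¹ * σ))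
      (fun τ => if τ ∈ avoid (pairsUp s (blk ω) (blk ω')) then (1 : ℝ≥0∞) else 0)
    simp only [Equiv.coe_mulLeft] at h3
    have h4 : ∑ i, (if i ∈ avoid (pairsUp s (blk ω) (blk ω')) then (1 : ℝ≥0∞) else 0) =
        ((avoid (pairsUp s (blk ω) (blk ω'))).card : ℝ≥0∞) := by
      rw [Finset.sum_ite_mem]; simp
    convert h3.trans h4
  simp_rw [h1]
  rw [sum_const, card_univ, Fintype.card_perm, Fintype.card_fin, nsmul_eq_mul]

/-- The weights of the symmetrised blocks. -/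
noncomputable def symWeight (n : ℕ) (p : Ω → ℝ) (u : Equiv.Perm (Fin n) × Ω) : ℝ≥0∞ :=
  ENNReal.ofReal (p u.2) / (n.factorial : ℝ≥0∞)

lemma symWeight_sum (p : Ω → ℝ) (hp0 : ∀ ω, 0 ≤ p ω) (hp1 : ∑ ω, p ω = 1) :
    ∑ u : Equiv.Perm (Fin n) × Ω, symWeight n p u = 1 := by
  unfold symWeight
  rw [Fintype.sum_prod_type]
  simp only
  have h1 : ∑ ω, ENNReal.ofReal (p ω) / (n.factorial : ℝ≥0∞) = 1 / (n.factorial : ℝ≥0∞) := by
    simp_rw [div_eq_mul_inv]
    rw [← Finset.sum_mul, ← ENNReal.ofReal_sum_of_nonneg (fun ω _ => hp0 ω), hp1,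
      ENNReal.ofReal_one]
  simp_rw [h1]
  rw [sum_const, card_univ, Fintype.card_perm, Fintype.card_fin, nsmul_eq_mul, one_div]
  exact ENNReal.mul_inv_cancel (by exact_mod_cast n.factorial_ne_zero) (ENNReal.natCast_ne_top _)

lemma sum_sym (p : Ω → ℝ) (hp0 : ∀ ω, 0 ≤ p ω) (blk : Ω → ℕ → Fin n)
    (σ : Equiv.Perm (Fin n)) (s : ℕ) :
    ∑ u : Equiv.Perm (Fin n) × Ω, ∑ v : Equiv.Perm (Fin n) × Ω,
      blockInd (symBlock blk) σ s u v * symWeight n p v * symWeight n p u =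
      ENNReal.ofReal (∑ ω, ∑ ω', p ω * p ω' * pAvoid (pairsUp s (blk ω) (blk ω'))) := by
  classical
  have hfac : (n.factorial : ℝ≥0∞) ≠ 0 := by exact_mod_cast n.factorial_ne_zero
  have hfac' : (n.factorial : ℝ≥0∞) ≠ ⊤ := ENNReal.natCast_ne_top _
  rw [Fintype.sum_prod_type]
  simp_rw [Fintype.sum_prod_type]
  rw [Finset.sum_comm]
  have hnn : ∀ ω ω', 0 ≤ p ω * p ω' * pAvoid (pairsUp s (blk ω) (blk ω')) := fun ω ω' =>
    mul_nonneg (mul_nonneg (hp0 _) (hp0 _)) (pAvoid_nonneg _)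
  rw [ENNReal.ofReal_sum_of_nonneg fun ω _ => Finset.sum_nonneg fun ω' _ => hnn ω ω']
  refine Finset.sum_congr rfl fun ω _ => ?_
  rw [ENNReal.ofReal_sum_of_nonneg fun ω' _ => hnn ω ω']
  have h1 : ∀ π : Equiv.Perm (Fin n), ∑ π' : Equiv.Perm (Fin n), ∑ ω' : Ω,
      blockInd (symBlock blk) σ s (π, ω) (π', ω') * symWeight n p (π', ω') *
        symWeight n p (π, ω) =
      ∑ ω' : Ω, ∑ π' : Equiv.Perm (Fin n),
      blockInd (symBlock blk) σ s (π, ω) (π', ω') * symWeight n p (π', ω') *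
        symWeight n p (π, ω) := fun π => Finset.sum_comm
  simp_rw [h1]
  rw [Finset.sum_comm]
  refine Finset.sum_congr rfl fun ω' _ => ?_
  unfold symWeight
  simp only
  simp_rw [mul_assoc]
  simp_rw [← Finset.sum_mul]
  rw [sum_blockInd_sym]
  have hf : (0 : ℝ) < (n.factorial : ℝ) := by positivity
  unfold pAvoid
  rw [ENNReal.ofReal_mul (hp0 _), ENNReal.ofReal_mul (hp0 _), ENNReal.ofReal_div_of_pos hf,
    ENNReal.ofReal_natCast, ENNReal.ofReal_natCast]
  simp_rw [div_eq_mul_inv]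
  calc (n.factorial : ℝ≥0∞) * ((avoid (pairsUp s (blk ω) (blk ω'))).card : ℝ≥0∞) *
        (ENNReal.ofReal (p ω') * (n.factorial : ℝ≥0∞)⁻¹ *
          (ENNReal.ofReal (p ω) * (n.factorial : ℝ≥0∞)⁻¹))
      = ((n.factorial : ℝ≥0∞) * (n.factorial : ℝ≥0∞)⁻¹) *
        (ENNReal.ofReal (p ω) * (ENNReal.ofReal (p ω') *
        (((avoid (pairsUp s (blk ω) (blk ω'))).card : ℝ≥0∞) * (n.factorial : ℝ≥0∞)⁻¹))) := by ring
    _ = _ := by rw [ENNReal.mul_inv_cancel hfac hfac', one_mul]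

/-- **Upper bound from block strategies.** -/
theorem value_le (p : Ω → ℝ) (hp0 : ∀ ω, 0 ≤ p ω) (hp1 : ∑ ω, p ω = 1)
    (blk : Ω → ℕ → Fin n) (B : ℕ) (hB : 0 < B) (S D : ℝ)
    (hS : ∑ s ∈ range B, ∑ ω, ∑ ω', p ω * p ω' * pAvoid (pairsUp s (blk ω) (blk ω')) ≤ S)
    (hD : ∑ ω, ∑ ω', p ω * p ω' * pAvoid (pairsUp B (blk ω) (blk ω')) ≤ D) (hD1 : D < 1) :
    rendezvousValue n ≤ ENNReal.ofReal (S / (1 - D)) := by
  classical
  let _ : MeasurableSpace (Equiv.Perm (Fin n) × Ω) := ⊤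
  have : MeasurableSingletonClass (Equiv.Perm (Fin n) × Ω) := ⟨fun _ => trivial⟩
  let κ : Measure (Equiv.Perm (Fin n) × Ω) :=
    (PMF.ofFintype (symWeight n p) (symWeight_sum p hp0 hp1)).toMeasure
  have : IsProbabilityMeasure κ := PMF.toMeasure.isProbabilityMeasure _
  have hκ : ∀ u, κ {u} = symWeight n p u := by
    intro u
    exact PMF.toMeasure_apply_singleton _ _ (measurableSet_singleton _)
  have hnn : ∀ s ω ω', 0 ≤ p ω * p ω' * pAvoid (pairsUp s (blk ω) (blk ω')) := fun s ω ω' =>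
    mul_nonneg (mul_nonneg (hp0 _) (hp0 _)) (pAvoid_nonneg _)
  have hσ : ∀ σ : Equiv.Perm (Fin n),
      ∫⁻ x, ∫⁻ y, meetTime σ x y ∂(blockLaw κ B (symBlock blk)) ∂(blockLaw κ B (symBlock blk)) ≤
      ENNReal.ofReal (S / (1 - D)) := by
    intro σ
    refine (lintegral_meetTime_block κ B hB (symBlock blk) σ).trans ?_
    simp_rw [hκ]
    rw [sum_sym p hp0 blk σ B]
    have h1 : ∀ s ∈ range B, ∑ u : Equiv.Perm (Fin n) × Ω, ∑ v : Equiv.Perm (Fin n) × Ω,
      blockInd (symBlock blk) σ s u v * symWeight n p v * symWeight n p u =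
      ENNReal.ofReal (∑ ω, ∑ ω', p ω * p ω' * pAvoid (pairsUp s (blk ω) (blk ω'))) :=
      fun s _ => sum_sym p hp0 blk σ s
    rw [Finset.sum_congr rfl h1, ← ENNReal.ofReal_sum_of_nonneg
      (fun s _ => Finset.sum_nonneg fun ω _ => Finset.sum_nonneg fun ω' _ => hnn s ω ω')]
    have h2 : (1 - ENNReal.ofReal (∑ ω, ∑ ω', p ω * p ω' * pAvoid (pairsUp B (blk ω) (blk ω'))))⁻¹
        ≤ ENNReal.ofReal ((1 - D)⁻¹) := by
      rw [ENNReal.ofReal_inv_of_pos (by linarith)]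
      rw [ENNReal.inv_le_inv]
      rw [← ENNReal.ofReal_one, ← ENNReal.ofReal_sub _
        (Finset.sum_nonneg fun ω _ => Finset.sum_nonneg fun ω' _ => hnn B ω ω')]
      apply ENNReal.ofReal_le_ofReal
      linarith
    have h3 : 0 ≤ (1 - D)⁻¹ := by
      apply inv_nonneg.2; linarith
    calc _ ≤ ENNReal.ofReal ((1 - D)⁻¹) * ENNReal.ofReal S := by
          gcongr
      _ = ENNReal.ofReal (S / (1 - D)) := by
          rw [← ENNReal.ofReal_mul h3, div_eq_mul_inv, mul_comm]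
  unfold rendezvousValue
  refine (iInf_le _ (⟨blockLaw κ B (symBlock blk), inferInstance⟩ :
    ProbabilityMeasure (ℕ → Fin n))).trans ?_
  unfold expectedTime
  simp only [ProbabilityMeasure.coe_mk]
  calc (∑ σ : Equiv.Perm (Fin n), ∫⁻ x, ∫⁻ y, meetTime σ x y
        ∂(blockLaw κ B (symBlock blk)) ∂(blockLaw κ B (symBlock blk))) / (n.factorial : ℝ≥0∞)
      ≤ (∑ σ : Equiv.Perm (Fin n), ENNReal.ofReal (S / (1 - D))) / (n.factorial : ℝ≥0∞) := by
        gcongr with σ _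
        exact hσ σ
    _ = ENNReal.ofReal (S / (1 - D)) := by
        rw [sum_const, card_univ, Fintype.card_perm, Fintype.card_fin, nsmul_eq_mul]
        rw [mul_comm, div_eq_mul_inv, mul_assoc,
          ENNReal.mul_inv_cancel (by exact_mod_cast n.factorial_ne_zero)
            (ENNReal.natCast_ne_top _), mul_one]

end Pool.Agent.Lib.MP92dd55
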