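import Mathlib
import Pool.Agent.Lib.MP92dd55.LimLower2
import Pool.Agent.Lib.MP92dd55.Value

/-! # Blowing up a design word -/

namespace Pool.Agent.Lib.MP92dd55

open Finset Real

variable {n N m : ℕ}

/-- the `r`-th phone of the group `i` -/
def cell (hm : 0 < m) (k : ℕ) (i : Fin n) (r : ℕ) : Fin m :=
  if h : (i : ℕ) * k + r < m then ⟨(i : ℕ) * k + r, h⟩ else ⟨0, hm⟩

lemma cell_lt (k : ℕ) (hk : n * k ≤ m) (i : Fin n) (r : ℕ) (hr : r < k) :
    (i : ℕ) * k + r < m := by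
  have h1 : ((i : ℕ) + 1) * k ≤ n * k := Nat.mul_le_mul_right _ i.2
  have h2 : ((i : ℕ) + 1) * k = (i : ℕ) * k + k := by ring
  omega

lemma cell_inj (hm : 0 < m) (k : ℕ) (hk : n * k ≤ m) (i i' : Fin n) (r r' : ℕ) (hr : r < k)
    (hr' : r' < k) (h : cell hm k i r = cell hm k i' r') : i = i' ∧ r = r' := by
  unfold cell at h
  rw [dif_pos (cell_lt k hk i r hr), dif_pos (cell_lt k hk i' r' hr')] at h
  have h1 : (i : ℕ) * k + r = (i' : ℕ) * k + r' := by simpa using h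
  have hk0 : 0 < k := by omega
  have h2 : ((i : ℕ) * k + r) / k = i := by
    rw [mul_comm, Nat.mul_add_div hk0, Nat.div_eq_of_lt hr, add_zero]
  have h3 : ((i' : ℕ) * k + r') / k = i' := by
    rw [mul_comm, Nat.mul_add_div hk0, Nat.div_eq_of_lt hr', add_zero]
  have h4 : (i : ℕ) = i' := by rw [← h2, ← h3, h1]
  refine ⟨Fin.ext h4, ?_⟩
  rw [h4] at h1
  omega

/-- the blown-up word -/
def blow (hm : 0 < m) (k : ℕ) (A : Finset (Fin n)) (a : Fin N → Fin n) (v : ℕ) : Fin m :=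
  if h : v / k < N then
    (if a ⟨v / k, h⟩ ∈ A then cell hm k (a ⟨v / k, h⟩) 0 else cell hm k (a ⟨v / k, h⟩) (v % k))
  else ⟨0, hm⟩

lemma blow_at (hm : 0 < m) (k : ℕ) (A : Finset (Fin n)) (a : Fin N → Fin n) (s : Fin N) (r : ℕ)
    (hr : r < k) :
    blow hm k A a ((s : ℕ) * k + r) =
      if a s ∈ A then cell hm k (a s) 0 else cell hm k (a s) r := by
  have hk0 : 0 < k := by omega
  have h1 : ((s : ℕ) * k + r) / k = s := by
    rw [mul_comm, Nat.mul_add_div hk0, Nat.div_eq_of_lt hr, add_zero]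
  have h2 : ((s : ℕ) * k + r) % k = r := by
    rw [mul_comm, Nat.mul_add_mod, Nat.mod_eq_of_lt hr]
  unfold blow
  have h3 : ((s : ℕ) * k + r) / k < N := by rw [h1]; exact s.2
  rw [dif_pos h3, h2]
  have h4 : (⟨((s : ℕ) * k + r) / k, h3⟩ : Fin N) = s := Fin.ext h1
  rw [h4]

/-- the phones of a set of groups -/
def cells (hm : 0 < m) (k : ℕ) (D : Finset (Fin n)) : Finset (Fin m) :=
  (D ×ˢ range k).image fun x => cell hm k x.1 x.2

lemma cells_card (hm : 0 < m) (k : ℕ) (hk : n * k ≤ m) (D : Finset (Fin n)) :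
    (cells hm k D).card = D.card * k := by
  unfold cells
  rw [card_image_of_injOn, card_product, card_range]
  intro x hx y hy hxy
  simp only [coe_product, Set.mem_prod, mem_coe, mem_range] at hx hy
  obtain ⟨h1, h2⟩ := cell_inj hm k hk x.1 y.1 x.2 y.2 hx.2 hy.2 hxy
  exact Prod.ext h1 h2

/-- the blown-up tour pairs -/
def cellPairs (hm : 0 < m) (k : ℕ) (F : Finset (Fin n × Fin n)) : Finset (Fin m × Fin m) :=
  (F ×ˢ range k).image fun x => (cell hm k x.1.1 x.2, cell hm k x.1.2 x.2)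

lemma cellPairs_card (hm : 0 < m) (k : ℕ) (hk : n * k ≤ m) (F : Finset (Fin n × Fin n)) :
    (cellPairs hm k F).card = F.card * k := by
  unfold cellPairs
  rw [card_image_of_injOn, card_product, card_range]
  intro x hx y hy hxy
  simp only [coe_product, Set.mem_prod, mem_coe, mem_range] at hx hy
  have h0 := Prod.ext_iff.1 hxy
  obtain ⟨h1, h2⟩ := cell_inj hm k hk x.1.1 y.1.1 x.2 y.2 hx.2 hy.2 h0.1
  obtain ⟨h3, _⟩ := cell_inj hm k hk x.1.2 y.1.2 x.2 y.2 hx.2 hy.2 h0.2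
  exact Prod.ext (Prod.ext h1 h3) h2

private lemma limBlow_err (n m x y r : ℝ) (hm : 2 ≤ m) (hn : 0 ≤ n) (_hx0 : 0 ≤ x) (hx : x ≤ n * m)
    (hy0 : 0 ≤ y) (hy : y ≤ r * (n * m)) (_hr : 0 ≤ r) :
    x * y / (m ^ 2 * (m - 1)) ≤ r * (n ^ 2 / (m - 1)) := by
  have hm1 : 0 < m - 1 := by linarith
  have hm0 : 0 < m := by linarith
  have h5 : x * y ≤ (n * m) * (r * (n * m)) := mul_le_mul hx hy hy0 (by positivity)
  calc x * y / (m ^ 2 * (m - 1)) ≤ (n * m) * (r * (n * m)) / (m ^ 2 * (m - 1)) :=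
        div_le_div_of_nonneg_right h5 (by positivity)
    _ = _ := by field_simp

private lemma limBlow_comb (p1 p2 p3 p4 X1 X2 q e1 e2 e3 n : ℝ) {m : ℝ} (hm : 2 ≤ m)
    (hX20 : 0 ≤ X2) (hX21 : X2 ≤ 1) (hq0 : 0 ≤ q) (hq1 : q ≤ 1)
    (h1 : p1 ≤ X1 + e1) (h2 : p2 ≤ p1 * X2 + e2) (h3 : p3 ≤ p2 * q + e3) (h4 : p4 ≤ p3)
    (he1 : e1 ≤ 1 * (n ^ 2 / (m - 1))) (he2 : e2 ≤ 2 * (n ^ 2 / (m - 1)))
    (he3 : e3 ≤ 3 * (n ^ 2 / (m - 1))) :
    p4 ≤ X1 * X2 * q + 6 * n ^ 2 / (m - 1) := by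
  have hm1 : 0 < m - 1 := by linarith
  have hw0 : 0 ≤ n ^ 2 / (m - 1) := by positivity
  have hw : 6 * n ^ 2 / (m - 1) = 6 * (n ^ 2 / (m - 1)) := by ring
  rw [hw]
  generalize n ^ 2 / (m - 1) = w at *
  have hb1 : p1 ≤ X1 + w := by linarith
  have hb2 : p2 ≤ X1 * X2 + 3 * w := by
    have h5 : p1 * X2 ≤ (X1 + w) * X2 := mul_le_mul_of_nonneg_right hb1 hX20
    have h6 : w * X2 ≤ w := mul_le_of_le_one_right hw0 hX21
    nlinarith
  have h5 : p2 * q ≤ (X1 * X2 + 3 * w) * q := mul_le_mul_of_nonneg_right hb2 hq0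
  have h6 : w * q ≤ w := mul_le_of_le_one_right hw0 hq1
  nlinarith

theorem blow_core (hn : 0 < n) (hm : 2 ≤ m) (k : ℕ) (hk0 : 0 < k) (hk : n * k ≤ m) (t : ℕ)
    (a b : Fin N → Fin n) (A B : Finset (Fin n)) :
    pAvoid (pairsUp (t * k) (blow (by omega : 0 < m) k A a) (blow (by omega : 0 < m) k B b)) ≤
      (∏ i ∈ A, (1 - (((swept t a b B i).card * k : ℕ) : ℝ) / m)) *
        (∏ j ∈ B, (1 - (((swept t b a A j).card * k : ℕ) : ℝ) / m)) *
        (1 - 1 / (m : ℝ)) ^ ((tourPairs t a b A B).card * k) + 6 * (n : ℝ) ^ 2 / ((m : ℝ) - 1) := by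
  classical
  have hm' : 0 < m := by omega
  have hm0 : (0 : ℝ) < m := by exact_mod_cast hm'
  have hm2 : (2 : ℝ) ≤ m := by exact_mod_cast hm
  have hm1 : (0 : ℝ) < (m : ℝ) - 1 := by linarith
  set SR := fun i : Fin n => rowStar (cell hm' k i 0) (cells hm' k (swept t a b B i)) with hSR
  set SC := fun j : Fin n => colStar (cell hm' k j 0) (cells hm' k (swept t b a A j)) with hSC
  set F := cellPairs hm' k (tourPairs t a b A B) with hF
  have hcR : ∀ i, (SR i).card = (swept t a b B i).card * k := fun i => by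
    rw [hSR]; simp only; rw [rowStar_card, cells_card _ _ hk]
  have hcC : ∀ j, (SC j).card = (swept t b a A j).card * k := fun j => by
    rw [hSC]; simp only; rw [colStar_card, cells_card _ _ hk]
  have hcF : F.card = (tourPairs t a b A B).card * k := cellPairs_card _ _ hk _
  have hRm : ∀ i, (SR i).card ≤ m := fun i => by
    rw [hcR]; exact (Nat.mul_le_mul_right _ (swept_card_le _ _ _ _ _)).trans hk
  have hCm : ∀ i, (SC i).card ≤ m := fun i => by
    rw [hcC]; exact (Nat.mul_le_mul_right _ (swept_card_le _ _ _ _ _)).trans hk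
  have hsumR : ∑ i ∈ A, ((SR i).card : ℝ) ≤ n * m := by
    have h1 : ∑ i ∈ A, ((SR i).card : ℝ) ≤ ∑ _i ∈ A, (m : ℝ) :=
      Finset.sum_le_sum fun i _ => by exact_mod_cast hRm i
    rw [sum_const, nsmul_eq_mul] at h1
    have h2 : (A.card : ℝ) ≤ n := by
      have := card_le_univ A
      rw [Fintype.card_fin] at this
      exact_mod_cast this
    nlinarith
  have hsumC : ∑ i ∈ B, ((SC i).card : ℝ) ≤ n * m := by
    have h1 : ∑ i ∈ B, ((SC i).card : ℝ) ≤ ∑ _i ∈ B, (m : ℝ) :=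
      Finset.sum_le_sum fun i _ => by exact_mod_cast hCm i
    rw [sum_const, nsmul_eq_mul] at h1
    have h2 : (B.card : ℝ) ≤ n := by
      have := card_le_univ B
      rw [Fintype.card_fin] at this
      exact_mod_cast this
    nlinarith
  have hFm : (F.card : ℝ) ≤ n * m := by
    rw [hcF]
    have h1 : (tourPairs t a b A B).card ≤ n * n := by
      have := card_le_univ (tourPairs t a b A B)
      rwa [Fintype.card_prod, Fintype.card_fin] at this
    have h2 : (tourPairs t a b A B).card * k ≤ n * m := by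
      calc (tourPairs t a b A B).card * k ≤ n * n * k := Nat.mul_le_mul_right _ h1
        _ = n * (n * k) := by ring
        _ ≤ n * m := Nat.mul_le_mul_left _ hk
    exact_mod_cast h2
  -- membership facts
  have hcells : ∀ (D : Finset (Fin n)) (x : Fin m), x ∈ cells hm' k D ↔
      ∃ i ∈ D, ∃ r < k, cell hm' k i r = x := by
    intro D x
    unfold cells
    simp only [mem_image, mem_product, mem_range, Prod.exists]
    constructor
    · rintro ⟨i, r, ⟨h1, h2⟩, h3⟩; exact ⟨i, h1, r, h2, h3⟩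
    · rintro ⟨i, h1, r, h2, h3⟩; exact ⟨i, r, ⟨h1, h2⟩, h3⟩
  have hA : ∀ j, ∀ i ∈ swept t b a A j, i ∉ A := by
    intro j i hi
    obtain ⟨s, _, _, _, h4⟩ := mem_swept.1 hi
    exact h4
  have hB : ∀ i, ∀ j ∈ swept t a b B i, j ∉ B := by
    intro i j hj
    obtain ⟨s, _, _, _, h4⟩ := mem_swept.1 hj
    exact h4
  -- rows
  have h1 := pAvoid_family_le hm A SR (fun i _ => thin_row (cell hm' k i 0) _ (fun e he =>
      (mem_rowStar.1 he).1)) (fun i _ => hRm i)
    (by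
      intro i _ j _ hij
      rw [Finset.disjoint_left]
      intro e h1 h2
      have h3 := (mem_rowStar.1 h1).1
      have h4 := (mem_rowStar.1 h2).1
      exact hij (cell_inj hm' k hk i j 0 0 hk0 hk0 (h3.symm.trans h4)).1) ∅
    (fun i _ => disjoint_empty_left _)
  rw [pAvoid_empty, one_mul, empty_union, card_empty] at h1
  set R := A.biUnion SR with hR
  have hmemR : ∀ e ∈ R, ∃ i ∈ A, e.1 = cell hm' k i 0 ∧ e.2 ∈ cells hm' k (swept t a b B i) := by
    intro e he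
    obtain ⟨i, hi, h2⟩ := mem_biUnion.1 he
    exact ⟨i, hi, (mem_rowStar.1 h2).1, (mem_rowStar.1 h2).2⟩
  -- columns
  have h2 := pAvoid_family_le hm B SC (fun i _ => thin_col (cell hm' k i 0) _ (fun e he =>
      (mem_colStar.1 he).1)) (fun i _ => hCm i)
    (by
      intro i _ j _ hij
      rw [Finset.disjoint_left]
      intro e h1 h2
      have h3 := (mem_colStar.1 h1).1
      have h4 := (mem_colStar.1 h2).1
      exact hij (cell_inj hm' k hk i j 0 0 hk0 hk0 (h3.symm.trans h4)).1) R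
    (by
      intro j hj
      rw [Finset.disjoint_left]
      intro e h1 h2
      obtain ⟨i, hi, h3, _⟩ := hmemR e h1
      obtain ⟨h5, h6⟩ := mem_colStar.1 h2
      obtain ⟨i', hi', r, hr, h7⟩ := (hcells _ _).1 h6
      rw [h3] at h7
      have h8 := (cell_inj hm' k hk i' i r 0 hr hk0 h7).1
      exact hA j i' hi' (h8 ▸ hi))
  set C := B.biUnion SC with hC
  have hmemC : ∀ e ∈ C, ∃ j ∈ B, e.2 = cell hm' k j 0 ∧ e.1 ∈ cells hm' k (swept t b a A j) := by
    intro e he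
    obtain ⟨i, hi, h2⟩ := mem_biUnion.1 he
    exact ⟨i, hi, (mem_colStar.1 h2).1, (mem_colStar.1 h2).2⟩
  have hmemF : ∀ e ∈ F, ∃ f ∈ tourPairs t a b A B, ∃ r < k, cell hm' k f.1 r = e.1 ∧
      cell hm' k f.2 r = e.2 := by
    intro e he
    rw [hF, cellPairs, mem_image] at he
    obtain ⟨x, hx, rfl⟩ := he
    rw [mem_product, mem_range] at hx
    exact ⟨x.1, hx.1, x.2, hx.2, rfl, rfl⟩
  have hd3 : Disjoint (R ∪ C) F := by
    rw [Finset.disjoint_left]
    intro e h1 h2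
    obtain ⟨f, hf, r, hr, h3, h4⟩ := hmemF e h2
    obtain ⟨s, _, _, _, h5, h6⟩ := mem_tourPairs.1 hf
    rcases mem_union.1 h1 with h | h
    · obtain ⟨i, hi, h7, _⟩ := hmemR e h
      rw [h7] at h3
      have h8 := (cell_inj hm' k hk _ _ r 0 hr hk0 h3).1
      exact h5 (h8 ▸ hi)
    · obtain ⟨i, hi, h7, _⟩ := hmemC e h
      rw [h7] at h4
      have h8 := (cell_inj hm' k hk _ _ r 0 hr hk0 h4).1
      exact h6 (h8 ▸ hi)
  have h3 := pAvoid_union_le hm (R ∪ C) F hd3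
  have hsub : R ∪ C ∪ F ⊆ pairsUp (t * k) (blow hm' k A a) (blow hm' k B b) := by
    intro e he
    have hlt : ∀ (s : Fin N) (r : ℕ), (s : ℕ) < t → r < k → (s : ℕ) * k + r < t * k := by
      intro s r hs hr
      have h1 : ((s : ℕ) + 1) * k ≤ t * k := Nat.mul_le_mul_right _ hs
      have h2 : ((s : ℕ) + 1) * k = (s : ℕ) * k + k := by ring
      omega
    have hgoal : ∃ v < t * k, blow hm' k A a v = e.1 ∧ blow hm' k B b v = e.2 := by
      rcases mem_union.1 he with h | h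
      · rcases mem_union.1 h with h | h
        · obtain ⟨i, hi, h1, h2⟩ := hmemR e h
          obtain ⟨j, hj, r, hr, h3⟩ := (hcells _ _).1 h2
          obtain ⟨s, hs, h4, h5, h6⟩ := mem_swept.1 hj
          refine ⟨(s : ℕ) * k + r, hlt s r hs hr, ?_, ?_⟩
          · rw [blow_at hm' k A a s r hr, h4, if_pos hi, h1]
          · rw [blow_at hm' k B b s r hr, h5, if_neg h6, h3]
        · obtain ⟨i, hi, h1, h2⟩ := hmemC e h
          obtain ⟨j, hj, r, hr, h3⟩ := (hcells _ _).1 h2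
          obtain ⟨s, hs, h4, h5, h6⟩ := mem_swept.1 hj
          refine ⟨(s : ℕ) * k + r, hlt s r hs hr, ?_, ?_⟩
          · rw [blow_at hm' k A a s r hr, h5, if_neg h6, h3]
          · rw [blow_at hm' k B b s r hr, h4, if_pos hi, h1]
      · obtain ⟨f, hf, r, hr, h3, h4⟩ := hmemF e h
        obtain ⟨s, hs, h5, h6, h7, h8⟩ := mem_tourPairs.1 hf
        refine ⟨(s : ℕ) * k + r, hlt s r hs hr, ?_, ?_⟩
        · rw [blow_at hm' k A a s r hr, h5, if_neg h7, h3]
        · rw [blow_at hm' k B b s r hr, h6, if_neg h8, h4]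
    obtain ⟨v, hv, h1, h2⟩ := hgoal
    exact mem_image.2 ⟨v, mem_range.2 hv, Prod.ext h1 h2⟩
  have h4 := pAvoid_anti hsub
  simp_rw [hcR] at h1
  simp_rw [hcC] at h2
  rw [hcF] at h3
  have hsR : ∑ i ∈ A, (((swept t a b B i).card * k : ℕ) : ℝ) ≤ n * m := by
    simpa [hcR] using hsumR
  have hsC : ∑ i ∈ B, (((swept t b a A i).card * k : ℕ) : ℝ) ≤ n * m := by
    simpa [hcC] using hsumC
  have hFk : ((((tourPairs t a b A B).card * k : ℕ)) : ℝ) ≤ n * m := by rw [← hcF]; exact hFm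
  have hRc : (R.card : ℝ) ≤ n * m := by
    have h5 : (R.card : ℝ) ≤ ∑ i ∈ A, ((SR i).card : ℝ) := by exact_mod_cast card_biUnion_le
    exact h5.trans hsumR
  have hRCc : ((R ∪ C).card : ℝ) ≤ 2 * (n * m) := by
    have h5 : (C.card : ℝ) ≤ ∑ i ∈ B, ((SC i).card : ℝ) := by exact_mod_cast card_biUnion_le
    have h6 : ((R ∪ C).card : ℝ) ≤ R.card + C.card := by exact_mod_cast card_union_le R C
    linarith
  set X1 := ∏ i ∈ A, (1 - (((swept t a b B i).card * k : ℕ) : ℝ) / m) with hX1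
  set X2 := ∏ j ∈ B, (1 - (((swept t b a A j).card * k : ℕ) : ℝ) / m) with hX2
  set qF := (1 - 1 / (m : ℝ)) ^ ((tourPairs t a b A B).card * k) with hqF
  have hf0 : ∀ x : ℕ, x ≤ n → 0 ≤ 1 - ((x * k : ℕ) : ℝ) / m := fun x hx => by
    rw [sub_nonneg, div_le_one hm0]
    exact_mod_cast (Nat.mul_le_mul_right _ hx).trans hk
  have hf1 : ∀ x : ℕ, 1 - ((x * k : ℕ) : ℝ) / m ≤ 1 := fun x => by
    have : 0 ≤ ((x * k : ℕ) : ℝ) / m := by positivity
    linarith
  have hX20 : 0 ≤ X2 := prod_nonneg fun j _ => hf0 _ (swept_card_le _ _ _ _ _)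
  have hX21 : X2 ≤ 1 := prod_le_one (fun j _ => hf0 _ (swept_card_le _ _ _ _ _)) fun j _ => hf1 _
  have hq0 : 0 ≤ 1 - 1 / (m : ℝ) := by
    rw [sub_nonneg, div_le_one hm0]; linarith
  have hqF0 : 0 ≤ qF := pow_nonneg hq0 _
  have hqF1 : qF ≤ 1 := pow_le_one₀ hq0 (by have : 0 ≤ 1 / (m : ℝ) := by positivity
                                            linarith)
  have hsR0 : 0 ≤ ∑ i ∈ A, (((swept t a b B i).card * k : ℕ) : ℝ) :=
    sum_nonneg fun _ _ => Nat.cast_nonneg _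
  have hsC0 : 0 ≤ ∑ i ∈ B, (((swept t b a A i).card * k : ℕ) : ℝ) :=
    sum_nonneg fun _ _ => Nat.cast_nonneg _
  have hn0 : (0 : ℝ) ≤ n := Nat.cast_nonneg _
  have he1 := limBlow_err n m _ ((0 : ℕ) + ∑ i ∈ A, (((swept t a b B i).card * k : ℕ) : ℝ)) 1
    hm2 hn0 hsR0 hsR (by simpa using hsR0) (by simpa using hsR) zero_le_one
  have he2 := limBlow_err n m _ (R.card + ∑ i ∈ B, (((swept t b a A i).card * k : ℕ) : ℝ)) 2
    hm2 hn0 hsC0 hsC (add_nonneg (Nat.cast_nonneg _) hsC0) (by linarith) zero_le_two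
  have he3 := limBlow_err n m (((tourPairs t a b A B).card * k : ℕ) : ℝ)
    ((R ∪ C).card + (((tourPairs t a b A B).card * k : ℕ) : ℝ)) 3 hm2 hn0 (Nat.cast_nonneg _) hFk
    (add_nonneg (Nat.cast_nonneg _) (Nat.cast_nonneg _)) (by linarith) zero_le_three
  exact limBlow_comb _ _ _ _ X1 X2 qF _ _ _ _ hm2 hX20 hX21 hqF0 hqF1 h1 h2 h3 h4 he1 he2 he3

end Pool.Agent.Lib.MP92dd55
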