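import Mathlib
import Pool.Agent.Lib.MP92dd55.Reduce
import Pool.Agent.Lib.MP92dd55.LimLower2

/-! # Reduction of the expected time to finite sums with a common horizon -/

namespace Pool.Agent.Lib.MP92dd55

open MeasureTheory Finset
open scoped ENNReal

variable {n : ℕ}

/-- finite-horizon indicator -/
noncomputable def notMetN {N : ℕ} (t : ℕ) (σ : Equiv.Perm (Fin n)) (a b : Fin N → Fin n) : ℝ≥0∞ :=
  open Classical in if ∀ s : Fin N, (s : ℕ) < t → σ (a s) ≠ b s then 1 else 0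

lemma notMet_eqN (N t : ℕ) (ht : t ≤ N) (σ : Equiv.Perm (Fin n)) (x y : ℕ → Fin n) :
    notMet t σ x y = notMetN t σ (restr N x) (restr N y) := by
  unfold notMet notMetN restr
  congr 1
  apply propext
  constructor
  · intro h s hs; exact h s hs
  · intro h s hs; exact h ⟨s, hs.trans_le ht⟩ hs

lemma lintegral_notMetN (μ : Measure (ℕ → Fin n)) [IsProbabilityMeasure μ] (N t : ℕ) (ht : t ≤ N)
    (σ : Equiv.Perm (Fin n)) :
    ∫⁻ x, ∫⁻ y, notMet t σ x y ∂μ ∂μ =
      ∑ a : Fin N → Fin n, ∑ b : Fin N → Fin n,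
        notMetN t σ a b * (μ.map (restr N)) {b} * (μ.map (restr N)) {a} := by
  have hm := measurable_restr (n := n) N
  have h1 : ∀ x : ℕ → Fin n, ∫⁻ y, notMet t σ x y ∂μ =
      ∑ b : Fin N → Fin n, notMetN t σ (restr N x) b * (μ.map (restr N)) {b} := by
    intro x
    simp_rw [notMet_eqN N t ht]
    rw [← lintegral_map (f := fun b => notMetN t σ (restr N x) b) (measurable_of_finite _) hm]
    rw [lintegral_fintype]
  simp_rw [h1]
  rw [← lintegral_map (f := fun a => ∑ b : Fin N → Fin n, notMetN t σ a b *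
    (μ.map (restr N)) {b}) (measurable_of_finite _) hm, lintegral_fintype]
  refine Finset.sum_congr rfl fun a _ => ?_
  rw [Finset.sum_mul]

lemma sum_notMetN {N : ℕ} (t : ℕ) (a b : Fin N → Fin n) :
    ∑ σ : Equiv.Perm (Fin n), notMetN t σ a b = ((avoid (pairsT t a b)).card : ℝ≥0∞) := by
  classical
  unfold notMetN avoid pairsT
  rw [Finset.sum_ite]
  simp only [sum_const, nsmul_eq_mul, mul_one, mul_zero, add_zero]
  congr 2
  ext σ
  simp

/-- The probability of not having met by time `t`, as a finite sum over words of length `N`. -/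
lemma sum_lintegral_notMetN (μ : Measure (ℕ → Fin n)) [IsProbabilityMeasure μ] (N t : ℕ)
    (ht : t ≤ N) :
    (∑ σ : Equiv.Perm (Fin n), ∫⁻ x, ∫⁻ y, notMet t σ x y ∂μ ∂μ) / (Nat.factorial n : ℝ≥0∞) =
      ENNReal.ofReal (∑ a, ∑ b, wt μ N a * wt μ N b * pAvoid (pairsT t a b)) := by
  have hm := measurable_restr (n := n) N
  have : IsProbabilityMeasure (μ.map (restr N)) := Measure.isProbabilityMeasure_map hm.aemeasurable
  have hw : ∀ a, (μ.map (restr N)) {a} = ENNReal.ofReal (wt μ N a) := by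
    intro a; unfold wt; rw [ENNReal.ofReal_toReal (measure_ne_top _ _)]
  simp_rw [lintegral_notMetN μ N t ht]
  rw [Finset.sum_comm]
  have h1 : ∀ a : Fin N → Fin n, ∑ σ : Equiv.Perm (Fin n), ∑ b : Fin N → Fin n,
        notMetN t σ a b * (μ.map (restr N)) {b} * (μ.map (restr N)) {a} =
      ∑ b, ((avoid (pairsT t a b)).card : ℝ≥0∞) * (μ.map (restr N)) {b} * (μ.map (restr N)) {a} := by
    intro a
    rw [Finset.sum_comm]
    refine Finset.sum_congr rfl fun b _ => ?_
    rw [← Finset.sum_mul, ← Finset.sum_mul, sum_notMetN]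
  simp_rw [h1]
  rw [div_eq_mul_inv, Finset.sum_mul, ENNReal.ofReal_sum_of_nonneg]
  swap
  · intro a _
    exact Finset.sum_nonneg fun b _ =>
      mul_nonneg (mul_nonneg (wt_nonneg _ _ _) (wt_nonneg _ _ _)) (pAvoid_nonneg _)
  refine Finset.sum_congr rfl fun a _ => ?_
  rw [Finset.sum_mul, ENNReal.ofReal_sum_of_nonneg]
  swap
  · intro b _
    exact mul_nonneg (mul_nonneg (wt_nonneg _ _ _) (wt_nonneg _ _ _)) (pAvoid_nonneg _)
  refine Finset.sum_congr rfl fun b _ => ?_
  rw [hw, hw]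
  have hfac : (0 : ℝ) < (Nat.factorial n : ℝ) := by positivity
  unfold pAvoid
  rw [ENNReal.ofReal_mul (mul_nonneg (wt_nonneg _ _ _) (wt_nonneg _ _ _)),
    ENNReal.ofReal_mul (wt_nonneg _ _ _), ENNReal.ofReal_div_of_pos hfac,
    ENNReal.ofReal_natCast, ENNReal.ofReal_natCast, div_eq_mul_inv]
  ring

/-- probability of not having met before time `t`, words of length `N` -/
noncomputable def pN (μ : Measure (ℕ → Fin n)) (N t : ℕ) : ℝ :=
  ∑ a : Fin N → Fin n, ∑ b : Fin N → Fin n, wt μ N a * wt μ N b * pAvoid (pairsT t a b)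

lemma pN_nonneg (μ : Measure (ℕ → Fin n)) (N t : ℕ) : 0 ≤ pN μ N t :=
  Finset.sum_nonneg fun _ _ => Finset.sum_nonneg fun _ _ =>
    mul_nonneg (mul_nonneg (wt_nonneg _ _ _) (wt_nonneg _ _ _)) (pAvoid_nonneg _)

theorem expectedTime_geN (μ : Measure (ℕ → Fin n)) [IsProbabilityMeasure μ] (N M : ℕ)
    (hM : M ≤ N + 1) :
    ENNReal.ofReal (∑ t ∈ range M, pN μ N t) ≤ expectedTime μ := by
  rw [ENNReal.ofReal_sum_of_nonneg fun t _ => pN_nonneg μ N t]
  refine le_trans (le_of_eq ?_) (expectedTime_ge μ M)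
  refine Finset.sum_congr rfl fun t ht => ?_
  have ht' : t ≤ N := by have := mem_range.1 ht; omega
  unfold pN
  rw [← sum_lintegral_notMetN μ N t ht', ← sum_lintegral_notMet μ t]

lemma pN_anti (μ : Measure (ℕ → Fin n)) (N : ℕ) {s t : ℕ} (h : s ≤ t) : pN μ N t ≤ pN μ N s := by
  unfold pN
  gcongr with a _ b _
  · exact mul_nonneg (wt_nonneg _ _ _) (wt_nonneg _ _ _)
  · apply pAvoid_anti
    intro e he
    obtain ⟨u, hu, h1, h2⟩ := mem_pairsT.1 he
    exact mem_pairsT.2 ⟨u, hu.trans_le h, h1, h2⟩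

end Pool.Agent.Lib.MP92dd55
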