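import Mathlib
import Pool.Agent.Lib.MP92dd55.LimBlow

/-! # Every design gives an asymptotic upper bound -/

namespace Pool.Agent.Lib.MP92dd55

open Finset Real MeasureTheory
open scoped ENNReal

variable {n N m : ℕ}

theorem blow_le (hn : 0 < n) (hm : 2 ≤ m) (k : ℕ) (hk0 : 0 < k) (hk : n * k ≤ m)
    (hk2 : m < n * k + n) (t : ℕ) (a b : Fin N → Fin n) (A B : Finset (Fin n)) :
    pAvoid (pairsUp (t * k) (blow (by omega : 0 < m) k A a) (blow (by omega : 0 < m) k B b)) ≤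
      survival t a b A B + 9 * (n : ℝ) ^ 2 / ((m : ℝ) - 1) := by
  classical
  have hcore := blow_core hn hm k hk0 hk t a b A B
  have hn0 : (0 : ℝ) < n := by exact_mod_cast hn
  have hm0 : (0 : ℝ) < m := by
    have : 0 < m := by omega
    exact_mod_cast this
  have hm2 : (2 : ℝ) ≤ m := by exact_mod_cast hm
  have hm1 : (0 : ℝ) < (m : ℝ) - 1 := by linarith
  have hkR : (n : ℝ) * k ≤ m := by exact_mod_cast hk
  have hk2R : (m : ℝ) ≤ n * k + n := by exact_mod_cast hk2.le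
  -- single factor
  have hgap : ∀ c : ℝ, 0 ≤ c → c / n - c * k / m ≤ c / m := by
    intro c hc
    have h1 : c / n - c * k / m = c * (m - n * k) / (n * m) := by field_simp
    have h2 : c * (m - n * k) / (n * m) ≤ c * n / (n * m) := by
      apply div_le_div_of_nonneg_right _ (by positivity)
      exact mul_le_mul_of_nonneg_left (by linarith) hc
    have h3 : c * n / (n * m) = c / m := by field_simp
    linarith
  have hf : ∀ c : ℕ, c ≤ n → 1 - ((c * k : ℕ) : ℝ) / m ≤ (1 - (c : ℝ) / n) + n / m := by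
    intro c hc
    have h1 := hgap c (Nat.cast_nonneg _)
    have h2 : (c : ℝ) / m ≤ n / m := by
      apply div_le_div_of_nonneg_right _ hm0.le
      exact_mod_cast hc
    push_cast
    linarith
  have hf0 : ∀ c : ℕ, c ≤ n → 0 ≤ 1 - ((c * k : ℕ) : ℝ) / m := fun x hx => by
    rw [sub_nonneg, div_le_one hm0]
    exact_mod_cast (Nat.mul_le_mul_right _ hx).trans hk
  have hf1 : ∀ c : ℕ, 1 - ((c * k : ℕ) : ℝ) / m ≤ 1 := fun x => by
    have : 0 ≤ ((x * k : ℕ) : ℝ) / m := by positivity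
    linarith
  have hg0 : ∀ c : ℕ, c ≤ n → 0 ≤ 1 - (c : ℝ) / n := fun c hc => by
    rw [sub_nonneg, div_le_one hn0]; exact_mod_cast hc
  have hg1 : ∀ c : ℕ, 1 - (c : ℝ) / n ≤ 1 := fun c => by
    have : 0 ≤ (c : ℝ) / n := by positivity
    linarith
  have hε : (0 : ℝ) ≤ n / m := by positivity
  have hP1 := prod_le_add A (fun i => 1 - (((swept t a b B i).card * k : ℕ) : ℝ) / m)
    (fun i => 1 - ((swept t a b B i).card : ℝ) / n) (n / m) hε
    (fun i _ => hf0 _ (swept_card_le _ _ _ _ _)) (fun i _ => hf1 _)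
    (fun i _ => hg0 _ (swept_card_le _ _ _ _ _)) (fun i _ => hg1 _)
    (fun i _ => hf _ (swept_card_le _ _ _ _ _))
  have hP2 := prod_le_add B (fun j => 1 - (((swept t b a A j).card * k : ℕ) : ℝ) / m)
    (fun j => 1 - ((swept t b a A j).card : ℝ) / n) (n / m) hε
    (fun i _ => hf0 _ (swept_card_le _ _ _ _ _)) (fun i _ => hf1 _)
    (fun i _ => hg0 _ (swept_card_le _ _ _ _ _)) (fun i _ => hg1 _)
    (fun i _ => hf _ (swept_card_le _ _ _ _ _))
  set X1 := ∏ i ∈ A, (1 - (((swept t a b B i).card * k : ℕ) : ℝ) / m)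
  set X2 := ∏ j ∈ B, (1 - (((swept t b a A j).card * k : ℕ) : ℝ) / m)
  set Y1 := ∏ i ∈ A, (1 - ((swept t a b B i).card : ℝ) / n)
  set Y2 := ∏ j ∈ B, (1 - ((swept t b a A j).card : ℝ) / n)
  set ℓ := (tourPairs t a b A B).card with hℓ
  have hX20 : 0 ≤ X2 := prod_nonneg fun j _ => hf0 _ (swept_card_le _ _ _ _ _)
  have hX21 : X2 ≤ 1 := prod_le_one (fun j _ => hf0 _ (swept_card_le _ _ _ _ _)) fun j _ => hf1 _
  have hY10 : 0 ≤ Y1 := prod_nonneg fun j _ => hg0 _ (swept_card_le _ _ _ _ _)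
  have hY11 : Y1 ≤ 1 := prod_le_one (fun j _ => hg0 _ (swept_card_le _ _ _ _ _)) fun j _ => hg1 _
  have hY20 : 0 ≤ Y2 := prod_nonneg fun j _ => hg0 _ (swept_card_le _ _ _ _ _)
  have hY21 : Y2 ≤ 1 := prod_le_one (fun j _ => hg0 _ (swept_card_le _ _ _ _ _)) fun j _ => hg1 _
  have hAn : (A.card : ℝ) ≤ n := by
    have := card_le_univ A
    rw [Fintype.card_fin] at this
    exact_mod_cast this
  have hBn : (B.card : ℝ) ≤ n := by
    have := card_le_univ B
    rw [Fintype.card_fin] at this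
    exact_mod_cast this
  have h12 := mul_le_add hX20 hX21 hY10 hY11 (by positivity : 0 ≤ (A.card : ℝ) * (n / m))
    (by positivity : 0 ≤ (B.card : ℝ) * (n / m)) hP1 hP2
  have hℓ2 : (ℓ : ℝ) ≤ (n : ℝ) ^ 2 := by
    have := card_le_univ (tourPairs t a b A B)
    rw [Fintype.card_prod, Fintype.card_fin, ← sq] at this
    exact_mod_cast this
  have hE : (1 - 1 / (m : ℝ)) ^ (ℓ * k) ≤ exp (-((ℓ : ℝ) / n)) + (n : ℝ) ^ 2 / m := by
    have h1 := one_sub_pow_le_exp (m : ℝ) (by linarith) (ℓ * k)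
    have h2 : ((ℓ * k : ℕ) : ℝ) / m ≤ ℓ / n := by
      rw [div_le_div_iff₀ hm0 hn0]
      push_cast
      have : (0 : ℝ) ≤ ℓ := Nat.cast_nonneg _
      nlinarith
    have h3 := exp_neg_sub_le (by positivity : (0 : ℝ) ≤ ((ℓ * k : ℕ) : ℝ) / m) h2
    have h4 := hgap ℓ (Nat.cast_nonneg _)
    have h5 : (ℓ : ℝ) / m ≤ (n : ℝ) ^ 2 / m := by
      apply div_le_div_of_nonneg_right hℓ2 hm0.le
    push_cast at h3
    push_cast at h1
    linarith
  have hq0 : 0 ≤ 1 - 1 / (m : ℝ) := by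
    rw [sub_nonneg, div_le_one hm0]; linarith
  have hq1 : 1 - 1 / (m : ℝ) ≤ 1 := by
    have : 0 ≤ 1 / (m : ℝ) := by positivity
    linarith
  have h123 := mul_le_add (pow_nonneg hq0 (ℓ * k)) (pow_le_one₀ hq0 hq1) (mul_nonneg hY10 hY20)
    (mul_le_one₀ hY11 hY20 hY21) (by positivity) (by positivity) h12 hE
  have hs : survival t a b A B = Y1 * Y2 * exp (-((ℓ : ℝ) / n)) := rfl
  rw [hs]
  have h6 : (A.card : ℝ) * (n / m) + (B.card : ℝ) * (n / m) + (n : ℝ) ^ 2 / m ≤
      3 * ((n : ℝ) ^ 2 / m) := by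
    have h7 : (A.card : ℝ) * (n / m) ≤ n * (n / m) := mul_le_mul_of_nonneg_right hAn hε
    have h8 : (B.card : ℝ) * (n / m) ≤ n * (n / m) := mul_le_mul_of_nonneg_right hBn hε
    have h9 : (n : ℝ) * (n / m) = (n : ℝ) ^ 2 / m := by ring
    linarith
  have h7 : (n : ℝ) ^ 2 / m ≤ (n : ℝ) ^ 2 / ((m : ℝ) - 1) := by
    apply div_le_div_of_nonneg_left (by positivity) hm1 (by linarith)
  have h8 : 9 * (n : ℝ) ^ 2 / ((m : ℝ) - 1) = 9 * ((n : ℝ) ^ 2 / ((m : ℝ) - 1)) := by ring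
  have h9 : 6 * (n : ℝ) ^ 2 / ((m : ℝ) - 1) = 6 * ((n : ℝ) ^ 2 / ((m : ℝ) - 1)) := by ring
  rw [h8]
  rw [h9] at hcore
  linarith

lemma survival_nonneg (t : ℕ) (a b : Fin N → Fin n) (A B : Finset (Fin n)) :
    0 ≤ survival t a b A B := by
  have hf : ∀ c : ℕ, c ≤ n → 0 ≤ 1 - (c : ℝ) / n := fun c hc => by
    rcases Nat.eq_zero_or_pos n with h | h
    · subst h; simp
    · have hn0 : (0 : ℝ) < n := by exact_mod_cast h
      rw [sub_nonneg, div_le_one hn0]; exact_mod_cast hc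
  unfold survival
  refine mul_nonneg (mul_nonneg (prod_nonneg fun i _ => ?_) (prod_nonneg fun i _ => ?_))
    (exp_pos _).le
  · exact hf _ (swept_card_le _ _ _ _ _)
  · exact hf _ (swept_card_le _ _ _ _ _)

lemma surv_nonneg (d : Design) (t : ℕ) : 0 ≤ d.surv t :=
  sum_nonneg fun a _ => sum_nonneg fun b _ =>
    mul_nonneg (mul_nonneg (d.p_nonneg a) (d.p_nonneg b)) (survival_nonneg _ _ _ _ _)

lemma sum_range_mul_le (f : ℕ → ℝ) (hf : ∀ s t, s ≤ t → f t ≤ f s) (k N : ℕ) :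
    ∑ s ∈ range (N * k), f s ≤ k * ∑ t ∈ range N, f (t * k) := by
  induction N with
  | zero => simp
  | succ N ih =>
    rw [add_mul, one_mul, Finset.sum_range_add, Finset.sum_range_succ, mul_add]
    have h1 : ∑ x ∈ range k, f (N * k + x) ≤ ∑ _x ∈ range k, f (N * k) :=
      sum_le_sum fun x _ => hf _ _ (by omega)
    rw [sum_const, card_range, nsmul_eq_mul] at h1
    linarith

/-- the bound for the value on `m` phones given by a design -/
theorem design_bound (d : Design) (hm : 2 ≤ m) (k : ℕ) (hk0 : 0 < k) (hk : d.n * k ≤ m)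
    (hk2 : m < d.n * k + d.n) (hD : d.surv d.N + 9 * (d.n : ℝ) ^ 2 / ((m : ℝ) - 1) < 1) :
    rendezvousValue m ≤ ENNReal.ofReal
      ((k * (∑ t ∈ range d.N, d.surv t + d.N * (9 * (d.n : ℝ) ^ 2 / ((m : ℝ) - 1)))) /
        (1 - (d.surv d.N + 9 * (d.n : ℝ) ^ 2 / ((m : ℝ) - 1)))) := by
  classical
  have hm' : 0 < m := by omega
  set e := 9 * (d.n : ℝ) ^ 2 / ((m : ℝ) - 1) with he
  have hpt : ∀ t : ℕ, ∑ a, ∑ b, d.p a * d.p b *
      pAvoid (pairsUp (t * k) (blow hm' k (d.A a) a) (blow hm' k (d.A b) b)) ≤ d.surv t + e := by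
    intro t
    calc ∑ a, ∑ b, d.p a * d.p b *
        pAvoid (pairsUp (t * k) (blow hm' k (d.A a) a) (blow hm' k (d.A b) b))
        ≤ ∑ a, ∑ b, d.p a * d.p b * (survival t a b (d.A a) (d.A b) + e) := by
          refine sum_le_sum fun a _ => sum_le_sum fun b _ => ?_
          exact mul_le_mul_of_nonneg_left (blow_le d.n_pos hm k hk0 hk hk2 t a b _ _)
            (mul_nonneg (d.p_nonneg a) (d.p_nonneg b))
      _ = d.surv t + e := by
          unfold Design.surv
          simp_rw [mul_add, sum_add_distrib]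
          congr 1
          simp_rw [← Finset.sum_mul, ← Finset.mul_sum]
          rw [d.p_sum]
          simp [d.p_sum]
  refine value_le (n := m) d.p d.p_nonneg d.p_sum (fun a => blow hm' k (d.A a) a) (d.N * k)
    (Nat.mul_pos d.N_pos hk0) _ _ ?_ (hpt d.N) hD
  have h1 := sum_range_mul_le (fun s => ∑ a, ∑ b, d.p a * d.p b *
      pAvoid (pairsUp s (blow hm' k (d.A a) a) (blow hm' k (d.A b) b))) (by
        intro s t hst
        refine sum_le_sum fun a _ => sum_le_sum fun b _ => ?_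
        apply mul_le_mul_of_nonneg_left _ (mul_nonneg (d.p_nonneg a) (d.p_nonneg b))
        apply pAvoid_anti
        unfold pairsUp
        apply image_subset_image
        intro x hx
        rw [mem_range] at hx ⊢
        omega) k d.N
  refine h1.trans ?_
  apply mul_le_mul_of_nonneg_left _ (Nat.cast_nonneg _)
  calc ∑ t ∈ range d.N, ∑ a, ∑ b, d.p a * d.p b *
      pAvoid (pairsUp (t * k) (blow hm' k (d.A a) a) (blow hm' k (d.A b) b))
      ≤ ∑ t ∈ range d.N, (d.surv t + e) := sum_le_sum fun t _ => hpt t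
    _ = _ := by rw [sum_add_distrib, sum_const, card_range, nsmul_eq_mul]

/-- **Upper half.** -/
theorem design_upper (d : Design) (hD : d.surv d.N < 1) (ε : ℝ) (hε : 0 < ε) :
    ∀ᶠ m : ℕ in Filter.atTop, rendezvousValue m ≤ ENNReal.ofReal ((d.value + ε) * m) := by
  have hn0 : (0 : ℝ) < d.n := by exact_mod_cast d.n_pos
  have he : Filter.Tendsto (fun m : ℕ => 9 * (d.n : ℝ) ^ 2 / ((m : ℝ) - 1)) Filter.atTop
      (nhds 0) := by
    apply Filter.Tendsto.div_atTop tendsto_const_nhds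
    exact Filter.tendsto_atTop_add_const_right _ _ tendsto_natCast_atTop_atTop
  have h1 : Filter.Tendsto (fun m : ℕ =>
      (∑ t ∈ range d.N, d.surv t + d.N * (9 * (d.n : ℝ) ^ 2 / ((m : ℝ) - 1))) / d.n /
        (1 - (d.surv d.N + 9 * (d.n : ℝ) ^ 2 / ((m : ℝ) - 1)))) Filter.atTop
      (nhds ((∑ t ∈ range d.N, d.surv t + d.N * 0) / d.n / (1 - (d.surv d.N + 0)))) := by
    apply Filter.Tendsto.div
    · exact ((he.const_mul _).const_add _).div_const _
    · exact (he.const_add _).const_sub _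
    · rw [add_zero]; linarith
  rw [mul_zero, add_zero, add_zero] at h1
  have h2 : (∑ t ∈ range d.N, d.surv t) / d.n / (1 - d.surv d.N) < d.value + ε := by
    unfold Design.value; linarith
  have h3 := h1.eventually_lt_const h2
  have h4 := (he.const_add (d.surv d.N)).eventually_lt_const (by rw [add_zero]; exact hD)
  filter_upwards [h3, h4, Filter.eventually_ge_atTop (d.n + 2)] with m h3 h4 hm
  have hnm : d.n ≤ m := by omega
  have hk0 : 0 < m / d.n := Nat.div_pos hnm d.n_pos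
  have hk : d.n * (m / d.n) ≤ m := Nat.mul_div_le m d.n
  have hk2 : m < d.n * (m / d.n) + d.n := Nat.lt_mul_div_succ m d.n_pos
  refine (design_bound d (by omega) (m / d.n) hk0 hk hk2 h4).trans ?_
  apply ENNReal.ofReal_le_ofReal
  have hm0 : (0 : ℝ) < m := by
    have : 0 < m := by omega
    exact_mod_cast this
  have hm1 : (0 : ℝ) < (m : ℝ) - 1 := by
    have : (2 : ℝ) ≤ m := by
      have : 2 ≤ m := by omega
      exact_mod_cast this
    linarith
  set e := 9 * (d.n : ℝ) ^ 2 / ((m : ℝ) - 1) with he'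
  have he0 : 0 ≤ e := by positivity
  have hS0 : 0 ≤ ∑ t ∈ range d.N, d.surv t + d.N * e :=
    add_nonneg (sum_nonneg fun t _ => surv_nonneg d t) (mul_nonneg (Nat.cast_nonneg _) he0)
  have hden : 0 < 1 - (d.surv d.N + e) := by linarith
  have hkR : ((m / d.n : ℕ) : ℝ) ≤ m / d.n := Nat.cast_div_le
  calc ((m / d.n : ℕ) : ℝ) * (∑ t ∈ range d.N, d.surv t + d.N * e) / (1 - (d.surv d.N + e))
      ≤ (m / d.n) * (∑ t ∈ range d.N, d.surv t + d.N * e) / (1 - (d.surv d.N + e)) := by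
        apply div_le_div_of_nonneg_right _ hden.le
        exact mul_le_mul_of_nonneg_right hkR hS0
    _ = (∑ t ∈ range d.N, d.surv t + d.N * e) / d.n / (1 - (d.surv d.N + e)) * m := by ring
    _ ≤ (d.value + ε) * m := mul_le_mul_of_nonneg_right h3.le hm0.le

end Pool.Agent.Lib.MP92dd55
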