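import Mathlib
import Pool.Agent.Lib.MP92dd55.LimUpper
import Pool.Agent.Lib.MP92dd55.LimReduce

/-! # The limit of `R^s(K_n)/n` exists and is the infimum of the values of the finite designs -/

namespace Pool.Agent.Lib.MP92dd55

open Finset Real MeasureTheory Filter
open scoped ENNReal Topology

lemma del_le (T K : ℕ) (hT : 0 < T) (hK : 4 ≤ K) (e0 : ℝ) (he0 : 0 < e0)
    (hK2 : 16 * (T : ℝ) ≤ e0 * K) :
    ∀ᶠ n : ℕ in atTop, del n (T * n) (n / K) (T * K) ≤ e0 := by
  have hT0 : (0 : ℝ) < T := by exact_mod_cast hT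
  have hK0 : (0 : ℝ) < K := by
    have : 0 < K := by omega
    exact_mod_cast this
  have hlim : Tendsto (fun n : ℕ => 2 * ((T * K : ℕ) : ℝ) *
      ((2 * (T * K) : ℕ) / ((n : ℝ) - (2 * (T * K) : ℕ))) + 4 * (T : ℝ) / n +
      ((T * K : ℕ) : ℝ) * (T * K : ℕ) / n) atTop (𝓝 (2 * ((T * K : ℕ) : ℝ) * 0 + 0 + 0)) := by
    apply Tendsto.add
    · apply Tendsto.add
      · apply Tendsto.const_mul
        apply Tendsto.div_atTop tendsto_const_nhds
        exact tendsto_atTop_add_const_right _ _ tendsto_natCast_atTop_atTop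
      · exact Tendsto.div_atTop tendsto_const_nhds tendsto_natCast_atTop_atTop
    · exact Tendsto.div_atTop tendsto_const_nhds tendsto_natCast_atTop_atTop
  rw [mul_zero, add_zero, add_zero] at hlim
  have h1 := hlim.eventually_lt_const (half_pos he0)
  filter_upwards [h1, eventually_ge_atTop 4] with n h1 hn
  have hn0 : (0 : ℝ) < n := by
    have : 0 < n := by omega
    exact_mod_cast this
  have hn4 : (4 : ℝ) ≤ n := by exact_mod_cast hn
  have hh : ((n / K : ℕ) : ℝ) ≤ n / K := Nat.cast_div_le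
  have hh0 : (0 : ℝ) ≤ ((n / K : ℕ) : ℝ) := Nat.cast_nonneg _
  have hK4 : (n : ℝ) / K ≤ n / 4 := by
    apply div_le_div_of_nonneg_left hn0.le (by norm_num)
    exact_mod_cast hK
  have hmid : ((T * n : ℕ) : ℝ) * (2 * ((n / K : ℕ) : ℝ) + 1) /
      (n * ((n : ℝ) - (2 * (n / K) : ℕ) - 1)) ≤ e0 / 2 + 4 * T / n := by
    have hd : (n : ℝ) / 4 ≤ (n : ℝ) - (2 * (n / K) : ℕ) - 1 := by
      push_cast
      linarith
    have hd0 : 0 < (n : ℝ) / 4 := by positivity
    have h2 : ((T * n : ℕ) : ℝ) * (2 * ((n / K : ℕ) : ℝ) + 1) /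
      (n * ((n : ℝ) - (2 * (n / K) : ℕ) - 1)) ≤ ((T * n : ℕ) : ℝ) * (2 * (n / K) + 1) /
      (n * (n / 4)) := by
      apply div_le_div₀ (by positivity)
      · apply mul_le_mul_of_nonneg_left _ (Nat.cast_nonneg _)
        linarith
      · positivity
      · exact mul_le_mul_of_nonneg_left hd hn0.le
    have h3 : ((T * n : ℕ) : ℝ) * (2 * (n / K) + 1) / (n * (n / 4)) = 8 * T / K + 4 * T / n := by
      push_cast
      field_simp
      ring
    have h4 : 8 * (T : ℝ) / K ≤ e0 / 2 := by
      rw [div_le_iff₀ hK0]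
      linarith
    linarith
  unfold del
  have h5 : 4 * (T : ℝ) / n = 4 * T / n := rfl
  linarith

/-- **Lower half.** -/
theorem design_lower (C : ℝ) (hC : 0 < C) (ε : ℝ) (hε : 0 < ε) :
    ∀ᶠ n : ℕ in atTop, ∀ ρ : ℝ, 0 ≤ ρ → ρ ≤ C →
      rendezvousValue n < ENNReal.ofReal (ρ * n) →
      ∃ d : Design, d.surv d.N < 1 ∧ d.value ≤ ρ + ε := by
  classical
  -- parameters
  obtain ⟨T, hT⟩ := exists_nat_ge (max 1 (max (4 * C) (2 * (C + ε) * C / ε)))
  have hT1 : (1 : ℝ) ≤ T := (le_max_left _ _).trans hT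
  have hT2 : 4 * C ≤ T := ((le_max_left _ _).trans (le_max_right _ _)).trans hT
  have hT3 : 2 * (C + ε) * C / ε ≤ T := ((le_max_right _ _).trans (le_max_right _ _)).trans hT
  have hT0 : (0 : ℝ) < T := by linarith
  have hTn : 0 < T := by exact_mod_cast hT0
  set e0 : ℝ := min (1 / 4) (ε / (2 * (C + ε + T))) with he0
  have he00 : 0 < e0 := by
    rw [he0]; apply lt_min (by norm_num); positivity
  have he1 : e0 ≤ 1 / 4 := min_le_left _ _
  have he2 : (C + ε + T) * e0 ≤ ε / 2 := by
    have h1 : e0 ≤ ε / (2 * (C + ε + T)) := min_le_right _ _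
    have h2 : (C + ε + T) * (ε / (2 * (C + ε + T))) = ε / 2 := by
      have : C + ε + T ≠ 0 := by positivity
      field_simp
    calc (C + ε + T) * e0 ≤ (C + ε + T) * (ε / (2 * (C + ε + T))) :=
          mul_le_mul_of_nonneg_left h1 (by positivity)
      _ = _ := h2
  obtain ⟨K, hK⟩ := exists_nat_ge (max 4 (16 * (T : ℝ) / e0))
  have hK4 : 4 ≤ K := by
    have : (4 : ℝ) ≤ K := (le_max_left _ _).trans hK
    exact_mod_cast this
  have hK2 : 16 * (T : ℝ) ≤ e0 * K := by
    have := (le_max_right _ _).trans hK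
    rw [div_le_iff₀ he00] at this
    linarith
  filter_upwards [del_le T K hTn hK4 e0 he00 hK2, eventually_ge_atTop (2 * (T * K) + 4)] with
    n hdel hn ρ hρ0 hρC hval
  have hnpos : 0 < n := by omega
  have hn0 : (0 : ℝ) < n := by exact_mod_cast hnpos
  unfold rendezvousValue at hval
  rw [iInf_lt_iff] at hval
  obtain ⟨μ, hμ⟩ := hval
  set μ' : Measure (ℕ → Fin n) := (μ : Measure (ℕ → Fin n)) with hμ'
  set N := T * n with hN
  set h := n / K with hh
  have hNpos : 0 < N := Nat.mul_pos hTn hnpos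
  let d : Design :=
    { n := n, N := N, p := wt μ' N, A := fun a => heavy h a, n_pos := hnpos, N_pos := hNpos,
      p_nonneg := fun a => wt_nonneg _ _ _, p_sum := wt_sum μ' N }
  have hA : N ≤ T * K * (h + 1) := by
    have h1 : n ≤ K * (h + 1) := by
      have := Nat.lt_mul_div_succ n (by omega : 0 < K)
      exact this.le
    calc N = T * n := rfl
      _ ≤ T * (K * (h + 1)) := Nat.mul_le_mul_left _ h1
      _ = _ := by ring
  have hh1 : 2 * h + 1 < n := by
    have h1 : h ≤ n / 4 := Nat.div_le_div_left hK4 (by norm_num)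
    omega
  have hsurv : ∀ t, d.surv t ≤ pN μ' N t + e0 := by
    intro t
    calc d.surv t = ∑ a, ∑ b, wt μ' N a * wt μ' N b * survival t a b (heavy h a) (heavy h b) := rfl
      _ ≤ ∑ a, ∑ b, wt μ' N a * wt μ' N b * (pAvoid (pairsT t a b) + e0) := by
          refine sum_le_sum fun a _ => sum_le_sum fun b _ => ?_
          apply mul_le_mul_of_nonneg_left _ (mul_nonneg (wt_nonneg _ _ _) (wt_nonneg _ _ _))
          have := survival_le a b h (T * K) t hA (by omega) hh1
          linarith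
      _ = pN μ' N t + e0 := by
          unfold pN
          simp_rw [mul_add, sum_add_distrib]
          congr 1
          simp_rw [← Finset.sum_mul, ← Finset.mul_sum]
          rw [wt_sum]
          simp [wt_sum]
  have hsum : ∑ t ∈ range N, pN μ' N t ≤ ρ * n := by
    have h1 := (expectedTime_geN μ' N N (by omega)).trans_lt hμ
    have h2 : 0 ≤ ∑ t ∈ range N, pN μ' N t := sum_nonneg fun t _ => pN_nonneg _ _ _
    exact ((ENNReal.ofReal_lt_ofReal_iff_of_nonneg h2).1 h1).le
  have hNR : (N : ℝ) = T * n := by rw [hN]; push_cast; ring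
  have hlast : pN μ' N N ≤ ρ / T := by
    have h1 : ∑ _t ∈ range N, pN μ' N N ≤ ∑ t ∈ range N, pN μ' N t :=
      sum_le_sum fun t ht => pN_anti μ' N (mem_range.1 ht).le
    rw [sum_const, card_range, nsmul_eq_mul, hNR] at h1
    rw [le_div_iff₀ hT0]
    have h2 : (pN μ' N N * T) * n ≤ ρ * n := by linarith
    exact le_of_mul_le_mul_right h2 hn0
  have hρT : ρ / T ≤ 1 / 4 := by
    rw [div_le_iff₀ hT0]; linarith
  have hsN : d.surv N ≤ ρ / T + e0 := (hsurv N).trans (by linarith)
  have hsN1 : d.surv d.N < 1 := by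
    have : d.surv d.N = d.surv N := rfl
    rw [this]; linarith
  refine ⟨d, hsN1, ?_⟩
  have hval : d.value = (∑ t ∈ range N, d.surv t) / n / (1 - d.surv N) := rfl
  rw [hval]
  have hnum : (∑ t ∈ range N, d.surv t) / n ≤ ρ + T * e0 := by
    rw [div_le_iff₀ hn0]
    calc ∑ t ∈ range N, d.surv t ≤ ∑ t ∈ range N, (pN μ' N t + e0) := sum_le_sum fun t _ => hsurv t
      _ = ∑ t ∈ range N, pN μ' N t + N * e0 := by
          rw [sum_add_distrib, sum_const, card_range, nsmul_eq_mul]
      _ ≤ ρ * n + N * e0 := by linarith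
      _ = _ := by rw [hNR]; ring
  have hden : 0 < 1 - d.surv N := by linarith
  rw [div_le_iff₀ hden]
  have h5 : (ρ + ε) * (1 - (ρ / T + e0)) ≤ (ρ + ε) * (1 - d.surv N) := by
    apply mul_le_mul_of_nonneg_left _ (by linarith)
    linarith
  have h6 : (ρ + ε) * (ρ / T) ≤ ε / 2 := by
    have h7 : (C + ε) * C / T ≤ ε / 2 := by
      rw [div_le_iff₀ hT0]
      rw [div_le_iff₀ hε] at hT3
      linarith
    have h8 : (ρ + ε) * (ρ / T) ≤ (C + ε) * C / T := by
      rw [← mul_div_assoc]
      apply div_le_div_of_nonneg_right _ hT0.le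
      nlinarith
    linarith
  have h9 : (ρ + ε) * e0 + T * e0 ≤ ε / 2 := by
    have : (ρ + ε) * e0 + T * e0 = (ρ + ε + T) * e0 := by ring
    rw [this]
    exact (mul_le_mul_of_nonneg_right (by linarith) he00.le).trans he2
  have h10 : (ρ + ε) * (1 - (ρ / T + e0)) = ρ + ε - (ρ + ε) * (ρ / T) - (ρ + ε) * e0 := by ring
  linarith

/-- the trivial design: always tour -/
noncomputable def tourDesign : Design :=
  { n := 1, N := 1, p := fun _ => 1, A := fun _ => ∅, n_pos := one_pos, N_pos := one_pos,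
    p_nonneg := fun _ => zero_le_one,
    p_sum := by
      rw [sum_const, card_univ]
      simp }

lemma tourDesign_surv : tourDesign.surv tourDesign.N < 1 := by
  have h1 : tourDesign.surv tourDesign.N = exp (-(1 : ℝ)) := by
    have h2 : ∀ a b : Fin 1 → Fin 1, survival 1 a b ∅ ∅ = exp (-1) := by
      intro a b
      unfold survival
      have h3 : (tourPairs 1 a b ∅ ∅).card = 1 := by
        have h4 : tourPairs 1 a b ∅ ∅ = {(a 0, b 0)} := by
          ext e
          rw [mem_tourPairs, mem_singleton]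
          constructor
          · rintro ⟨s, _, h1, h2, _⟩
            have hs : s = 0 := Subsingleton.elim _ _
            rw [← h1, ← h2] at *
            ext <;> simp
          · rintro rfl
            exact ⟨0, by simp⟩
        rw [h4, card_singleton]
      rw [h3]
      simp
    change ∑ a : Fin 1 → Fin 1, ∑ b : Fin 1 → Fin 1, (1 : ℝ) * 1 * survival 1 a b ∅ ∅ = _
    simp_rw [h2]
    simp
  rw [h1, exp_lt_one_iff]
  norm_num

lemma value_nonneg (d : Design) (hd : d.surv d.N < 1) : 0 ≤ d.value := by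
  unfold Design.value
  have h1 : 0 ≤ ∑ t ∈ range d.N, d.surv t := sum_nonneg fun t _ => surv_nonneg d t
  have h2 : 0 < 1 - d.surv d.N := by linarith
  positivity

/-- **The limit exists.** -/
theorem limit_exists : ∃ L : ℝ,
    Tendsto (fun n : ℕ => (rendezvousValue n).toReal / n) atTop (𝓝 L) ∧
    IsGLB {v : ℝ | ∃ d : Design, d.surv d.N < 1 ∧ v = d.value} L := by
  set S : Set ℝ := {v : ℝ | ∃ d : Design, d.surv d.N < 1 ∧ v = d.value} with hS
  have hne : S.Nonempty := ⟨tourDesign.value, tourDesign, tourDesign_surv, rfl⟩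
  have hbdd : BddBelow S := ⟨0, by rintro v ⟨d, hd, rfl⟩; exact value_nonneg d hd⟩
  refine ⟨sInf S, ?_, isGLB_csInf hne hbdd⟩
  have hupper : ∀ ε > 0, ∀ᶠ m : ℕ in atTop,
      rendezvousValue m ≤ ENNReal.ofReal ((sInf S + ε) * m) := by
    intro ε hε
    obtain ⟨v, ⟨d, hd, rfl⟩, hv⟩ := exists_lt_of_csInf_lt hne
      (by linarith : sInf S < sInf S + ε / 2)
    filter_upwards [design_upper d hd (ε / 2) (half_pos hε)] with m hm
    refine hm.trans (ENNReal.ofReal_le_ofReal ?_)
    apply mul_le_mul_of_nonneg_right _ (Nat.cast_nonneg _)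
    linarith
  have hL0 : 0 ≤ sInf S := Real.sInf_nonneg (by rintro v ⟨d, hd, rfl⟩; exact value_nonneg d hd)
  rw [Metric.tendsto_atTop]
  intro ε hε
  have h1 := hupper (ε / 2) (half_pos hε)
  have h2 := hupper 1 one_pos
  have h3 := design_lower (sInf S + 1 + ε) (by linarith) (ε / 4) (by linarith)
  obtain ⟨N0, hN0⟩ := eventually_atTop.1 (h1.and (h2.and (h3.and (eventually_gt_atTop 0))))
  refine ⟨N0, fun n hn => ?_⟩
  obtain ⟨h1, h2, h3, hnpos⟩ := hN0 n hn
  have hn0 : (0 : ℝ) < n := by exact_mod_cast hnpos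
  have hfin : rendezvousValue n ≠ ⊤ := ne_top_of_le_ne_top ENNReal.ofReal_ne_top h1
  have hub : ∀ c : ℝ, 0 ≤ c → rendezvousValue n ≤ ENNReal.ofReal (c * n) →
      (rendezvousValue n).toReal / n ≤ c := by
    intro c hc h
    rw [div_le_iff₀ hn0]
    have := ENNReal.toReal_mono ENNReal.ofReal_ne_top h
    rwa [ENNReal.toReal_ofReal (by positivity)] at this
  have hu1 := hub _ (by linarith) h1
  have hu2 := hub _ (by linarith) h2
  set r := (rendezvousValue n).toReal / n with hr
  have hr0 : 0 ≤ r := by positivity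
  have hlt : rendezvousValue n < ENNReal.ofReal ((r + ε / 4) * n) := by
    rw [← ENNReal.ofReal_toReal hfin]
    rw [ENNReal.ofReal_lt_ofReal_iff (by positivity)]
    have : (rendezvousValue n).toReal = r * n := by rw [hr]; field_simp
    rw [this]
    have : 0 < ε / 4 * n := by positivity
    linarith
  obtain ⟨d, hd, hdv⟩ := h3 (r + ε / 4) (by linarith) (by linarith) hlt
  have hL : sInf S ≤ d.value := csInf_le hbdd ⟨d, hd, rfl⟩
  rw [Real.dist_eq, abs_lt]
  constructor <;> linarith

end Pool.Agent.Lib.MP92dd55
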