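import Mathlib
import Pool.Agent.Lib.MP92dd55.Value
import Pool.Agent.Lib.MP92dd55.PermUpper

/-! # Word strategies: slots of length `ℓ`, in each slot stay home or tour one of `m` sets -/

namespace Pool.Agent.Lib.MP92dd55

open Finset

/-- label used in slot `i` at offset `r`: the home label `0` if `w i = 0`, otherwise the
labels `(w i - 1) ℓ, …, (w i) ℓ - 1` in cyclic order starting at offset `i c`. -/
def lab (ℓ : ℕ) (w : ℕ → ℕ) (c i r : ℕ) : ℕ :=
  if w i = 0 then 0 else (w i - 1) * ℓ + (i * c + r) % ℓ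

/-- the phone with label `x` -/
def clip {n : ℕ} (hn : 0 < n) (x : ℕ) : Fin n := ⟨min x (n - 1), by omega⟩

/-- the block strategy given by a word -/
def wordBlock {n : ℕ} (hn : 0 < n) (ℓ : ℕ) (w : ℕ → ℕ) (c : ℕ) (u : ℕ) : Fin n :=
  clip hn (lab ℓ w c (u / ℓ) (u % ℓ))

/-- (slot, offset) pairs before time `k ℓ + s` -/
def slots (ℓ k s : ℕ) : Finset (ℕ × ℕ) := (range k ×ˢ range ℓ) ∪ ({k} ×ˢ range s)

lemma mem_slots {ℓ k s : ℕ} {p : ℕ × ℕ} :
    p ∈ slots ℓ k s ↔ (p.1 < k ∧ p.2 < ℓ) ∨ (p.1 = k ∧ p.2 < s) := by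
  simp only [slots, mem_union, mem_product, mem_range, mem_singleton]

lemma slots_lt {ℓ k s : ℕ} (hs : s ≤ ℓ) {p : ℕ × ℕ} (hp : p ∈ slots ℓ k s) :
    p.2 < ℓ ∧ p.1 ≤ k ∧ p.1 * ℓ + p.2 < k * ℓ + s := by
  rcases mem_slots.1 hp with h | h
  · refine ⟨h.2, h.1.le, ?_⟩
    have : (p.1 + 1) * ℓ ≤ k * ℓ := Nat.mul_le_mul_right _ h.1
    nlinarith [h.2]
  · refine ⟨by omega, h.1.le, ?_⟩
    rw [h.1]; omega

lemma wordBlock_slot {n : ℕ} (hn : 0 < n) (ℓ : ℕ) (w : ℕ → ℕ) (c i r : ℕ) (hr : r < ℓ) :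
    wordBlock hn ℓ w c (i * ℓ + r) = clip hn (lab ℓ w c i r) := by
  unfold wordBlock
  have hℓ : 0 < ℓ := by omega
  have e2 : (i * ℓ + r) / ℓ = i := by
    rw [Nat.add_comm, Nat.add_mul_div_right _ _ hℓ, Nat.div_eq_of_lt hr, zero_add]
  have e3 : (i * ℓ + r) % ℓ = r := by
    rw [Nat.add_comm, Nat.add_mul_mod_self_right, Nat.mod_eq_of_lt hr]
  rw [e2, e3]

/-- letters of `w'` seen in slots in which `w` is home -/
def seen (w w' : ℕ → ℕ) (k : ℕ) : Finset ℕ :=
  ((range k).filter fun i => w i = 0 ∧ w' i ≠ 0).image w'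

/-- number of slots in which both tour -/
def both (w w' : ℕ → ℕ) (k : ℕ) : ℕ := ((range k).filter fun i => w i ≠ 0 ∧ w' i ≠ 0).card

/-- 1 if in slot `k` the first player is home and the second one tours a new set -/
def newSeen (w w' : ℕ → ℕ) (k : ℕ) : ℕ := if w k = 0 ∧ w' k ≠ 0 ∧ w' k ∉ seen w w' k then 1 else 0

/-- 1 if in slot `k` both tour -/
def bothNow (w w' : ℕ → ℕ) (k : ℕ) : ℕ := if w k ≠ 0 ∧ w' k ≠ 0 then 1 else 0

/-- the set of labels of the second player seen while the first one is home -/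
def rawSeen (ℓ : ℕ) (w w' : ℕ → ℕ) (c' k s : ℕ) : Finset ℕ :=
  ((slots ℓ k s).filter fun p => w p.1 = 0 ∧ w' p.1 ≠ 0).image fun p => lab ℓ w' c' p.1 p.2

lemma mod_inj {ℓ a r r' : ℕ} (hr : r < ℓ) (hr' : r' < ℓ) (h : (a + r) % ℓ = (a + r') % ℓ) :
    r = r' := by
  have h1 : (a + r) ≡ (a + r') [MOD ℓ] := h
  have h2 : r ≡ r' [MOD ℓ] := Nat.ModEq.add_left_cancel' a h1
  unfold Nat.ModEq at h2
  rwa [Nat.mod_eq_of_lt hr, Nat.mod_eq_of_lt hr'] at h2

lemma lab_lt {m ℓ : ℕ} (hℓ : 0 < ℓ) (w : ℕ → ℕ) (c i r : ℕ) (hw : w i ≤ m) (hw0 : w i ≠ 0) :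
    lab ℓ w c i r < m * ℓ := by
  unfold lab
  rw [if_neg hw0]
  have h1 : (i * c + r) % ℓ < ℓ := Nat.mod_lt _ hℓ
  have h2 : (w i - 1 + 1) * ℓ ≤ m * ℓ := Nat.mul_le_mul_right _ (by omega)
  nlinarith

lemma lab_inj {ℓ : ℕ} (w : ℕ → ℕ) (c i r r' : ℕ) (hw0 : w i ≠ 0) (hr : r < ℓ) (hr' : r' < ℓ)
    (h : lab ℓ w c i r = lab ℓ w c i r') : r = r' := by
  unfold lab at h
  rw [if_neg hw0, if_neg hw0] at h
  exact mod_inj (a := i * c) hr hr' (by omega)

lemma div_lab {ℓ : ℕ} (hℓ : 0 < ℓ) (w : ℕ → ℕ) (c i r : ℕ) (hw0 : w i ≠ 0) :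
    lab ℓ w c i r / ℓ + 1 = w i := by
  unfold lab
  rw [if_neg hw0]
  have h1 : (i * c + r) % ℓ < ℓ := Nat.mod_lt _ hℓ
  rw [Nat.add_comm ((w i - 1) * ℓ), Nat.add_mul_div_right _ _ hℓ, Nat.div_eq_of_lt h1]
  omega

lemma mod_lab {ℓ : ℕ} (w : ℕ → ℕ) (c i r : ℕ) (hw0 : w i ≠ 0) :
    lab ℓ w c i r % ℓ = (i * c + r) % ℓ := by
  unfold lab
  rw [if_neg hw0, Nat.add_comm, Nat.add_mul_mod_self_right, Nat.mod_mod]

/-- lower bound for the number of labels seen -/
lemma rawSeen_card (ℓ : ℕ) (w w' : ℕ → ℕ) (c' k s : ℕ) (hℓ : 0 < ℓ) (hs : s ≤ ℓ) :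
    (seen w w' k).card * ℓ + newSeen w w' k * s ≤ (rawSeen ℓ w w' c' k s).card := by
  classical
  -- full letters
  set A : Finset ℕ := (seen w w' k).biUnion fun j => (range ℓ).image fun r => (j - 1) * ℓ + r with hA
  have hseen0 : ∀ j ∈ seen w w' k, j ≠ 0 := by
    intro j hj
    simp only [seen, mem_image, mem_filter] at hj
    obtain ⟨i, ⟨_, _, h⟩, rfl⟩ := hj
    exact h
  have hAc : A.card = (seen w w' k).card * ℓ := by
    rw [hA, card_biUnion]
    · rw [Finset.sum_congr rfl (g := fun _ => ℓ), sum_const, smul_eq_mul]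
      intro j _
      rw [card_image_of_injective _ (fun a b h => by simpa using h), card_range]
    · intro j hj j' hj' hne
      rw [Function.onFun, Finset.disjoint_left]
      intro x hx hx'
      simp only [mem_image, mem_range] at hx hx'
      obtain ⟨r, hr, rfl⟩ := hx
      obtain ⟨r', hr', h⟩ := hx'
      apply hne
      have h1 : ((j' - 1) * ℓ + r') / ℓ = ((j - 1) * ℓ + r) / ℓ := by rw [h]
      rw [Nat.add_comm, Nat.add_mul_div_right _ _ hℓ, Nat.div_eq_of_lt hr', Nat.add_comm _ r,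
        Nat.add_mul_div_right _ _ hℓ, Nat.div_eq_of_lt hr] at h1
      have := hseen0 j hj
      have := hseen0 j' hj'
      omega
  have hAsub : A ⊆ rawSeen ℓ w w' c' k s := by
    intro x hx
    simp only [hA, mem_biUnion, mem_image, mem_range] at hx
    obtain ⟨j, hj, r, hr, rfl⟩ := hx
    simp only [seen, mem_image, mem_filter, mem_range] at hj
    obtain ⟨i, ⟨hi, hwi, hwi'⟩, rfl⟩ := hj
    simp only [rawSeen, mem_image, mem_filter]
    refine ⟨(i, (r + (ℓ - (i * c') % ℓ)) % ℓ), ⟨mem_slots.2 (Or.inl ⟨hi, Nat.mod_lt _ hℓ⟩), hwi,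
      hwi'⟩, ?_⟩
    unfold lab
    rw [if_neg hwi']
    congr 1
    simp only
    have h1 : (i * c') % ℓ < ℓ := Nat.mod_lt _ hℓ
    have h2 : (i * c' + (r + (ℓ - (i * c') % ℓ)) % ℓ) % ℓ =
        ((i * c') % ℓ + (r + (ℓ - (i * c') % ℓ))) % ℓ :=
      Nat.ModEq.add (Nat.mod_modEq (i * c') ℓ).symm (Nat.mod_modEq _ ℓ)
    rw [h2]
    have h3 : (i * c') % ℓ + (r + (ℓ - (i * c') % ℓ)) = r + ℓ := by omega
    rw [h3, Nat.add_mod_right, Nat.mod_eq_of_lt hr]
  by_cases hnew : w k = 0 ∧ w' k ≠ 0 ∧ w' k ∉ seen w w' k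
  · have e1 : newSeen w w' k = 1 := if_pos hnew
    obtain ⟨hk0, hk1, hk2⟩ := hnew
    set P : Finset ℕ := (range s).image fun r => lab ℓ w' c' k r with hP
    have hPc : P.card = s := by
      rw [hP, card_image_of_injOn, card_range]
      intro r hr r' hr' h
      have hr1 : r < s := by simpa using hr
      have hr2 : r' < s := by simpa using hr'
      exact lab_inj w' c' k r r' hk1 (by omega) (by omega) h
    have hPsub : P ⊆ rawSeen ℓ w w' c' k s := by
      intro x hx
      simp only [hP, mem_image, mem_range] at hx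
      obtain ⟨r, hr, rfl⟩ := hx
      simp only [rawSeen, mem_image, mem_filter]
      exact ⟨(k, r), ⟨mem_slots.2 (Or.inr ⟨rfl, hr⟩), hk0, hk1⟩, rfl⟩
    have hdisj : Disjoint A P := by
      rw [Finset.disjoint_left]
      intro x hx hx'
      simp only [hA, mem_biUnion, mem_image, mem_range] at hx
      obtain ⟨j, hj, r, hr, rfl⟩ := hx
      simp only [hP, mem_image, mem_range] at hx'
      obtain ⟨r', hr', h⟩ := hx'
      have h1 := div_lab hℓ w' c' k r' hk1
      rw [h, Nat.add_comm ((j - 1) * ℓ), Nat.add_mul_div_right _ _ hℓ, Nat.div_eq_of_lt hr] at h1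
      have := hseen0 j hj
      have : j = w' k := by omega
      exact hk2 (this ▸ hj)
    rw [e1, one_mul, ← hAc]
    calc A.card + s = (A ∪ P).card := by rw [card_union_of_disjoint hdisj, hPc]
      _ ≤ _ := card_le_card (union_subset hAsub hPsub)
  · have e1 : newSeen w w' k = 0 := if_neg hnew
    rw [e1, zero_mul, add_zero, ← hAc]
    exact card_le_card hAsub

/-- interior labels -/
def goodLab (n x : ℕ) : Prop := 1 ≤ x ∧ x + 2 ≤ n

instance (n x : ℕ) : Decidable (goodLab n x) := by unfold goodLab; infer_instance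

lemma bad_card (n L : ℕ) (hn : 2 ≤ n) (hL : n ≤ L) :
    ((range L).filter fun x => ¬ goodLab n x).card ≤ L + 2 - n := by
  have h1 : ((range L).filter fun x => ¬ goodLab n x) ⊆ {0} ∪ (range L \ range (n - 1)) := by
    intro x hx
    simp only [mem_filter, mem_range, goodLab] at hx
    simp only [mem_union, mem_singleton, mem_sdiff, mem_range]
    omega
  have h2 := card_le_card h1
  have h3 := card_union_le ({0} : Finset ℕ) (range L \ range (n - 1))
  rw [card_singleton, card_sdiff_of_subset (range_subset_range.2 (by omega)), card_range,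
    card_range] at h3
  omega

lemma clip_val {n : ℕ} (hn : 0 < n) (x : ℕ) (hx : x < n) : (clip hn x : ℕ) = x := by
  simp only [clip]; omega

lemma clip_inj {n : ℕ} (hn : 0 < n) {x y : ℕ} (hx : x < n) (hy : y < n)
    (h : clip hn x = clip hn y) : x = y := by
  rw [← clip_val hn x hx, ← clip_val hn y hy, h]

/-- phones of the second player (interior labels) seen while the first one is home -/
def seenPhones {n : ℕ} (hn : 0 < n) (ℓ : ℕ) (w w' : ℕ → ℕ) (c' k s : ℕ) : Finset (Fin n) :=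
  ((rawSeen ℓ w w' c' k s).filter fun x => goodLab n x).image (clip hn)

lemma seenPhones_card {n m : ℕ} (hn : 2 ≤ n) (ℓ : ℕ) (w w' : ℕ → ℕ) (c' k s : ℕ) (hℓ : 0 < ℓ)
    (hs : s ≤ ℓ) (hmℓ : n ≤ m * ℓ) (hmℓ' : m * ℓ ≤ n + m) (hw : ∀ i, w' i ≤ m) :
    (seen w w' k).card * ℓ + newSeen w w' k * s ≤
      (seenPhones (by omega : 0 < n) ℓ w w' c' k s).card + (m + 2) := by
  classical
  have h0 := rawSeen_card ℓ w w' c' k s hℓ hs
  have hsub : rawSeen ℓ w w' c' k s ⊆ range (m * ℓ) := by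
    intro x hx
    simp only [rawSeen, mem_image, mem_filter] at hx
    obtain ⟨p, ⟨_, _, hp⟩, rfl⟩ := hx
    rw [mem_range]
    exact lab_lt hℓ w' c' p.1 p.2 (hw _) hp
  have h1 : (rawSeen ℓ w w' c' k s).card =
      ((rawSeen ℓ w w' c' k s).filter fun x => goodLab n x).card +
      ((rawSeen ℓ w w' c' k s).filter fun x => ¬ goodLab n x).card :=
    (Finset.card_filter_add_card_filter_not (fun x => goodLab n x)).symm
  have h2 : ((rawSeen ℓ w w' c' k s).filter fun x => ¬ goodLab n x).card ≤ m * ℓ + 2 - n :=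
    (card_le_card (filter_subset_filter _ hsub)).trans (bad_card n (m * ℓ) hn hmℓ)
  have h3 : (seenPhones (by omega : 0 < n) ℓ w w' c' k s).card =
      ((rawSeen ℓ w w' c' k s).filter fun x => goodLab n x).card := by
    unfold seenPhones
    rw [card_image_of_injOn]
    intro x hx y hy h
    simp only [coe_filter, Set.mem_ofPred_eq, goodLab] at hx hy
    exact clip_inj _ (by omega) (by omega) h
  omega

/-- pairs of phones (interior labels) used when both tour -/
def bothPairs {n : ℕ} (hn : 0 < n) (ℓ : ℕ) (w w' : ℕ → ℕ) (c c' k s : ℕ) :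
    Finset (Fin n × Fin n) :=
  ((slots ℓ k s).filter fun p => (w p.1 ≠ 0 ∧ w' p.1 ≠ 0) ∧
    (goodLab n (lab ℓ w c p.1 p.2) ∧ goodLab n (lab ℓ w' c' p.1 p.2))).image
    fun p => (clip hn (lab ℓ w c p.1 p.2), clip hn (lab ℓ w' c' p.1 p.2))

lemma slot_eq_of_mod {ℓ c c' i i' r r' K M : ℕ} (hℓ : K * M ≤ ℓ) (hi : i < K) (hi' : i' < K)
    (hc : c < M) (hc' : c' < M) (hcc : c ≠ c') (hr : r < ℓ) (hr' : r' < ℓ)
    (h1 : (i * c + r) % ℓ = (i' * c + r') % ℓ) (h2 : (i * c' + r) % ℓ = (i' * c' + r') % ℓ) :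
    i = i' ∧ r = r' := by
  have e1 : ((i * c + r : ℕ) : ℤ) ≡ ((i' * c + r' : ℕ) : ℤ) [ZMOD ℓ] := by
    rw [Int.natCast_modEq_iff]; exact h1
  have e2 : ((i * c' + r : ℕ) : ℤ) ≡ ((i' * c' + r' : ℕ) : ℤ) [ZMOD ℓ] := by
    rw [Int.natCast_modEq_iff]; exact h2
  have e3 := e1.sub e2
  have e4 : (ℓ : ℤ) ∣ ((i : ℤ) - i') * ((c : ℤ) - c') := by
    have := e3.symm.dvd
    push_cast at this
    have e5 : (i : ℤ) * c + r - (i * c' + r) - (i' * c + r' - (i' * c' + r')) =
      ((i : ℤ) - i') * ((c : ℤ) - c') := by ring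
    rwa [e5] at this
  have hii : i = i' := by
    by_contra hne
    have h3 : ((i : ℤ) - i') * ((c : ℤ) - c') ≠ 0 := by
      apply mul_ne_zero
      · intro h; apply hne; have : (i : ℤ) = i' := by linarith
        exact_mod_cast this
      · intro h; apply hcc; have : (c : ℤ) = c' := by linarith
        exact_mod_cast this
    have h4 := Int.le_of_dvd (abs_pos.2 h3) ((dvd_abs _ _).2 e4)
    rw [abs_mul] at h4
    have h5 : |(i : ℤ) - i'| < K := by
      rw [abs_lt]; constructor <;> · zify at hi hi'; linarith [Int.natCast_nonneg i, Int.natCast_nonneg i']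
    have h6 : |(c : ℤ) - c'| < M := by
      rw [abs_lt]; constructor <;> · zify at hc hc'; linarith [Int.natCast_nonneg c, Int.natCast_nonneg c']
    have h7 : |(i : ℤ) - i'| * |(c : ℤ) - c'| < K * M := by
      have hK : (0 : ℤ) < K := by have := abs_nonneg ((i : ℤ) - i'); linarith
      calc |(i : ℤ) - i'| * |(c : ℤ) - c'| ≤ K * |(c : ℤ) - c'| := by
            gcongr
        _ < K * M := by gcongr
    have h8 : (K : ℤ) * M ≤ ℓ := by exact_mod_cast hℓ
    linarith
  refine ⟨hii, ?_⟩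
  subst hii
  exact mod_inj hr hr' h1

lemma bothPairs_card {n m K M : ℕ} (hn : 2 ≤ n) (ℓ : ℕ) (w w' : ℕ → ℕ) (c c' k s : ℕ) (hℓ : 0 < ℓ)
    (hs : s ≤ ℓ) (hmℓ : n ≤ m * ℓ) (hmℓ' : m * ℓ ≤ n + m) (hw : ∀ i, w i ≤ m)
    (hw' : ∀ i, w' i ≤ m) (hk : k < K) (hKM : K * M ≤ ℓ) (hc : c < M) (hc' : c' < M)
    (hcc : c ≠ c') :
    both w w' k * ℓ + bothNow w w' k * s ≤
      (bothPairs (by omega : 0 < n) ℓ w w' c c' k s).card + 2 * (m + 2) * K := by
  classical
  set T := (slots ℓ k s).filter fun p => w p.1 ≠ 0 ∧ w' p.1 ≠ 0 with hT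
  have hTc : both w w' k * ℓ + bothNow w w' k * s ≤ T.card := by
    have h1 : (((range k).filter fun i => w i ≠ 0 ∧ w' i ≠ 0) ×ˢ range ℓ) ∪
        ((if w k ≠ 0 ∧ w' k ≠ 0 then {k} else ∅) ×ˢ range s) ⊆ T := by
      intro p hp
      simp only [mem_union, mem_product, mem_filter, mem_range] at hp
      rw [hT, mem_filter, mem_slots]
      rcases hp with ⟨⟨h1, h2⟩, h3⟩ | ⟨h1, h2⟩
      · exact ⟨Or.inl ⟨h1, h3⟩, h2⟩
      · split_ifs at h1 with hh
        · rw [mem_singleton] at h1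
          rw [h1]
          exact ⟨Or.inr ⟨rfl, h2⟩, hh⟩
        · simp at h1
    have h2 := card_le_card h1
    rw [card_union_of_disjoint, card_product, card_product, card_range, card_range] at h2
    · refine le_trans ?_ h2
      unfold both bothNow
      split_ifs <;> simp
    · rw [Finset.disjoint_left]
      intro p hp hp'
      simp only [mem_product, mem_filter, mem_range] at hp hp'
      split_ifs at hp'
      · have := hp'.1
        rw [mem_singleton] at this
        omega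
      · simp at hp'
  -- bad times
  set Bd : (ℕ → ℕ) → ℕ → Finset (ℕ × ℕ) := fun v d =>
    (range (k + 1)).biUnion fun i => if v i = 0 then ∅ else
      (({i} : Finset ℕ) ×ˢ ((range ℓ).filter fun r => ¬ goodLab n (lab ℓ v d i r))) with hBd
  have hBdc : ∀ v d, (∀ i, v i ≤ m) → (Bd v d).card ≤ (m + 2) * K := by
    intro v d hv
    simp only [hBd]
    refine card_biUnion_le.trans ?_
    calc ∑ i ∈ range (k + 1), (if v i = 0 then ∅ else
      (({i} : Finset ℕ) ×ˢ ((range ℓ).filter fun r => ¬ goodLab n (lab ℓ v d i r)))).card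
        ≤ ∑ i ∈ range (k + 1), (m + 2) := by
          refine Finset.sum_le_sum fun i _ => ?_
          split_ifs with h
          · simp
          · rw [card_product, card_singleton, one_mul]
            have h3 : ((range ℓ).filter fun r => ¬ goodLab n (lab ℓ v d i r)).card ≤
                ((range (m * ℓ)).filter fun x => ¬ goodLab n x).card := by
              refine Finset.card_le_card_of_injOn (fun r => lab ℓ v d i r) ?_ ?_
              · intro r hr
                simp only [coe_filter, mem_range, Set.mem_ofPred_eq] at hr ⊢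
                exact ⟨lab_lt hℓ v d i r (hv i) h, hr.2⟩
              · intro r hr r' hr' hh
                simp only [coe_filter, mem_range, Set.mem_ofPred_eq] at hr hr'
                exact lab_inj v d i r r' h hr.1 hr'.1 hh
            have h4 := bad_card n (m * ℓ) hn hmℓ
            omega
      _ = (k + 1) * (m + 2) := by rw [sum_const, card_range, smul_eq_mul]
      _ ≤ (m + 2) * K := by
          rw [mul_comm]; exact Nat.mul_le_mul_left _ hk
  have hTsplit : T ⊆ (T.filter fun p => goodLab n (lab ℓ w c p.1 p.2) ∧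
      goodLab n (lab ℓ w' c' p.1 p.2)) ∪ (Bd w c ∪ Bd w' c') := by
    intro p hp
    have hp' := hp
    rw [hT, mem_filter] at hp'
    obtain ⟨hps, hp1, hp2⟩ := hp'
    have hpl := slots_lt hs hps
    rw [mem_union, mem_filter, mem_union]
    by_cases g1 : goodLab n (lab ℓ w c p.1 p.2)
    · by_cases g2 : goodLab n (lab ℓ w' c' p.1 p.2)
      · exact Or.inl ⟨hp, g1, g2⟩
      · right; right
        simp only [hBd, mem_biUnion, mem_range]
        refine ⟨p.1, by omega, ?_⟩
        rw [if_neg hp2, mem_product, mem_singleton, mem_filter, mem_range]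
        exact ⟨rfl, hpl.1, g2⟩
    · right; left
      simp only [hBd, mem_biUnion, mem_range]
      refine ⟨p.1, by omega, ?_⟩
      rw [if_neg hp1, mem_product, mem_singleton, mem_filter, mem_range]
      exact ⟨rfl, hpl.1, g1⟩
  have h5 := card_le_card hTsplit
  have h6 := card_union_le (T.filter fun p => goodLab n (lab ℓ w c p.1 p.2) ∧
      goodLab n (lab ℓ w' c' p.1 p.2)) (Bd w c ∪ Bd w' c')
  have h7 := card_union_le (Bd w c) (Bd w' c')
  have h8 := hBdc w c hw
  have h9 := hBdc w' c' hw'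
  have h10 : (bothPairs (by omega : 0 < n) ℓ w w' c c' k s).card =
      (T.filter fun p => goodLab n (lab ℓ w c p.1 p.2) ∧
      goodLab n (lab ℓ w' c' p.1 p.2)).card := by
    unfold bothPairs
    rw [card_image_of_injOn, hT, filter_filter]
    intro p hp q hq h
    simp only [coe_filter, Set.mem_ofPred_eq] at hp hq
    obtain ⟨hps, ⟨hp1, hp2⟩, hg1, hg2⟩ := hp
    obtain ⟨hqs, ⟨hq1, hq2⟩, hg3, hg4⟩ := hq
    have hpl := slots_lt hs hps
    have hql := slots_lt hs hqs
    simp only [Prod.mk.injEq] at h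
    unfold goodLab at hg1 hg2 hg3 hg4
    have e1 := clip_inj _ (by omega) (by omega) h.1
    have e2 := clip_inj _ (by omega) (by omega) h.2
    have e3 : (p.1 * c + p.2) % ℓ = (q.1 * c + q.2) % ℓ := by
      rw [← mod_lab w c p.1 p.2 hp1, ← mod_lab w c q.1 q.2 hq1, e1]
    have e4 : (p.1 * c' + p.2) % ℓ = (q.1 * c' + q.2) % ℓ := by
      rw [← mod_lab w' c' p.1 p.2 hp2, ← mod_lab w' c' q.1 q.2 hq2, e2]
    have := slot_eq_of_mod hKM (by omega) (by omega) hc hc' hcc hpl.1 hql.1 e3 e4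
    exact Prod.ext this.1 this.2
  rw [h10]
  have h11 : 2 * (m + 2) * K = (m + 2) * K + (m + 2) * K := by ring
  omega

end Pool.Agent.Lib.MP92dd55
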