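import Mathlib
import Pool.Agent.Lib.MP92dd55.Words

/-! # Asymptotic upper bound for the meeting time of two word strategies -/

namespace Pool.Agent.Lib.MP92dd55

open Finset Real

/-- `1 - |seen|/m` -/
noncomputable def fA (m : ℕ) (w w' : ℕ → ℕ) (k : ℕ) : ℝ := 1 - ((seen w w' k).card : ℝ) / m

/-- `exp(-both/m)` -/
noncomputable def fE (m : ℕ) (w w' : ℕ → ℕ) (k : ℕ) : ℝ := exp (-((both w w' k : ℝ) / m))

lemma seen_subset {m : ℕ} (w w' : ℕ → ℕ) (k : ℕ) (hw : ∀ i, w' i ≤ m) :
    seen w w' k ⊆ Finset.Icc 1 m := by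
  intro j hj
  simp only [seen, mem_image, mem_filter] at hj
  obtain ⟨i, ⟨_, _, h⟩, rfl⟩ := hj
  rw [mem_Icc]
  exact ⟨by omega, hw i⟩

lemma seen_card_le {m : ℕ} (w w' : ℕ → ℕ) (k : ℕ) (hw : ∀ i, w' i ≤ m) :
    (seen w w' k).card + newSeen w w' k ≤ m := by
  unfold newSeen
  split_ifs with h
  · have h1 : insert (w' k) (seen w w' k) ⊆ Finset.Icc 1 m := by
      intro x hx
      rcases mem_insert.1 hx with rfl | hx
      · rw [mem_Icc]; exact ⟨by omega, hw k⟩
      · exact seen_subset w w' k hw hx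
    have h2 := card_le_card h1
    rw [card_insert_of_notMem h.2.2, Nat.card_Icc] at h2
    omega
  · have h2 := card_le_card (seen_subset w w' k hw)
    rw [Nat.card_Icc] at h2
    omega

lemma fA_nonneg {m : ℕ} (hm : 0 < m) (w w' : ℕ → ℕ) (k : ℕ) (hw : ∀ i, w' i ≤ m) :
    0 ≤ fA m w w' k := by
  have h := seen_card_le w w' k hw
  unfold fA
  rw [sub_nonneg, div_le_one (by exact_mod_cast hm)]
  exact_mod_cast (by omega : (seen w w' k).card ≤ m)

lemma fA_le_one {m : ℕ} (w w' : ℕ → ℕ) (k : ℕ) : fA m w w' k ≤ 1 := by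
  unfold fA
  have : 0 ≤ ((seen w w' k).card : ℝ) / m := by positivity
  linarith

lemma fE_pos {m : ℕ} (w w' : ℕ → ℕ) (k : ℕ) : 0 < fE m w w' k := exp_pos _

lemma fE_le_one {m : ℕ} (w w' : ℕ → ℕ) (k : ℕ) : fE m w w' k ≤ 1 := by
  unfold fE
  apply exp_le_one_iff.2
  have : 0 ≤ (both w w' k : ℝ) / m := by positivity
  linarith

/-- the error constant -/
noncomputable def errC (m K : ℕ) : ℝ := 3 * (m + 2) + 16 * (m + 2) * K + 2 + 8 * K * (K + 1)

theorem pair_bound {n m K M : ℕ} (hn : 2 ≤ n) (hm : 0 < m) (ℓ : ℕ) (w w' : ℕ → ℕ)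
    (c c' k s : ℕ) (hs : s ≤ ℓ) (hℓ1 : (n : ℝ) / m ≤ ℓ) (hℓ2 : (ℓ : ℝ) ≤ (n : ℝ) / m + 1)
    (hw : ∀ i, w i ≤ m) (hw' : ∀ i, w' i ≤ m) (hk : k < K) (hKM : K * M ≤ ℓ)
    (hc : c < M) (hc' : c' < M) (hcc : c ≠ c') (hbig : (4 * (m + 2) * K : ℝ) ≤ n) :
    pAvoid (pairsUp (k * ℓ + s) (wordBlock (by omega : 0 < n) ℓ w c)
      (wordBlock (by omega : 0 < n) ℓ w' c')) ≤
    (fA m w w' k - newSeen w w' k * s / n) * (fA m w' w k - newSeen w' w k * s / n) *
      (fE m w w' k * exp (-(bothNow w w' k * s / n))) + errC m K / n := by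
  classical
  have hn0 : (0 : ℝ) < n := by
    have : 0 < n := by omega
    exact_mod_cast this
  have hn2 : (2 : ℝ) ≤ n := by exact_mod_cast hn
  have hm0 : (0 : ℝ) < m := by exact_mod_cast hm
  have hm1 : (1 : ℝ) ≤ m := by exact_mod_cast hm
  have hℓR : (0 : ℝ) < ℓ := lt_of_lt_of_le (by positivity) hℓ1
  have hℓ : 0 < ℓ := by exact_mod_cast hℓR
  have hK1 : 1 ≤ K := by omega
  have hK1R : (1 : ℝ) ≤ K := by exact_mod_cast hK1
  have hmℓ : n ≤ m * ℓ := by
    have : (n : ℝ) ≤ m * ℓ := by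
      rw [div_le_iff₀ hm0] at hℓ1; linarith
    exact_mod_cast this
  have hmℓ' : m * ℓ ≤ n + m := by
    have : (m : ℝ) * ℓ ≤ n + m := by
      calc (m : ℝ) * ℓ ≤ m * ((n : ℝ) / m + 1) := by gcongr
        _ = n + m := by field_simp
    exact_mod_cast this
  have hpos : 0 < n := by omega
  set J := seenPhones hpos ℓ w w' c' k s with hJ
  set I := seenPhones hpos ℓ w' w c k s with hI
  set F := bothPairs hpos ℓ w w' c c' k s with hF
  set h0 : Fin n := clip hpos 0 with hh0
  -- inclusion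
  have hgood : ∀ x, goodLab n x → clip hpos x ≠ h0 := by
    intro x hx h
    unfold goodLab at hx
    have := clip_inj hpos (by omega) (by omega) h
    omega
  have hJh : h0 ∉ J := by
    intro h
    simp only [hJ, seenPhones, mem_image, mem_filter] at h
    obtain ⟨x, ⟨_, hx⟩, h2⟩ := h
    exact hgood x hx h2
  have hIh : h0 ∉ I := by
    intro h
    simp only [hI, seenPhones, mem_image, mem_filter] at h
    obtain ⟨x, ⟨_, hx⟩, h2⟩ := h
    exact hgood x hx h2
  have hsub : stars h0 J I ∪ F ⊆ pairsUp (k * ℓ + s) (wordBlock hpos ℓ w c)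
      (wordBlock hpos ℓ w' c') := by
    intro e he
    rw [mem_union, stars, mem_union] at he
    simp only [pairsUp, mem_image, mem_range]
    rcases he with (he | he) | he
    · simp only [mem_image, hJ, seenPhones, rawSeen, mem_filter] at he
      obtain ⟨j, ⟨x, ⟨⟨p, ⟨hp, hp1, hp2⟩, rfl⟩, hx⟩, rfl⟩, rfl⟩ := he
      have hpl := slots_lt hs hp
      refine ⟨p.1 * ℓ + p.2, hpl.2.2, ?_⟩
      rw [wordBlock_slot hpos ℓ w c p.1 p.2 hpl.1, wordBlock_slot hpos ℓ w' c' p.1 p.2 hpl.1]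
      have : lab ℓ w c p.1 p.2 = 0 := by unfold lab; rw [if_pos hp1]
      rw [this]
    · simp only [mem_image, hI, seenPhones, rawSeen, mem_filter] at he
      obtain ⟨j, ⟨x, ⟨⟨p, ⟨hp, hp1, hp2⟩, rfl⟩, hx⟩, rfl⟩, rfl⟩ := he
      have hpl := slots_lt hs hp
      refine ⟨p.1 * ℓ + p.2, hpl.2.2, ?_⟩
      rw [wordBlock_slot hpos ℓ w c p.1 p.2 hpl.1, wordBlock_slot hpos ℓ w' c' p.1 p.2 hpl.1]
      have : lab ℓ w' c' p.1 p.2 = 0 := by unfold lab; rw [if_pos hp1]
      rw [this]
    · simp only [hF, bothPairs, mem_image, mem_filter] at he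
      obtain ⟨p, ⟨hp, _⟩, rfl⟩ := he
      have hpl := slots_lt hs hp
      refine ⟨p.1 * ℓ + p.2, hpl.2.2, ?_⟩
      rw [wordBlock_slot hpos ℓ w c p.1 p.2 hpl.1, wordBlock_slot hpos ℓ w' c' p.1 p.2 hpl.1]
  have hdisj : Disjoint (stars h0 J I) F := by
    rw [Finset.disjoint_left]
    intro e he he'
    simp only [hF, bothPairs, mem_image, mem_filter] at he'
    obtain ⟨p, ⟨hp, _, hg1, hg2⟩, rfl⟩ := he'
    rw [stars, mem_union, mem_image, mem_image] at he
    rcases he with ⟨j, _, h⟩ | ⟨i, _, h⟩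
    · exact hgood _ hg1 (Prod.ext_iff.1 h).1.symm
    · exact hgood _ hg2 (Prod.ext_iff.1 h).2.symm
  -- cardinalities
  have hJc := seenPhones_card (m := m) hn ℓ w w' c' k s hℓ hs hmℓ hmℓ' hw'
  have hIc := seenPhones_card (m := m) hn ℓ w' w c k s hℓ hs hmℓ hmℓ' hw
  have hFc := bothPairs_card hn ℓ w w' c c' k s hℓ hs hmℓ hmℓ' hw hw' hk hKM hc hc' hcc
  have hFub : F.card ≤ K * ℓ := by
    have h1 : F.card ≤ (slots ℓ k s).card := by
      rw [hF, bothPairs]
      exact card_image_le.trans (card_le_card (filter_subset _ _))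
    have h2 : (slots ℓ k s).card ≤ k * ℓ + s := by
      unfold slots
      refine (card_union_le _ _).trans ?_
      simp
    have h3 : (k + 1) * ℓ ≤ K * ℓ := Nat.mul_le_mul_right _ hk
    nlinarith
  have hJub : J.card ≤ n := by simpa using card_le_univ J
  have hIub : I.card ≤ n := by simpa using card_le_univ I
  -- main estimate
  have hmain : pAvoid (pairsUp (k * ℓ + s) (wordBlock hpos ℓ w c) (wordBlock hpos ℓ w' c')) ≤
      ((1 - (J.card : ℝ) / n) * (1 - (I.card : ℝ) / n)) * exp (-((F.card : ℝ) / n)) + 2 / n +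
        8 * K * (K + 1) / n := by
    have hn1 : (0 : ℝ) < (n : ℝ) - 1 := by linarith
    have h1 := pAvoid_anti hsub
    have h2 := pAvoid_union_le hn (stars h0 J I) F hdisj
    have h3 := pAvoid_stars hn h0 J I hJh hIh
    have h4 : (1 - 1 / (n : ℝ)) ^ F.card ≤ exp (-((F.card : ℝ) / n)) := by
      have h5 : 1 - 1 / (n : ℝ) ≤ exp (-(1 / (n : ℝ))) := by
        have := add_one_le_exp (-(1 / (n : ℝ))); linarith
      have h6 : 0 ≤ 1 - 1 / (n : ℝ) := by
        rw [sub_nonneg, div_le_one hn0]; linarith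
      calc (1 - 1 / (n : ℝ)) ^ F.card ≤ (exp (-(1 / (n : ℝ)))) ^ F.card :=
            pow_le_pow_left₀ h6 h5 _
        _ = exp (-((F.card : ℝ) / n)) := by rw [← exp_nat_mul]; congr 1; ring
    have h5 : 1 / ((n : ℝ) - 1) ≤ 2 / n := by
      rw [div_le_div_iff₀ hn1 hn0]; linarith
    have h6 : exp (-((F.card : ℝ) / n)) ≤ 1 := by
      apply exp_le_one_iff.2
      have : 0 ≤ (F.card : ℝ) / n := by positivity
      linarith
    have h7 : (F.card : ℝ) * ((stars h0 J I).card + F.card) / ((n : ℝ) ^ 2 * ((n : ℝ) - 1)) ≤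
        8 * K * (K + 1) / n := by
      have a0 : (ℓ : ℝ) ≤ 2 * n := by
        have : (n : ℝ) / m ≤ n := div_le_self hn0.le hm1
        linarith
      have a1 : (F.card : ℝ) ≤ 2 * K * n := by
        have : (F.card : ℝ) ≤ K * ℓ := by exact_mod_cast hFub
        nlinarith
      have a2 : ((stars h0 J I).card : ℝ) ≤ 2 * n := by
        have := stars_card_le h0 J I
        have : ((stars h0 J I).card : ℝ) ≤ J.card + I.card := by exact_mod_cast this
        have : (J.card : ℝ) ≤ n := by exact_mod_cast hJub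
        have : (I.card : ℝ) ≤ n := by exact_mod_cast hIub
        linarith
      have a3 : (F.card : ℝ) * ((stars h0 J I).card + F.card) ≤
          (2 * K * n) * (2 * n + 2 * K * n) := by gcongr
      rw [div_le_div_iff₀ (by positivity) hn0]
      have a4 : (2 * K * n) * (2 * n + 2 * K * n) * n ≤ 8 * K * (K + 1) * ((n : ℝ) ^ 2 * (n - 1)) := by
        have : (2 * K * n) * (2 * n + 2 * K * n) * n = 4 * K * (K + 1) * (n : ℝ) ^ 2 * n := by ring
        rw [this]
        have : 8 * K * (K + 1) * ((n : ℝ) ^ 2 * (n - 1)) =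
          4 * K * (K + 1) * (n : ℝ) ^ 2 * (2 * (n - 1)) := by ring
        rw [this]
        gcongr
        linarith
      calc (F.card : ℝ) * ((stars h0 J I).card + F.card) * n ≤
            (2 * K * n) * (2 * n + 2 * K * n) * n := by gcongr
        _ ≤ _ := a4
    have h8 : 0 < exp (-((F.card : ℝ) / n)) := exp_pos _
    have h9 := pAvoid_nonneg (stars h0 J I)
    have h10 : 0 ≤ (1 - (J.card : ℝ) / n) * (1 - (I.card : ℝ) / n) := by
      apply mul_nonneg
      · rw [sub_nonneg, div_le_one hn0]; exact_mod_cast hJub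
      · rw [sub_nonneg, div_le_one hn0]; exact_mod_cast hIub
    calc _ ≤ pAvoid (stars h0 J I ∪ F) := h1
      _ ≤ pAvoid (stars h0 J I) * (1 - 1 / (n : ℝ)) ^ F.card +
          (F.card : ℝ) * ((stars h0 J I).card + F.card) / ((n : ℝ) ^ 2 * ((n : ℝ) - 1)) := h2
      _ ≤ pAvoid (stars h0 J I) * exp (-((F.card : ℝ) / n)) + 8 * K * (K + 1) / n := by gcongr
      _ ≤ ((1 - (J.card : ℝ) / n) * (1 - (I.card : ℝ) / n) + 2 / n) *
          exp (-((F.card : ℝ) / n)) + 8 * K * (K + 1) / n := by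
          gcongr; linarith
      _ ≤ _ := by
          have : 2 / (n : ℝ) * exp (-((F.card : ℝ) / n)) ≤ 2 / n := by
            have : 0 ≤ 2 / (n : ℝ) := by positivity
            nlinarith
          linarith
  refine hmain.trans ?_
  set α : ℝ := ((m : ℝ) + 2) / n with hα
  have hα0 : 0 ≤ α := by positivity
  have hα1 : α ≤ 1 / 4 := by
    rw [hα, div_le_iff₀ hn0]; nlinarith
  set A := fA m w w' k - newSeen w w' k * s / n with hA
  set B := fA m w' w k - newSeen w' w k * s / n with hB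
  set E := fE m w w' k * exp (-(bothNow w w' k * s / n)) with hE
  have hs0 : (0 : ℝ) ≤ s := by positivity
  have hA1 : A ≤ 1 := by
    have := fA_le_one (m := m) w w' k
    have : 0 ≤ (newSeen w w' k : ℝ) * s / n := by positivity
    linarith
  have hB1 : B ≤ 1 := by
    have := fA_le_one (m := m) w' w k
    have : 0 ≤ (newSeen w' w k : ℝ) * s / n := by positivity
    linarith
  have hJA : 1 - (J.card : ℝ) / n ≤ A + α := by
    have h1 : ((seen w w' k).card : ℝ) * ℓ + newSeen w w' k * s ≤ J.card + (m + 2) := by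
      exact_mod_cast hJc
    have h2 : ((seen w w' k).card : ℝ) / m ≤ ((seen w w' k).card : ℝ) * ℓ / n := by
      rw [div_le_div_iff₀ hm0 hn0]
      have : (n : ℝ) ≤ ℓ * m := by rwa [div_le_iff₀ hm0] at hℓ1
      nlinarith [Nat.cast_nonneg (α := ℝ) (seen w w' k).card]
    have h3 : (((seen w w' k).card : ℝ) * ℓ + newSeen w w' k * s) / n ≤ (J.card + (m + 2)) / n := by
      gcongr
    rw [hA, hα, fA]
    rw [add_div, add_div] at h3
    linarith
  have hIB : 1 - (I.card : ℝ) / n ≤ B + α := by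
    have h1 : ((seen w' w k).card : ℝ) * ℓ + newSeen w' w k * s ≤ I.card + (m + 2) := by
      exact_mod_cast hIc
    have h2 : ((seen w' w k).card : ℝ) / m ≤ ((seen w' w k).card : ℝ) * ℓ / n := by
      rw [div_le_div_iff₀ hm0 hn0]
      have : (n : ℝ) ≤ ℓ * m := by rwa [div_le_iff₀ hm0] at hℓ1
      nlinarith [Nat.cast_nonneg (α := ℝ) (seen w' w k).card]
    have h3 : (((seen w' w k).card : ℝ) * ℓ + newSeen w' w k * s) / n ≤ (I.card + (m + 2)) / n := by
      gcongr
    rw [hB, hα, fA]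
    rw [add_div, add_div] at h3
    linarith
  have hE0 : 0 < E := by rw [hE]; exact mul_pos (fE_pos _ _ _) (exp_pos _)
  have hE1 : E ≤ 1 := by
    rw [hE]
    apply mul_le_one₀ (fE_le_one _ _ _) (exp_pos _).le
    apply exp_le_one_iff.2
    have : 0 ≤ (bothNow w w' k : ℝ) * s / n := by positivity
    linarith
  set c0 : ℝ := 2 * (m + 2) * K with hc0
  have hc0n : c0 / n ≤ 1 / 2 := by
    rw [div_le_iff₀ hn0]; linarith
  have hc00 : 0 ≤ c0 / n := by positivity
  have hFE : exp (-((F.card : ℝ) / n)) ≤ E + 2 * (c0 / n) := by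
    have h1 : ((both w w' k : ℝ) * ℓ + bothNow w w' k * s) ≤ F.card + c0 := by
      have : ((both w w' k : ℝ) * ℓ + bothNow w w' k * s) ≤ F.card + 2 * (m + 2) * K := by
        exact_mod_cast hFc
      linarith
    have h2 : (both w w' k : ℝ) / m ≤ (both w w' k : ℝ) * ℓ / n := by
      rw [div_le_div_iff₀ hm0 hn0]
      have : (n : ℝ) ≤ ℓ * m := by rwa [div_le_iff₀ hm0] at hℓ1
      nlinarith [Nat.cast_nonneg (α := ℝ) (both w w' k)]
    have h3 : -((F.card : ℝ) / n) ≤ -((both w w' k : ℝ) / m) + -(bothNow w w' k * s / n) + c0 / n := by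
      have h4 : ((both w w' k : ℝ) * ℓ + bothNow w w' k * s) / n ≤ (F.card + c0) / n := by gcongr
      rw [add_div, add_div] at h4
      linarith
    calc exp (-((F.card : ℝ) / n)) ≤
          exp (-((both w w' k : ℝ) / m) + -(bothNow w w' k * s / n) + c0 / n) := exp_le_exp.2 h3
      _ = E * exp (c0 / n) := by rw [exp_add, exp_add, hE, fE]
      _ ≤ E * (1 + 2 * (c0 / n)) := by
          gcongr
          -- e^x ≤ 1 + 2x for 0 ≤ x ≤ 1/2
          have hx := hc0n
          set x := c0 / (n : ℝ)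
          have h5 : 1 - x ≤ exp (-x) := by have := add_one_le_exp (-x); linarith
          have h6 : exp x * exp (-x) = 1 := by rw [← exp_add]; simp
          have h7 : exp x * (1 - x) ≤ 1 := by
            calc exp x * (1 - x) ≤ exp x * exp (-x) := by gcongr
              _ = 1 := h6
          have h8 : 1 ≤ (1 + 2 * x) * (1 - x) := by nlinarith
          have h9 : 0 < 1 - x := by linarith
          exact le_of_mul_le_mul_right (h7.trans h8) h9
      _ ≤ E + 2 * (c0 / n) := by nlinarith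
  have hJ0 : 0 ≤ 1 - (J.card : ℝ) / n := by
    rw [sub_nonneg, div_le_one hn0]; exact_mod_cast hJub
  have hI0 : 0 ≤ 1 - (I.card : ℝ) / n := by
    rw [sub_nonneg, div_le_one hn0]; exact_mod_cast hIub
  have hfin : ((1 - (J.card : ℝ) / n) * (1 - (I.card : ℝ) / n)) * exp (-((F.card : ℝ) / n)) ≤
      A * B * E + 3 * α + 8 * (c0 / n) := by
    have hAa : 0 ≤ A + α := hJ0.trans hJA
    have hBa : 0 ≤ B + α := hI0.trans hIB
    calc ((1 - (J.card : ℝ) / n) * (1 - (I.card : ℝ) / n)) * exp (-((F.card : ℝ) / n))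
        ≤ ((A + α) * (B + α)) * (E + 2 * (c0 / n)) := by gcongr
      _ = A * B * E + (α * B + α * A + α ^ 2) * E + (A + α) * (B + α) * (2 * (c0 / n)) := by ring
      _ ≤ A * B * E + 3 * α + 8 * (c0 / n) := by
          have g1 : (α * B + α * A + α ^ 2) ≤ 3 * α := by nlinarith
          have g2 : (α * B + α * A + α ^ 2) * E ≤ 3 * α := by
            rcases le_total 0 (α * B + α * A + α ^ 2) with h | h
            · nlinarith
            · have : (α * B + α * A + α ^ 2) * E ≤ 0 := mul_nonpos_of_nonpos_of_nonneg h hE0.le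
              linarith
          have g3 : (A + α) * (B + α) ≤ 4 := by
            have : A + α ≤ 2 := by linarith
            have : B + α ≤ 2 := by linarith
            nlinarith
          have g4 : (A + α) * (B + α) * (2 * (c0 / n)) ≤ 4 * (2 * (c0 / n)) := by gcongr
          linarith
  have herr : errC m K / n = 3 * α + 8 * (c0 / n) + 2 / n + 8 * K * (K + 1) / n := by
    rw [errC, hα, hc0]; ring
  rw [herr]
  linarith

end Pool.Agent.Lib.MP92dd55
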