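import Mathlib
import Pool.Agent.Lib.MP92dd55.PairBound

/-! # Summing the pair bound over a slot and over a block -/

namespace Pool.Agent.Lib.MP92dd55

open Finset Real

/-- limiting cost (in units of `n`) of slot `k` -/
noncomputable def slotCost (m : ℕ) (w w' : ℕ → ℕ) (k : ℕ) : ℝ :=
  if w k ≠ 0 ∧ w' k ≠ 0 then fA m w w' k * fA m w' w k * fE m w w' k * (1 - exp (-(1 / (m : ℝ))))
  else if newSeen w w' k = 1 then
    fA m w' w k * fE m w w' k * (fA m w w' k / m - 1 / (2 * (m : ℝ) ^ 2))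
  else if newSeen w' w k = 1 then
    fA m w w' k * fE m w w' k * (fA m w' w k / m - 1 / (2 * (m : ℝ) ^ 2))
  else fA m w w' k * fA m w' w k * fE m w w' k / m

lemma sum_exp_le {n m : ℕ} (hn : 1 ≤ n) (hm : 0 < m) (ℓ : ℕ) (hℓ2 : (ℓ : ℝ) ≤ (n : ℝ) / m + 1) :
    ∑ s ∈ range ℓ, exp (-((s : ℝ) / n)) ≤ n * (1 - exp (-(1 / (m : ℝ)))) + 3 := by
  have hn0 : (0 : ℝ) < n := by exact_mod_cast hn
  have hn1 : (1 : ℝ) ≤ n := by exact_mod_cast hn
  have hm0 : (0 : ℝ) < m := by exact_mod_cast hm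
  set r : ℝ := exp (-(1 / (n : ℝ))) with hr
  have h1 : ∑ s ∈ range ℓ, exp (-((s : ℝ) / n)) = ∑ s ∈ range ℓ, r ^ s := by
    refine Finset.sum_congr rfl fun s _ => ?_
    rw [hr, ← exp_nat_mul]; congr 1; ring
  rw [h1]
  set S := ∑ s ∈ range ℓ, r ^ s with hS
  have hS0 : 0 ≤ S := Finset.sum_nonneg fun s _ => pow_nonneg (exp_pos _).le _
  have h2 : (1 - r) * S = 1 - r ^ ℓ := mul_neg_geom_sum r ℓ
  have h3 : 1 / ((n : ℝ) + 1) ≤ 1 - r := by
    have h4 : r ≤ n / (n + 1) := by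
      have h5 : 1 + 1 / (n : ℝ) ≤ exp (1 / (n : ℝ)) := by
        have := add_one_le_exp (1 / (n : ℝ)); linarith
      rw [hr, exp_neg]
      have h6 : (n : ℝ) / (n + 1) = (1 + 1 / (n : ℝ))⁻¹ := by field_simp
      rw [h6]
      exact inv_anti₀ (by positivity) h5
    have h7 : 1 / ((n : ℝ) + 1) = 1 - n / (n + 1) := by field_simp; ring
    rw [h7]; linarith
  set e : ℝ := exp (-(1 / (m : ℝ))) with he
  have he0 : 0 < e := exp_pos _
  have he1 : e ≤ 1 := exp_le_one_iff.2 (by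
    have : 0 ≤ 1 / (m : ℝ) := by positivity
    linarith)
  have h8 : 1 - r ^ ℓ ≤ 1 - e + 1 / n := by
    have h9 : r ^ ℓ = exp (-((ℓ : ℝ) / n)) := by
      rw [hr, ← exp_nat_mul]; congr 1; ring
    have h10 : -(1 / (m : ℝ)) + -(1 / (n : ℝ)) ≤ -((ℓ : ℝ) / n) := by
      have : (ℓ : ℝ) / n ≤ ((n : ℝ) / m + 1) / n := by gcongr
      have h11 : ((n : ℝ) / m + 1) / n = 1 / m + 1 / n := by field_simp
      linarith
    have h12 : e * (1 - 1 / n) ≤ exp (-((ℓ : ℝ) / n)) := by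
      calc e * (1 - 1 / n) ≤ e * exp (-(1 / (n : ℝ))) := by
            have := add_one_le_exp (-(1 / (n : ℝ)))
            gcongr; linarith
        _ = exp (-(1 / (m : ℝ)) + -(1 / (n : ℝ))) := by rw [exp_add]
        _ ≤ _ := exp_le_exp.2 h10
    rw [h9]
    have : e * (1 / n) ≤ 1 / n := by
      have : 0 ≤ 1 / (n : ℝ) := by positivity
      nlinarith
    linarith
  have h13 : 1 / ((n : ℝ) + 1) * S ≤ 1 - e + 1 / n := by
    calc 1 / ((n : ℝ) + 1) * S ≤ (1 - r) * S := by gcongr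
      _ ≤ _ := by rw [h2]; exact h8
  have h14 : S ≤ (n + 1) * (1 - e + 1 / n) := by
    have h15 : (0 : ℝ) < n + 1 := by positivity
    rw [one_div, inv_mul_le_iff₀ h15] at h13
    exact h13
  have h16 : ((n : ℝ) + 1) * (1 - e + 1 / n) = n * (1 - e) + (1 - e) + 1 + 1 / n := by
    field_simp; ring
  have h17 : 1 / (n : ℝ) ≤ 1 := by rw [div_le_one hn0]; exact hn1
  linarith

lemma sum_lin_le {n m : ℕ} (hn : 1 ≤ n) (hm : 0 < m) (ℓ : ℕ) (hℓ : 0 < ℓ)
    (hℓ1 : (n : ℝ) / m ≤ ℓ)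
    (hℓ2 : (ℓ : ℝ) ≤ (n : ℝ) / m + 1) (a : ℝ) (ha0 : 0 ≤ a) (ha1 : a ≤ 1) :
    ∑ s ∈ range ℓ, (a - (s : ℝ) / n) ≤ n * (a / m - 1 / (2 * (m : ℝ) ^ 2)) + 2 := by
  have hn0 : (0 : ℝ) < n := by exact_mod_cast hn
  have hm0 : (0 : ℝ) < m := by exact_mod_cast hm
  have hm1 : (1 : ℝ) ≤ m := by exact_mod_cast hm
  have hℓR : (1 : ℝ) ≤ ℓ := by exact_mod_cast hℓ
  have h1 : ∑ s ∈ range ℓ, (a - (s : ℝ) / n) = ℓ * a - ((ℓ : ℝ) * (ℓ - 1)) / (2 * n) := by
    rw [Finset.sum_sub_distrib, sum_const, card_range, nsmul_eq_mul, ← Finset.sum_div]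
    have h2 : ∑ s ∈ range ℓ, (s : ℝ) = (ℓ : ℝ) * (ℓ - 1) / 2 := by
      have := Finset.sum_range_id_mul_two ℓ
      have h3 : ((∑ s ∈ range ℓ, s : ℕ) : ℝ) * 2 = ℓ * ((ℓ - 1 : ℕ) : ℝ) := by exact_mod_cast this
      rw [Nat.cast_sub hℓ, Nat.cast_one] at h3
      push_cast at h3
      linarith
    rw [h2]
    field_simp
  rw [h1]
  set x := (n : ℝ) / m with hx
  have hx0 : 0 ≤ x := by positivity
  have h4 : x * (x - 1) ≤ (ℓ : ℝ) * (ℓ - 1) := by nlinarith
  have h5 : x * (x - 1) / (2 * n) ≤ ((ℓ : ℝ) * (ℓ - 1)) / (2 * n) := by gcongr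
  have h6 : x * (x - 1) / (2 * n) = n / (2 * m ^ 2) - 1 / (2 * m) := by
    rw [hx]; field_simp
  have h7 : (ℓ : ℝ) * a ≤ x * a + 1 := by nlinarith
  have h8 : (n : ℝ) * (a / m - 1 / (2 * (m : ℝ) ^ 2)) = x * a - n / (2 * m ^ 2) := by
    rw [hx]; field_simp
  have h9 : 1 / (2 * (m : ℝ)) ≤ 1 := by
    rw [div_le_one (by positivity)]; linarith
  linarith

lemma errC_nonneg (m K : ℕ) : 0 ≤ errC m K := by unfold errC; positivity

theorem slot_sum {n m K M : ℕ} (hn : 2 ≤ n) (hm : 0 < m) (ℓ : ℕ) (w w' : ℕ → ℕ)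
    (c c' k : ℕ) (hℓ1 : (n : ℝ) / m ≤ ℓ) (hℓ2 : (ℓ : ℝ) ≤ (n : ℝ) / m + 1)
    (hw : ∀ i, w i ≤ m) (hw' : ∀ i, w' i ≤ m) (hk : k < K) (hKM : K * M ≤ ℓ)
    (hc : c < M) (hc' : c' < M) (hcc : c ≠ c') (hbig : (4 * (m + 2) * K : ℝ) ≤ n) :
    ∑ s ∈ range ℓ, pAvoid (pairsUp (k * ℓ + s) (wordBlock (by omega : 0 < n) ℓ w c)
      (wordBlock (by omega : 0 < n) ℓ w' c')) ≤ n * slotCost m w w' k + (3 + 2 * errC m K) := by
  have hn0 : (0 : ℝ) < n := by
    have : 0 < n := by omega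
    exact_mod_cast this
  have hn1 : (1 : ℝ) ≤ n := by
    have : 1 ≤ n := by omega
    exact_mod_cast this
  have hm0 : (0 : ℝ) < m := by exact_mod_cast hm
  have hm1 : (1 : ℝ) ≤ m := by exact_mod_cast hm
  have hℓR : (0 : ℝ) < ℓ := lt_of_lt_of_le (by positivity) hℓ1
  have hℓ : 0 < ℓ := by exact_mod_cast hℓR
  have hℓ2n : (ℓ : ℝ) ≤ 2 * n := by
    have : (n : ℝ) / m ≤ n := div_le_self hn0.le hm1
    linarith
  have h1 : ∑ s ∈ range ℓ, pAvoid (pairsUp (k * ℓ + s) (wordBlock (by omega : 0 < n) ℓ w c)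
      (wordBlock (by omega : 0 < n) ℓ w' c')) ≤
      ∑ s ∈ range ℓ, ((fA m w w' k - newSeen w w' k * s / n) *
        (fA m w' w k - newSeen w' w k * s / n) *
        (fE m w w' k * exp (-(bothNow w w' k * s / n))) + errC m K / n) := by
    refine Finset.sum_le_sum fun s hs => ?_
    rw [mem_range] at hs
    exact pair_bound hn hm ℓ w w' c c' k s hs.le hℓ1 hℓ2 hw hw' hk hKM hc hc' hcc hbig
  refine h1.trans ?_
  rw [Finset.sum_add_distrib, sum_const, card_range, nsmul_eq_mul]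
  have h2 : (ℓ : ℝ) * (errC m K / n) ≤ 2 * errC m K := by
    have h3 := errC_nonneg m K
    calc (ℓ : ℝ) * (errC m K / n) ≤ (2 * n) * (errC m K / n) := by gcongr
      _ = 2 * errC m K := by field_simp
  suffices h : ∑ s ∈ range ℓ, ((fA m w w' k - newSeen w w' k * s / n) *
        (fA m w' w k - newSeen w' w k * s / n) *
        (fE m w w' k * exp (-(bothNow w w' k * s / n)))) ≤ n * slotCost m w w' k + 3 by linarith
  have hA0 := fA_nonneg hm w w' k hw'
  have hB0 := fA_nonneg hm w' w k hw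
  have hA1 := fA_le_one (m := m) w w' k
  have hB1 := fA_le_one (m := m) w' w k
  have hE0 := fE_pos (m := m) w w' k
  have hE1 := fE_le_one (m := m) w w' k
  set A := fA m w w' k with hA
  set B := fA m w' w k with hB
  set E := fE m w w' k with hE
  by_cases hboth : w k ≠ 0 ∧ w' k ≠ 0
  · have e1 : newSeen w w' k = 0 := if_neg (fun h => hboth.1 h.1)
    have e2 : newSeen w' w k = 0 := if_neg (fun h => hboth.2 h.1)
    have e3 : bothNow w w' k = 1 := if_pos hboth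
    have e4 : slotCost m w w' k = A * B * E * (1 - exp (-(1 / (m : ℝ)))) := by
      unfold slotCost; rw [if_pos hboth]
    rw [e1, e2, e3, e4]
    have h5 : ∀ s ∈ range ℓ, (A - ((0 : ℕ) : ℝ) * s / n) * (B - ((0 : ℕ) : ℝ) * s / n) *
        (E * exp (-(((1 : ℕ) : ℝ) * s / n))) = (A * B * E) * exp (-((s : ℝ) / n)) := by
      intro s _
      push_cast
      rw [zero_mul, zero_div, sub_zero, sub_zero, one_mul]
      ring
    rw [Finset.sum_congr rfl h5, ← Finset.mul_sum]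
    have h6 := sum_exp_le (by omega : 1 ≤ n) hm ℓ hℓ2
    have h7 : 0 ≤ A * B * E := by positivity
    have h8 : A * B * E ≤ 1 := by
      have : A * B ≤ 1 := mul_le_one₀ hA1 hB0 hB1
      exact mul_le_one₀ this hE0.le hE1
    calc (A * B * E) * ∑ s ∈ range ℓ, exp (-((s : ℝ) / n))
        ≤ (A * B * E) * (n * (1 - exp (-(1 / (m : ℝ)))) + 3) := by gcongr
      _ = n * (A * B * E * (1 - exp (-(1 / (m : ℝ))))) + (A * B * E) * 3 := by ring
      _ ≤ _ := by linarith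
  · have e3 : bothNow w w' k = 0 := if_neg hboth
    by_cases hn1' : newSeen w w' k = 1
    · have hwk : w k = 0 := by
        by_contra h
        have : newSeen w w' k = 0 := if_neg (fun hh => h hh.1)
        omega
      have hwk' : w' k ≠ 0 := by
        intro h
        have : newSeen w w' k = 0 := if_neg (fun hh => hh.2.1 h)
        omega
      have e2 : newSeen w' w k = 0 := if_neg (fun hh => hwk' hh.1)
      have e4 : slotCost m w w' k = B * E * (A / m - 1 / (2 * (m : ℝ) ^ 2)) := by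
        unfold slotCost; rw [if_neg hboth, if_pos hn1']
      rw [hn1', e2, e3, e4]
      have h5 : ∀ s ∈ range ℓ, (A - ((1 : ℕ) : ℝ) * s / n) * (B - ((0 : ℕ) : ℝ) * s / n) *
          (E * exp (-(((0 : ℕ) : ℝ) * s / n))) = (B * E) * (A - (s : ℝ) / n) := by
        intro s _
        push_cast
        rw [zero_mul, zero_div, sub_zero, one_mul, neg_zero, exp_zero]
        ring
      rw [Finset.sum_congr rfl h5, ← Finset.mul_sum]
      have h6 := sum_lin_le (by omega : 1 ≤ n) hm ℓ hℓ hℓ1 hℓ2 A hA0 hA1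
      have h7 : 0 ≤ B * E := by positivity
      have h8 : B * E ≤ 1 := mul_le_one₀ hB1 hE0.le hE1
      calc (B * E) * ∑ s ∈ range ℓ, (A - (s : ℝ) / n)
          ≤ (B * E) * (n * (A / m - 1 / (2 * (m : ℝ) ^ 2)) + 2) := by gcongr
        _ = n * (B * E * (A / m - 1 / (2 * (m : ℝ) ^ 2))) + (B * E) * 2 := by ring
        _ ≤ _ := by linarith
    · have e1 : newSeen w w' k = 0 := by
        unfold newSeen at hn1' ⊢
        split_ifs at hn1' ⊢
        · exact absurd rfl hn1'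
        · rfl
      by_cases hn2' : newSeen w' w k = 1
      · have e4 : slotCost m w w' k = A * E * (B / m - 1 / (2 * (m : ℝ) ^ 2)) := by
          unfold slotCost; rw [if_neg hboth, if_neg hn1', if_pos hn2']
        rw [e1, hn2', e3, e4]
        have h5 : ∀ s ∈ range ℓ, (A - ((0 : ℕ) : ℝ) * s / n) * (B - ((1 : ℕ) : ℝ) * s / n) *
            (E * exp (-(((0 : ℕ) : ℝ) * s / n))) = (A * E) * (B - (s : ℝ) / n) := by
          intro s _
          push_cast
          rw [zero_mul, zero_div, sub_zero, one_mul, neg_zero, exp_zero]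
          ring
        rw [Finset.sum_congr rfl h5, ← Finset.mul_sum]
        have h6 := sum_lin_le (by omega : 1 ≤ n) hm ℓ hℓ hℓ1 hℓ2 B hB0 hB1
        have h7 : 0 ≤ A * E := by positivity
        have h8 : A * E ≤ 1 := mul_le_one₀ hA1 hE0.le hE1
        calc (A * E) * ∑ s ∈ range ℓ, (B - (s : ℝ) / n)
            ≤ (A * E) * (n * (B / m - 1 / (2 * (m : ℝ) ^ 2)) + 2) := by gcongr
          _ = n * (A * E * (B / m - 1 / (2 * (m : ℝ) ^ 2))) + (A * E) * 2 := by ring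
          _ ≤ _ := by linarith
      · have e2 : newSeen w' w k = 0 := by
          unfold newSeen at hn2' ⊢
          split_ifs at hn2' ⊢
          · exact absurd rfl hn2'
          · rfl
        have e4 : slotCost m w w' k = A * B * E / m := by
          unfold slotCost; rw [if_neg hboth, if_neg hn1', if_neg hn2']
        rw [e1, e2, e3, e4]
        have h5 : ∀ s ∈ range ℓ, (A - ((0 : ℕ) : ℝ) * s / n) * (B - ((0 : ℕ) : ℝ) * s / n) *
            (E * exp (-(((0 : ℕ) : ℝ) * s / n))) = A * B * E := by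
          intro s _
          push_cast
          rw [zero_mul, zero_div, sub_zero, sub_zero, neg_zero, exp_zero]
          ring
        rw [Finset.sum_congr rfl h5, sum_const, card_range, nsmul_eq_mul]
        have h7 : 0 ≤ A * B * E := by positivity
        have h8 : A * B * E ≤ 1 := by
          have : A * B ≤ 1 := mul_le_one₀ hA1 hB0 hB1
          exact mul_le_one₀ this hE0.le hE1
        calc (ℓ : ℝ) * (A * B * E) ≤ ((n : ℝ) / m + 1) * (A * B * E) := by gcongr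
          _ = n * (A * B * E / m) + A * B * E := by ring
          _ ≤ _ := by linarith

lemma sum_range_mul_split (f : ℕ → ℝ) (K ℓ : ℕ) :
    ∑ t ∈ range (K * ℓ), f t = ∑ k ∈ range K, ∑ s ∈ range ℓ, f (k * ℓ + s) := by
  induction K with
  | zero => simp
  | succ K ih => rw [add_mul, one_mul, Finset.sum_range_add, ih, Finset.sum_range_succ]

theorem block_sum {n m K M : ℕ} (hn : 2 ≤ n) (hm : 0 < m) (ℓ : ℕ) (w w' : ℕ → ℕ)
    (c c' : ℕ) (hℓ1 : (n : ℝ) / m ≤ ℓ) (hℓ2 : (ℓ : ℝ) ≤ (n : ℝ) / m + 1)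
    (hw : ∀ i, w i ≤ m) (hw' : ∀ i, w' i ≤ m) (hKM : (K + 1) * M ≤ ℓ)
    (hc : c < M) (hc' : c' < M) (hcc : c ≠ c') (hbig : (4 * (m + 2) * (K + 1) : ℝ) ≤ n) :
    ∑ t ∈ range (K * ℓ), pAvoid (pairsUp t (wordBlock (by omega : 0 < n) ℓ w c)
      (wordBlock (by omega : 0 < n) ℓ w' c')) ≤
      n * ∑ k ∈ range K, slotCost m w w' k + K * (3 + 2 * errC m (K + 1)) := by
  rw [sum_range_mul_split]
  have h1 : ∀ k ∈ range K, ∑ s ∈ range ℓ, pAvoid (pairsUp (k * ℓ + s)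
      (wordBlock (by omega : 0 < n) ℓ w c) (wordBlock (by omega : 0 < n) ℓ w' c')) ≤
      n * slotCost m w w' k + (3 + 2 * errC m (K + 1)) := by
    intro k hk
    rw [mem_range] at hk
    exact slot_sum hn hm ℓ w w' c c' k hℓ1 hℓ2 hw hw' (by omega : k < K + 1) hKM hc hc' hcc
      (by push_cast; exact hbig)
  refine (Finset.sum_le_sum h1).trans ?_
  rw [Finset.sum_add_distrib, sum_const, card_range, nsmul_eq_mul, ← Finset.mul_sum]

theorem block_end {n m K M : ℕ} (hn : 2 ≤ n) (hm : 0 < m) (ℓ : ℕ) (w w' : ℕ → ℕ)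
    (c c' : ℕ) (hℓ1 : (n : ℝ) / m ≤ ℓ) (hℓ2 : (ℓ : ℝ) ≤ (n : ℝ) / m + 1)
    (hw : ∀ i, w i ≤ m) (hw' : ∀ i, w' i ≤ m) (hKM : (K + 1) * M ≤ ℓ)
    (hc : c < M) (hc' : c' < M) (hcc : c ≠ c') (hbig : (4 * (m + 2) * (K + 1) : ℝ) ≤ n) :
    pAvoid (pairsUp (K * ℓ) (wordBlock (by omega : 0 < n) ℓ w c)
      (wordBlock (by omega : 0 < n) ℓ w' c')) ≤
      fA m w w' K * fA m w' w K * fE m w w' K + errC m (K + 1) / n := by
  have h := pair_bound hn hm ℓ w w' c c' K 0 (by omega) hℓ1 hℓ2 hw hw' (by omega : K < K + 1) hKM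
    hc hc' hcc (by push_cast; exact hbig)
  simpa using h

end Pool.Agent.Lib.MP92dd55
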