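import Mathlib
import Pool.Agent.Lib.MP92dd55.SlotSum

/-! # Upper bound for the rendezvous value from a finite family of words -/

namespace Pool.Agent.Lib.MP92dd55

open Finset Real

lemma avg_formula {N M : ℕ} (hM : 0 < M) (q : Fin N → ℝ) (hq1 : ∑ i, q i = 1)
    (g : Fin N → Fin N → ℝ) (b : ℝ) :
    ∑ ω : Fin N × Fin M, ∑ ω' : Fin N × Fin M, (q ω.1 / M) * (q ω'.1 / M) *
      (g ω.1 ω'.1 + if ω.2 = ω'.2 then b else 0) =
      (∑ i, ∑ j, q i * q j * g i j) + b / M := by
  have hM0 : (0 : ℝ) < M := by exact_mod_cast hM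
  rw [Fintype.sum_prod_type]
  simp_rw [Fintype.sum_prod_type]
  have h1 : ∀ i : Fin N, ∀ c : Fin M, ∑ j : Fin N, ∑ c' : Fin M, (q i / M) * (q j / M) *
      (g i j + if c = c' then b else 0) =
      ∑ j : Fin N, (q i * q j * g i j / M + q i * q j * b / M ^ 2) := by
    intro i c
    refine Finset.sum_congr rfl fun j _ => ?_
    rw [← Finset.mul_sum, Finset.sum_add_distrib, sum_const, card_univ, Fintype.card_fin,
      nsmul_eq_mul, Finset.sum_ite_eq]
    rw [if_pos (mem_univ c)]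
    field_simp
  simp_rw [h1]
  have h2 : ∀ i : Fin N, ∑ c : Fin M, ∑ j : Fin N, (q i * q j * g i j / M +
      q i * q j * b / M ^ 2) = ∑ j : Fin N, (q i * q j * g i j + q i * q j * b / M) := by
    intro i
    rw [sum_const, card_univ, Fintype.card_fin, nsmul_eq_mul, Finset.mul_sum]
    refine Finset.sum_congr rfl fun j _ => ?_
    field_simp
  simp_rw [h2]
  simp_rw [Finset.sum_add_distrib]
  congr 1
  have h3 : ∀ i : Fin N, ∑ j : Fin N, q i * q j * b / M = q i * (b / M) := by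
    intro i
    have : ∀ j : Fin N, q i * q j * b / M = q j * (q i * (b / M)) := fun j => by ring
    simp_rw [this]
    rw [← Finset.sum_mul, hq1, one_mul]
  simp_rw [h3]
  rw [← Finset.sum_mul, hq1, one_mul]

lemma pAvoid_le_one' {n : ℕ} (P : Finset (Fin n × Fin n)) : pAvoid P ≤ 1 := by
  have h := pAvoid_anti (Finset.empty_subset P)
  rwa [pAvoid_empty] at h

/-- limiting probability of not meeting during a block -/
noncomputable def endProb (m : ℕ) (w w' : ℕ → ℕ) (K : ℕ) : ℝ :=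
  fA m w w' K * fA m w' w K * fE m w w' K

theorem value_le_words {N m K : ℕ} (hm : 0 < m) (hK : 0 < K) (q : Fin N → ℝ)
    (hq0 : ∀ i, 0 ≤ q i) (hq1 : ∑ i, q i = 1) (w : Fin N → ℕ → ℕ) (hw : ∀ i k, w i k ≤ m)
    (R : ℝ) (hR0 : 0 ≤ R)
    (hR : ∑ i, ∑ j, q i * q j * ((∑ k ∈ range K, slotCost m (w i) (w j) k) +
      R * endProb m (w i) (w j) K) < R) :
    ∃ N0 : ℕ, ∀ n ≥ N0, rendezvousValue n ≤ ENNReal.ofReal (R * n) := by
  classical
  set A : ℝ := ∑ i, ∑ j, q i * q j * (∑ k ∈ range K, slotCost m (w i) (w j) k) with hA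
  set D0 : ℝ := ∑ i, ∑ j, q i * q j * endProb m (w i) (w j) K with hD0
  have hAD : A + R * D0 < R := by
    have h1 : ∑ i, ∑ j, q i * q j * ((∑ k ∈ range K, slotCost m (w i) (w j) k) +
      R * endProb m (w i) (w j) K) = A + R * D0 := by
      rw [hA, hD0, Finset.mul_sum, ← Finset.sum_add_distrib]
      refine Finset.sum_congr rfl fun i _ => ?_
      rw [Finset.mul_sum, ← Finset.sum_add_distrib]
      refine Finset.sum_congr rfl fun j _ => ?_
      ring
    rwa [h1] at hR
  have hcost0 : ∀ i j k, 0 ≤ slotCost m (w i) (w j) k := by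
    intro i j k
    have hm0 : (0 : ℝ) < m := by exact_mod_cast hm
    have hA0 := fA_nonneg hm (w i) (w j) k (hw j)
    have hB0 := fA_nonneg hm (w j) (w i) k (hw i)
    have hE0 := fE_pos (m := m) (w i) (w j) k
    have hnew : ∀ v v' : ℕ → ℕ, (∀ t, v' t ≤ m) → newSeen v v' k = 1 →
        0 ≤ fA m v v' k / m - 1 / (2 * (m : ℝ) ^ 2) := by
      intro v v' hv h
      have h1 := seen_card_le v v' k hv
      rw [h] at h1
      have h2 : ((seen v v' k).card : ℝ) + 1 ≤ m := by exact_mod_cast h1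
      have h3 : 1 / (m : ℝ) ≤ fA m v v' k := by
        unfold fA
        rw [div_le_iff₀ hm0, sub_mul, div_mul_cancel₀ _ hm0.ne']
        linarith
      have h4 : 1 / (2 * (m : ℝ) ^ 2) ≤ fA m v v' k / m := by
        calc 1 / (2 * (m : ℝ) ^ 2) ≤ (1 / (m : ℝ)) / m := by
              rw [div_div, ← pow_two]
              apply div_le_div_of_nonneg_left (by norm_num) (by positivity)
              nlinarith [sq_nonneg (m : ℝ)]
          _ ≤ _ := by gcongr
      linarith
    unfold slotCost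
    split_ifs with h1 h2 h3
    · have : exp (-(1 / (m : ℝ))) ≤ 1 := exp_le_one_iff.2 (by
        have : 0 ≤ 1 / (m : ℝ) := by positivity
        linarith)
      have h4 : 0 ≤ 1 - exp (-(1 / (m : ℝ))) := by linarith
      positivity
    · have := hnew (w i) (w j) (hw j) h2
      positivity
    · have := hnew (w j) (w i) (hw i) h3
      positivity
    · positivity
  have hA0 : 0 ≤ A := by
    rw [hA]
    exact Finset.sum_nonneg fun i _ => Finset.sum_nonneg fun j _ =>
      mul_nonneg (mul_nonneg (hq0 i) (hq0 j)) (Finset.sum_nonneg fun k _ => hcost0 i j k)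
  have hRpos : 0 < R := by
    by_contra h
    have : R = 0 := le_antisymm (not_lt.1 h) hR0
    rw [this] at hAD
    linarith
  -- constants
  set E := errC m (K + 1) with hE
  have hE0 : 0 ≤ E := errC_nonneg _ _
  set C1 : ℝ := K * (3 + 2 * E) + 2 * (K + 1) * K with hC1
  set C2 : ℝ := E + 2 * (K + 1) * m with hC2
  have hC10 : 0 ≤ C1 := by positivity
  have hC20 : 0 ≤ C2 := by positivity
  set δ : ℝ := R * (1 - D0) - A with hδ
  have hδ0 : 0 < δ := by rw [hδ]; linarith
  have hD01 : D0 < 1 := by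
    by_contra h
    have h1 : 1 ≤ D0 := not_lt.1 h
    nlinarith
  obtain ⟨N1, hN1⟩ := exists_nat_gt ((C1 + R * C2) / δ)
  obtain ⟨N2, hN2⟩ := exists_nat_gt (C2 / (1 - D0))
  refine ⟨N1 + N2 + 4 * (m + 2) * (K + 1) + m * (K + 1) + 2, ?_⟩
  intro n hn
  have hn2 : 2 ≤ n := by omega
  have hpos : 0 < n := by omega
  have hn0 : (0 : ℝ) < n := by exact_mod_cast hpos
  have hm0 : (0 : ℝ) < m := by exact_mod_cast hm
  have hm1 : (1 : ℝ) ≤ m := by exact_mod_cast hm
  have hbig : (4 * (m + 2) * (K + 1) : ℝ) ≤ n := by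
    have : 4 * (m + 2) * (K + 1) ≤ n := by omega
    exact_mod_cast this
  have hnN1 : (C1 + R * C2) / δ < n := by
    have : (N1 : ℝ) ≤ n := by
      have : N1 ≤ n := by omega
      exact_mod_cast this
    linarith
  have hnN2 : C2 / (1 - D0) < n := by
    have : (N2 : ℝ) ≤ n := by
      have : N2 ≤ n := by omega
      exact_mod_cast this
    linarith
  set ℓ : ℕ := n / m + 1 with hℓ
  have hℓ1 : (n : ℝ) / m ≤ ℓ := by
    rw [div_le_iff₀ hm0]
    have : n < (n / m + 1) * m := by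
      have h2 := Nat.div_add_mod n m
      have h3 := Nat.mod_lt n hm
      nlinarith
    exact_mod_cast this.le
  have hℓ2 : (ℓ : ℝ) ≤ (n : ℝ) / m + 1 := by
    rw [hℓ]; push_cast
    have : ((n / m : ℕ) : ℝ) ≤ (n : ℝ) / m := Nat.cast_div_le
    linarith
  set M : ℕ := ℓ / (K + 1) with hM
  have hKM : (K + 1) * M ≤ ℓ := Nat.mul_div_le ℓ (K + 1)
  have hM1 : 0 < M := by
    apply Nat.div_pos _ (by omega)
    have h1 : m * (K + 1) ≤ n := by omega
    have h2 : K + 1 ≤ n / m := (Nat.le_div_iff_mul_le hm).2 (by rw [mul_comm]; exact h1)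
    omega
  have hM0 : (0 : ℝ) < M := by exact_mod_cast hM1
  have hMlow : (ℓ : ℝ) ≤ 2 * (K + 1) * M := by
    have h1 : ℓ < (K + 1) * (M + 1) := by
      have h2 := Nat.div_add_mod ℓ (K + 1)
      have h3 := Nat.mod_lt ℓ (by omega : 0 < K + 1)
      rw [← hM] at h2
      nlinarith
    have h2 : (K + 1) * (M + 1) ≤ (K + 1) * (2 * M) := Nat.mul_le_mul_left _ (by omega)
    have h3 : ℓ ≤ 2 * (K + 1) * M := by
      calc ℓ ≤ (K + 1) * (2 * M) := (h1.le.trans h2)
        _ = 2 * (K + 1) * M := by ring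
    exact_mod_cast h3
  have hℓR : (0 : ℝ) < ℓ := lt_of_lt_of_le (by positivity) hℓ1
  have hℓpos : 0 < ℓ := by exact_mod_cast hℓR
  have hinvM : 1 / (M : ℝ) ≤ 2 * (K + 1) * m / n := by
    rw [div_le_div_iff₀ hM0 hn0]
    rw [div_le_iff₀ hm0] at hℓ1
    nlinarith
  -- apply the general bound
  set p : Fin N × Fin M → ℝ := fun ω => q ω.1 / M with hp
  set blk : Fin N × Fin M → ℕ → Fin n := fun ω => wordBlock hpos ℓ (w ω.1) (ω.2 : ℕ) with hblk
  have hp0 : ∀ ω, 0 ≤ p ω := fun ω => div_nonneg (hq0 _) hM0.le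
  have hp1 : ∑ ω, p ω = 1 := by
    rw [Fintype.sum_prod_type]
    simp only [hp, sum_const, card_univ, Fintype.card_fin, nsmul_eq_mul]
    have : ∀ i : Fin N, (M : ℝ) * (q i / M) = q i := fun i => by field_simp
    simp_rw [this]
    exact hq1
  have hB : 0 < K * ℓ := Nat.mul_pos hK hℓpos
  have hSbound : ∑ s ∈ range (K * ℓ), ∑ ω, ∑ ω', p ω * p ω' * pAvoid (pairsUp s (blk ω) (blk ω'))
      ≤ n * A + C1 := by
    have e1 : ∑ s ∈ range (K * ℓ), ∑ ω, ∑ ω', p ω * p ω' * pAvoid (pairsUp s (blk ω) (blk ω')) =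
        ∑ ω, ∑ ω', p ω * p ω' * ∑ s ∈ range (K * ℓ), pAvoid (pairsUp s (blk ω) (blk ω')) := by
      rw [Finset.sum_comm]
      refine Finset.sum_congr rfl fun ω _ => ?_
      rw [Finset.sum_comm]
      refine Finset.sum_congr rfl fun ω' _ => ?_
      rw [Finset.mul_sum]
    rw [e1]
    have e2 : ∀ ω ω' : Fin N × Fin M,
        ∑ s ∈ range (K * ℓ), pAvoid (pairsUp s (blk ω) (blk ω')) ≤
        (n * ∑ k ∈ range K, slotCost m (w ω.1) (w ω'.1) k + K * (3 + 2 * E)) +
          (if ω.2 = ω'.2 then (K * ℓ : ℝ) else 0) := by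
      intro ω ω'
      have hg0 : 0 ≤ n * ∑ k ∈ range K, slotCost m (w ω.1) (w ω'.1) k + K * (3 + 2 * E) := by
        have : 0 ≤ ∑ k ∈ range K, slotCost m (w ω.1) (w ω'.1) k :=
          Finset.sum_nonneg fun k _ => hcost0 _ _ k
        positivity
      by_cases h : ω.2 = ω'.2
      · rw [if_pos h]
        have : ∑ s ∈ range (K * ℓ), pAvoid (pairsUp s (blk ω) (blk ω')) ≤
            ∑ s ∈ range (K * ℓ), (1 : ℝ) := Finset.sum_le_sum fun s _ => pAvoid_le_one' _
        rw [sum_const, card_range, nsmul_eq_mul, mul_one] at this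
        push_cast at this
        linarith
      · rw [if_neg h, add_zero]
        exact block_sum hn2 hm ℓ (w ω.1) (w ω'.1) ω.2 ω'.2 hℓ1 hℓ2 (hw _) (hw _) hKM ω.2.2 ω'.2.2
          (fun hh => h (Fin.ext hh)) hbig
    calc ∑ ω, ∑ ω', p ω * p ω' * ∑ s ∈ range (K * ℓ), pAvoid (pairsUp s (blk ω) (blk ω'))
        ≤ ∑ ω : Fin N × Fin M, ∑ ω' : Fin N × Fin M, (q ω.1 / M) * (q ω'.1 / M) *
          ((n * ∑ k ∈ range K, slotCost m (w ω.1) (w ω'.1) k + K * (3 + 2 * E)) +
          (if ω.2 = ω'.2 then (K * ℓ : ℝ) else 0)) := by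
          refine Finset.sum_le_sum fun ω _ => Finset.sum_le_sum fun ω' _ => ?_
          exact mul_le_mul_of_nonneg_left (e2 ω ω') (mul_nonneg (hp0 ω) (hp0 ω'))
      _ = (∑ i, ∑ j, q i * q j * (n * ∑ k ∈ range K, slotCost m (w i) (w j) k +
          K * (3 + 2 * E))) + (K * ℓ : ℝ) / M :=
          avg_formula hM1 q hq1 (fun i j => n * ∑ k ∈ range K, slotCost m (w i) (w j) k +
          K * (3 + 2 * E)) (K * ℓ : ℝ)
      _ ≤ n * A + C1 := by
          have f1 : ∑ i, ∑ j, q i * q j * (n * ∑ k ∈ range K, slotCost m (w i) (w j) k +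
              K * (3 + 2 * E)) = n * A + K * (3 + 2 * E) := by
            have f2 : ∀ i j : Fin N, q i * q j * (n * ∑ k ∈ range K, slotCost m (w i) (w j) k +
              K * (3 + 2 * E)) = n * (q i * q j * ∑ k ∈ range K, slotCost m (w i) (w j) k) +
              (q i * q j) * (K * (3 + 2 * E)) := fun i j => by ring
            simp_rw [f2, Finset.sum_add_distrib, ← Finset.mul_sum, ← Finset.sum_mul,
              ← Finset.mul_sum, hq1, mul_one, hq1, one_mul]
            rfl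
          have f3 : (K * ℓ : ℝ) / M ≤ 2 * (K + 1) * K := by
            rw [div_le_iff₀ hM0]
            have : (0 : ℝ) ≤ K := by positivity
            nlinarith
          rw [f1, hC1]
          linarith
  have hDbound : ∑ ω, ∑ ω', p ω * p ω' * pAvoid (pairsUp (K * ℓ) (blk ω) (blk ω')) ≤
      D0 + C2 / n := by
    have hend0 : ∀ i j, 0 ≤ endProb m (w i) (w j) K := by
      intro i j
      unfold endProb
      exact mul_nonneg (mul_nonneg (fA_nonneg hm _ _ K (hw _)) (fA_nonneg hm _ _ K (hw _)))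
        (fE_pos _ _ _).le
    have e2 : ∀ ω ω' : Fin N × Fin M, pAvoid (pairsUp (K * ℓ) (blk ω) (blk ω')) ≤
        (endProb m (w ω.1) (w ω'.1) K + E / n) + (if ω.2 = ω'.2 then (1 : ℝ) else 0) := by
      intro ω ω'
      have hg0 : 0 ≤ endProb m (w ω.1) (w ω'.1) K + E / n := by
        have := hend0 ω.1 ω'.1
        positivity
      by_cases h : ω.2 = ω'.2
      · rw [if_pos h]
        have := pAvoid_le_one' (pairsUp (K * ℓ) (blk ω) (blk ω'))
        linarith
      · rw [if_neg h, add_zero]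
        exact block_end hn2 hm ℓ (w ω.1) (w ω'.1) ω.2 ω'.2 hℓ1 hℓ2 (hw _) (hw _) hKM ω.2.2 ω'.2.2
          (fun hh => h (Fin.ext hh)) hbig
    calc ∑ ω, ∑ ω', p ω * p ω' * pAvoid (pairsUp (K * ℓ) (blk ω) (blk ω'))
        ≤ ∑ ω : Fin N × Fin M, ∑ ω' : Fin N × Fin M, (q ω.1 / M) * (q ω'.1 / M) *
          ((endProb m (w ω.1) (w ω'.1) K + E / n) + (if ω.2 = ω'.2 then (1 : ℝ) else 0)) := by
          refine Finset.sum_le_sum fun ω _ => Finset.sum_le_sum fun ω' _ => ?_
          exact mul_le_mul_of_nonneg_left (e2 ω ω') (mul_nonneg (hp0 ω) (hp0 ω'))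
      _ = (∑ i, ∑ j, q i * q j * (endProb m (w i) (w j) K + E / n)) + 1 / M :=
          avg_formula hM1 q hq1 (fun i j => endProb m (w i) (w j) K + E / n) 1
      _ ≤ D0 + C2 / n := by
          have f1 : ∑ i, ∑ j, q i * q j * (endProb m (w i) (w j) K + E / n) = D0 + E / n := by
            simp_rw [mul_add, Finset.sum_add_distrib, ← Finset.sum_mul,
              ← Finset.mul_sum, hq1, mul_one, hq1, one_mul]
            rfl
          rw [f1, hC2, add_div]
          linarith
  have hD1 : D0 + C2 / n < 1 := by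
    have h1 : 0 < 1 - D0 := by linarith
    rw [div_lt_iff₀ h1] at hnN2
    have : C2 / n < 1 - D0 := by
      rw [div_lt_iff₀ hn0]; linarith
    linarith
  refine (value_le p hp0 hp1 blk (K * ℓ) hB (n * A + C1) (D0 + C2 / n) hSbound hDbound hD1).trans ?_
  apply ENNReal.ofReal_le_ofReal
  rw [div_le_iff₀ (by linarith)]
  rw [div_lt_iff₀ hδ0] at hnN1
  have g1 : R * n * (1 - (D0 + C2 / n)) = n * (R * (1 - D0)) - R * C2 := by
    field_simp
    ring
  rw [g1]
  have g2 : (n : ℝ) * (R * (1 - D0)) = n * A + n * δ := by rw [hδ]; ring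
  rw [g2]
  linarith

end Pool.Agent.Lib.MP92dd55
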