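import Mathlib
import Pool.Agent.Lib.MP92dd55.UpperWords

/-! # Costs as integer polynomials in `x = exp(-1/m)` -/

namespace Pool.Agent.Lib.MP92dd55

open Finset Real

/-- `m - |seen|` -/
def aN (m : ℕ) (w w' : ℕ → ℕ) (k : ℕ) : ℤ := (m : ℤ) - ((seen w w' k).card : ℤ)

/-- indicator -/
def dl (a b : ℕ) : ℤ := if a = b then 1 else 0

/-- `d`-th coefficient of `2 m³ · slotCost` -/
def slotPoly (m : ℕ) (w w' : ℕ → ℕ) (k d : ℕ) : ℤ :=
  if w k ≠ 0 ∧ w' k ≠ 0 then
    2 * m * aN m w w' k * aN m w' w k * (dl d (both w w' k) - dl d (both w w' k + 1))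
  else if newSeen w w' k = 1 then aN m w' w k * (2 * aN m w w' k - 1) * dl d (both w w' k)
  else if newSeen w' w k = 1 then aN m w w' k * (2 * aN m w' w k - 1) * dl d (both w w' k)
  else 2 * aN m w w' k * aN m w' w k * dl d (both w w' k)

/-- `d`-th coefficient of `2 m³ · endProb` -/
def endPoly (m : ℕ) (w w' : ℕ → ℕ) (k d : ℕ) : ℤ :=
  2 * m * aN m w w' k * aN m w' w k * dl d (both w w' k)

lemma both_le (w w' : ℕ → ℕ) (k : ℕ) : both w w' k ≤ k := by
  unfold both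
  exact (card_filter_le _ _).trans (card_range k).le

lemma sum_dl (K z : ℕ) (hz : z ≤ K) (c : ℝ) (x : ℝ) :
    ∑ d ∈ range (K + 1), c * ((dl d z : ℤ) : ℝ) * x ^ d = c * x ^ z := by
  rw [Finset.sum_eq_single z]
  · simp [dl]
  · intro d _ hd
    simp [dl, hd]
  · intro h
    exact absurd (mem_range.2 (by omega)) h

lemma aN_cast {m : ℕ} (hm : 0 < m) (w w' : ℕ → ℕ) (k : ℕ) :
    ((aN m w w' k : ℤ) : ℝ) = m * fA m w w' k := by
  have hm0 : (0 : ℝ) < m := by exact_mod_cast hm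
  unfold aN fA
  push_cast
  field_simp

lemma fE_pow {m : ℕ} (w w' : ℕ → ℕ) (k : ℕ) :
    fE m w w' k = exp (-(1 / (m : ℝ))) ^ (both w w' k) := by
  unfold fE
  rw [← exp_nat_mul]
  congr 1
  ring

lemma slotPoly_sum {m : ℕ} (hm : 0 < m) (w w' : ℕ → ℕ) (k K : ℕ) (hk : k < K) :
    ∑ d ∈ range (K + 1), ((slotPoly m w w' k d : ℤ) : ℝ) * exp (-(1 / (m : ℝ))) ^ d =
      2 * (m : ℝ) ^ 3 * slotCost m w w' k := by
  have hm0 : (0 : ℝ) < m := by exact_mod_cast hm
  have hz := both_le w w' k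
  set x := exp (-(1 / (m : ℝ))) with hx
  have hA := aN_cast hm w w' k
  have hB := aN_cast hm w' w k
  have hE : fE m w w' k = x ^ (both w w' k) := fE_pow w w' k
  set z := both w w' k with hzz
  unfold slotPoly slotCost
  obtain ⟨A, hAe⟩ : ∃ A, A = fA m w w' k := ⟨_, rfl⟩
  obtain ⟨B, hBe⟩ : ∃ B, B = fA m w' w k := ⟨_, rfl⟩
  rw [← hAe] at hA
  rw [← hBe] at hB
  rw [← hAe, ← hBe, hE]
  split_ifs with h1 h2 h3
  · have h4 : ∀ d ∈ range (K + 1), (((2 * m * aN m w w' k * aN m w' w k *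
        (dl d z - dl d (z + 1)) : ℤ)) : ℝ) * x ^ d =
        (2 * m * (m * A) * (m * B)) * ((dl d z : ℤ) : ℝ) * x ^ d -
        (2 * m * (m * A) * (m * B)) * ((dl d (z + 1) : ℤ) : ℝ) * x ^ d := by
      intro d _
      push_cast
      rw [hA, hB]
      ring
    rw [Finset.sum_congr rfl h4, Finset.sum_sub_distrib, sum_dl K z (by omega),
      sum_dl K (z + 1) (by omega)]
    rw [pow_succ]
    ring
  · have h4 : ∀ d ∈ range (K + 1), (((aN m w' w k * (2 * aN m w w' k - 1) * dl d z : ℤ)) : ℝ) *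
        x ^ d = ((m * B) * (2 * (m * A) - 1)) * ((dl d z : ℤ) : ℝ) * x ^ d := by
      intro d _
      push_cast
      rw [hA, hB]
    rw [Finset.sum_congr rfl h4, sum_dl K z (by omega)]
    field_simp
  · have h4 : ∀ d ∈ range (K + 1), (((aN m w w' k * (2 * aN m w' w k - 1) * dl d z : ℤ)) : ℝ) *
        x ^ d = ((m * A) * (2 * (m * B) - 1)) * ((dl d z : ℤ) : ℝ) * x ^ d := by
      intro d _
      push_cast
      rw [hA, hB]
    rw [Finset.sum_congr rfl h4, sum_dl K z (by omega)]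
    field_simp
  · have h4 : ∀ d ∈ range (K + 1), (((2 * aN m w w' k * aN m w' w k * dl d z : ℤ)) : ℝ) *
        x ^ d = (2 * (m * A) * (m * B)) * ((dl d z : ℤ) : ℝ) * x ^ d := by
      intro d _
      push_cast
      rw [hA, hB]
    rw [Finset.sum_congr rfl h4, sum_dl K z (by omega)]
    field_simp

lemma endPoly_sum {m : ℕ} (hm : 0 < m) (w w' : ℕ → ℕ) (K : ℕ) :
    ∑ d ∈ range (K + 1), ((endPoly m w w' K d : ℤ) : ℝ) * exp (-(1 / (m : ℝ))) ^ d =
      2 * (m : ℝ) ^ 3 * endProb m w w' K := by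
  have hm0 : (0 : ℝ) < m := by exact_mod_cast hm
  have hz := both_le w w' K
  set x := exp (-(1 / (m : ℝ))) with hx
  have hA := aN_cast hm w w' K
  have hB := aN_cast hm w' w K
  have hE : fE m w w' K = x ^ (both w w' K) := fE_pow w w' K
  set z := both w w' K with hzz
  unfold endPoly endProb
  have h4 : ∀ d ∈ range (K + 1), (((2 * m * aN m w w' K * aN m w' w K * dl d z : ℤ)) : ℝ) *
      x ^ d = (2 * m * (m * fA m w w' K) * (m * fA m w' w K)) * ((dl d z : ℤ) : ℝ) * x ^ d := by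
    intro d _
    push_cast
    rw [hA, hB]
  rw [Finset.sum_congr rfl h4, sum_dl K z hz, hE]
  ring

/-- words from lists -/
def wd (l : List ℕ) (k : ℕ) : ℕ := l.getD k 0

end Pool.Agent.Lib.MP92dd55
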