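import Mathlib
import Pool.Agent.Lib.MP92dd55.SlotPoly

/-! # The explicit mixture: 20 words of 8 slots of length `n/2` -/

namespace Pool.Agent.Lib.MP92dd55

open Finset Real

/-- the 20 words -/
def wordList : List (List ℕ) := [[1, 2, 1, 2, 1, 2, 1, 2],
  [0, 0, 1, 2, 2, 1, 1, 2],
  [1, 2, 1, 2, 1, 2, 0, 0],
  [1, 2, 1, 2, 0, 0, 1, 2],
  [1, 2, 0, 0, 1, 2, 2, 1],
  [0, 0, 1, 2, 2, 1, 0, 0],
  [0, 0, 0, 0, 1, 2, 2, 1],
  [0, 0, 1, 2, 0, 0, 1, 2],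
  [1, 2, 0, 0, 1, 2, 0, 0],
  [1, 2, 0, 0, 0, 0, 1, 2],
  [1, 2, 1, 2, 0, 0, 0, 0],
  [1, 2, 1, 0, 0, 2, 0, 2],
  [1, 0, 0, 2, 0, 2, 0, 1],
  [0, 0, 0, 0, 0, 0, 1, 2],
  [0, 0, 0, 0, 1, 2, 0, 0],
  [0, 0, 1, 2, 0, 0, 0, 0],
  [1, 2, 0, 0, 0, 0, 0, 0],
  [1, 0, 0, 2, 0, 1, 2, 0],
  [0, 0, 0, 0, 0, 0, 0, 0],
  [1, 2, 1, 2, 1, 0, 0, 2]]

/-- their weights, in units of `1/10000` -/
def weightList : List ℕ := [3194, 1051, 1047, 1036, 1014, 346, 336, 311, 307, 300, 257, 172, 117, 111, 111, 108, 81, 58, 36, 7]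

/-- the `i`-th word -/
def theWord (i : Fin 20) : ℕ → ℕ := wd (wordList.getD i [])

/-- its weight times 10000 -/
def theWeight (i : Fin 20) : ℕ := weightList.getD i 0

/-- coefficients of the total cost polynomial -/
def tot (d : ℕ) : ℤ := ∑ i : Fin 20, ∑ j : Fin 20, (theWeight i : ℤ) * theWeight j *
  (10000 * (∑ k ∈ range 8, slotPoly 2 (theWord i) (theWord j) k d) +
    8287 * endPoly 2 (theWord i) (theWord j) 8 d)

set_option maxRecDepth 10000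

theorem tot0 : tot 0 = 13952765599232 := by decide +kernel
theorem tot1 : tot 1 = -176229480000 := by decide +kernel
theorem tot2 : tot 2 = -1173909018736 := by decide +kernel
theorem tot3 : tot 3 = -126410166960 := by decide +kernel
theorem tot4 : tot 4 = -729244395072 := by decide +kernel
theorem tot5 : tot 5 = -4433516296 := by decide +kernel
theorem tot6 : tot 6 = -477584276208 := by decide +kernel
theorem tot7 : tot 7 = 0 := by decide +kernel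
theorem tot8 : tot 8 = -279606439488 := by decide +kernel

lemma theWeight_sum : ∑ i, theWeight i = 10000 := by decide +kernel

lemma wd_le (l : List ℕ) (hl : ∀ x ∈ l, x ≤ 2) (k : ℕ) : wd l k ≤ 2 := by
  unfold wd
  rw [List.getD_eq_getElem?_getD]
  rcases h : l[k]? with _ | x
  · simp
  · rw [Option.getD_some]
    exact hl x (List.mem_of_getElem? h)

lemma theWord_le (i : Fin 20) (k : ℕ) : theWord i k ≤ 2 := by
  apply wd_le
  revert i
  decide +kernel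

lemma exp_half_ge : (0.6065306 : ℝ) ≤ exp (-(1 / ((2 : ℕ) : ℝ))) := by
  have h1 : exp (-(1 / ((2 : ℕ) : ℝ))) ^ 2 = (exp 1)⁻¹ := by
    rw [← exp_nat_mul, ← exp_neg]
    congr 1
    norm_num
  have h2 := exp_one_lt_d9
  have h3 : (0.6065306 : ℝ) ^ 2 ≤ exp (-(1 / ((2 : ℕ) : ℝ))) ^ 2 := by
    rw [h1]
    calc (0.6065306 : ℝ) ^ 2 ≤ (2.7182818286 : ℝ)⁻¹ := by norm_num
      _ ≤ (exp 1)⁻¹ := inv_anti₀ (exp_pos _) h2.le
  exact le_of_sq_le_sq h3 (exp_pos _).le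

end Pool.Agent.Lib.MP92dd55
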